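import Pool.Agent.AF23.A1g

/-! Part A1 (all): `exists_good`, `good_of_T`, `Good.T_ne`, `Good.noZero`, `Good.duality`,
`noZero_of_functional`, `Good.jac_ne`, `hsop_induction`. -/
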