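import Pool.Agent.AF23.Basic

/-! Part A1, first half: the determinants `T_D` and goodness. -/

namespace AF23

open MvPolynomial

variable {n δ : ℕ} {K : Type*} [Field K] {f : Fin n → MvPolynomial (Fin n) K}
  {b : (Fin n →₀ ℕ) → MvPolynomial (Fin n) K}

/-- homogeneous components of a product with a homogeneous element -/
lemma homComp_mul {d : ℕ} {h : MvPolynomial (Fin n) K} (hh : h.IsHomogeneous d)
    (p : MvPolynomial (Fin n) K) (D : ℕ) :
    homogeneousComponent (D + d) (h * p) = h * homogeneousComponent D p := by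
  classical
  induction p using MvPolynomial.induction_on' with
  | monomial u a =>
    have h1 : (monomial u a : MvPolynomial (Fin n) K).IsHomogeneous u.degree :=
      isHomogeneous_monomial a rfl
    have h2 : (h * monomial u a).IsHomogeneous (u.degree + d) := by
      rw [add_comm]; exact hh.mul h1
    rw [homogeneousComponent_of_mem h1, homogeneousComponent_of_mem h2]
    by_cases hD : D = u.degree
    · subst hD; simp
    · rw [if_neg hD, if_neg (by omega), mul_zero]
  | add p q hp hq => rw [mul_add, map_add, hp, hq, map_add, mul_add]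

lemma homComp_mul_lt {d : ℕ} {h : MvPolynomial (Fin n) K} (hh : h.IsHomogeneous d)
    (p : MvPolynomial (Fin n) K) {D : ℕ} (hD : D < d) :
    homogeneousComponent D (h * p) = 0 := by
  classical
  induction p using MvPolynomial.induction_on' with
  | monomial u a =>
    have h1 : (monomial u a : MvPolynomial (Fin n) K).IsHomogeneous u.degree :=
      isHomogeneous_monomial a rfl
    rw [homogeneousComponent_of_mem (hh.mul h1), if_neg (by omega)]
  | add p q hp hq => rw [mul_add, map_add, hp, hq, add_zero]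

/-- the span of the `E_α` -/
noncomputable abbrev SpE (δ : ℕ) (f : Fin n → MvPolynomial (Fin n) K)
    (b : (Fin n →₀ ℕ) → MvPolynomial (Fin n) K) : Submodule K (MvPolynomial (Fin n) K) :=
  Submodule.span K (Set.range (Ev δ f b))

lemma mul_mem_SpE (hδ : 0 < δ) (i : Fin n) {x : MvPolynomial (Fin n) K} (hx : x ∈ SpE δ f b) :
    f i * x ∈ SpE δ f b := by
  classical
  refine Submodule.span_induction (p := fun x _ => f i * x ∈ SpE δ f b) ?_ ?_ ?_ ?_ hx
  · rintro _ ⟨α, rfl⟩
    have h1 : Ev δ f b (α + δ • Finsupp.single i 1) = f i * Ev δ f b α := by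
      rw [Ev_add hδ]
      congr 1
      rw [Finset.prod_eq_single i]
      · simp
      · intro j _ hj; simp [hj.symm]
      · simp
    rw [← h1]
    exact Submodule.subset_span ⟨_, rfl⟩
  · simp
  · intro x y _ _ hx hy; rw [mul_add]; exact add_mem hx hy
  · intro c x _ hx; rw [mul_smul_comm]; exact Submodule.smul_mem _ _ hx

/-- homogeneous elements of the span -/
lemma exists_of_mem_SpE (hδ : 0 < δ) (hf : IsTuple δ f)
    (hb : ∀ ν : Fin n →₀ ℕ, (∀ i, ν i < δ) → (b ν).IsHomogeneous ν.degree)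
    {D : ℕ} {x : MvPolynomial (Fin n) K} (hx : x.IsHomogeneous D) (hm : x ∈ SpE δ f b) :
    ∃ c : Mon n D → K, x = ∑ α : Mon n D, c α • Ev δ f b α.1 := by
  classical
  rw [Finsupp.mem_span_range_iff_exists_finsupp] at hm
  obtain ⟨c, hc⟩ := hm
  refine ⟨fun α => c α.1, ?_⟩
  have h1 := congrArg (homogeneousComponent D) hc
  rw [homogeneousComponent_of_mem hx, if_pos rfl, Finsupp.sum, map_sum] at h1
  rw [← h1]
  have h2 : ∀ a ∈ c.support, homogeneousComponent D (c a • Ev δ f b a) =
      if a.degree = D then c a • Ev δ f b a else 0 := by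
    intro a _
    rw [map_smul, homogeneousComponent_of_mem (Ev_isHomogeneous hδ hf hb a)]
    by_cases h : D = a.degree
    · rw [if_pos h, if_pos h.symm]
    · rw [if_neg h, if_neg (Ne.symm h), smul_zero]
  rw [Finset.sum_congr rfl h2, ← Finset.sum_filter]
  have h3 : ∑ α : Mon n D, c α.1 • Ev δ f b α.1 =
      ∑ a ∈ Finset.finsuppAntidiag (Finset.univ : Finset (Fin n)) D, c a • Ev δ f b a := by
    rw [Finset.sum_coe_sort (Finset.finsuppAntidiag (Finset.univ : Finset (Fin n)) D)
      (fun a => c a • Ev δ f b a)]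
  rw [h3]
  refine Finset.sum_subset_zero_on_sdiff ?_ ?_ (fun _ _ => rfl)
  · intro a ha; rw [Finset.mem_filter] at ha; exact mem_Mon.2 ha.2
  · intro a ha
    rw [Finset.mem_sdiff, Finset.mem_filter, mem_Mon] at ha
    have : c a = 0 := by
      by_contra hne
      exact ha.2 ⟨Finsupp.mem_support_iff.2 hne, ha.1⟩
    rw [this, zero_smul]

lemma T_ne_of_span (hδ : 0 < δ) (hf : IsTuple δ f)
    (hb : ∀ ν : Fin n →₀ ℕ, (∀ i, ν i < δ) → (b ν).IsHomogeneous ν.degree)
    (D : ℕ) (h : ∀ β : Mon n D, (monomial β.1 1 : MvPolynomial (Fin n) K) ∈ SpE δ f b) :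
    T δ f b D ≠ 0 := by
  classical
  choose c hc using fun β : Mon n D => exists_of_mem_SpE hδ hf hb
    (isHomogeneous_monomial (1 : K) β.deg) (h β)
  have h1 : (Matrix.of fun β α : Mon n D => c β α) *
      (Matrix.of fun α β : Mon n D => coeff β.1 (Ev δ f b α.1)) = 1 := by
    ext β γ
    rw [Matrix.mul_apply]
    have h2 := congrArg (coeff γ.1) (hc β)
    rw [coeff_monomial, coeff_sum] at h2
    simp only [coeff_smul, smul_eq_mul] at h2
    simp only [Matrix.of_apply]
    rw [← h2, Matrix.one_apply]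
    by_cases hh : β = γ
    · simp [hh]
    · rw [if_neg hh, if_neg (fun h => hh (Subtype.ext h))]
  intro h0
  have h3 := congrArg Matrix.det h1
  rw [Matrix.det_mul, Matrix.det_one] at h3
  unfold T at h0
  rw [h0, mul_zero] at h3
  exact zero_ne_one h3

lemma mem_SpE_of_T {D : ℕ} (hT : T δ f b D ≠ 0)
    (hf : IsTuple δ f) (hδ : 0 < δ)
    (hb : ∀ ν : Fin n →₀ ℕ, (∀ i, ν i < δ) → (b ν).IsHomogeneous ν.degree)
    {x : MvPolynomial (Fin n) K} (hx : x.IsHomogeneous D) :
    ∃ c : Mon n D → K, x = ∑ α : Mon n D, c α • Ev δ f b α.1 := by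
  classical
  set A : Matrix (Mon n D) (Mon n D) K :=
    Matrix.of fun α β : Mon n D => coeff β.1 (Ev δ f b α.1) with hA
  have hdet : IsUnit A.det := isUnit_iff_ne_zero.2 hT
  set v : Mon n D → K := fun β => coeff β.1 x with hv
  refine ⟨Matrix.vecMul v A⁻¹, ?_⟩
  have h1 : Matrix.vecMul (Matrix.vecMul v A⁻¹) A = v := by
    rw [Matrix.vecMul_vecMul, Matrix.nonsing_inv_mul _ hdet, Matrix.vecMul_one]
  ext m
  rw [coeff_sum]
  simp only [coeff_smul, smul_eq_mul]
  by_cases hm : m.degree = D
  · have h2 := congrFun h1 ⟨m, mem_Mon.2 hm⟩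
    simp only [Matrix.vecMul, dotProduct] at h2
    rw [← show v ⟨m, mem_Mon.2 hm⟩ = coeff m x from rfl, ← h2]
    rfl
  · rw [hx.coeff_eq_zero hm]
    symm
    refine Finset.sum_eq_zero fun α _ => ?_
    rw [(Ev_isHomogeneous hδ hf hb α.1).coeff_eq_zero (by rw [α.deg]; exact hm), mul_zero]

lemma mem_SpE_of_T' {D : ℕ} (hT : T δ f b D ≠ 0)
    (hf : IsTuple δ f) (hδ : 0 < δ)
    (hb : ∀ ν : Fin n →₀ ℕ, (∀ i, ν i < δ) → (b ν).IsHomogeneous ν.degree)
    {x : MvPolynomial (Fin n) K} (hx : x.IsHomogeneous D) : x ∈ SpE δ f b := by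
  obtain ⟨c, rfl⟩ := mem_SpE_of_T hT hf hδ hb hx
  exact Submodule.sum_mem _ fun α _ => Submodule.smul_mem _ _ (Submodule.subset_span ⟨_, rfl⟩)

lemma li_of_T (hδ : 0 < δ) (hf : IsTuple δ f)
    (hb : ∀ ν : Fin n →₀ ℕ, (∀ i, ν i < δ) → (b ν).IsHomogeneous ν.degree)
    (hT : ∀ D, T δ f b D ≠ 0) : LinearIndependent K (Ev δ f b) := by
  classical
  rw [linearIndependent_iff']
  intro s g hg i hi
  set D := i.degree with hD
  set A : Matrix (Mon n D) (Mon n D) K :=
    Matrix.of fun α β : Mon n D => coeff β.1 (Ev δ f b α.1) with hA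
  set c : Mon n D → K := fun α => if α.1 ∈ s then g α.1 else 0 with hc
  have h0 : Matrix.vecMul c A = 0 := by
    ext β
    simp only [Matrix.vecMul, dotProduct, hA, Matrix.of_apply, hc, Pi.zero_apply]
    have h1 := congrArg (coeff β.1) hg
    rw [coeff_sum, coeff_zero] at h1
    simp only [coeff_smul, smul_eq_mul] at h1
    refine Eq.trans ?_ h1
    have h3 : ∑ α : Mon n D, (if α.1 ∈ s then g α.1 else 0) * coeff β.1 (Ev δ f b α.1) =
      ∑ a ∈ Finset.finsuppAntidiag (Finset.univ : Finset (Fin n)) D,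
        (if a ∈ s then g a else 0) * coeff β.1 (Ev δ f b a) := by
      rw [Finset.sum_coe_sort (Finset.finsuppAntidiag (Finset.univ : Finset (Fin n)) D)
        (fun a => (if a ∈ s then g a else 0) * coeff β.1 (Ev δ f b a))]
    rw [h3]
    simp only [ite_mul, zero_mul]
    rw [Finset.sum_ite_mem, Finset.inter_comm, ← Finset.sum_ite_mem]
    refine Finset.sum_congr rfl fun a _ => ?_
    split_ifs with h
    · rfl
    · rw [(Ev_isHomogeneous hδ hf hb a).coeff_eq_zero, mul_zero]
      rw [mem_Mon] at h; rw [β.deg]; exact Ne.symm h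
  have h1 := Matrix.eq_zero_of_vecMul_eq_zero (hT D) h0
  have h2 := congrFun h1 ⟨i, mem_Mon.2 rfl⟩
  simpa [hc, hi] using h2

lemma good_of_mem (hδ : 0 < δ) (hf : IsTuple δ f)
    (hb : ∀ ν : Fin n →₀ ℕ, (∀ i, ν i < δ) → (b ν).IsHomogeneous ν.degree)
    (h : ∀ m : Fin n →₀ ℕ, (monomial m 1 : MvPolynomial (Fin n) K) ∈ SpE δ f b) : Good δ f b := by
  refine ⟨hf, hb, li_of_T hδ hf hb fun D => T_ne_of_span hδ hf hb D fun β => h β.1, ?_⟩
  rw [eq_top_iff]
  intro x _
  rw [x.as_sum]
  refine Submodule.sum_mem _ fun m _ => ?_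
  have : (monomial m (coeff m x) : MvPolynomial (Fin n) K) = coeff m x • monomial m 1 := by
    rw [smul_monomial, smul_eq_mul, mul_one]
  rw [this]
  exact Submodule.smul_mem _ _ (h m)

theorem Good.T_ne (hδ : 1 ≤ δ) (G : Good δ f b) (D : ℕ) : T δ f b D ≠ 0 :=
  T_ne_of_span hδ G.fhom G.bhom D fun β => by rw [SpE, G.sp]; trivial

lemma exists_ge_of_degree {α : Fin n →₀ ℕ} (h : n * (δ - 1) < α.degree) :
    ∃ i, δ ≤ α i := by
  by_contra hc
  push Not at hc
  rw [Finsupp.degree_eq_sum] at h
  have : ∑ i, α i ≤ ∑ _i : Fin n, (δ - 1) := Finset.sum_le_sum fun i _ => by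
    have := hc i; omega
  rw [Finset.sum_const, Finset.card_univ, Fintype.card_fin, smul_eq_mul] at this
  omega

/-- `E_α` for `α_i ≥ δ` -/
lemma Ev_of_ge (hδ : 0 < δ) {α : Fin n →₀ ℕ} {i : Fin n} (h : δ ≤ α i) :
    Ev δ f b α = f i * Ev δ f b (α - Finsupp.single i δ) := by
  classical
  have h1 : α = (α - Finsupp.single i δ) + δ • Finsupp.single i 1 := by
    rw [Finsupp.smul_single, smul_eq_mul, mul_one]
    exact (tsub_add_cancel_of_le (Finsupp.single_le_iff.2 h)).symm
  conv_lhs => rw [h1]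
  rw [Ev_add hδ]
  congr 1
  rw [Finset.prod_eq_single i]
  · simp
  · intro j _ hj; simp [hj.symm]
  · simp

theorem good_of_T (hn : 1 ≤ n) (hδ : 1 ≤ δ) (f : Fin n → MvPolynomial (Fin n) K)
    (b : (Fin n →₀ ℕ) → MvPolynomial (Fin n) K) (hf : IsTuple δ f)
    (hb : ∀ ν : Fin n →₀ ℕ, (∀ i, ν i < δ) → (b ν).IsHomogeneous ν.degree)
    (hT : ∀ D ≤ n * δ, T δ f b D ≠ 0) : Good δ f b := by
  classical
  have key : ∀ D, ∀ m : Fin n →₀ ℕ, m.degree = D →
      (monomial m 1 : MvPolynomial (Fin n) K) ∈ SpE δ f b := by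
    intro D
    induction D using Nat.strong_induction_on with
    | _ D ih =>
    intro m hm
    by_cases hD : D ≤ n * δ
    · exact mem_SpE_of_T' (hT D hD) hf hδ hb (isHomogeneous_monomial 1 hm)
    · push Not at hD
      have hall : ∀ D' < D, ∀ x : MvPolynomial (Fin n) K, x.IsHomogeneous D' →
          x ∈ SpE δ f b := by
        intro D' hD' x hx
        rw [x.as_sum]
        refine Submodule.sum_mem _ fun m' hm' => ?_
        have h1 : (monomial m' (coeff m' x) : MvPolynomial (Fin n) K) =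
            coeff m' x • monomial m' 1 := by
          rw [smul_monomial, smul_eq_mul, mul_one]
        rw [h1]
        refine Submodule.smul_mem _ _ (ih D' hD' m' ?_)
        by_contra hne
        exact (mem_support_iff.1 hm') (hx.coeff_eq_zero hne)
      -- choose a variable dividing `m`
      have hne : ∃ i, m i ≠ 0 := by
        by_contra hc
        push Not at hc
        have : m = 0 := Finsupp.ext hc
        rw [this] at hm
        simp at hm
        omega
      obtain ⟨i, hi⟩ := hne
      have hle : Finsupp.single i 1 ≤ m := Finsupp.single_le_iff.2 (Nat.one_le_iff_ne_zero.2 hi)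
      have hm1 : m = Finsupp.single i 1 + (m - Finsupp.single i 1) :=
        (add_tsub_cancel_of_le hle).symm
      have hdeg : (m - Finsupp.single i 1).degree = D - 1 := by
        have := congrArg Finsupp.degree hm1
        rw [map_add, Finsupp.degree_single, hm] at this
        omega
      have hx : (monomial m 1 : MvPolynomial (Fin n) K) =
          X i * monomial (m - Finsupp.single i 1) 1 := by
        conv_lhs => rw [hm1]
        rw [MvPolynomial.X, monomial_mul, one_mul]
      have hmem := ih (D - 1) (by omega) _ hdeg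
      obtain ⟨c, hc⟩ := exists_of_mem_SpE hδ hf hb (isHomogeneous_monomial 1 hdeg) hmem
      rw [hx, hc, Finset.mul_sum]
      refine Submodule.sum_mem _ fun α _ => ?_
      rw [mul_smul_comm]
      refine Submodule.smul_mem _ _ ?_
      have hαd : n * (δ - 1) < α.1.degree := by
        rw [α.deg]
        have : n * (δ - 1) + n = n * δ := by
          obtain ⟨e, rfl⟩ : ∃ e, δ = e + 1 := ⟨δ - 1, by omega⟩
          rw [Nat.add_sub_cancel]; ring
        omega
      obtain ⟨j, hj⟩ := exists_ge_of_degree hαd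
      rw [Ev_of_ge hδ hj, mul_left_comm]
      refine mul_mem_SpE hδ j (hall (D - δ) (by omega) _ ?_)
      have h4 : (α.1 - Finsupp.single j δ).degree + δ = D - 1 := by
        have h5 : α.1 = (α.1 - Finsupp.single j δ) + Finsupp.single j δ :=
          (tsub_add_cancel_of_le (Finsupp.single_le_iff.2 hj)).symm
        have := congrArg Finsupp.degree h5
        rw [map_add, Finsupp.degree_single, α.deg] at this
        omega
      have h6 := (isHomogeneous_X K i).mul
        (Ev_isHomogeneous (f := f) (b := b) hδ hf hb (α.1 - Finsupp.single j δ))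
      have h7 : 1 + (α.1 - Finsupp.single j δ).degree = D - δ := by omega
      rwa [h7] at h6
  exact good_of_mem hδ hf hb fun m => key _ m rfl

lemma Good.mem_ideal_of_degree (hδ : 1 ≤ δ) (G : Good δ f b) {D : ℕ}
    (hD : n * (δ - 1) < D) {x : MvPolynomial (Fin n) K} (hx : x.IsHomogeneous D) :
    x ∈ Ideal.span (Set.range f) := by
  rw [G.sum_co_hom hδ hx]
  refine Submodule.sum_mem _ fun α _ => ?_
  obtain ⟨j, hj⟩ := exists_ge_of_degree (by rw [α.deg]; exact hD : n * (δ - 1) < α.1.degree)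
  rw [Ev_of_ge hδ hj, MvPolynomial.smul_eq_C_mul]
  exact Ideal.mul_mem_left _ _ (Ideal.mul_mem_right _ _ (Ideal.subset_span ⟨j, rfl⟩))

theorem Good.noZero (_hn : 1 ≤ n) (hδ : 1 ≤ δ) (G : Good δ f b) : NoZero f := by
  intro x hx
  ext i
  have h1 : (X i ^ (n * (δ - 1) + 1) : MvPolynomial (Fin n) K).IsHomogeneous
      (n * (δ - 1) + 1) := by
    simpa using (isHomogeneous_X K i).pow (n * (δ - 1) + 1)
  have h2 := G.mem_ideal_of_degree hδ (Nat.lt_succ_self _) h1
  have h3 : Ideal.span (Set.range f) ≤ RingHom.ker (MvPolynomial.eval x) := by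
    rw [Ideal.span_le]
    rintro _ ⟨j, rfl⟩
    exact hx j
  have h4 := h3 h2
  rw [RingHom.mem_ker, map_pow, eval_X] at h4
  simpa using h4

end AF23
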