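import Pool.Agent.AF23.A1a

/-! Part A1, second half: exchange, induction principle, existence of good families. -/

namespace AF23

open MvPolynomial

variable {n δ : ℕ} {K : Type*} [Field K] {f : Fin n → MvPolynomial (Fin n) K}
  {b : (Fin n →₀ ℕ) → MvPolynomial (Fin n) K}

/-- induction for ideals spanned by a part of a tuple -/
lemma span_image_induction {L : Set (Fin n)} {p : MvPolynomial (Fin n) K → Prop}
    (h0 : p 0) (hadd : ∀ x y, p x → p y → p (x + y))
    (hgen : ∀ j ∈ L, ∀ y, p (f j * y)) {x : MvPolynomial (Fin n) K}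
    (hx : x ∈ Ideal.span (f '' L)) : p x := by
  suffices h : ∀ y, p (x * y) by simpa using h 1
  refine Submodule.span_induction (p := fun x _ => ∀ y, p (x * y)) ?_ ?_ ?_ ?_ hx
  · rintro _ ⟨j, hj, rfl⟩ y
    exact hgen j hj y
  · intro y; rw [zero_mul]; exact h0
  · intro x y _ _ hx hy z; rw [add_mul]; exact hadd _ _ (hx z) (hy z)
  · intro a x _ hx y
    have : a • x * y = x * (a * y) := by rw [smul_eq_mul]; ring
    rw [this]; exact hx _

lemma Good.co_mul_of_lt (hδ : 0 < δ) (G : Good δ f b) (i : Fin n) (h : MvPolynomial (Fin n) K)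
    {α : Fin n →₀ ℕ} (hα : α i < δ) : G.co (f i * h) α = 0 := by
  have := G.co_pow_mul hδ i 1 h α
  rw [pow_one, mul_one, if_neg (by omega)] at this
  exact this

lemma Good.co_mul_add (hδ : 0 < δ) (G : Good δ f b) (i : Fin n) (h : MvPolynomial (Fin n) K)
    (α : Fin n →₀ ℕ) : G.co (f i * h) (α + Finsupp.single i δ) = G.co h α := by
  have := G.co_pow_mul hδ i 1 h (α + Finsupp.single i δ)
  rw [pow_one, mul_one, if_pos (by simp)] at this
  rw [this]; simp

lemma Good.mem_span_iff (hδ : 0 < δ) (G : Good δ f b) (L : Set (Fin n))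
    (x : MvPolynomial (Fin n) K) :
    x ∈ Ideal.span (f '' L) ↔
      ∀ α : Fin n →₀ ℕ, (∀ j ∈ L, α j < δ) → G.co x α = 0 := by
  classical
  constructor
  · intro hx
    refine span_image_induction (p := fun x => ∀ α : Fin n →₀ ℕ,
      (∀ j ∈ L, α j < δ) → G.co x α = 0) ?_ ?_ ?_ hx
    · intro α _; exact G.co_zero α
    · intro x y hx hy α hα; rw [G.co_add, hx α hα, hy α hα, add_zero]
    · intro j hj y α hα; exact G.co_mul_of_lt hδ j y (hα j hj)
  · intro h
    rw [G.sum_co x]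
    refine Submodule.sum_mem _ fun α hα => ?_
    have hne : G.co x α ≠ 0 := by
      rw [G.co_eq]; exact Finsupp.mem_support_iff.1 hα
    have : ∃ j ∈ L, δ ≤ α j := by
      by_contra hc
      push Not at hc
      exact hne (h α hc)
    obtain ⟨j, hj, hle⟩ := this
    rw [Ev_of_ge hδ hle, MvPolynomial.smul_eq_C_mul]
    exact Ideal.mul_mem_left _ _ (Ideal.mul_mem_right _ _ (Ideal.subset_span ⟨j, hj, rfl⟩))

/-- `f_i` is a nonzerodivisor modulo the other `f_j` -/
lemma Good.nzd (hδ : 0 < δ) (G : Good δ f b) {L : Set (Fin n)} {i : Fin n} (hi : i ∉ L)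
    {x : MvPolynomial (Fin n) K} (hx : f i * x ∈ Ideal.span (f '' L)) :
    x ∈ Ideal.span (f '' L) := by
  rw [G.mem_span_iff hδ] at hx ⊢
  intro α hα
  rw [← G.co_mul_add hδ i x α]
  apply hx
  intro j hj
  have : i ≠ j := fun h => hi (h ▸ hj)
  rw [Finsupp.add_apply, Finsupp.single_eq_of_ne this.symm, add_zero]
  exact hα j hj

lemma Good.nzd_pow (hδ : 0 < δ) (G : Good δ f b) {L : Set (Fin n)} {i : Fin n} (hi : i ∉ L)
    (M : ℕ) {x : MvPolynomial (Fin n) K} (hx : f i ^ M * x ∈ Ideal.span (f '' L)) :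
    x ∈ Ideal.span (f '' L) := by
  induction M with
  | zero => simpa using hx
  | succ M ih =>
    apply ih
    apply G.nzd hδ hi
    rw [← mul_assoc, ← pow_succ']
    exact hx

/-- the degree `D` piece of an ideal -/
noncomputable def hd (I : Ideal (MvPolynomial (Fin n) K)) (D : ℕ) :
    Submodule K (MvPolynomial (Fin n) K) :=
  I.restrictScalars K ⊓ homogeneousSubmodule (Fin n) K D

lemma mem_hd {I : Ideal (MvPolynomial (Fin n) K)} {D : ℕ} {x : MvPolynomial (Fin n) K} :
    x ∈ hd I D ↔ x ∈ I ∧ x.IsHomogeneous D := Iff.rfl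

instance (D : ℕ) : FiniteDimensional K (homogeneousSubmodule (Fin n) K D) :=
  Module.Finite.iff_fg.2 (homogeneousSubmodule_fg (Fin n) K D)

instance (I : Ideal (MvPolynomial (Fin n) K)) (D : ℕ) : FiniteDimensional K (hd I D) :=
  Submodule.finiteDimensional_of_le (inf_le_right : hd I D ≤ homogeneousSubmodule (Fin n) K D)

/-- homogeneous ideals -/
def HomI (I : Ideal (MvPolynomial (Fin n) K)) : Prop :=
  ∀ x ∈ I, ∀ D, homogeneousComponent D x ∈ I

lemma homI_span (hf : IsTuple δ f) (L : Set (Fin n)) : HomI (Ideal.span (f '' L)) := by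
  intro x hx D
  refine span_image_induction (p := fun x => homogeneousComponent D x ∈ Ideal.span (f '' L))
    ?_ ?_ ?_ hx
  · rw [map_zero]; exact zero_mem _
  · intro x y hx hy; rw [map_add]; exact add_mem hx hy
  · intro j hj y
    by_cases hD : D < δ
    · rw [homComp_mul_lt (hf j) y hD]; exact zero_mem _
    · obtain ⟨e, rfl⟩ : ∃ e, D = e + δ := ⟨D - δ, by omega⟩
      rw [homComp_mul (hf j)]
      exact Ideal.mul_mem_right _ _ (Ideal.subset_span ⟨j, hj, rfl⟩)

lemma mem_sup_span {I : Ideal (MvPolynomial (Fin n) K)} {h x : MvPolynomial (Fin n) K} :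
    x ∈ I ⊔ Ideal.span {h} ↔ ∃ i ∈ I, ∃ y, x = i + h * y := by
  rw [Submodule.mem_sup]
  constructor
  · rintro ⟨i, hi, z, hz, rfl⟩
    obtain ⟨y, rfl⟩ := Ideal.mem_span_singleton'.1 hz
    exact ⟨i, hi, y, by ring⟩
  · rintro ⟨i, hi, y, rfl⟩
    exact ⟨i, hi, h * y, Ideal.mem_span_singleton'.2 ⟨y, by ring⟩, rfl⟩

lemma hd_sup_lt {I : Ideal (MvPolynomial (Fin n) K)} (hI : HomI I) {h : MvPolynomial (Fin n) K}
    (hh : h.IsHomogeneous δ) {D : ℕ} (hD : D < δ) : hd (I ⊔ Ideal.span {h}) D = hd I D := by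
  ext x
  rw [mem_hd, mem_hd]
  constructor
  · rintro ⟨hx, hxD⟩
    obtain ⟨i, hi, y, rfl⟩ := mem_sup_span.1 hx
    refine ⟨?_, hxD⟩
    have h1 : homogeneousComponent D (i + h * y) = i + h * y := by
      rw [homogeneousComponent_of_mem hxD, if_pos rfl]
    rw [← h1, map_add, homComp_mul_lt hh y hD, add_zero]
    exact hI i hi D
  · rintro ⟨hx, hxD⟩
    exact ⟨(le_sup_left : I ≤ _) hx, hxD⟩

lemma hd_sup_eq {I : Ideal (MvPolynomial (Fin n) K)} (hI : HomI I) {h : MvPolynomial (Fin n) K}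
    (hh : h.IsHomogeneous δ) (D : ℕ) : hd (I ⊔ Ideal.span {h}) (D + δ) =
      hd I (D + δ) ⊔ (hd ⊤ D).map (LinearMap.mulLeft K h) := by
  ext x
  rw [mem_hd]
  constructor
  · rintro ⟨hx, hxD⟩
    obtain ⟨i, hi, y, rfl⟩ := mem_sup_span.1 hx
    have h1 : homogeneousComponent (D + δ) (i + h * y) = i + h * y := by
      rw [homogeneousComponent_of_mem hxD, if_pos rfl]
    rw [map_add, homComp_mul hh] at h1
    refine Submodule.mem_sup.2 ⟨_, mem_hd.2 ⟨hI i hi (D + δ), homogeneousComponent_isHomogeneous _ _⟩,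
      h * homogeneousComponent D y, ?_, h1⟩
    exact Submodule.mem_map.2 ⟨homogeneousComponent D y,
      mem_hd.2 ⟨trivial, homogeneousComponent_isHomogeneous _ _⟩, rfl⟩
  · intro hx
    obtain ⟨i, hi, z, hz, rfl⟩ := Submodule.mem_sup.1 hx
    obtain ⟨y, hy, rfl⟩ := Submodule.mem_map.1 hz
    rw [mem_hd] at hi hy
    refine ⟨mem_sup_span.2 ⟨i, hi.1, y, rfl⟩, hi.2.add ?_⟩
    rw [LinearMap.mulLeft_apply, add_comm]
    exact hh.mul hy.2

lemma hd_inf_eq {I : Ideal (MvPolynomial (Fin n) K)} {h : MvPolynomial (Fin n) K}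
    (hh : h.IsHomogeneous δ) (hnz : ∀ x, h * x ∈ I → x ∈ I) (D : ℕ) :
    hd I (D + δ) ⊓ (hd ⊤ D).map (LinearMap.mulLeft K h) =
      (hd I D).map (LinearMap.mulLeft K h) := by
  ext x
  rw [Submodule.mem_inf, mem_hd]
  constructor
  · rintro ⟨hx, hz⟩
    obtain ⟨y, hy, rfl⟩ := Submodule.mem_map.1 hz
    exact Submodule.mem_map.2 ⟨y, mem_hd.2 ⟨hnz y hx.1, hy.2⟩, rfl⟩
  · intro hz
    obtain ⟨y, hy, rfl⟩ := Submodule.mem_map.1 hz
    rw [mem_hd] at hy
    refine ⟨⟨Ideal.mul_mem_left _ _ hy.1, ?_⟩, Submodule.mem_map.2 ⟨y, ⟨trivial, hy.2⟩, rfl⟩⟩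
    rw [LinearMap.mulLeft_apply, add_comm]
    exact hh.mul hy.2

lemma finrank_hd_sup {I : Ideal (MvPolynomial (Fin n) K)} (hI : HomI I) (h1 : (1 : MvPolynomial (Fin n) K) ∉ I)
    {h : MvPolynomial (Fin n) K}
    (hh : h.IsHomogeneous δ) (hnz : ∀ x, h * x ∈ I → x ∈ I) (D : ℕ) :
    Module.finrank K (hd (I ⊔ Ideal.span {h}) (D + δ)) + Module.finrank K (hd I D) =
      Module.finrank K (hd I (D + δ)) + Module.finrank K (hd (⊤ : Ideal (MvPolynomial (Fin n) K)) D) := by
  have hne : h ≠ 0 := by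
    rintro rfl
    exact h1 (hnz 1 (by simp))
  have hinj : Function.Injective (LinearMap.mulLeft K h) := by
    intro x y hxy
    exact mul_left_cancel₀ hne hxy
  have h2 := Submodule.finrank_sup_add_finrank_inf_eq (hd I (D + δ))
    ((hd ⊤ D).map (LinearMap.mulLeft K h))
  rw [← hd_sup_eq hI hh, hd_inf_eq hh hnz] at h2
  rwa [← (Submodule.equivMapOfInjective _ hinj (hd I D)).finrank_eq,
    ← (Submodule.equivMapOfInjective _ hinj (hd ⊤ D)).finrank_eq] at h2

/-- Hilbert function of the complete intersection -/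
abbrev Bx (n δ D : ℕ) : Type := {ν : Mon n D // ∀ i, ν.1 i < δ}

lemma Good.finrank_hd (hδ : 0 < δ) (G : Good δ f b) (D : ℕ) :
    Module.finrank K (hd (Ideal.span (f '' Set.univ)) D) + Fintype.card (Bx n δ D) =
      Module.finrank K (hd (⊤ : Ideal (MvPolynomial (Fin n) K)) D) := by
  classical
  set φ : MvPolynomial (Fin n) K →ₗ[K] (Bx n δ D → K) :=
    LinearMap.pi fun ν => G.coL ν.1.1 with hφ
  set W : Submodule K (MvPolynomial (Fin n) K) := hd ⊤ D with hW
  have h1 := LinearMap.finrank_range_add_finrank_ker (φ.domRestrict W)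
  have h2 : LinearMap.range (φ.domRestrict W) = ⊤ := by
    rw [eq_top_iff]
    intro v _
    refine ⟨⟨∑ ν : Bx n δ D, v ν • Ev δ f b ν.1.1, ?_⟩, ?_⟩
    · refine mem_hd.2 ⟨trivial, ?_⟩
      refine IsHomogeneous.sum _ _ _ fun ν _ => ?_
      rw [MvPolynomial.smul_eq_C_mul]
      have := (isHomogeneous_C (Fin n) (v ν)).mul (G.isHomogeneous_Ev hδ ν.1.1)
      rwa [zero_add, ν.1.deg] at this
    · ext μ
      simp only [LinearMap.domRestrict_apply, hφ, LinearMap.pi_apply, Good.coL_apply, G.co_sum,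
        G.co_smul, G.co_Ev]
      rw [Finset.sum_eq_single μ]
      · simp
      · intro ν _ hν
        rw [if_neg, mul_zero]
        intro h; exact hν (Subtype.ext (Subtype.ext h))
      · simp
  have h3 : LinearMap.ker (φ.domRestrict W) =
      (hd (Ideal.span (f '' Set.univ)) D).comap W.subtype := by
    ext x
    rw [LinearMap.mem_ker, Submodule.mem_comap, mem_hd]
    constructor
    · intro hx
      refine ⟨?_, (mem_hd.1 x.2).2⟩
      change x.1 ∈ _
      rw [G.mem_span_iff hδ]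
      intro α hα
      by_cases hD : α.degree = D
      · have := congrFun hx ⟨⟨α, mem_Mon.2 hD⟩, fun i => hα i trivial⟩
        simpa [hφ] using this
      · exact G.co_eq_zero_of_degree hδ (mem_hd.1 x.2).2 hD
    · rintro ⟨hx, _⟩
      ext ν
      change x.1 ∈ _ at hx
      rw [G.mem_span_iff hδ] at hx
      exact hx _ fun j _ => ν.2 j
  have h4 : hd (Ideal.span (f '' Set.univ)) D ≤ W := fun x hx => ⟨trivial, hx.2⟩
  rw [h2, finrank_top, Module.finrank_fintype_fun_eq_card, h3,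
    (Submodule.comapSubtypeEquivOfLe h4).finrank_eq] at h1
  omega

end AF23
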