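import Pool.Agent.AF23.A1b

/-! Part A1: the induction principle for tuples without common zeros. -/

namespace AF23

open MvPolynomial

variable {n δ : ℕ} {K : Type*} [Field K]

lemma NoZero_iff_update {f : Fin n → MvPolynomial (Fin n) K} {i : Fin n}
    {h : MvPolynomial (Fin n) K} : NoZero (Function.update f i h) ↔
      ∀ x : Fin n → K, eval x h = 0 → (∀ j, j ≠ i → eval x (f j) = 0) → x = 0 := by
  constructor
  · intro H x hx hj
    refine H x fun j => ?_
    by_cases hji : j = i
    · subst hji; simpa using hx
    · rw [Function.update_of_ne hji]; exact hj j hji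
  · intro H x hx
    refine H x (by simpa using hx i) fun j hj => ?_
    have := hx j
    rwa [Function.update_of_ne hj] at this

lemma IsTuple.update {f : Fin n → MvPolynomial (Fin n) K} (hf : IsTuple δ f) (i : Fin n)
    {h : MvPolynomial (Fin n) K} (hh : h.IsHomogeneous δ) : IsTuple δ (Function.update f i h) := by
  intro j
  by_cases hji : j = i
  · subst hji; simpa using hh
  · rw [Function.update_of_ne hji]; exact hf j

/-- substitution `z_j ↦ z_j` for `j < k`, `z_j ↦ 0` otherwise -/
noncomputable def rho (n k : ℕ) (K : Type*) [Field K] :
    MvPolynomial (Fin n) K →ₐ[K] MvPolynomial (Fin k) K :=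
  aeval fun j => if h : j.1 < k then X ⟨j.1, h⟩ else 0

lemma rho_hom {k : ℕ} {p : MvPolynomial (Fin n) K} (hp : p.IsHomogeneous δ) :
    (rho n k K p).IsHomogeneous δ := by
  have := hp.aeval (fun j : Fin n => if h : j.1 < k then (X ⟨j.1, h⟩ : MvPolynomial (Fin k) K) else 0)
    (n := 1) (fun j => by
      split_ifs
      · exact isHomogeneous_X _ _
      · exact isHomogeneous_zero _ _ _)
  rwa [one_mul] at this

lemma eval_rho {k : ℕ} (hk : k ≤ n) {x : Fin n → K} (hx : ∀ j : Fin n, k ≤ j.1 → x j = 0)
    (p : MvPolynomial (Fin n) K) :
    eval (fun l : Fin k => x (Fin.castLE hk l)) (rho n k K p) = eval x p := by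
  have h1 : ((eval (fun l : Fin k => x (Fin.castLE hk l))).comp
      (rho n k K : MvPolynomial (Fin n) K →+* MvPolynomial (Fin k) K)) = eval x := by
    apply MvPolynomial.ringHom_ext
    · intro r; simp
    · intro j
      simp only [rho, RingHom.comp_apply, RingHom.coe_coe, aeval_X, eval_X]
      split_ifs with h
      · rw [eval_X]; rfl
      · rw [map_zero, hx j (by omega)]
  exact congrArg (fun φ : MvPolynomial (Fin n) K →+* K => φ p) h1

/-- `k+1` forms of the same degree in `k` variables satisfy a homogeneous relation -/
lemma exists_relation {k : ℕ} (hδ : 1 ≤ δ) (F : Fin (k + 1) → MvPolynomial (Fin k) K)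
    (hF : ∀ j, (F j).IsHomogeneous δ) :
    ∃ (e : ℕ) (G : MvPolynomial (Fin (k + 1)) K), G.IsHomogeneous e ∧ G ≠ 0 ∧ aeval F G = 0 := by
  classical
  have h1 : ¬ AlgebraicIndependent K F := by
    intro h
    have h2 := h.lift_cardinalMk_le_trdeg
    rw [MvPolynomial.trdeg_of_isDomain] at h2
    simp only [Cardinal.mk_fin, Cardinal.lift_natCast] at h2
    have h3 : k + 1 ≤ k := by exact_mod_cast h2
    omega
  rw [algebraicIndependent_iff] at h1
  push Not at h1
  obtain ⟨G, hG, hne⟩ := h1
  have : ∃ e, homogeneousComponent e G ≠ 0 := by
    by_contra hc
    push Not at hc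
    apply hne
    rw [← sum_homogeneousComponent G]
    exact Finset.sum_eq_zero fun e _ => hc e
  obtain ⟨e, he⟩ := this
  refine ⟨e, homogeneousComponent e G, homogeneousComponent_isHomogeneous _ _, he, ?_⟩
  have hhom : ∀ i, (aeval F (homogeneousComponent i G)).IsHomogeneous (δ * i) := fun i =>
    (homogeneousComponent_isHomogeneous i G).aeval F hF
  have h4 : ∑ i ∈ Finset.range (G.totalDegree + 1), aeval F (homogeneousComponent i G) = 0 := by
    rw [← map_sum, sum_homogeneousComponent, hG]
  have h5 := congrArg (homogeneousComponent (δ * e)) h4
  rw [map_sum, map_zero] at h5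
  by_cases heN : e ∈ Finset.range (G.totalDegree + 1)
  · rw [Finset.sum_eq_single_of_mem e heN] at h5
    · rwa [homogeneousComponent_of_mem (hhom e), if_pos rfl] at h5
    · intro i _ hi
      rw [homogeneousComponent_of_mem (hhom i), if_neg]
      intro h
      exact hi (Nat.eq_of_mul_eq_mul_left (by omega) h.symm)
  · rw [Finset.mem_range, not_lt] at heN
    rw [homogeneousComponent_eq_zero _ _ (by omega), map_zero]

lemma exists_eval_ne [Infinite K] {σ : Type*} [Finite σ] {p : MvPolynomial σ K} (hp : p ≠ 0) :
    ∃ x : σ → K, eval x p ≠ 0 := by
  by_contra hc
  push Not at hc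
  exact hp (MvPolynomial.funext fun x => by rw [hc x, map_zero])

/-- Induction principle for tuples of forms of degree `δ` without common zeros. -/
theorem hsop_induction [Infinite K] (hδ : 1 ≤ δ)
    (P : (Fin n → MvPolynomial (Fin n) K) → Prop)
    (h0 : P fun i => X i ^ δ)
    (hex : ∀ (f : Fin n → MvPolynomial (Fin n) K) (i : Fin n) (h : MvPolynomial (Fin n) K),
      IsTuple δ f → NoZero f → h.IsHomogeneous δ → NoZero (Function.update f i h) → P f →
      P (Function.update f i h))
    (f : Fin n → MvPolynomial (Fin n) K) (hf : IsTuple δ f) (hf0 : NoZero f) : P f := by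
  classical
  have hX : ∀ i : Fin n, (X i ^ δ : MvPolynomial (Fin n) K).IsHomogeneous δ := fun i => by
    simpa using (isHomogeneous_X K i).pow δ
  suffices H : ∀ k, k ≤ n → ∀ f : Fin n → MvPolynomial (Fin n) K, IsTuple δ f → NoZero f →
      (∀ j : Fin n, k ≤ j.1 → f j = X j ^ δ) → P f from
    H n le_rfl f hf hf0 fun j hj => absurd j.2 (by omega)
  intro k
  induction k with
  | zero =>
    intro _ f _ _ h
    have : f = fun i => X i ^ δ := funext fun j => h j (Nat.zero_le _)
    rw [this]; exact h0
  | succ k ih =>
    intro hk f hf hf0 hfX
    set i : Fin n := ⟨k, by omega⟩ with hi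
    -- a homogeneous relation
    obtain ⟨e, G, hGe, hG0, hG⟩ := exists_relation (K := K) hδ
      (fun j : Fin (k + 1) => rho n k K (f (Fin.castLE hk j)))
      (fun j => rho_hom (hf _))
    have hne : G * X (Fin.last k) ≠ 0 := mul_ne_zero hG0 (X_ne_zero _)
    obtain ⟨c, hc⟩ := exists_eval_ne hne
    rw [map_mul, eval_X] at hc
    have hcG : eval c G ≠ 0 := left_ne_zero_of_mul hc
    have hcl : c (Fin.last k) ≠ 0 := right_ne_zero_of_mul hc
    set a : Fin n → K := fun j =>
      if h : j.1 < k then c ⟨j.1, by omega⟩ / c (Fin.last k) else 0 with ha
    have hak : ∀ j : Fin n, k ≤ j.1 → a j = 0 := by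
      intro j hj; simp only [ha]; rw [dif_neg (by omega)]
    -- f'
    set f' : Fin n → MvPolynomial (Fin n) K := fun j => f j - C (a j) * f i with hf'
    have hf'hom : IsTuple δ f' := by
      intro j
      have := (isHomogeneous_C (Fin n) (a j)).mul (hf i)
      rw [zero_add] at this
      exact (hf j).sub this
    have hf'i : f' i = f i := by
      simp only [hf']; rw [hak i le_rfl]; simp
    have hf'0 : NoZero f' := by
      intro x hx
      have hxi : eval x (f i) = 0 := by rw [← hf'i]; exact hx i
      refine hf0 x fun j => ?_
      have := hx j
      simp only [hf', map_sub, map_mul, eval_C, hxi, mul_zero, sub_zero] at this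
      exact this
    -- f''
    have hf''0 : NoZero (Function.update f' i (X i ^ δ)) := by
      rw [NoZero_iff_update]
      intro x hxi hx
      have hxi' : x i = 0 := by
        rw [map_pow, eval_X] at hxi
        exact eq_zero_of_pow_eq_zero hxi
      have hxk : ∀ j : Fin n, k ≤ j.1 → x j = 0 := by
        intro j hj
        by_cases hji : j = i
        · rw [hji]; exact hxi'
        · have h1 := hx j hji
          have h2 : k + 1 ≤ j.1 := by
            have : j.1 ≠ k := fun h => hji (Fin.ext h)
            omega
          simp only [hf'] at h1
          rw [hak j hj, hfX j h2] at h1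
          simp only [map_zero, zero_mul, sub_zero, map_pow, eval_X] at h1
          exact eq_zero_of_pow_eq_zero h1
      -- all the values are proportional to `c`
      have hval : ∀ j : Fin (k + 1), eval x (f (Fin.castLE hk j)) =
          (eval x (f i) / c (Fin.last k)) * c j := by
        intro j
        by_cases hj : j.1 < k
        · have hji : Fin.castLE hk j ≠ i := by
            intro h
            have := congrArg Fin.val h
            simp only [Fin.val_castLE, hi] at this
            omega
          have h1 := hx (Fin.castLE hk j) hji
          simp only [hf', map_sub, map_mul, eval_C, ha, Fin.val_castLE] at h1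
          rw [dif_pos hj] at h1
          have h2 := sub_eq_zero.1 h1
          rw [h2]
          field_simp
        · have hj' : j = Fin.last k := Fin.ext (by simp; omega)
          subst hj'
          have h3 : Fin.castLE hk (Fin.last k) = i := Fin.ext (by simp [hi])
          rw [h3]
          field_simp
      have hrel : eval (fun j : Fin (k + 1) => eval x (f (Fin.castLE hk j))) G = 0 := by
        have h1 := congrArg (eval (fun l : Fin k => x (Fin.castLE (by omega) l))) hG
        rw [map_zero] at h1
        rw [← h1]
        have h2 : ∀ j : Fin (k + 1), eval x (f (Fin.castLE hk j)) =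
            eval (fun l : Fin k => x (Fin.castLE (by omega) l))
              (rho n k K (f (Fin.castLE hk j))) := fun j =>
          (eval_rho (by omega) hxk _).symm
        simp only [h2]
        rw [MvPolynomial.aeval_def, MvPolynomial.eval₂_eq', MvPolynomial.eval_eq', map_sum]
        refine Finset.sum_congr rfl fun d _ => ?_
        rw [map_mul, map_prod]
        simp
      simp only [hval] at hrel
      have h5 : ∀ s : K, eval (fun j => s * c j) G = s ^ e * eval c G := by
        intro s
        rw [MvPolynomial.eval_eq', MvPolynomial.eval_eq', Finset.mul_sum]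
        refine Finset.sum_congr rfl fun d hd => ?_
        have h6 : d.degree = e := by
          by_contra hne
          exact (mem_support_iff.1 hd) (hGe.coeff_eq_zero hne)
        simp only [mul_pow, Finset.prod_mul_distrib]
        rw [Finset.prod_pow_eq_pow_sum, ← Finsupp.degree_eq_sum, h6]
        ring
      rw [h5] at hrel
      have h7 : eval x (f i) / c (Fin.last k) = 0 := by
        rcases mul_eq_zero.1 hrel with h | h
        · exact eq_zero_of_pow_eq_zero h
        · exact absurd h hcG
      have h8 : eval x (f i) = 0 := by
        rcases div_eq_zero_iff.1 h7 with h | h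
        · exact h
        · exact absurd h hcl
      refine hf'0 x fun j => ?_
      by_cases hji : j = i
      · rw [hji, hf'i, h8]
      · exact hx j hji
    have hP'' : P (Function.update f' i (X i ^ δ)) := by
      refine ih (by omega) _ (hf'hom.update i (hX i)) hf''0 ?_
      intro j hj
      by_cases hji : j = i
      · subst hji; simp
      · rw [Function.update_of_ne hji]
        have h2 : k + 1 ≤ j.1 := by
          have : j.1 ≠ k := fun h => hji (Fin.ext h)
          omega
        simp only [hf']
        rw [hak j hj, hfX j h2]
        simp
    have hP' : P f' := by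
      have h1 := hex _ i (f' i) (hf'hom.update i (hX i)) hf''0 (hf'hom i)
        (by rw [Function.update_idem, Function.update_eq_self]; exact hf'0) hP''
      rwa [Function.update_idem, Function.update_eq_self] at h1
    -- back to `f`
    have hback : ∀ m, m ≤ k → P fun j => if j.1 < m then f j else f' j := by
      intro m
      induction m with
      | zero => intro _; simpa using hP'
      | succ m ihm =>
        intro hm
        set g : Fin n → MvPolynomial (Fin n) K := fun j => if j.1 < m then f j else f' j with hg
        have hgi : g i = f i := by simp only [hg]; rw [if_neg (by simp [hi]; omega), hf'i]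
        have hghom : IsTuple δ g := by
          intro j; simp only [hg]; split_ifs
          · exact hf j
          · exact hf'hom j
        have hg0 : ∀ g' : Fin n → MvPolynomial (Fin n) K, g' i = f i →
            (∀ j, g' j = f j ∨ g' j = f' j) → NoZero g' := by
          intro g' hg'i hg' x hx
          have hxi : eval x (f i) = 0 := by rw [← hg'i]; exact hx i
          refine hf0 x fun j => ?_
          rcases hg' j with h | h
          · rw [← h]; exact hx j
          · have := hx j
            rw [h] at this
            simp only [hf', map_sub, map_mul, eval_C, hxi, mul_zero, sub_zero] at this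
            exact this
        have hgor : ∀ j, g j = f j ∨ g j = f' j := by
          intro j; simp only [hg]; split_ifs
          · left; rfl
          · right; rfl
        set t : Fin n := ⟨m, by omega⟩ with ht
        have hupd : (fun j : Fin n => if j.1 < m + 1 then f j else f' j) =
            Function.update g t (f t) := by
          funext j
          by_cases hjt : j = t
          · subst hjt; simp [ht]
          · rw [Function.update_of_ne hjt]
            simp only [hg]
            have : j.1 ≠ m := fun h => hjt (Fin.ext h)
            by_cases hjm : j.1 < m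
            · rw [if_pos hjm, if_pos (by omega)]
            · rw [if_neg hjm, if_neg (by omega)]
        rw [hupd]
        refine hex g t (f t) hghom (hg0 g hgi hgor) (hf t) (hg0 _ ?_ ?_) (ihm (by omega))
        · rw [Function.update_of_ne, hgi]
          intro h
          have := congrArg Fin.val h
          simp only [hi, ht] at this
          omega
        · intro j
          by_cases hjt : j = t
          · subst hjt; left; simp
          · rw [Function.update_of_ne hjt]; exact hgor j
    have hlast := hback k le_rfl
    have : (fun j : Fin n => if j.1 < k then f j else f' j) = f := by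
      funext j
      by_cases hj : j.1 < k
      · rw [if_pos hj]
      · rw [if_neg hj]
        simp only [hf']
        rw [hak j (by omega)]
        simp
    rwa [this] at hlast

end AF23
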