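import Pool.Agent.AF23.A1c

/-! Part A1: existence of good families of monomials. -/

namespace AF23

open MvPolynomial

variable {n δ : ℕ} {K : Type*} [Field K] {f : Fin n → MvPolynomial (Fin n) K}
  {b : (Fin n →₀ ℕ) → MvPolynomial (Fin n) K}

/-- choice of monomials in degree `D` -/
lemma exists_mon (D : ℕ) (I : Ideal (MvPolynomial (Fin n) K))
    (h : Module.finrank K (hd I D) + Fintype.card (Bx n δ D) =
      Module.finrank K (hd (⊤ : Ideal (MvPolynomial (Fin n) K)) D)) :
    ∃ m : Bx n δ D → Mon n D, ∀ x : MvPolynomial (Fin n) K, x.IsHomogeneous D →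
      x ∈ hd I D ⊔ Submodule.span K (Set.range fun ν => (monomial (m ν).1 1 :
        MvPolynomial (Fin n) K)) := by
  classical
  set W : Submodule K (MvPolynomial (Fin n) K) := hd ⊤ D with hW
  set q := (hd I D).mkQ with hq
  set v : Mon n D → (MvPolynomial (Fin n) K ⧸ hd I D) := fun α => q (monomial α.1 1) with hv
  have hspan : Submodule.span K (Set.range v) = W.map q := by
    have h1 : W = Submodule.span K (Set.range fun α : Mon n D =>
        (monomial α.1 1 : MvPolynomial (Fin n) K)) := by
      apply le_antisymm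
      · intro x hx
        have hxD : x.IsHomogeneous D := (mem_hd.1 hx).2
        rw [x.as_sum]
        refine Submodule.sum_mem _ fun m hm => ?_
        have h1 : (monomial m (coeff m x) : MvPolynomial (Fin n) K) =
            coeff m x • monomial m 1 := by
          rw [smul_monomial, smul_eq_mul, mul_one]
        rw [h1]
        refine Submodule.smul_mem _ _ (Submodule.subset_span ?_)
        have hmD : m.degree = D := by
          by_contra hne
          exact (mem_support_iff.1 hm) (hxD.coeff_eq_zero hne)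
        exact ⟨⟨m, mem_Mon.2 hmD⟩, rfl⟩
      · rw [Submodule.span_le]
        rintro _ ⟨α, rfl⟩
        exact mem_hd.2 ⟨trivial, isHomogeneous_monomial _ α.deg⟩
    rw [h1, Submodule.map_span, ← Set.range_comp]
    rfl
  have hfin : Module.finrank K (W.map q) = Fintype.card (Bx n δ D) := by
    have h1 := LinearMap.finrank_range_add_finrank_ker (q.domRestrict W)
    have h2 : LinearMap.range (q.domRestrict W) = W.map q := LinearMap.range_domRestrict _ _
    have h3 : LinearMap.ker (q.domRestrict W) = (hd I D).comap W.subtype := by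
      ext x
      rw [LinearMap.mem_ker, Submodule.mem_comap, LinearMap.domRestrict_apply, hq,
        Submodule.mkQ_apply, Submodule.Quotient.mk_eq_zero]
      rfl
    have h4 : hd I D ≤ W := fun x hx => ⟨trivial, hx.2⟩
    rw [h2, h3, (Submodule.comapSubtypeEquivOfLe h4).finrank_eq] at h1
    omega
  obtain ⟨s, hs, hsp, hli⟩ := exists_linearIndependent K (Set.range v)
  have hsfin : s.Finite := (Set.finite_range v).subset hs
  have : Fintype s := hsfin.fintype
  have hcard : Fintype.card s = Fintype.card (Bx n δ D) := by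
    rw [← hfin, ← hspan, ← hsp]
    have := finrank_span_set_eq_card hli
    rw [this, Set.toFinset_card]
  have e : Bx n δ D ≃ s := Fintype.equivOfCardEq hcard.symm
  choose a ha using fun y : s => hs y.2
  refine ⟨fun ν => a (e ν), fun x hx => ?_⟩
  have hxW : q x ∈ W.map q := Submodule.mem_map.2 ⟨x, mem_hd.2 ⟨trivial, hx⟩, rfl⟩
  rw [← hspan, ← hsp] at hxW
  have h5 : Submodule.span K s = (Submodule.span K (Set.range fun ν : Bx n δ D =>
      (monomial (a (e ν)).1 1 : MvPolynomial (Fin n) K))).map q := by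
    rw [Submodule.map_span, ← Set.range_comp]
    congr 1
    ext y
    constructor
    · intro hy
      refine ⟨e.symm ⟨y, hy⟩, ?_⟩
      simp only [Function.comp_apply, Equiv.apply_symm_apply]
      exact ha ⟨y, hy⟩
    · rintro ⟨ν, rfl⟩
      have := ha (e ν)
      simp only [Function.comp_apply]
      change v (a (e ν)) ∈ s
      rw [this]; exact (e ν).2
  rw [h5] at hxW
  obtain ⟨y, hy, hyx⟩ := Submodule.mem_map.1 hxW
  have h6 : x - y ∈ hd I D := by
    rw [← Submodule.Quotient.mk_eq_zero, Submodule.Quotient.mk_sub]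
    change q x - q y = 0
    rw [hyx, sub_self]
  have : x = (x - y) + y := by ring
  rw [this]
  exact Submodule.add_mem_sup h6 hy

lemma exists_good_of_finrank (hδ : 0 < δ) (hf : IsTuple δ f)
    (h : ∀ D, Module.finrank K (hd (Ideal.span (f '' Set.univ)) D) + Fintype.card (Bx n δ D) =
      Module.finrank K (hd (⊤ : Ideal (MvPolynomial (Fin n) K)) D)) :
    ∃ m : (Fin n →₀ ℕ) → (Fin n →₀ ℕ), Good δ f (fun ν => monomial (m ν) 1) := by
  classical
  choose m hm using fun D => exists_mon D (Ideal.span (f '' Set.univ)) (h D)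
  set m' : (Fin n →₀ ℕ) → (Fin n →₀ ℕ) := fun ν =>
    if hν : ∀ i, ν i < δ then (m ν.degree ⟨⟨ν, mem_Mon.2 rfl⟩, hν⟩).1 else ν with hm'
  have hm'1 : ∀ D (ν : Bx n δ D), m' ν.1.1 = (m D ν).1 := by
    rintro D ⟨⟨ν, hD⟩, hν⟩
    have h1 := mem_Mon.1 hD
    subst h1
    simp only [hm']
    rw [dif_pos hν]
  have hb : ∀ ν : Fin n →₀ ℕ, (∀ i, ν i < δ) →
      (monomial (m' ν) 1 : MvPolynomial (Fin n) K).IsHomogeneous ν.degree := by
    intro ν hν
    have := hm'1 ν.degree ⟨⟨ν, mem_Mon.2 rfl⟩, hν⟩
    dsimp only at this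
    rw [this]
    exact isHomogeneous_monomial _ (Mon.deg _)
  refine ⟨m', good_of_mem hδ hf hb ?_⟩
  have key : ∀ D, ∀ x : MvPolynomial (Fin n) K, x.IsHomogeneous D →
      x ∈ SpE δ f (fun ν => monomial (m' ν) 1) := by
    intro D
    induction D using Nat.strong_induction_on with
    | _ D ih =>
    intro x hx
    obtain ⟨y, hy, z, hz, rfl⟩ := Submodule.mem_sup.1 (hm D x hx)
    refine add_mem ?_ ?_
    · have h1 : homogeneousComponent D y = y := by
        rw [homogeneousComponent_of_mem (mem_hd.1 hy).2, if_pos rfl]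
      rw [← h1]
      refine span_image_induction (f := f) (L := Set.univ)
        (p := fun y => homogeneousComponent D y ∈ SpE δ f (fun ν => monomial (m' ν) 1))
        ?_ ?_ ?_ (mem_hd.1 hy).1
      · rw [map_zero]; exact zero_mem _
      · intro x y hx hy; rw [map_add]; exact add_mem hx hy
      · intro j _ y
        by_cases hD : D < δ
        · rw [homComp_mul_lt (hf j) y hD]; exact zero_mem _
        · obtain ⟨e, rfl⟩ : ∃ e, D = e + δ := ⟨D - δ, by omega⟩
          rw [homComp_mul (hf j)]
          exact mul_mem_SpE hδ j (ih e (by omega) _ (homogeneousComponent_isHomogeneous _ _))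
    · refine Submodule.span_le.2 ?_ hz
      rintro _ ⟨ν, rfl⟩
      refine Submodule.subset_span ⟨ν.1.1, ?_⟩
      rw [Ev_of_lt ν.2, hm'1]
  intro m₀
  exact key _ _ (isHomogeneous_monomial _ rfl)

/-- Nullstellensatz for tuples without common zeros -/
lemma exists_pow_mem [IsAlgClosed K] {g : Fin n → MvPolynomial (Fin n) K} (hg : NoZero g)
    {p : MvPolynomial (Fin n) K} (hp : eval 0 p = 0) :
    ∃ M : ℕ, p ^ M ∈ Ideal.span (Set.range g) := by
  have h1 : p ∈ (Ideal.span (Set.range g)).radical := by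
    rw [← MvPolynomial.vanishingIdeal_zeroLocus_eq_radical (K := K), mem_vanishingIdeal_iff]
    intro x hx
    have : x = 0 := hg x fun i => by
      have := hx (g i) (Ideal.subset_span ⟨i, rfl⟩)
      simpa using this
    rw [this]
    simpa using hp
  exact h1

lemma eval_zero_of_hom (hδ : 1 ≤ δ) {p : MvPolynomial (Fin n) K} (hp : p.IsHomogeneous δ) :
    eval 0 p = 0 := by
  have h1 : eval (0 : Fin n → K) p = coeff 0 p := by
    have := MvPolynomial.eval_zero (σ := Fin n) (R := K)
    rw [this, MvPolynomial.constantCoeff_eq]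
  rw [h1]
  apply hp.coeff_eq_zero
  simp; omega

lemma span_range_update (f : Fin n → MvPolynomial (Fin n) K) (i : Fin n)
    (h : MvPolynomial (Fin n) K) :
    Ideal.span (Set.range (Function.update f i h)) =
      Ideal.span (f '' {i}ᶜ) ⊔ Ideal.span {h} := by
  classical
  apply le_antisymm
  · rw [Ideal.span_le]
    rintro _ ⟨j, rfl⟩
    by_cases hji : j = i
    · subst hji
      rw [Function.update_self]
      exact (le_sup_right : Ideal.span {h} ≤ _) (Ideal.subset_span rfl)
    · rw [Function.update_of_ne hji]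
      exact (le_sup_left : Ideal.span (f '' {i}ᶜ) ≤ _) (Ideal.subset_span ⟨j, hji, rfl⟩)
  · refine sup_le ?_ ?_
    · rw [Ideal.span_le]
      rintro _ ⟨j, hj, rfl⟩
      exact Ideal.subset_span ⟨j, Function.update_of_ne hj _ _⟩
    · rw [Ideal.span_le]
      rintro _ rfl
      exact Ideal.subset_span ⟨i, Function.update_self _ _ _⟩

lemma span_range_eq (f : Fin n → MvPolynomial (Fin n) K) (i : Fin n) :
    Ideal.span (Set.range f) = Ideal.span (f '' {i}ᶜ) ⊔ Ideal.span {f i} := by
  classical
  rw [← span_range_update, Function.update_eq_self]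

/-- if `update f i h` has no common zeros, a power of `f i` is `u h` modulo the others -/
lemma exists_pow_eq [IsAlgClosed K] (hδ : 1 ≤ δ) (hf : IsTuple δ f) {i : Fin n}
    {h : MvPolynomial (Fin n) K} (h0 : NoZero (Function.update f i h)) :
    ∃ (M : ℕ) (u : MvPolynomial (Fin n) K), f i ^ M - h * u ∈ Ideal.span (f '' {i}ᶜ) := by
  obtain ⟨M, hM⟩ := exists_pow_mem h0 (eval_zero_of_hom hδ (hf i))
  rw [span_range_update, mem_sup_span] at hM
  obtain ⟨j, hj, u, hu⟩ := hM
  exact ⟨M, u, by rw [hu]; simpa using hj⟩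

/-- the new element is a nonzerodivisor modulo the others -/
lemma Good.nzd_exchange [IsAlgClosed K] (hδ : 1 ≤ δ) (G : Good δ f b) {i : Fin n}
    {h : MvPolynomial (Fin n) K} (h0 : NoZero (Function.update f i h))
    {x : MvPolynomial (Fin n) K} (hx : h * x ∈ Ideal.span (f '' {i}ᶜ)) :
    x ∈ Ideal.span (f '' {i}ᶜ) := by
  obtain ⟨M, u, hM⟩ := exists_pow_eq hδ G.fhom h0
  apply G.nzd_pow hδ (L := {i}ᶜ) (i := i) (by simp) M
  have : f i ^ M * x = (f i ^ M - h * u) * x + u * (h * x) := by ring
  rw [this]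
  exact add_mem (Ideal.mul_mem_right _ _ hM) (Ideal.mul_mem_left _ _ hx)

lemma one_notMem_span (hδ : 1 ≤ δ) (hf : IsTuple δ f) (L : Set (Fin n)) :
    (1 : MvPolynomial (Fin n) K) ∉ Ideal.span (f '' L) := by
  intro h
  have h3 : Ideal.span (f '' L) ≤ RingHom.ker (MvPolynomial.eval (0 : Fin n → K)) := by
    rw [Ideal.span_le]
    rintro _ ⟨j, _, rfl⟩
    exact eval_zero_of_hom hδ (hf j)
  have h4 := h3 h
  rw [RingHom.mem_ker, map_one] at h4
  exact one_ne_zero h4

lemma Good.exchange [IsAlgClosed K] (hδ : 1 ≤ δ) (G : Good δ f b) {i : Fin n}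
    {h : MvPolynomial (Fin n) K} (hh : h.IsHomogeneous δ)
    (h0 : NoZero (Function.update f i h)) :
    ∃ m : (Fin n →₀ ℕ) → (Fin n →₀ ℕ), Good δ (Function.update f i h)
      (fun ν => monomial (m ν) 1) := by
  apply exists_good_of_finrank hδ (G.fhom.update i hh)
  intro D
  have h1 := G.finrank_hd hδ D
  rw [Set.image_univ, span_range_update]
  rw [Set.image_univ, span_range_eq f i] at h1
  have hI := homI_span G.fhom {i}ᶜ
  have h1n := one_notMem_span hδ G.fhom {i}ᶜ
  by_cases hD : D < δ
  · rw [hd_sup_lt hI hh hD]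
    rwa [hd_sup_lt hI (G.fhom i) hD] at h1
  · obtain ⟨e, rfl⟩ : ∃ e, D = e + δ := ⟨D - δ, by omega⟩
    have h2 := finrank_hd_sup hI h1n hh (fun x hx => G.nzd_exchange hδ h0 hx) e
    have h3 := finrank_hd_sup hI h1n (G.fhom i)
      (fun x hx => G.nzd hδ (by simp : i ∉ ({i}ᶜ : Set (Fin n))) hx) e
    omega

/-- the model tuple -/
lemma good_X (hδ : 0 < δ) : Good δ (fun i => X i ^ δ : Fin n → MvPolynomial (Fin n) K)
    (fun ν => monomial ν 1) := by
  have hEv : ∀ α : Fin n →₀ ℕ, Ev δ (fun i => X i ^ δ : Fin n → MvPolynomial (Fin n) K)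
      (fun ν => monomial ν 1) α = monomial α 1 := by
    intro α
    simp only [Ev]
    have : (∏ i, ((X i : MvPolynomial (Fin n) K) ^ δ) ^ divF δ α i) =
        monomial (δ • divF δ α) 1 := by
      rw [MvPolynomial.monomial_eq, C_1, one_mul, Finsupp.prod_fintype _ _ (fun i => by simp)]
      refine Finset.prod_congr rfl fun i _ => ?_
      rw [← pow_mul]; rfl
    rw [this, monomial_mul, one_mul, modF_add_divF]
  refine good_of_mem hδ (fun i => by simpa using (isHomogeneous_X K i).pow δ)
    (fun ν _ => isHomogeneous_monomial _ rfl) fun m => ?_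
  exact Submodule.subset_span ⟨m, hEv m⟩

theorem exists_good [IsAlgClosed K] (_hn : 1 ≤ n) (hδ : 1 ≤ δ)
    (f : Fin n → MvPolynomial (Fin n) K) (hf : IsTuple δ f) (h0 : NoZero f) :
    ∃ m : (Fin n →₀ ℕ) → (Fin n →₀ ℕ), Good δ f (fun ν => monomial (m ν) 1) := by
  have : Infinite K := IsAlgClosed.instInfinite
  refine hsop_induction hδ (fun f => ∃ m : (Fin n →₀ ℕ) → (Fin n →₀ ℕ),
    Good δ f (fun ν => monomial (m ν) 1)) ⟨id, good_X hδ⟩ ?_ f hf h0
  rintro f i h _ _ hh h0 ⟨m, G⟩
  exact G.exchange hδ hh h0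

end AF23
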