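import Pool.Agent.AF23.A1d

/-! Part A1: Gorenstein duality. -/

namespace AF23

open MvPolynomial

variable {n δ : ℕ} {K : Type*} [Field K] {f : Fin n → MvPolynomial (Fin n) K}
  {b : (Fin n →₀ ℕ) → MvPolynomial (Fin n) K}

/-- there is a nondegenerate functional, homogeneous of degree `n(δ-1)` -/
def Dual (δ : ℕ) (f : Fin n → MvPolynomial (Fin n) K) : Prop :=
  ∃ φ : MvPolynomial (Fin n) K →ₗ[K] K, (∀ x ∈ Ideal.span (Set.range f), φ x = 0) ∧
    (∀ (D : ℕ) (x : MvPolynomial (Fin n) K), x.IsHomogeneous D → D ≠ n * (δ - 1) → φ x = 0) ∧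
    ∀ x, (∀ y, φ (x * y) = 0) → x ∈ Ideal.span (Set.range f)

lemma top_degree_A1 (n δ : ℕ) : (top n δ).degree = n * (δ - 1) := by
  rw [Finsupp.degree_eq_sum]; simp [top]

lemma top_apply (n δ : ℕ) (i : Fin n) : top n δ i = δ - 1 := rfl

lemma top_lt (hδ : 0 < δ) (i : Fin n) : top n δ i < δ := by rw [top_apply]; omega

lemma eq_top_of {α : Fin n →₀ ℕ} (h : ∀ i, α i < δ) (hd : α.degree = n * (δ - 1)) :
    α = top n δ := by
  have h1 : ∀ i ∈ (Finset.univ : Finset (Fin n)), α i ≤ δ - 1 := fun i _ => by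
    have := h i; omega
  have h2 : ∑ i, α i = ∑ _i : Fin n, (δ - 1) := by
    rw [← Finsupp.degree_eq_sum, hd]; simp
  have h3 := (Finset.sum_eq_sum_iff_of_le h1).1 h2
  ext i
  rw [h3 i (Finset.mem_univ i), top_apply]

lemma Good.mem_span_range_iff (hδ : 0 < δ) (G : Good δ f b) (x : MvPolynomial (Fin n) K) :
    x ∈ Ideal.span (Set.range f) ↔ ∀ α : Fin n →₀ ℕ, (∀ j, α j < δ) → G.co x α = 0 := by
  rw [← Set.image_univ, G.mem_span_iff hδ]
  constructor
  · intro h α hα; exact h α fun j _ => hα j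
  · intro h α hα; exact h α fun j => hα j trivial

lemma Ev_X (α : Fin n →₀ ℕ) : Ev δ (fun i => X i ^ δ : Fin n → MvPolynomial (Fin n) K)
      (fun ν => monomial ν 1) α = monomial α 1 := by
  simp only [Ev]
  have : (∏ i, ((X i : MvPolynomial (Fin n) K) ^ δ) ^ divF δ α i) =
      monomial (δ • divF δ α) 1 := by
    rw [MvPolynomial.monomial_eq, C_1, one_mul, Finsupp.prod_fintype _ _ (fun i => by simp)]
    refine Finset.prod_congr rfl fun i _ => ?_
    rw [← pow_mul]; rfl
  rw [this, monomial_mul, one_mul, modF_add_divF]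

lemma co_X (hδ : 0 < δ) (x : MvPolynomial (Fin n) K) (α : Fin n →₀ ℕ) :
    (good_X (n := n) (K := K) hδ).co x α = coeff α x := by
  classical
  set G := good_X (n := n) (K := K) hδ with hG
  conv_rhs => rw [G.sum_co x]
  rw [coeff_sum]
  simp only [coeff_smul, Ev_X, coeff_monomial, smul_eq_mul]
  by_cases hm : α ∈ (G.basis.repr x).support
  · rw [Finset.sum_eq_single_of_mem _ hm]
    · simp
    · intro γ _ hγ; simp [hγ]
  · have h0 : G.co x α = 0 := by rw [G.co_eq]; exact Finsupp.notMem_support_iff.1 hm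
    rw [h0]
    symm
    refine Finset.sum_eq_zero fun γ hγ => ?_
    rw [if_neg, mul_zero]
    intro h; exact hm (h ▸ hγ)

lemma dual_X (hδ : 0 < δ) : Dual δ (fun i => X i ^ δ : Fin n → MvPolynomial (Fin n) K) := by
  set G := good_X (n := n) (K := K) hδ with hG
  refine ⟨G.coL (top n δ), ?_, ?_, ?_⟩
  · intro x hx
    exact (G.mem_span_range_iff hδ x).1 hx _ (top_lt hδ)
  · intro D x hx hD
    exact G.co_eq_zero_of_degree hδ hx (by rw [top_degree_A1]; exact Ne.symm hD)
  · intro x hx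
    rw [G.mem_span_range_iff hδ]
    intro α hα
    have hle : α ≤ top n δ := fun i => by
      have := hα i; rw [top_apply]; omega
    have h1 := hx (monomial (top n δ - α) 1)
    rw [Good.coL_apply, hG, co_X hδ] at h1
    have h2 : top n δ = α + (top n δ - α) := (add_tsub_cancel_of_le hle).symm
    conv at h1 => lhs; rw [h2]
    simp only [add_tsub_cancel_left] at h1
    rw [coeff_mul_monomial, mul_one] at h1
    rw [hG, co_X hδ]
    exact h1

/-- refined form of `exists_pow_eq` with homogeneous cofactor -/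
lemma exists_pow_eq' [IsAlgClosed K] (hδ : 1 ≤ δ) (hf : IsTuple δ f) {i : Fin n}
    {h : MvPolynomial (Fin n) K} (hh : h.IsHomogeneous δ)
    (h0 : NoZero (Function.update f i h)) :
    ∃ (M : ℕ) (u : MvPolynomial (Fin n) K), u.IsHomogeneous (δ * M) ∧
      f i ^ (M + 1) - h * u ∈ Ideal.span (f '' {i}ᶜ) := by
  obtain ⟨M, u, hM⟩ := exists_pow_eq hδ hf h0
  have h1 : f i ^ (M + 1) - h * (u * f i) ∈ Ideal.span (f '' {i}ᶜ) := by
    have : f i ^ (M + 1) - h * (u * f i) = f i * (f i ^ M - h * u) := by ring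
    rw [this]
    exact Ideal.mul_mem_left _ _ hM
  refine ⟨M, homogeneousComponent (δ * M) (u * f i), homogeneousComponent_isHomogeneous _ _, ?_⟩
  have h2 := homI_span hf {i}ᶜ _ h1 (δ * M + δ)
  rw [map_sub, homComp_mul hh] at h2
  have h3 : (f i ^ (M + 1)).IsHomogeneous (δ * M + δ) := by
    have := (hf i).pow (M + 1)
    rwa [mul_add, mul_one] at this
  rwa [homogeneousComponent_of_mem h3, if_pos rfl] at h2

section psi
variable (G : Good δ f b) (φ : MvPolynomial (Fin n) K →ₗ[K] K) (i : Fin n) (M : ℕ)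

/-- extension of a functional on `S/(f)` to `S/(f_j, f_i^{M+1})` -/
noncomputable def psi : MvPolynomial (Fin n) K →ₗ[K] K :=
  G.basis.constr K fun α => if δ * M ≤ α i then
    φ (Ev δ f b (α - Finsupp.single i (δ * M))) else 0

lemma psi_Ev (α : Fin n →₀ ℕ) : psi G φ i M (Ev δ f b α) =
    if δ * M ≤ α i then φ (Ev δ f b (α - Finsupp.single i (δ * M))) else 0 := by
  unfold psi
  rw [← G.basis_apply, Module.Basis.constr_basis]

lemma Ev_add_single (hδ : 0 < δ) (α : Fin n →₀ ℕ) (j : Fin n) (M : ℕ) :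
    Ev δ f b (α + Finsupp.single j (δ * M)) = f j ^ M * Ev δ f b α := by
  classical
  have h1 : δ • (Finsupp.single j M : Fin n →₀ ℕ) = Finsupp.single j (δ * M) := by
    simp [Finsupp.smul_single]
  rw [← h1, Ev_add hδ]
  congr 1
  rw [Finset.prod_eq_single j]
  · simp
  · intro k _ hk; simp [hk.symm]
  · simp

lemma psi_pow_mul (hδ : 0 < δ) (x : MvPolynomial (Fin n) K) :
    psi G φ i M (f i ^ M * x) = φ x := by
  have h : (psi G φ i M).comp (LinearMap.mulLeft K (f i ^ M)) = φ := by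
    apply G.basis.ext
    intro α
    rw [LinearMap.comp_apply, LinearMap.mulLeft_apply, G.basis_apply, ← Ev_add_single hδ, psi_Ev,
      if_pos (by simp)]
    simp
  exact congrArg (fun l => l x) h

lemma psi_mul (hδ : 0 < δ) (hφ : ∀ x ∈ Ideal.span (Set.range f), φ x = 0) {j : Fin n}
    (hj : j ≠ i) (x : MvPolynomial (Fin n) K) : psi G φ i M (f j * x) = 0 := by
  have h : (psi G φ i M).comp (LinearMap.mulLeft K (f j)) = 0 := by
    apply G.basis.ext
    intro α
    have h1 := Ev_add_single (f := f) (b := b) hδ α j 1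
    rw [pow_one, mul_one] at h1
    rw [LinearMap.comp_apply, LinearMap.mulLeft_apply, G.basis_apply, ← h1, psi_Ev,
      LinearMap.zero_apply]
    split_ifs
    · apply hφ
      have h2 : δ ≤ (α + Finsupp.single j δ - Finsupp.single i (δ * M)) j := by
        rw [Finsupp.tsub_apply, Finsupp.add_apply, Finsupp.single_eq_same,
          Finsupp.single_eq_of_ne hj]
        omega
      rw [Ev_of_ge hδ h2]
      exact Ideal.mul_mem_right _ _ (Ideal.subset_span ⟨j, rfl⟩)
    · rfl
  exact congrArg (fun l => l x) h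

lemma psi_hom (hδ : 0 < δ)
    (hφ : ∀ (D : ℕ) (x : MvPolynomial (Fin n) K), x.IsHomogeneous D → D ≠ n * (δ - 1) → φ x = 0)
    {D : ℕ} {x : MvPolynomial (Fin n) K} (hx : x.IsHomogeneous D)
    (hD : D ≠ n * (δ - 1) + δ * M) : psi G φ i M x = 0 := by
  rw [G.sum_co_hom hδ hx, map_sum]
  refine Finset.sum_eq_zero fun α _ => ?_
  rw [map_smul, psi_Ev]
  split_ifs with h
  · rw [hφ _ _ (G.isHomogeneous_Ev hδ _), smul_zero]
    intro h1
    apply hD
    have h2 : α.1 = (α.1 - Finsupp.single i (δ * M)) + Finsupp.single i (δ * M) :=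
      (tsub_add_cancel_of_le (Finsupp.single_le_iff.2 h)).symm
    have := congrArg Finsupp.degree h2
    rw [map_add, Finsupp.degree_single, α.deg, h1] at this
    exact this
  · rw [smul_zero]

end psi

lemma Dual.exchange [IsAlgClosed K] (hδ : 1 ≤ δ) (G : Good δ f b) {i : Fin n}
    {h : MvPolynomial (Fin n) K} (hh : h.IsHomogeneous δ)
    (h0 : NoZero (Function.update f i h)) (hd : Dual δ f) : Dual δ (Function.update f i h) := by
  obtain ⟨φ, hφ1, hφ2, hφ3⟩ := hd
  obtain ⟨M, u, hu, hM⟩ := exists_pow_eq' hδ G.fhom hh h0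
  have hiJ : i ∉ ({i}ᶜ : Set (Fin n)) := by simp
  -- properties of `ψ`
  have hψJ : ∀ x ∈ Ideal.span (f '' {i}ᶜ), psi G φ i M x = 0 := by
    intro x hx
    refine span_image_induction (p := fun x => psi G φ i M x = 0) (map_zero _) ?_ ?_ hx
    · intro x y hx hy; rw [map_add, hx, hy, add_zero]
    · intro j hj y; exact psi_mul G φ i M hδ hφ1 hj y
  have hψ0 : ∀ x, psi G φ i M (f i ^ (M + 1) * x) = 0 := by
    intro x
    rw [pow_succ, mul_assoc, psi_pow_mul G φ i M hδ]
    exact hφ1 _ (Ideal.mul_mem_right _ _ (Ideal.subset_span ⟨i, rfl⟩))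
  have hψ3 : ∀ x, (∀ y, psi G φ i M (x * y) = 0) →
      ∀ k ≤ M + 1, ∃ w, x - f i ^ k * w ∈ Ideal.span (f '' {i}ᶜ) := by
    intro x hx k
    induction k with
    | zero => intro _; exact ⟨x, by simp⟩
    | succ k ih =>
      intro hk
      obtain ⟨w, hw⟩ := ih (by omega)
      have hwf : w ∈ Ideal.span (Set.range f) := by
        apply hφ3
        intro y
        rw [← psi_pow_mul G φ i M hδ]
        have h1 : f i ^ M * (w * y) = x * (f i ^ (M - k) * y) -
            (x - f i ^ k * w) * (f i ^ (M - k) * y) := by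
          have : f i ^ M = f i ^ k * f i ^ (M - k) := by
            rw [← pow_add]; congr 1; omega
          rw [this]; ring
        rw [h1, map_sub, hx, hψJ _ (Ideal.mul_mem_right _ _ hw), sub_zero]
      rw [span_range_eq f i, mem_sup_span] at hwf
      obtain ⟨j, hj, w', rfl⟩ := hwf
      refine ⟨w', ?_⟩
      have : x - f i ^ (k + 1) * w' = (x - f i ^ k * (j + f i * w')) + f i ^ k * j := by ring
      rw [this]
      exact add_mem hw (Ideal.mul_mem_left _ _ hj)
  refine ⟨(psi G φ i M).comp (LinearMap.mulLeft K u), ?_, ?_, ?_⟩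
  · intro x hx
    rw [span_range_update, mem_sup_span] at hx
    obtain ⟨j, hj, w, rfl⟩ := hx
    rw [LinearMap.comp_apply, LinearMap.mulLeft_apply]
    have : u * (j + h * w) = u * j + f i ^ (M + 1) * w - (f i ^ (M + 1) - h * u) * w := by ring
    rw [this, map_sub, map_add, hψJ _ (Ideal.mul_mem_left _ _ hj), hψ0,
      hψJ _ (Ideal.mul_mem_right _ _ hM), add_zero, sub_zero]
  · intro D x hx hD
    rw [LinearMap.comp_apply, LinearMap.mulLeft_apply]
    refine psi_hom G φ i M hδ hφ2 (hu.mul hx) ?_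
    omega
  · intro x hx
    obtain ⟨w, hw⟩ := hψ3 (u * x) (fun y => by
      have := hx y
      rwa [LinearMap.comp_apply, LinearMap.mulLeft_apply, ← mul_assoc] at this) (M + 1) le_rfl
    rw [span_range_update, mem_sup_span]
    have h1 : u * (x - h * w) ∈ Ideal.span (f '' {i}ᶜ) := by
      have : u * (x - h * w) = (u * x - f i ^ (M + 1) * w) + (f i ^ (M + 1) - h * u) * w := by
        ring
      rw [this]
      exact add_mem hw (Ideal.mul_mem_right _ _ hM)
    have h2 : x - h * w ∈ Ideal.span (f '' {i}ᶜ) := by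
      apply G.nzd_pow hδ hiJ (M + 1)
      have : f i ^ (M + 1) * (x - h * w) = (f i ^ (M + 1) - h * u) * (x - h * w) +
          h * (u * (x - h * w)) := by ring
      rw [this]
      exact add_mem (Ideal.mul_mem_right _ _ hM) (Ideal.mul_mem_left _ _ h1)
    exact ⟨_, h2, w, by ring⟩

theorem dual_of_noZero [IsAlgClosed K] (hn : 1 ≤ n) (hδ : 1 ≤ δ)
    (f : Fin n → MvPolynomial (Fin n) K) (hf : IsTuple δ f) (h0 : NoZero f) : Dual δ f := by
  have : Infinite K := IsAlgClosed.instInfinite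
  refine hsop_induction hδ (Dual δ) (dual_X hδ) ?_ f hf h0
  intro f i h hf hf0 hh h0 hd
  obtain ⟨m, G⟩ := exists_good hn hδ f hf hf0
  exact hd.exchange hδ G hh h0

theorem Good.duality [IsAlgClosed K] (hn : 1 ≤ n) (hδ : 1 ≤ δ)
    {f : Fin n → MvPolynomial (Fin n) K}
    {b : (Fin n →₀ ℕ) → MvPolynomial (Fin n) K} (G : Good δ f b) (j : ℕ) (hj : j ≤ n * (δ - 1))
    (c : MvPolynomial (Fin n) K) (hc : c.IsHomogeneous j)
    (h : ∀ u : MvPolynomial (Fin n) K, u.IsHomogeneous (n * (δ - 1) - j) →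
      G.co (c * u) (top n δ) = 0) : c ∈ Ideal.span (Set.range f) := by
  classical
  obtain ⟨φ, hφ1, hφ2, hφ3⟩ := dual_of_noZero hn hδ f G.fhom (G.noZero hn hδ)
  apply hφ3
  intro y
  rw [← sum_homogeneousComponent y, Finset.mul_sum, map_sum]
  refine Finset.sum_eq_zero fun D _ => ?_
  set u := homogeneousComponent D y with hu
  have huD : u.IsHomogeneous D := homogeneousComponent_isHomogeneous _ _
  by_cases hD : j + D = n * (δ - 1)
  · have hx : (c * u).IsHomogeneous (n * (δ - 1)) := by rw [← hD]; exact hc.mul huD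
    have h1 : G.co (c * u) (top n δ) = 0 := h u (by
      have : n * (δ - 1) - j = D := by omega
      rw [this]; exact huD)
    rw [G.sum_co_hom hδ hx, map_sum]
    refine Finset.sum_eq_zero fun α _ => ?_
    rw [map_smul]
    by_cases hα : ∀ i, α.1 i < δ
    · rw [eq_top_of hα α.deg, h1, zero_smul]
    · push Not at hα
      obtain ⟨i, hi⟩ := hα
      rw [Ev_of_ge hδ hi, hφ1 _ (Ideal.mul_mem_right _ _ (Ideal.subset_span ⟨i, rfl⟩)), smul_zero]
  · exact hφ2 _ _ (hc.mul huD) hD

end AF23
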