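import Pool.Agent.AF23.A1e

/-! Part A1: the Jacobian. -/

namespace AF23

open MvPolynomial

variable {n δ : ℕ} {K : Type*} [Field K] {f : Fin n → MvPolynomial (Fin n) K}
  {b : (Fin n →₀ ℕ) → MvPolynomial (Fin n) K}

/-- representation of elements of a span -/
lemma exists_coeffs {i : Fin n} {x : MvPolynomial (Fin n) K}
    (hx : x ∈ Ideal.span (f '' {i}ᶜ)) :
    ∃ w : Fin n → MvPolynomial (Fin n) K, w i = 0 ∧ x = ∑ j, w j * f j := by
  classical
  refine span_image_induction (p := fun x => ∃ w : Fin n → MvPolynomial (Fin n) K,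
    w i = 0 ∧ x = ∑ j, w j * f j) ⟨0, rfl, by simp⟩ ?_ ?_ hx
  · rintro x y ⟨w, hw, rfl⟩ ⟨v, hv, rfl⟩
    exact ⟨w + v, by simp [hw, hv], by simp [add_mul, Finset.sum_add_distrib]⟩
  · intro j hj y
    refine ⟨Pi.single j y, Pi.single_eq_of_ne (Ne.symm hj) _, ?_⟩
    rw [Finset.sum_eq_single j]
    · simp [mul_comm]
    · intro k _ hk; simp [hk]
    · simp

/-- a homogeneous form of positive degree is a combination of the variables -/
lemma exists_row (hδ : 1 ≤ δ) {h : MvPolynomial (Fin n) K} (hh : h.IsHomogeneous δ) :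
    ∃ r : Fin n → MvPolynomial (Fin n) K, ∑ j, r j * X j = h := by
  classical
  suffices H : ∀ (s : Finset (Fin n →₀ ℕ)) (c : (Fin n →₀ ℕ) → K), (∀ m ∈ s, m.degree = δ) →
      ∃ r : Fin n → MvPolynomial (Fin n) K, ∑ j, r j * X j = ∑ m ∈ s, monomial m (c m) by
    obtain ⟨r, hr⟩ := H h.support (fun m => coeff m h) (fun m hm => by
      by_contra hne
      exact (mem_support_iff.1 hm) (hh.coeff_eq_zero hne))
    exact ⟨r, by rw [hr]; exact (h.as_sum).symm⟩
  intro s c
  induction s using Finset.induction_on with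
  | empty => intro _; exact ⟨0, by simp⟩
  | insert m s hm ih =>
    intro hs
    obtain ⟨r, hr⟩ := ih fun m' hm' => hs m' (Finset.mem_insert_of_mem hm')
    have hmd := hs m (Finset.mem_insert_self _ _)
    have hne : ∃ i, m i ≠ 0 := by
      by_contra hc
      push Not at hc
      have : m = 0 := Finsupp.ext hc
      rw [this] at hmd
      simp at hmd
      omega
    obtain ⟨i, hi⟩ := hne
    have hle : Finsupp.single i 1 ≤ m := Finsupp.single_le_iff.2 (Nat.one_le_iff_ne_zero.2 hi)
    refine ⟨r + Pi.single i (monomial (m - Finsupp.single i 1) (c m)), ?_⟩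
    rw [Finset.sum_insert hm, ← hr]
    simp only [Pi.add_apply, add_mul, Finset.sum_add_distrib]
    rw [add_comm]
    congr 1
    rw [Finset.sum_eq_single i]
    · rw [Pi.single_eq_same, MvPolynomial.X, monomial_mul, mul_one, tsub_add_cancel_of_le hle]
    · intro k _ hk; simp [hk]
    · simp

/-- row times the vector of variables, as a linear map -/
noncomputable def dotX : (Fin n → MvPolynomial (Fin n) K) →ₗ[MvPolynomial (Fin n) K]
    MvPolynomial (Fin n) K := Fintype.linearCombination (MvPolynomial (Fin n) K) X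

lemma dotX_apply (r : Fin n → MvPolynomial (Fin n) K) : dotX r = ∑ l, r l * X l := by
  simp [dotX, Fintype.linearCombination_apply]

/-- rows: `(B z)_j ∈ I` for all `j` implies `z_k det B ∈ I` -/
lemma X_mul_det_mem {I : Ideal (MvPolynomial (Fin n) K)}
    (B : Matrix (Fin n) (Fin n) (MvPolynomial (Fin n) K))
    (hB : ∀ j, ∑ l, B j l * X l ∈ I) (k : Fin n) : X k * B.det ∈ I := by
  have h1 : (B.adjugate * B).mulVec X = fun k => B.det * X k := by
    rw [Matrix.adjugate_mul]
    ext1 k
    simp [Matrix.mulVec, dotProduct, Matrix.one_apply]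
  have h2 : (B.adjugate * B).mulVec X k = ∑ j, B.adjugate k j * ∑ l, B j l * X l := by
    rw [← Matrix.mulVec_mulVec]
    rfl
  rw [mul_comm, ← show ((B.adjugate * B).mulVec X) k = B.det * X k from congrFun h1 k, h2]
  exact Submodule.sum_mem _ fun j _ => Ideal.mul_mem_left _ _ (hB j)

/-- if the `i`-th row is a syzygy of the variables and the others represent `f_j`,
then `det B ∈ (f_j : j ≠ i)` -/
lemma Good.det_mem (hδ : 1 ≤ δ) (G : Good δ f b) (i : Fin n)
    (B : Matrix (Fin n) (Fin n) (MvPolynomial (Fin n) K))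
    (hB : ∀ j, j ≠ i → ∑ l, B j l * X l = f j) (hi : ∑ l, B i l * X l = 0) :
    B.det ∈ Ideal.span (f '' {i}ᶜ) := by
  have h1 : ∀ k, X k * B.det ∈ Ideal.span (f '' {i}ᶜ) := by
    apply X_mul_det_mem
    intro j
    by_cases hji : j = i
    · rw [hji, hi]; exact zero_mem _
    · rw [hB j hji]; exact Ideal.subset_span ⟨j, hji, rfl⟩
  obtain ⟨r, hr⟩ := exists_row hδ (G.fhom i)
  apply G.nzd hδ (by simp : i ∉ ({i}ᶜ : Set (Fin n)))
  rw [← hr, Finset.sum_mul]
  refine Submodule.sum_mem _ fun k _ => ?_
  rw [mul_assoc]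
  exact Ideal.mul_mem_left _ _ (h1 k)

lemma updateRow_mulX (B : Matrix (Fin n) (Fin n) (MvPolynomial (Fin n) K)) (i : Fin n)
    (r : Fin n → MvPolynomial (Fin n) K) (j : Fin n) :
    ∑ l, (B.updateRow i r) j l * X l = if j = i then ∑ l, r l * X l else ∑ l, B j l * X l := by
  split_ifs with h
  · subst h; simp
  · simp [Matrix.updateRow_ne h]

/-- the determinant of a transition matrix is well defined modulo `(f)` -/
lemma Good.det_sub_det_mem (hδ : 1 ≤ δ) (G : Good δ f b)
    (a a' : Matrix (Fin n) (Fin n) (MvPolynomial (Fin n) K))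
    (ha : ∀ j, ∑ l, a j l * X l = f j) (ha' : ∀ j, ∑ l, a' j l * X l = f j) :
    a.det - a'.det ∈ Ideal.span (Set.range f) := by
  classical
  suffices H : ∀ s : Finset (Fin n), a.det -
      (Matrix.of fun i => if i ∈ s then a' i else a i).det ∈ Ideal.span (Set.range f) by
    have := H Finset.univ
    have h1 : (Matrix.of fun i => if i ∈ Finset.univ then a' i else a i) = a' := by
      ext i j; simp
    rwa [h1] at this
  intro s
  induction s using Finset.induction_on with
  | empty =>
    have h1 : (Matrix.of fun i => if i ∈ (∅ : Finset (Fin n)) then a' i else a i) = a := by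
      ext i j; simp
    rw [h1, sub_self]; exact zero_mem _
  | insert i s hi ih =>
    set B : Matrix (Fin n) (Fin n) (MvPolynomial (Fin n) K) :=
      Matrix.of fun i => if i ∈ s then a' i else a i with hB
    have hBi : B i = a i := by
      have : B i = if i ∈ s then a' i else a i := rfl
      rw [this, if_neg hi]
    have hBf : ∀ j, ∑ l, B j l * X l = f j := by
      intro j
      have : B j = if j ∈ s then a' j else a j := rfl
      rw [this]
      split_ifs
      · exact ha' j
      · exact ha j
    have h1 : (Matrix.of fun k => if k ∈ insert i s then a' k else a k) =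
        B.updateRow i (a' i) := by
      funext k
      by_cases hk : k = i
      · subst hk
        rw [Matrix.updateRow_self]
        change (if k ∈ insert k s then a' k else a k) = _
        rw [if_pos (Finset.mem_insert_self _ _)]
      · rw [Matrix.updateRow_ne hk]
        change (if k ∈ insert i s then a' k else a k) = if k ∈ s then a' k else a k
        simp [Finset.mem_insert, hk]
    have h2 : B.det - (B.updateRow i (a' i)).det = (B.updateRow i (B i - a' i)).det := by
      have := Matrix.det_updateRow_add B i (B i - a' i) (a' i)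
      rw [sub_add_cancel, Matrix.updateRow_eq_self] at this
      rw [this]; ring
    rw [h1]
    have h3 : a.det - (B.updateRow i (a' i)).det =
        (a.det - B.det) + (B.updateRow i (B i - a' i)).det := by rw [← h2]; ring
    rw [h3]
    refine add_mem ih ?_
    have h4 := G.det_mem hδ i (B.updateRow i (B i - a' i)) ?_ ?_
    · refine Ideal.span_mono ?_ h4
      exact Set.image_subset_range _ _
    · intro j hj
      rw [updateRow_mulX, if_neg hj]; exact hBf j
    · rw [updateRow_mulX, if_pos rfl]
      simp only [Pi.sub_apply, sub_mul, Finset.sum_sub_distrib]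
      rw [hBf i, ha' i, sub_self]

/-- existence of a transition matrix with determinant outside `(f)` -/
theorem exists_matrix [IsAlgClosed K] (hn : 1 ≤ n) (hδ : 1 ≤ δ)
    (f : Fin n → MvPolynomial (Fin n) K) (hf : IsTuple δ f) (h0 : NoZero f) :
    ∃ a : Matrix (Fin n) (Fin n) (MvPolynomial (Fin n) K), (∀ j, ∑ l, a j l * X l = f j) ∧
      a.det ∉ Ideal.span (Set.range f) := by
  classical
  have : Infinite K := IsAlgClosed.instInfinite
  refine hsop_induction hδ (fun f => ∃ a : Matrix (Fin n) (Fin n) (MvPolynomial (Fin n) K),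
    (∀ j, ∑ l, a j l * X l = f j) ∧ a.det ∉ Ideal.span (Set.range f)) ?_ ?_ f hf h0
  · refine ⟨Matrix.diagonal fun i => X i ^ (δ - 1), ?_, ?_⟩
    · intro j
      rw [Finset.sum_eq_single j]
      · rw [Matrix.diagonal_apply_eq, ← pow_succ, Nat.sub_add_cancel hδ]
      · intro k _ hk; rw [Matrix.diagonal_apply_ne _ hk.symm, zero_mul]
      · simp
    · rw [Matrix.det_diagonal, (good_X (n := n) (K := K) hδ).mem_span_range_iff hδ]
      intro hc
      have h1 := hc (top n δ) (top_lt hδ)
      rw [co_X hδ] at h1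
      have h2 : (∏ i, (X i : MvPolynomial (Fin n) K) ^ (δ - 1)) = monomial (top n δ) 1 := by
        rw [MvPolynomial.monomial_eq, C_1, one_mul, Finsupp.prod_fintype _ _ (fun i => by simp)]
        rfl
      rw [h2] at h1
      simp at h1
  · rintro f i h hf hf0 hh h0 ⟨a, ha, hdet⟩
    obtain ⟨m, G⟩ := exists_good hn hδ f hf hf0
    obtain ⟨M, u, hu, hM⟩ := exists_pow_eq' hδ G.fhom hh h0
    obtain ⟨r, hr⟩ := exists_row hδ hh
    obtain ⟨w, hwi, hw⟩ := exists_coeffs hM
    refine ⟨a.updateRow i r, ?_, ?_⟩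
    · intro j
      rw [updateRow_mulX]
      by_cases hj : j = i
      · subst hj; rw [if_pos rfl, Function.update_self, hr]
      · rw [if_neg hj, Function.update_of_ne hj, ha]
    · intro hmem
      apply hdet
      set ρ : Fin n → MvPolynomial (Fin n) K :=
        u • r + ((∑ j, w j • a j) - f i ^ M • a i) with hρ
      have h1 : (a.updateRow i ρ).det ∈ Ideal.span (f '' {i}ᶜ) := by
        apply G.det_mem hδ i
        · intro j hj; rw [updateRow_mulX, if_neg hj]; exact ha j
        · rw [updateRow_mulX, if_pos rfl]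
          have ha' : ∀ j, dotX (a j) = f j := fun j => by rw [dotX_apply]; exact ha j
          have hr' : dotX r = h := by rw [dotX_apply]; exact hr
          rw [← dotX_apply, hρ, map_add, map_sub, map_smul, map_smul, map_sum, hr', ha' i]
          have h2 : ∑ j, dotX (w j • a j) = f i ^ (M + 1) - h * u := by
            rw [hw]
            refine Finset.sum_congr rfl fun j _ => ?_
            rw [map_smul, ha' j, smul_eq_mul]
          rw [h2, smul_eq_mul, smul_eq_mul]
          ring
      have h3 : (a.updateRow i ρ).det = u * (a.updateRow i r).det - f i ^ M * a.det := by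
        rw [hρ, Matrix.det_updateRow_add, Matrix.det_updateRow_smul]
        have h4 : (∑ j, w j • a j) - f i ^ M • a i =
            ∑ j, (w j - if j = i then f i ^ M else 0) • a j := by
          simp only [sub_smul, Finset.sum_sub_distrib, ite_smul, zero_smul]
          rw [Finset.sum_ite_eq' Finset.univ i, if_pos (Finset.mem_univ i)]
        rw [h4, Matrix.det_updateRow_sum, hwi, if_pos rfl, smul_eq_mul]
        ring
      rw [h3] at h1
      rw [span_range_update, mem_sup_span] at hmem
      obtain ⟨j, hj, y, hy⟩ := hmem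
      rw [span_range_eq f i, mem_sup_span]
      have h5 : f i ^ M * (a.det - f i * y) ∈ Ideal.span (f '' {i}ᶜ) := by
        have : f i ^ M * (a.det - f i * y) = -(u * (a.updateRow i r).det - f i ^ M * a.det) +
            u * j - (f i ^ (M + 1) - h * u) * y := by
          rw [hy]; ring
        rw [this]
        exact sub_mem (add_mem (neg_mem h1) (Ideal.mul_mem_left _ _ hj))
          (Ideal.mul_mem_right _ _ hM)
      exact ⟨_, G.nzd_pow hδ (by simp : i ∉ ({i}ᶜ : Set (Fin n))) M h5, y, by ring⟩

/-- Euler matrix -/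
noncomputable def eul (δ : ℕ) (f : Fin n → MvPolynomial (Fin n) K) :
    Matrix (Fin n) (Fin n) (MvPolynomial (Fin n) K) :=
  Matrix.of fun i j => C ((δ : K)⁻¹) * pderiv j (f i)

lemma eul_mulX (hδK : (δ : K) ≠ 0) (hf : IsTuple δ f) (i : Fin n) :
    ∑ l, eul δ f i l * X l = f i := by
  have h := (hf i).sum_X_mul_pderiv
  have h1 : ∑ l, eul δ f i l * X l = C ((δ : K)⁻¹) * ∑ l, X l * pderiv l (f i) := by
    rw [Finset.mul_sum]
    refine Finset.sum_congr rfl fun l _ => ?_
    simp only [eul, Matrix.of_apply]; ring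
  rw [h1, h, nsmul_eq_mul, ← mul_assoc]
  have h2 : (C ((δ : K)⁻¹) * ((δ : ℕ) : MvPolynomial (Fin n) K)) = 1 := by
    rw [← map_natCast (C : K →+* MvPolynomial (Fin n) K), ← map_mul, inv_mul_cancel₀ hδK, C_1]
  rw [h2, one_mul]

lemma eul_det : (eul δ f).det = C ((δ : K)⁻¹ ^ n) * jac f := by
  unfold jac
  have : eul δ f = (C ((δ : K)⁻¹) : MvPolynomial (Fin n) K) •
      (Matrix.of fun i j => pderiv j (f i)) := by
    funext i j; rfl
  rw [this, Matrix.det_smul, Fintype.card_fin, map_pow]

lemma jac_isHomogeneous_A1 (hf : IsTuple δ f) : (jac f).IsHomogeneous (n * (δ - 1)) := by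
  classical
  unfold jac
  rw [Matrix.det_apply]
  refine IsHomogeneous.sum _ _ _ fun σ _ => ?_
  have h1 : (∏ i, (Matrix.of fun i j => pderiv j (f i)) (σ i) i).IsHomogeneous
      (∑ _i : Fin n, (δ - 1)) :=
    IsHomogeneous.prod _ _ _ fun i _ => (hf (σ i)).pderiv
  have h2 : (∑ _i : Fin n, (δ - 1)) = n * (δ - 1) := by simp
  rw [h2] at h1
  rcases Int.units_eq_one_or (Equiv.Perm.sign σ) with h | h
  · rw [h, one_smul]; exact h1
  · rw [h, Units.neg_smul, one_smul]; exact h1.neg

theorem Good.jac_notMem [IsAlgClosed K] (hn : 1 ≤ n) (hδ : 1 ≤ δ) (hδK : (δ : K) ≠ 0)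
    (G : Good δ f b) : jac f ∉ Ideal.span (Set.range f) := by
  intro h
  obtain ⟨a, ha, hdet⟩ := exists_matrix hn hδ f G.fhom (G.noZero hn hδ)
  apply hdet
  have h1 := G.det_sub_det_mem hδ a (eul δ f) ha (eul_mulX hδK G.fhom)
  have h2 : (eul δ f).det ∈ Ideal.span (Set.range f) := by
    rw [eul_det]; exact Ideal.mul_mem_left _ _ h
  have := add_mem h1 h2
  rwa [sub_add_cancel] at this

theorem Good.jac_ne [IsAlgClosed K] (hn : 1 ≤ n) (hδ : 1 ≤ δ) (hδK : (δ : K) ≠ 0)
    {f : Fin n → MvPolynomial (Fin n) K}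
    {b : (Fin n →₀ ℕ) → MvPolynomial (Fin n) K} (G : Good δ f b) :
    G.co (jac f) (top n δ) ≠ 0 := by
  intro h
  apply G.jac_notMem hn hδ hδK
  rw [G.mem_span_range_iff hδ]
  intro α hα
  by_cases hd : α.degree = n * (δ - 1)
  · rw [eq_top_of hα hd, h]
  · exact G.co_eq_zero_of_degree hδ (jac_isHomogeneous_A1 G.fhom) hd

end AF23
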