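import Pool.Agent.AF23.A1f

/-! Part A1: a functional not killing the Jacobian forces the absence of common zeros. -/

namespace AF23

open MvPolynomial

variable {n δ : ℕ} {K : Type*} [Field K] {f : Fin n → MvPolynomial (Fin n) K}
  {b : (Fin n →₀ ℕ) → MvPolynomial (Fin n) K}

lemma aeval_sub_mem_A1 {I : Ideal (MvPolynomial (Fin n) K)} (v : Fin n → MvPolynomial (Fin n) K)
    (hv : ∀ l, v l - X l ∈ I) (g : MvPolynomial (Fin n) K) : aeval v g - g ∈ I := by
  induction g using MvPolynomial.induction_on with
  | C a => simp
  | add p q hp hq =>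
    rw [map_add]
    have : aeval v p + aeval v q - (p + q) = (aeval v p - p) + (aeval v q - q) := by ring
    rw [this]; exact add_mem hp hq
  | mul_X p l hp =>
    rw [map_mul, aeval_X]
    have : aeval v p * v l - p * X l = (aeval v p - p) * v l + p * (v l - X l) := by ring
    rw [this]; exact add_mem (Ideal.mul_mem_right _ _ hp) (Ideal.mul_mem_left _ _ (hv l))

lemma aeval_C_mul {e : ℕ} {g : MvPolynomial (Fin n) K} (hg : g.IsHomogeneous e)
    (t : Fin n → K) (Y : MvPolynomial (Fin n) K) :
    aeval (fun l => C (t l) * Y) g = C (eval t g) * Y ^ e := by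
  classical
  rw [MvPolynomial.aeval_def, MvPolynomial.eval₂_eq', MvPolynomial.eval_eq', map_sum,
    Finset.sum_mul]
  refine Finset.sum_congr rfl fun d hd => ?_
  have h6 : d.degree = e := by
    by_contra hne
    exact (mem_support_iff.1 hd) (hg.coeff_eq_zero hne)
  simp only [mul_pow, Finset.prod_mul_distrib, map_mul, map_prod, map_pow]
  rw [Finset.prod_pow_eq_pow_sum, ← Finsupp.degree_eq_sum, h6, MvPolynomial.algebraMap_eq]
  ring

/-- forms vanishing at `x` -/
lemma exists_ell {e : ℕ} {g : MvPolynomial (Fin n) K} (hg : g.IsHomogeneous e)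
    {x : Fin n → K} (hx : eval x g = 0) {k : Fin n} (hk : x k ≠ 0) :
    ∃ c : Fin n → MvPolynomial (Fin n) K,
      g = ∑ l, c l * (C (x k) * X l - C (x l) * X k) := by
  classical
  set I : Ideal (MvPolynomial (Fin n) K) :=
    Ideal.span (Set.range fun l => (C (x k) * X l - C (x l) * X k : MvPolynomial (Fin n) K))
    with hI
  have hmem : g ∈ I := by
    set t : Fin n → K := fun l => x l / x k with ht
    have h1 := aeval_sub_mem_A1 (I := I) (fun l => C (t l) * X k) (fun l => by
      have h2 : C (t l) * X k - X l =
          -(C ((x k)⁻¹) * (C (x k) * X l - C (x l) * X k) : MvPolynomial (Fin n) K) := by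
        have h3 : (C ((x k)⁻¹) * C (x k) : MvPolynomial (Fin n) K) = 1 := by
          rw [← C_mul, inv_mul_cancel₀ hk, C_1]
        have h4 : (C (t l) : MvPolynomial (Fin n) K) = C ((x k)⁻¹) * C (x l) := by
          rw [← C_mul]; congr 1; simp only [ht]; rw [div_eq_inv_mul]
        rw [h4, mul_sub, ← mul_assoc, h3]; ring
      rw [h2]
      exact neg_mem (Ideal.mul_mem_left _ _ (Ideal.subset_span ⟨l, rfl⟩))) g
    rw [aeval_C_mul hg] at h1
    have h5 : eval t g = 0 := by
      have h6 : eval t g = (x k)⁻¹ ^ e * eval x g := by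
        rw [MvPolynomial.eval_eq', MvPolynomial.eval_eq', Finset.mul_sum]
        refine Finset.sum_congr rfl fun d hd => ?_
        have h6 : d.degree = e := by
          by_contra hne
          exact (mem_support_iff.1 hd) (hg.coeff_eq_zero hne)
        simp only [ht, div_eq_inv_mul, mul_pow, Finset.prod_mul_distrib]
        rw [Finset.prod_pow_eq_pow_sum, ← Finsupp.degree_eq_sum, h6]
        ring
      rw [h6, hx, mul_zero]
    rw [h5, C_0, zero_mul, zero_sub] at h1
    simpa using neg_mem h1
  obtain ⟨c, hc⟩ := (Submodule.mem_span_range_iff_exists_fun (MvPolynomial (Fin n) K)).1 hmem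
  exact ⟨c, by rw [← hc]; rfl⟩

/-- Koszul relation -/
noncomputable def kos (k l : Fin n) : Fin n → MvPolynomial (Fin n) K :=
  Pi.single k (X l) - Pi.single l (X k)

lemma dotX_single (k : Fin n) (p : MvPolynomial (Fin n) K) :
    dotX (Pi.single k p) = p * X k := by
  rw [dotX_apply, Finset.sum_eq_single k]
  · simp
  · intro l _ hl; simp [hl]
  · simp

lemma dotX_kos (k l : Fin n) : dotX (kos k l : Fin n → MvPolynomial (Fin n) K) = 0 := by
  rw [kos, map_sub, dotX_single, dotX_single]; ring

/-- a matrix with a Koszul row -/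
lemma det_kos_mem {I : Ideal (MvPolynomial (Fin n) K)}
    (B : Matrix (Fin n) (Fin n) (MvPolynomial (Fin n) K)) (i k l : Fin n)
    (hi : B i = kos k l) (hB : ∀ j, j ≠ i → dotX (B j) ∈ I) : B.det ∈ I := by
  classical
  by_cases hkl : l = k
  · subst hkl
    rw [Matrix.det_eq_zero_of_row_eq_zero i]
    · exact zero_mem _
    · intro j; rw [hi, kos]; simp
  -- replace column `k` by `B z`
  set B2 : Matrix (Fin n) (Fin n) (MvPolynomial (Fin n) K) :=
    B.updateCol k (fun j => ∑ m, (X m : MvPolynomial (Fin n) K) • B j m) with hB2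
  have h1 : B2.det = X k * B.det := by
    rw [hB2, Matrix.det_updateCol_sum, smul_eq_mul]
  have hcol : ∀ j, B2 j k = dotX (B j) := by
    intro j
    rw [hB2, Matrix.updateCol_self, dotX_apply]
    exact Finset.sum_congr rfl fun m _ => by rw [smul_eq_mul, mul_comm]
  have hrow : B2 i = (X k : MvPolynomial (Fin n) K) • (Pi.single l (-1) : Fin n → MvPolynomial (Fin n) K) := by
    funext m
    by_cases hm : m = k
    · subst hm
      rw [hcol, hi, dotX_kos]
      simp [Ne.symm hkl]
    · rw [hB2, Matrix.updateCol_ne hm, hi, kos]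
      by_cases hml : m = l
      · subst hml; simp [hm]
      · simp [hm, hml]
  have h2 : B2.det = X k * (B2.updateRow i (Pi.single l (-1))).det := by
    rw [← Matrix.det_updateRow_smul, ← hrow, Matrix.updateRow_eq_self]
  have h3 : B.det = (B2.updateRow i (Pi.single l (-1))).det := by
    rw [h1] at h2
    exact mul_left_cancel₀ (X_ne_zero k) h2
  rw [h3, ← Ideal.Quotient.eq_zero_iff_mem, RingHom.map_det]
  apply Matrix.det_eq_zero_of_column_eq_zero k
  intro j
  rw [RingHom.mapMatrix_apply, Matrix.map_apply, Ideal.Quotient.eq_zero_iff_mem]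
  by_cases hj : j = i
  · subst hj
    rw [Matrix.updateRow_self, Pi.single_eq_of_ne (Ne.symm hkl)]
    exact zero_mem _
  · rw [Matrix.updateRow_ne hj, hcol]
    exact hB j hj

theorem noZero_of_functional (_hn : 1 ≤ n) (_hδ : 1 ≤ δ) (hδK : (δ : K) ≠ 0)
    (f : Fin n → MvPolynomial (Fin n) K) (hf : IsTuple δ f)
    (F : MvPolynomial (Fin n) K →ₗ[K] K) (hF : ∀ i h, F (f i * h) = 0)
    (hJ : F (jac f) ≠ 0) : NoZero f := by
  classical
  by_contra hc
  unfold NoZero at hc
  push Not at hc
  obtain ⟨x, hx, hx0⟩ := hc
  obtain ⟨k, hk⟩ : ∃ k, x k ≠ 0 := by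
    by_contra h
    push Not at h
    exact hx0 (funext h)
  -- the functional kills the ideal
  have hFI : ∀ y ∈ Ideal.span (Set.range f), F y = 0 := by
    intro y hy
    rw [← Set.image_univ] at hy
    refine span_image_induction (p := fun y => F y = 0) (map_zero _) ?_ ?_ hy
    · intro x y hx hy; rw [map_add, hx, hy, add_zero]
    · intro j _ y; exact hF j y
  apply hJ
  apply hFI
  set I := Ideal.span (Set.range f) with hI
  -- it suffices to treat the Euler determinant
  suffices H : (eul δ f).det ∈ I by
    have h1 : jac f = C ((δ : K) ^ n) * (eul δ f).det := by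
      rw [eul_det, ← mul_assoc, ← C_mul, ← mul_pow, mul_inv_cancel₀ hδK, one_pow, C_1, one_mul]
    rw [h1]; exact Ideal.mul_mem_left _ _ H
  -- the entries of `a x`
  have hg : ∀ i, ∃ c : Fin n → MvPolynomial (Fin n) K,
      ∑ j, eul δ f i j * C (x j) = ∑ l, c l * (C (x k) * X l - C (x l) * X k) := by
    intro i
    apply exists_ell (e := δ - 1) _ _ hk
    · refine IsHomogeneous.sum _ _ _ fun j _ => ?_
      have h1 := ((isHomogeneous_C (Fin n) ((δ : K)⁻¹)).mul ((hf i).pderiv (i := j))).mul
        (isHomogeneous_C (Fin n) (x j))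
      rw [zero_add, add_zero] at h1
      exact h1
    · have h1 := congrArg (eval x) (eul_mulX hδK hf i)
      rw [map_sum, hx i] at h1
      rw [map_sum, ← h1]
      exact Finset.sum_congr rfl fun j _ => by simp
  choose c hc using hg
  set a' : Matrix (Fin n) (Fin n) (MvPolynomial (Fin n) K) :=
    Matrix.of fun i => eul δ f i - ∑ l, c i l • kos k l with ha'
  have ha'i : ∀ i, a' i = eul δ f i - ∑ l, c i l • kos k l := fun i => rfl
  have hdet0 : a'.det = 0 := by
    rw [← Matrix.exists_mulVec_eq_zero_iff]
    refine ⟨fun j => C (x j), ?_, ?_⟩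
    · intro h
      have := congrFun h k
      simp only [Pi.zero_apply, C_eq_zero] at this
      exact hk this
    · funext i
      have h1 : a'.mulVec (fun j => C (x j)) i = ∑ j, a' i j * C (x j) := rfl
      rw [h1, Pi.zero_apply]
      have h2 : ∀ j, a' i j * C (x j) = eul δ f i j * C (x j) -
          ∑ l, c i l * ((kos k l : Fin n → MvPolynomial (Fin n) K) j * C (x j)) := by
        intro j
        rw [ha'i, Pi.sub_apply, Finset.sum_apply, sub_mul, Finset.sum_mul]
        congr 1
        exact Finset.sum_congr rfl fun l _ => by rw [Pi.smul_apply, smul_eq_mul]; ring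
      simp only [h2]
      rw [Finset.sum_sub_distrib, hc i, Finset.sum_comm, ← Finset.sum_sub_distrib]
      refine Finset.sum_eq_zero fun l _ => ?_
      rw [← Finset.mul_sum, ← mul_sub]
      have h3 : ∑ j, (kos k l : Fin n → MvPolynomial (Fin n) K) j * C (x j) =
          C (x k) * X l - C (x l) * X k := by
        simp only [kos, Pi.sub_apply, sub_mul, Finset.sum_sub_distrib]
        rw [Finset.sum_eq_single k, Finset.sum_eq_single l]
        · simp [mul_comm]
        · intro m _ hm; simp [hm]
        · simp
        · intro m _ hm; simp [hm]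
        · simp
      rw [h3, sub_self, mul_zero]
  have hdX : ∀ i, dotX (a' i) = f i := by
    intro i
    rw [ha'i, map_sub, map_sum]
    have : ∑ l, dotX (c i l • (kos k l : Fin n → MvPolynomial (Fin n) K)) = 0 :=
      Finset.sum_eq_zero fun l _ => by rw [map_smul, dotX_kos, smul_zero]
    rw [this, sub_zero, dotX_apply]
    exact eul_mulX hδK hf i
  -- hybrid matrices
  suffices H : ∀ s : Finset (Fin n), (eul δ f).det -
      (Matrix.of fun i => if i ∈ s then a' i else eul δ f i).det ∈ I by
    have := H Finset.univ
    have h1 : (Matrix.of fun i => if i ∈ Finset.univ then a' i else eul δ f i) = a' := by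
      ext i j; simp
    rw [h1, hdet0, sub_zero] at this
    exact this
  intro s
  induction s using Finset.induction_on with
  | empty =>
    have h1 : (Matrix.of fun i => if i ∈ (∅ : Finset (Fin n)) then a' i else eul δ f i) =
        eul δ f := by
      ext i j; simp
    rw [h1, sub_self]; exact zero_mem _
  | insert i s hi ih =>
    set B : Matrix (Fin n) (Fin n) (MvPolynomial (Fin n) K) :=
      Matrix.of fun i => if i ∈ s then a' i else eul δ f i with hB
    have hBi : B i = eul δ f i := by
      have : B i = if i ∈ s then a' i else eul δ f i := rfl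
      rw [this, if_neg hi]
    have hBf : ∀ j, dotX (B j) = f j := by
      intro j
      have : B j = if j ∈ s then a' j else eul δ f j := rfl
      rw [this]
      split_ifs
      · exact hdX j
      · rw [dotX_apply]; exact eul_mulX hδK hf j
    have h1 : (Matrix.of fun m => if m ∈ insert i s then a' m else eul δ f m) =
        B.updateRow i (a' i) := by
      funext m
      by_cases hm : m = i
      · subst hm
        rw [Matrix.updateRow_self]
        change (if m ∈ insert m s then a' m else eul δ f m) = _
        rw [if_pos (Finset.mem_insert_self _ _)]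
      · rw [Matrix.updateRow_ne hm]
        change (if m ∈ insert i s then a' m else eul δ f m) = if m ∈ s then a' m else eul δ f m
        simp [Finset.mem_insert, hm]
    have h2 : B.det - (B.updateRow i (a' i)).det = (B.updateRow i (B i - a' i)).det := by
      have := Matrix.det_updateRow_add B i (B i - a' i) (a' i)
      rw [sub_add_cancel, Matrix.updateRow_eq_self] at this
      rw [this]; ring
    rw [h1]
    have h3 : (eul δ f).det - (B.updateRow i (a' i)).det =
        ((eul δ f).det - B.det) + (B.updateRow i (B i - a' i)).det := by rw [← h2]; ring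
    rw [h3]
    refine add_mem ih ?_
    have h4 : B i - a' i = ∑ l, c i l • kos k l := by rw [hBi, ha'i]; simp
    rw [h4]
    -- expand by multilinearity
    have h5 : ∀ t : Finset (Fin n), (B.updateRow i (∑ l ∈ t, c i l • kos k l)).det ∈ I := by
      intro t
      induction t using Finset.induction_on with
      | empty =>
        rw [Finset.sum_empty, Matrix.det_eq_zero_of_row_eq_zero i]
        · exact zero_mem _
        · intro j; rw [Matrix.updateRow_self]; rfl
      | insert l t hl iht =>
        rw [Finset.sum_insert hl, Matrix.det_updateRow_add, Matrix.det_updateRow_smul]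
        refine add_mem (Ideal.mul_mem_left _ _ ?_) iht
        refine det_kos_mem _ i k l (by rw [Matrix.updateRow_self]) ?_
        intro j hj
        rw [Matrix.updateRow_ne hj, hBf]
        exact Ideal.subset_span ⟨j, rfl⟩
    exact h5 Finset.univ

end AF23
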