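import Pool.Agent.AF23.A2Lin

/-! # Part A2 : linear substitutions -/

namespace AF23

open MvPolynomial

variable {n δ : ℕ}

section subst

variable {K : Type*} [Field K] {f : Fin n → MvPolynomial (Fin n) K}
  {b : (Fin n →₀ ℕ) → MvPolynomial (Fin n) K}

lemma subst_X (A : Matrix (Fin n) (Fin n) K) (i : Fin n) :
    subst A (X i) = ∑ j, C (A i j) * X j := by
  rw [subst, aeval_X]

lemma subst_C (A : Matrix (Fin n) (Fin n) K) (c : K) : subst A (C c) = C c := by
  rw [subst, aeval_C]; rfl

lemma subst_mul (B A : Matrix (Fin n) (Fin n) K) (p : MvPolynomial (Fin n) K) :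
    subst (B * A) p = subst A (subst B p) := by
  have h : subst (B * A) = (subst A).comp (subst B) := by
    refine MvPolynomial.algHom_ext fun i => ?_
    rw [AlgHom.comp_apply, subst_X, subst_X, map_sum]
    simp only [map_mul, subst_X, subst_C, Matrix.mul_apply, map_sum, Finset.sum_mul,
      Finset.mul_sum]
    rw [Finset.sum_comm]
    exact Finset.sum_congr rfl fun k _ => Finset.sum_congr rfl fun j _ => by ring
  rw [h, AlgHom.comp_apply]

lemma subst_one (p : MvPolynomial (Fin n) K) : subst 1 p = p := by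
  have h : subst (1 : Matrix (Fin n) (Fin n) K) = AlgHom.id K _ := by
    refine MvPolynomial.algHom_ext fun i => ?_
    rw [subst_X, AlgHom.id_apply, Finset.sum_eq_single i]
    · simp
    · intro j _ hj
      rw [Matrix.one_apply_ne hj.symm, map_zero, zero_mul]
    · intro h; exact absurd (Finset.mem_univ i) h
  rw [h, AlgHom.id_apply]

lemma subst_homogeneous (A : Matrix (Fin n) (Fin n) K) {D : ℕ} {p : MvPolynomial (Fin n) K}
    (hp : p.IsHomogeneous D) : (subst A p).IsHomogeneous D := by
  have := hp.aeval (fun i => ∑ j, MvPolynomial.C (A i j) * X j) (n := 1) (fun i => by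
    refine IsHomogeneous.sum _ _ _ fun j _ => ?_
    have := (isHomogeneous_C (Fin n) (A i j)).mul (isHomogeneous_X K j)
    rwa [zero_add] at this)
  rw [one_mul] at this
  exact this

lemma subst_Ev (A : Matrix (Fin n) (Fin n) K) (α : Fin n →₀ ℕ) :
    Ev δ (fun i => subst A (f i)) (fun ν => subst A (b ν)) α = subst A (Ev δ f b α) := by
  rw [Ev, Ev, map_mul, map_prod]
  simp only [map_pow]

/-- A6 -/
theorem good_subst {f : Fin n → MvPolynomial (Fin n) K}
    {b : (Fin n →₀ ℕ) → MvPolynomial (Fin n) K} (G : Good δ f b)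
    (A : Matrix (Fin n) (Fin n) K) (hA : A.det ≠ 0) :
    Good δ (fun i => subst A (f i)) (fun ν => subst A (b ν)) := by
  have hu : IsUnit A.det := isUnit_iff_ne_zero.mpr hA
  have hEv : Ev δ (fun i => subst A (f i)) (fun ν => subst A (b ν)) =
      fun α => (subst A).toLinearMap (Ev δ f b α) := by
    funext α; exact subst_Ev A α
  have hinj : Function.Injective (subst A) := by
    apply Function.LeftInverse.injective (g := subst A⁻¹)
    intro p
    rw [← subst_mul, Matrix.mul_nonsing_inv A hu, subst_one]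
  have hsurj : Function.Surjective (subst A) := by
    intro p
    refine ⟨subst A⁻¹ p, ?_⟩
    rw [← subst_mul, Matrix.nonsing_inv_mul A hu, subst_one]
  refine ⟨fun i => subst_homogeneous A (G.fhom i), fun ν hν => subst_homogeneous A (G.bhom ν hν),
    ?_, ?_⟩
  · rw [hEv]
    exact G.li.map' (subst A).toLinearMap (LinearMap.ker_eq_bot.mpr hinj)
  · rw [hEv]
    have h1 : Set.range (fun α => (subst A).toLinearMap (Ev δ f b α)) =
        (subst A).toLinearMap '' Set.range (Ev δ f b) := by
      rw [← Set.range_comp]; rfl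
    rw [h1, ← Submodule.map_span, G.sp, Submodule.map_top]
    exact LinearMap.range_eq_top.mpr hsurj

lemma cmat_monomial (D : ℕ) :
    (cmat fun α : Mon n D => monomial α.1 (1 : K)) = (1 : Matrix (Mon n D) (Mon n D) K) := by
  classical
  ext α β
  rw [cmat, Matrix.of_apply, coeff_monomial, Matrix.one_apply]
  by_cases hab : α = β
  · rw [if_pos hab, if_pos (by rw [hab])]
  · rw [if_neg hab, if_neg fun h => hab (Subtype.ext h)]

/-- determinant of the action of a substitution on forms of degree `D` -/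
noncomputable def RD (A : Matrix (Fin n) (Fin n) K) (D : ℕ) : K :=
  (cmat fun γ : Mon n D => subst A (monomial γ.1 1)).det

lemma sum_monomial_hom {D : ℕ} {p : MvPolynomial (Fin n) K} (hp : p.IsHomogeneous D) :
    p = ∑ γ : Mon n D, coeff γ.1 p • monomial γ.1 1 := by
  classical
  ext β
  rw [coeff_sum]
  simp only [coeff_smul, coeff_monomial, smul_eq_mul]
  by_cases hβ : β.degree = D
  · rw [Finset.sum_eq_single (⟨β, mem_Mon.2 hβ⟩ : Mon n D)]
    · simp
    · intro γ _ hγ
      rw [if_neg, mul_zero]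
      intro h1; exact hγ (Subtype.ext h1)
    · intro h; exact absurd (Finset.mem_univ _) h
  · rw [hp.coeff_eq_zero hβ]
    symm
    refine Finset.sum_eq_zero fun γ _ => ?_
    rw [if_neg, mul_zero]
    intro h1; exact hβ (h1 ▸ γ.deg)

lemma det_cmat_subst (A : Matrix (Fin n) (Fin n) K) {D : ℕ} (g : Mon n D → MvPolynomial (Fin n) K)
    (hg : ∀ α, (g α).IsHomogeneous D) :
    (cmat fun α => subst A (g α)).det = (cmat g).det * RD A D := by
  rw [RD, ← Matrix.det_mul]
  refine congrArg Matrix.det ?_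
  ext α β
  rw [Matrix.mul_apply]
  simp only [cmat, Matrix.of_apply]
  conv_lhs => rw [sum_monomial_hom (hg α)]
  rw [map_sum, coeff_sum]
  simp only [map_smul, coeff_smul, smul_eq_mul]

lemma T_subst (hδ : 0 < δ) (hf : IsTuple δ f)
    (hb : ∀ ν : Fin n →₀ ℕ, (∀ i, ν i < δ) → (b ν).IsHomogeneous ν.degree)
    (A : Matrix (Fin n) (Fin n) K) (D : ℕ) :
    T δ (fun i => subst A (f i)) (fun ν => subst A (b ν)) D = T δ f b D * RD A D := by
  rw [T_eq, T_eq, ← det_cmat_subst A _ (fun α => by
    have := Ev_isHomogeneous hδ hf hb α.1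
    rwa [α.deg] at this)]
  simp only [subst_Ev]

lemma RD_mul (B A : Matrix (Fin n) (Fin n) K) (D : ℕ) : RD (B * A) D = RD B D * RD A D := by
  rw [RD, RD, ← det_cmat_subst A _ (fun α => subst_homogeneous B (by
    have := isHomogeneous_monomial (1 : K) α.deg
    exact this))]
  simp only [subst_mul]

lemma Ev_lin_X (A : Matrix (Fin n) (Fin n) K) (γ : Fin n →₀ ℕ) :
    Ev 1 (lin A X) (fun _ => 1) γ = subst A (monomial γ 1) := by
  rw [Ev, subst, aeval_monomial, map_one, Finsupp.prod_fintype _ _ (fun i => pow_zero _)]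
  refine congrArg (1 * ·) (Finset.prod_congr rfl fun i _ => ?_)
  rw [divF_apply, Nat.div_one]
  rfl

lemma good_one_X : Good 1 (X : Fin n → MvPolynomial (Fin n) K) (fun _ => 1) := by
  refine good_of_T_all one_pos (fun i => isHomogeneous_X K i) (fun ν hν => ?_) fun D => ?_
  · have : ν = 0 := by
      ext i
      have := hν i
      rw [Finsupp.zero_apply]
      omega
    rw [this, map_zero]
    exact isHomogeneous_one _ _
  · have h1 : T 1 (X : Fin n → MvPolynomial (Fin n) K) (fun _ => 1) D = 1 := by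
      rw [T_eq]
      have h2 : (fun α : Mon n D => Ev 1 (X : Fin n → MvPolynomial (Fin n) K) (fun _ => 1) α.1) =
          fun α : Mon n D => monomial α.1 (1 : K) := by
        funext α
        have := Ev_lin_X (1 : Matrix (Fin n) (Fin n) K) α.1
        rwa [lin_one, subst_one] at this
      rw [h2, cmat_monomial, Matrix.det_one]
    rw [h1]; exact one_ne_zero

lemma RD_eq_T (A : Matrix (Fin n) (Fin n) K) (D : ℕ) :
    RD A D = T 1 (lin A (X : Fin n → MvPolynomial (Fin n) K)) (fun _ => 1) D := by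
  rw [RD, T_eq]
  simp only [Ev_lin_X]

lemma RD_one (D : ℕ) : RD (1 : Matrix (Fin n) (Fin n) K) D = 1 := by
  rw [RD]
  simp only [subst_one]
  rw [cmat_monomial, Matrix.det_one]

lemma RD_transvection {i j : Fin n} (hij : i ≠ j) (c : K) (D : ℕ) :
    RD (Matrix.transvection i j c) D = 1 := by
  rw [RD_eq_T, good_one_X.T_transvection one_pos hij c D, ← RD_one (n := n) (K := K) D, RD_eq_T,
    lin_one]

lemma T_pow (D : ℕ) :
    T δ (fun i => (X i : MvPolynomial (Fin n) K) ^ δ) (fun ν => monomial ν 1) D = 1 := by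
  rw [T_eq]
  have h2 : (fun α : Mon n D => Ev δ (fun i => (X i : MvPolynomial (Fin n) K) ^ δ)
      (fun ν => monomial ν 1) α.1) = fun α : Mon n D => monomial α.1 (1 : K) := by
    funext α
    rw [Ev]
    have h3 : (∏ i, ((X i : MvPolynomial (Fin n) K) ^ δ) ^ (divF δ α.1 i)) =
        monomial (δ • divF δ α.1) 1 := by
      rw [monomial_eq, C_1, one_mul, Finsupp.prod_fintype _ _ (fun i => pow_zero _)]
      refine Finset.prod_congr rfl fun i _ => ?_
      rw [← pow_mul, Finsupp.smul_apply, smul_eq_mul]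
    rw [h3, monomial_mul, modF_add_divF, mul_one]
  rw [h2, cmat_monomial, Matrix.det_one]

lemma good_pow (hδ : 0 < δ) :
    Good δ (fun i => (X i : MvPolynomial (Fin n) K) ^ δ) (fun ν => monomial ν 1) := by
  have hf : IsTuple δ (fun i => (X i : MvPolynomial (Fin n) K) ^ δ) := fun i => by
    have := (isHomogeneous_X K i).pow δ
    rwa [one_mul] at this
  refine good_of_T_all hδ hf (fun ν _ => isHomogeneous_monomial _ rfl) fun D => ?_
  rw [T_pow]; exact one_ne_zero

lemma resAt_subst (hδ : 0 < δ) (G : Good δ f b) (A : Matrix (Fin n) (Fin n) K) (k : ℕ) :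
    ResAt δ (fun i => subst A (f i)) (fun ν => subst A (b ν)) k =
      ResAt δ f b k * md n (fun j => RD A (j * δ)) k := by
  have h2 : ResAt δ (fun i => subst A (f i)) (fun ν => subst A (b ν)) k =
      md n (fun j => T δ (fun i => subst A (f i)) (fun ν => subst A (b ν)) (j * δ)) k := rfl
  have h3 : ResAt δ f b k = md n (fun j => T δ f b (j * δ)) k := rfl
  have h1 : (fun j => T δ (fun i => subst A (f i)) (fun ν => subst A (b ν)) (j * δ)) =
      fun j => T δ f b (j * δ) * RD A (j * δ) := by
    funext j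
    exact T_subst hδ G.fhom G.bhom A _
  rw [h2, h1, h3, md_mul n (fun j => T δ f b (j * δ)) (fun j => RD A (j * δ)) k]

lemma md_RD_diagonal (hn : 1 ≤ n) (hδ : 0 < δ) (d : Fin n → K) (hd : ∀ i, d i ≠ 0) (k : ℕ)
    (hk : n ≤ k) : md n (fun j => RD (Matrix.diagonal d) (j * δ)) k =
      (Matrix.diagonal d).det ^ (δ ^ n) := by
  have G := good_pow (n := n) (K := K) hδ
  have hdet : (Matrix.diagonal d).det ≠ 0 := by
    rw [Matrix.det_diagonal]; exact Finset.prod_ne_zero_iff.mpr fun i _ => hd i
  obtain ⟨G1, h1⟩ := linOK_diagonal hn hδ (fun i => d i ^ δ) (fun i => pow_ne_zero _ (hd i)) _ _ G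
  have G2 := good_subst G (Matrix.diagonal d) hdet
  have hff : (fun i => subst (Matrix.diagonal d) ((X i : MvPolynomial (Fin n) K) ^ δ)) =
      lin (Matrix.diagonal fun i => d i ^ δ) (fun i => (X i : MvPolynomial (Fin n) K) ^ δ) := by
    funext i
    have h3 : subst (Matrix.diagonal d) (X i : MvPolynomial (Fin n) K) = C (d i) * X i := by
      have := lin_diagonal d (X : Fin n → MvPolynomial (Fin n) K) i
      rw [subst_X]
      exact this
    rw [lin_diagonal, map_pow, h3, mul_pow, map_pow]
  have h4 := resAt_subst hδ G (Matrix.diagonal d) k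
  rw [hff] at G2 h4
  have h5 := Good.resAt_indep hn hδ G1 G2 hk
  have h6 := h1 k hk
  have h7 : ResAt δ (fun i => (X i : MvPolynomial (Fin n) K) ^ δ) (fun ν => monomial ν 1) k ≠ 0 :=
    md_ne n (fun j => T δ (fun i => (X i : MvPolynomial (Fin n) K) ^ δ) (fun ν => monomial ν 1)
      (j * δ)) (fun j => G.T_ne_zero hδ _) k
  rw [h5, h6, mul_comm] at h4
  rw [← mul_left_cancel₀ h7 h4, Matrix.det_diagonal, Matrix.det_diagonal, Finset.prod_pow,
    ← pow_mul, ← pow_succ', Nat.sub_add_cancel hn]

lemma md_RD (hn : 1 ≤ n) (hδ : 0 < δ) (A : Matrix (Fin n) (Fin n) K) (hA : A.det ≠ 0) (k : ℕ)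
    (hk : n ≤ k) : md n (fun j => RD A (j * δ)) k = A.det ^ (δ ^ n) := by
  classical
  refine Matrix.diagonal_transvection_induction_of_det_ne_zero
    (fun A => md n (fun j => RD A (j * δ)) k = A.det ^ (δ ^ n)) A hA ?_ ?_ ?_
  · intro D hD
    rw [Matrix.det_diagonal, Finset.prod_ne_zero_iff] at hD
    exact md_RD_diagonal hn hδ D (fun i => hD i (Finset.mem_univ i)) k hk
  · intro t
    have h1 : t.toMatrix = Matrix.transvection t.i t.j t.c := rfl
    rw [t.det, one_pow, h1]
    simp only [RD_transvection t.hij t.c, md, one_zpow, Finset.prod_const_one]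
  · intro B C _ _ hB hC
    have h1 : (fun j => RD (B * C) (j * δ)) = fun j => RD B (j * δ) * RD C (j * δ) := by
      funext j; exact RD_mul B C _
    rw [h1, md_mul n (fun j => RD B (j * δ)) (fun j => RD C (j * δ)) k, hB, hC, Matrix.det_mul,
      mul_pow]

theorem res_subst (hn : 1 ≤ n) (hδ : 1 ≤ δ) {f : Fin n → MvPolynomial (Fin n) K}
    {b : (Fin n →₀ ℕ) → MvPolynomial (Fin n) K} (G : Good δ f b)
    (A : Matrix (Fin n) (Fin n) K) (hA : A.det ≠ 0) :
    Res δ (fun i => subst A (f i)) = A.det ^ (δ ^ n) * Res δ f := by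
  rw [(good_subst G A hA).res_eq hn hδ, G.res_eq hn hδ, resAt_subst hδ G A n,
    md_RD hn hδ A hA n le_rfl, mul_comm]

end subst

end AF23
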