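import Pool.Agent.AF23.A1
import Pool.Agent.AF23.A2Subst

/-! # Part A2 (all) : `Good.res_eq`, `Good.res_ne`, `good_lin`, `res_lin`, `good_subst`,
`res_subst`, `Good.resAt_eq`. -/

namespace AF23

open MvPolynomial

variable {n δ : ℕ}

section growth

variable {K : Type*} [Field K]

/-- the `n`-th difference of `T` is constant -/
def StableT (δ : ℕ) (f : Fin n → MvPolynomial (Fin n) K) : Prop :=
  ∀ b, Good δ f b → ∀ k, n ≤ k → ResAt δ f b k = ResAt δ f b n

lemma stableT_pow (hn : 1 ≤ n) (hδ : 1 ≤ δ) :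
    StableT δ (fun i : Fin n => (X i : MvPolynomial (Fin n) K) ^ δ) := by
  intro b G k hk
  have G0 := good_pow (n := n) (K := K) hδ
  rw [G0.resAt_indep hn hδ G hk, G0.resAt_indep hn hδ G le_rfl]
  have h1 : ∀ k, ResAt δ (fun i : Fin n => (X i : MvPolynomial (Fin n) K) ^ δ)
      (fun ν => monomial ν 1) k = 1 := by
    intro k
    simp only [ResAt, T_pow, one_zpow, Finset.prod_const_one]
  rw [h1, h1]

/-- A7: growth of `T`: the `n`-th difference is constant. -/
theorem Good.resAt_eq [IsAlgClosed K] (hn : 1 ≤ n) (hδ : 1 ≤ δ)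
    {f : Fin n → MvPolynomial (Fin n) K}
    {b : (Fin n →₀ ℕ) → MvPolynomial (Fin n) K} (G : Good δ f b) (k : ℕ) (hk : n ≤ k) :
    ResAt δ f b k = Res δ f := by
  have : Infinite K := IsAlgClosed.instInfinite
  rw [G.res_eq hn hδ]
  refine hsop_induction hδ (StableT δ) (stableT_pow hn hδ) ?_ f G.fhom (G.noZero hn hδ) b G k hk
  intro f i h hf h0 _ _ hst b' G' k hk
  obtain ⟨m, G⟩ := exists_good hn hδ f hf h0
  exact G.stable_exchange hn hδ G' i (fun j hj => Function.update_of_ne hj _ _) (hst _ G) k hk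

end growth

end AF23
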