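import Pool.Agent.AF23.A2Diff

/-! # Part A2 : transition matrices and their block structure -/

namespace AF23

open MvPolynomial

variable {n δ : ℕ}

section block

variable {K : Type*} [Field K]

/-- quotient by `δ` in the directions `J` -/
noncomputable def kapJ (δ : ℕ) (J : Finset (Fin n)) (α : Fin n →₀ ℕ) : Fin n →₀ ℕ :=
  (divF δ α).filter (· ∈ J)

lemma kap_apply (J : Finset (Fin n)) (α : Fin n →₀ ℕ) (i : Fin n) :
    kapJ δ J α i = if i ∈ J then α i / δ else 0 := by
  rw [kapJ, Finsupp.filter_apply]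
  rfl

lemma kap_support (J : Finset (Fin n)) (α : Fin n →₀ ℕ) : (kapJ δ J α).support ⊆ J := by
  intro i hi
  rw [Finsupp.mem_support_iff, kap_apply] at hi
  by_contra h
  exact hi (if_neg h)

lemma kap_le (J : Finset (Fin n)) (α : Fin n →₀ ℕ) : δ • kapJ δ J α ≤ α := by
  intro i
  rw [Finsupp.smul_apply, kap_apply, smul_eq_mul]
  split_ifs
  · exact Nat.mul_div_le _ _
  · simp

lemma kap_add (hδ : 0 < δ) {J : Finset (Fin n)} (α : Fin n →₀ ℕ) {κ : Fin n →₀ ℕ}
    (hκ : κ.support ⊆ J) : kapJ δ J (α + δ • κ) = kapJ δ J α + κ := by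
  ext i
  rw [Finsupp.add_apply, kap_apply, kap_apply]
  split_ifs with h
  · simp [Nat.add_mul_div_left _ _ hδ]
  · rw [zero_add]
    by_contra h'
    exact h (hκ (Finsupp.mem_support_iff.mpr (Ne.symm h')))

lemma kap_sub (hδ : 0 < δ) (J : Finset (Fin n)) (α : Fin n →₀ ℕ) :
    kapJ δ J (α - δ • kapJ δ J α) = 0 := by
  have h1 := kap_add (δ := δ) hδ (α - δ • kapJ δ J α) (kap_support (δ := δ) J α)
  rw [tsub_add_cancel_of_le (kap_le J α)] at h1
  exact (left_eq_add.mp (by rw [add_comm]; exact h1))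

/-- reduced exponents of degree `e` -/
abbrev WJ (n δ : ℕ) (J : Finset (Fin n)) (e : ℕ) : Type := {α : Mon n e // kapJ δ J α.1 = 0}

/-- determinant of the reduced block of degree `e` -/
noncomputable def Th (δ : ℕ) (J : Finset (Fin n)) (Y : (Fin n →₀ ℕ) → (Fin n →₀ ℕ) → K) (e : ℕ) :
    K :=
  Matrix.det (Matrix.of fun α γ : WJ n δ J e => Y α.1.1 γ.1.1)

/-- compatibility of a function with shifts in the directions `J` -/
structure Shifty (δ : ℕ) (J : Finset (Fin n)) (Y : (Fin n →₀ ℕ) → (Fin n →₀ ℕ) → K) : Prop where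
  shift : ∀ κ : Fin n →₀ ℕ, κ.support ⊆ J → ∀ α γ, Y (α + δ • κ) (γ + δ • κ) = Y α γ
  zero : ∀ κ : Fin n →₀ ℕ, κ.support ⊆ J → ∀ α γ, Y (α + δ • κ) γ ≠ 0 → δ • κ ≤ γ

variable {J : Finset (Fin n)} {Y : (Fin n →₀ ℕ) → (Fin n →₀ ℕ) → K}

lemma Shifty.le_of_ne (hY : Shifty δ J Y) (hδ : 0 < δ) {α γ : Fin n →₀ ℕ} (h : Y α γ ≠ 0) :
    kapJ δ J α ≤ kapJ δ J γ := by
  have h1 := hY.zero (kapJ δ J α) (kap_support J α) (α - δ • kapJ δ J α) γ
  rw [tsub_add_cancel_of_le (kap_le J α)] at h1
  have h2 := h1 h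
  intro i
  rw [kap_apply, kap_apply]
  split_ifs with hi
  · have h3 := h2 i
    rw [Finsupp.smul_apply, kap_apply, if_pos hi, smul_eq_mul] at h3
    rw [Nat.le_div_iff_mul_le hδ, mul_comm]
    exact h3
  · exact le_rfl

lemma Shifty.blockTriangular (hY : Shifty δ J Y) (hδ : 0 < δ) (D : ℕ) :
    (Matrix.of fun α γ : Mon n D => Y α.1 γ.1).BlockTriangular
      (fun α => toLex (kapJ δ J α.1)) := by
  intro α γ h
  by_contra hne
  have h1 := hY.le_of_ne hδ hne
  exact absurd (Finsupp.toLex_monotone h1) (not_le.mpr h)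

lemma degree_smul (κ : Fin n →₀ ℕ) : (δ • κ).degree = δ * κ.degree := by
  simp [map_nsmul]

lemma le_of_kap_eq {α κ : Fin n →₀ ℕ} (h : kapJ δ J α = κ) : δ • κ ≤ α := by
  rw [← h]; exact kap_le J _

/-- the block of `κ` -/
noncomputable def blockEquiv (hδ : 0 < δ) {κ : Fin n →₀ ℕ} (hκ : κ.support ⊆ J) {D e : ℕ}
    (hD : D = e + δ * κ.degree) :
    WJ n δ J e ≃ {α : Mon n D // toLex (kapJ δ J α.1) = toLex κ} where
  toFun w := ⟨⟨w.1.1 + δ • κ, mem_Mon.2 (by
    rw [map_add, degree_smul, w.1.deg, hD])⟩, by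
      rw [kap_add hδ _ hκ, w.2, zero_add]⟩
  invFun α := ⟨⟨α.1.1 - δ • κ, mem_Mon.2 (by
      have h1 : kapJ δ J α.1.1 = κ := toLex.injective α.2
      have h2 : (α.1.1 - δ • κ) + δ • κ = α.1.1 := tsub_add_cancel_of_le (le_of_kap_eq h1)
      have h3 := congrArg Finsupp.degree h2
      rw [map_add, degree_smul, α.1.deg] at h3
      omega)⟩, by
      have h1 : kapJ δ J α.1.1 = κ := toLex.injective α.2
      have := kap_sub hδ J α.1.1
      rw [h1] at this
      exact this⟩
  left_inv w := by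
    apply Subtype.ext
    apply Subtype.ext
    simp
  right_inv α := by
    apply Subtype.ext
    apply Subtype.ext
    have h1 : kapJ δ J α.1.1 = κ := toLex.injective α.2
    exact tsub_add_cancel_of_le (le_of_kap_eq h1)

lemma Shifty.det_block (hY : Shifty δ J Y) (hδ : 0 < δ) {κ : Fin n →₀ ℕ} (hκ : κ.support ⊆ J)
    {D e : ℕ} (hD : D = e + δ * κ.degree) :
    ((Matrix.of fun α γ : Mon n D => Y α.1 γ.1).toSquareBlock
      (fun α => toLex (kapJ δ J α.1)) (toLex κ)).det = Th δ J Y e := by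
  rw [Th, ← Matrix.det_submatrix_equiv_self (blockEquiv hδ hκ hD)]
  congr 1
  ext w w'
  simp only [Matrix.submatrix_apply, Matrix.toSquareBlock_def, Matrix.of_apply, blockEquiv,
    Equiv.coe_fn_mk]
  exact hY.shift κ hκ _ _

/-- determinant of a shift-compatible matrix in degree `kδ` -/
lemma Shifty.det_eq_star (hY : Shifty δ J Y) (hδ : 0 < δ) (k : ℕ) :
    (Matrix.of fun α γ : Mon n (k * δ) => Y α.1 γ.1).det =
      star (cn J.card) (fun j => Th δ J Y (j * δ)) k := by
  classical
  rw [(hY.blockTriangular hδ (k * δ)).det]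
  set B : Finset (Fin n →₀ ℕ) := (Finset.range (k + 1)).biUnion fun m => J.finsuppAntidiag m
    with hB
  have hmemB : ∀ κ, κ ∈ B ↔ κ.support ⊆ J ∧ κ.degree ≤ k := by
    intro κ
    rw [hB, Finset.mem_biUnion]
    constructor
    · rintro ⟨m, hm, hκ⟩
      rw [Finset.mem_finsuppAntidiag] at hκ
      refine ⟨hκ.2, ?_⟩
      have : κ.degree = m := by
        rw [Finsupp.degree_apply, ← hκ.1]
        exact Finset.sum_subset hκ.2 fun x _ hx => by simpa using hx
      have := Finset.mem_range.mp hm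
      omega
    · rintro ⟨h1, h2⟩
      refine ⟨κ.degree, Finset.mem_range.mpr (by omega), ?_⟩
      rw [Finset.mem_finsuppAntidiag]
      refine ⟨?_, h1⟩
      rw [Finsupp.degree_apply]
      exact (Finset.sum_subset h1 fun x _ hx => by simpa using hx).symm
  have hD : ∀ κ ∈ B, k * δ = (k - κ.degree) * δ + δ * κ.degree := by
    intro κ hκ
    have := ((hmemB κ).mp hκ).2
    obtain ⟨c, hc⟩ := Nat.exists_eq_add_of_le this
    rw [hc, Nat.add_sub_cancel_left]
    ring
  have h1 : ∏ a ∈ Finset.univ.image (fun α : Mon n (k * δ) => toLex (kapJ δ J α.1)),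
      ((Matrix.of fun α γ : Mon n (k * δ) => Y α.1 γ.1).toSquareBlock
        (fun α => toLex (kapJ δ J α.1)) a).det =
      ∏ κ ∈ Finset.univ.image (fun α : Mon n (k * δ) => kapJ δ J α.1),
        Th δ J Y ((k - κ.degree) * δ) := by
    have e1 : Finset.univ.image (fun α : Mon n (k * δ) => toLex (kapJ δ J α.1)) =
        (Finset.univ.image (fun α : Mon n (k * δ) => kapJ δ J α.1)).image toLex := by
      rw [Finset.image_image]; rfl
    rw [e1, Finset.prod_image (fun a _ b _ h => toLex.injective h)]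
    refine Finset.prod_congr rfl fun κ hκ => ?_
    obtain ⟨α, _, rfl⟩ := Finset.mem_image.mp hκ
    have hs := kap_support (δ := δ) J α.1
    have hd : (kapJ δ J α.1).degree ≤ k := by
      have h2 : (δ • kapJ δ J α.1).degree ≤ α.1.degree := by
        have h3 := tsub_add_cancel_of_le (kap_le (δ := δ) J α.1)
        have h4 := congrArg Finsupp.degree h3
        rw [map_add] at h4
        omega
      rw [degree_smul, α.deg, mul_comm] at h2
      exact Nat.le_of_mul_le_mul_right h2 hδ
    exact hY.det_block hδ hs (hD _ ((hmemB _).mpr ⟨hs, hd⟩))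
  rw [h1]
  have h2 : ∏ κ ∈ Finset.univ.image (fun α : Mon n (k * δ) => kapJ δ J α.1),
        Th δ J Y ((k - κ.degree) * δ) = ∏ κ ∈ B, Th δ J Y ((k - κ.degree) * δ) := by
    refine Finset.prod_subset ?_ ?_
    · intro κ hκ
      obtain ⟨α, _, rfl⟩ := Finset.mem_image.mp hκ
      rw [hmemB]
      refine ⟨kap_support J _, ?_⟩
      have h2 : (δ • kapJ δ J α.1).degree ≤ α.1.degree := by
        have h3 := tsub_add_cancel_of_le (kap_le (δ := δ) J α.1)
        have h4 := congrArg Finsupp.degree h3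
        rw [map_add] at h4
        omega
      rw [degree_smul, α.deg, mul_comm] at h2
      exact Nat.le_of_mul_le_mul_right h2 hδ
    · intro κ hκ hnot
      have hem : IsEmpty (WJ n δ J ((k - κ.degree) * δ)) := by
        constructor
        intro w
        apply hnot
        have := (blockEquiv hδ ((hmemB κ).mp hκ).1 (hD κ hκ)) w
        exact Finset.mem_image.mpr ⟨this.1, Finset.mem_univ _, toLex.injective this.2⟩
      rw [Th]
      exact Matrix.det_isEmpty
  rw [h2, hB, Finset.prod_biUnion]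
  · rw [star]
    refine Finset.prod_congr rfl fun m hm => ?_
    have h3 : ∀ κ ∈ J.finsuppAntidiag m, Th δ J Y ((k - κ.degree) * δ) = Th δ J Y ((k - m) * δ) := by
      intro κ hκ
      rw [Finset.mem_finsuppAntidiag] at hκ
      have : κ.degree = m := by
        rw [Finsupp.degree_apply, ← hκ.1]
        exact Finset.sum_subset hκ.2 fun x _ hx => by simpa using hx
      rw [this]
    rw [Finset.prod_congr rfl h3, Finset.prod_const, cn,
      Finset.card_finsuppAntidiag_nat_eq_multichoose, zpow_natCast]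
  · intro a _ b _ hab
    rw [Function.onFun, Finset.disjoint_left]
    intro κ h3 h4
    rw [Finset.mem_finsuppAntidiag] at h3 h4
    exact hab (h3.1.symm.trans h4.1)

end block

end AF23
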