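import Pool.Agent.AF23.Basic

/-! # Part A2 : multiplicative differences -/

namespace AF23

section diff

variable {K : Type*} [Field K]

/-- `r`-th multiplicative (backward) difference -/
noncomputable def md (r : ℕ) (a : ℕ → K) (k : ℕ) : K :=
  ∏ i ∈ Finset.range (r + 1), (a (k - i)) ^ ((-1 : ℤ) ^ i * (r.choose i : ℤ))

lemma md_zero (a : ℕ → K) (k : ℕ) : md 0 a k = a k := by simp [md]

lemma md_succ (r : ℕ) (a : ℕ → K) (ha : ∀ j, a j ≠ 0) (k : ℕ) :
    md (r + 1) a k = md r a k / md r a (k - 1) := by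
  have h1 : md r a k = ∏ i ∈ Finset.range (r + 2), (a (k - i)) ^ ((-1 : ℤ) ^ i * (r.choose i : ℤ)) := by
    rw [md, Finset.prod_range_succ _ (r + 1), Nat.choose_succ_self]
    simp
  rw [md, h1, Finset.prod_range_succ' _ (r + 1), Finset.prod_range_succ' _ (r + 1), md,
    div_eq_mul_inv, ← Finset.prod_inv_distrib]
  have h2 : ∀ i ∈ Finset.range (r + 1),
      a (k - (i + 1)) ^ ((-1 : ℤ) ^ (i + 1) * ((r + 1).choose (i + 1) : ℤ)) =
      a (k - (i + 1)) ^ ((-1 : ℤ) ^ (i + 1) * (r.choose (i + 1) : ℤ)) *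
        (a (k - 1 - i) ^ ((-1 : ℤ) ^ i * (r.choose i : ℤ)))⁻¹ := by
    intro i _
    have e1 : k - (i + 1) = k - 1 - i := by omega
    rw [e1, ← zpow_neg, ← zpow_add₀ (ha _), Nat.choose_succ_succ']
    congr 1
    push_cast
    ring
  rw [Finset.prod_congr rfl h2, Finset.prod_mul_distrib]
  simp only [Nat.sub_zero, pow_zero, Nat.choose_zero_right, Nat.cast_one, mul_one, one_mul]
  ring

lemma md_mul (r : ℕ) (a c : ℕ → K) (k : ℕ) :
    md r (fun j => a j * c j) k = md r a k * md r c k := by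
  simp only [md, mul_zpow, Finset.prod_mul_distrib]

lemma md_congr {r : ℕ} {a c : ℕ → K} {k : ℕ} (hk : r ≤ k)
    (h : ∀ i ≤ r, a (k - i) = c (k - i)) : md r a k = md r c k := by
  refine Finset.prod_congr rfl fun i hi => ?_
  rw [h i (by have := Finset.mem_range.mp hi; omega)]

lemma md_ne (r : ℕ) (a : ℕ → K) (ha : ∀ j, a j ≠ 0) (k : ℕ) : md r a k ≠ 0 :=
  Finset.prod_ne_zero_iff.mpr fun _ _ => zpow_ne_zero _ (ha _)

/-- convolution of a weight with a sequence -/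
noncomputable def star (w : ℕ → ℤ) (θ : ℕ → K) (j : ℕ) : K :=
  ∏ m ∈ Finset.range (j + 1), θ (j - m) ^ w m

/-- difference of a weight -/
def nab (w : ℕ → ℤ) : ℕ → ℤ
  | 0 => w 0
  | m + 1 => w (m + 1) - w m

lemma star_ne (w : ℕ → ℤ) (θ : ℕ → K) (hθ : ∀ j, θ j ≠ 0) (j : ℕ) : star w θ j ≠ 0 :=
  Finset.prod_ne_zero_iff.mpr fun _ _ => zpow_ne_zero _ (hθ _)

lemma star_div (w : ℕ → ℤ) (θ : ℕ → K) (hθ : ∀ j, θ j ≠ 0) (j : ℕ) :
    star w θ (j + 1) / star w θ j = star (nab w) θ (j + 1) := by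
  rw [star, star, star, Finset.prod_range_succ' _ (j + 1), Finset.prod_range_succ' _ (j + 1),
    div_eq_mul_inv, ← Finset.prod_inv_distrib]
  have h : ∀ m ∈ Finset.range (j + 1), θ (j + 1 - (m + 1)) ^ nab w (m + 1) =
      θ (j + 1 - (m + 1)) ^ w (m + 1) * (θ (j - m) ^ w m)⁻¹ := by
    intro m _
    have e1 : j + 1 - (m + 1) = j - m := by omega
    rw [e1, ← zpow_neg, ← zpow_add₀ (hθ _)]
    congr 1
  rw [Finset.prod_congr rfl h, Finset.prod_mul_distrib]
  have e0 : nab w 0 = w 0 := rfl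
  rw [e0]
  ring

lemma md_star (θ : ℕ → K) (hθ : ∀ j, θ j ≠ 0) (r : ℕ) : ∀ (w : ℕ → ℤ) (k : ℕ), r ≤ k →
    md r (star w θ) k = star (nab^[r] w) θ k := by
  induction r with
  | zero => intro w k _; rw [md_zero]; rfl
  | succ r ih =>
    intro w k hk
    obtain ⟨k, rfl⟩ : ∃ k', k = k' + 1 := ⟨k - 1, by omega⟩
    rw [md_succ _ _ (star_ne w θ hθ), Nat.add_sub_cancel, ih w _ (by omega), ih w _ (by omega),
      star_div _ _ hθ, Function.iterate_succ_apply']

/-- the weights `C(n+m-1, m)` -/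
def cn (n : ℕ) (m : ℕ) : ℤ := (Nat.multichoose n m : ℤ)

lemma nab_cn (n : ℕ) : nab (cn (n + 1)) = cn n := by
  funext m
  cases m with
  | zero => simp [nab, cn]
  | succ m =>
    simp only [nab, cn]
    rw [Nat.multichoose_succ_succ]
    push_cast
    ring

lemma nab_iter_cn (n : ℕ) : ∀ r, nab^[r] (cn (n + r)) = cn n := by
  intro r
  induction r with
  | zero => rfl
  | succ r ih =>
    rw [Function.iterate_succ_apply, ← add_assoc, nab_cn, ih]

lemma star_cn_zero (θ : ℕ → K) (k : ℕ) : star (cn 0) θ k = θ k := by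
  rw [star, Finset.prod_range_succ' _ k]
  have h : ∀ m ∈ Finset.range k, θ (k - (m + 1)) ^ cn 0 (m + 1) = 1 := by
    intro m _
    simp [cn]
  rw [Finset.prod_congr rfl h]
  simp [cn]

lemma md_star_cn (n : ℕ) (θ : ℕ → K) (hθ : ∀ j, θ j ≠ 0) {k : ℕ} (hk : n ≤ k) :
    md n (star (cn n) θ) k = θ k := by
  rw [md_star θ hθ n _ k hk]
  have := nab_iter_cn 0 n
  rw [zero_add] at this
  rw [this, star_cn_zero]

lemma md_star_cn' (r : ℕ) (θ : ℕ → K) (hθ : ∀ j, θ j ≠ 0) {k : ℕ} (hk : r + 1 ≤ k) :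
    md (r + 1) (star (cn r) θ) k = θ k / θ (k - 1) := by
  rw [md_succ _ _ (star_ne _ θ hθ), md_star_cn r θ hθ (by omega), md_star_cn r θ hθ (by omega)]

/-- shift of a weight -/
def shw (w : ℕ → ℤ) : ℕ → ℤ
  | 0 => 0
  | m + 1 => w m

lemma nab_shw (w : ℕ → ℤ) : nab (shw w) = shw (nab w) := by
  funext m
  rcases m with _ | _ | m
  · rfl
  · simp [nab, shw]
  · simp [nab, shw]

lemma nab_iter_shw (w : ℕ → ℤ) : ∀ r, nab^[r] (shw w) = shw (nab^[r] w) := by
  intro r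
  induction r with
  | zero => rfl
  | succ r ih => rw [Function.iterate_succ_apply', ih, nab_shw, Function.iterate_succ_apply']

lemma star_shw_cn_one (θ : ℕ → K) (k : ℕ) : star (shw (cn 1)) θ k = ∏ j ∈ Finset.range k, θ j := by
  rw [star, Finset.prod_range_succ' _ k]
  have h : ∀ m ∈ Finset.range k, θ (k - (m + 1)) ^ shw (cn 1) (m + 1) = θ (k - 1 - m) := by
    intro m _
    have e1 : k - (m + 1) = k - 1 - m := by omega
    rw [e1]
    simp [shw, cn]
  rw [Finset.prod_congr rfl h, Finset.prod_range_reflect]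
  simp [shw]

lemma md_star_shw (n : ℕ) (θ : ℕ → K) (hθ : ∀ j, θ j ≠ 0) {k : ℕ} (hk : n ≤ k) :
    md n (star (shw (cn (n + 1))) θ) k = ∏ j ∈ Finset.range k, θ j := by
  rw [md_star θ hθ n _ k hk, nab_iter_shw]
  have := nab_iter_cn 1 n
  rw [add_comm] at this
  rw [this, star_shw_cn_one]

end diff

end AF23
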