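import Pool.Agent.AF23.A2Res

/-! # Part A2 : exchange of one component -/

namespace AF23

open MvPolynomial

variable {n δ : ℕ}

section exch

lemma kap_add_single (i0 : Fin n) (α : Fin n →₀ ℕ) (a : ℕ) :
    kapJ δ (Finset.univ.erase i0) (α + Finsupp.single i0 a) = kapJ δ (Finset.univ.erase i0) α := by
  classical
  ext i
  rw [kap_apply, kap_apply]
  by_cases hi : i = i0
  · subst hi; simp
  · simp [Ne.symm hi]

lemma lt_of_kap_eq_zero (hδ : 0 < δ) {J : Finset (Fin n)} {α : Fin n →₀ ℕ} (h : kapJ δ J α = 0)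
    {i : Fin n} (hi : i ∈ J) : α i < δ := by
  have h1 := DFunLike.congr_fun h i
  rw [kap_apply, if_pos hi, Finsupp.zero_apply, Nat.div_eq_zero_iff] at h1
  omega

lemma WJ_le (hδ : 0 < δ) (i0 : Fin n) {e : ℕ} (he : (n - 1) * (δ - 1) ≤ e)
    (w : WJ n δ (Finset.univ.erase i0) (e + δ)) : Finsupp.single i0 δ ≤ w.1.1 := by
  classical
  rw [Finsupp.single_le_iff]
  have h1 := w.1.deg
  rw [Finsupp.degree_eq_sum, ← Finset.add_sum_erase _ _ (Finset.mem_univ i0)] at h1
  have h2 : ∑ i ∈ Finset.univ.erase i0, w.1.1 i ≤ ∑ _i ∈ Finset.univ.erase i0, (δ - 1) :=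
    Finset.sum_le_sum fun i hi => by
      have := lt_of_kap_eq_zero hδ w.2 hi
      omega
  rw [Finset.sum_const, Finset.card_erase_of_mem (Finset.mem_univ i0), Finset.card_univ,
    Fintype.card_fin, smul_eq_mul] at h2
  omega

/-- shift of reduced exponents in the direction `i0` -/
noncomputable def shEquiv (hδ : 0 < δ) (i0 : Fin n) {e : ℕ} (he : (n - 1) * (δ - 1) ≤ e) :
    WJ n δ (Finset.univ.erase i0) e ≃ WJ n δ (Finset.univ.erase i0) (e + δ) where
  toFun w := ⟨⟨w.1.1 + Finsupp.single i0 δ, mem_Mon.2 (by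
    rw [map_add, w.1.deg, Finsupp.degree_single])⟩, by
      rw [kap_add_single, w.2]⟩
  invFun w := ⟨⟨w.1.1 - Finsupp.single i0 δ, mem_Mon.2 (by
      have h2 := tsub_add_cancel_of_le (WJ_le hδ i0 he w)
      have h3 := congrArg Finsupp.degree h2
      rw [map_add, Finsupp.degree_single, w.1.deg] at h3
      omega)⟩, by
      have h2 := tsub_add_cancel_of_le (WJ_le hδ i0 he w)
      have h3 := kap_add_single (δ := δ) i0 (w.1.1 - Finsupp.single i0 δ) δ
      rw [h2, w.2] at h3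
      exact h3.symm⟩
  left_inv w := by
    apply Subtype.ext
    apply Subtype.ext
    simp
  right_inv w := by
    apply Subtype.ext
    apply Subtype.ext
    exact tsub_add_cancel_of_le (WJ_le hδ i0 he w)

variable {K : Type*} [Field K] {f : Fin n → MvPolynomial (Fin n) K}
  {b : (Fin n →₀ ℕ) → MvPolynomial (Fin n) K}

lemma Ev_add_single_delta (hδ : 0 < δ) (α : Fin n →₀ ℕ) (i : Fin n) :
    Ev δ f b (α + Finsupp.single i δ) = f i * Ev δ f b α := by
  classical
  have h2 : δ • (Finsupp.single i 1 : Fin n →₀ ℕ) = Finsupp.single i δ := by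
    simp [Finsupp.smul_single]
  rw [← h2, Ev_add hδ]
  congr 1
  rw [Finset.prod_eq_single i]
  · simp
  · intro j _ hj; simp [hj.symm]
  · simp

lemma Good.co_mul_add_single (G : Good δ f b) (hδ : 0 < δ) (i : Fin n)
    (h : MvPolynomial (Fin n) K) (α : Fin n →₀ ℕ) :
    G.co (f i * h) (α + Finsupp.single i δ) = G.co h α := by
  classical
  have h1 := G.co_pow_mul hδ i 1 h (α + Finsupp.single i δ)
  rw [pow_one, mul_one] at h1
  rw [h1, if_pos (by simp), add_tsub_cancel_right]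

lemma Good.co_mul_eq_zero_of_lt (G : Good δ f b) (hδ : 0 < δ) (i : Fin n)
    (h : MvPolynomial (Fin n) K) {α : Fin n →₀ ℕ} (hα : α i < δ) :
    G.co (f i * h) α = 0 := by
  classical
  have h1 := G.co_pow_mul hδ i 1 h α
  rw [pow_one, mul_one] at h1
  rw [h1, if_neg (by omega)]

/-- matrix of multiplication by `h` modulo the `f_j`, `j ≠ i0` -/
noncomputable def Good.mm (G : Good δ f b) (h : MvPolynomial (Fin n) K) (i0 : Fin n) (e : ℕ) : K :=
  Matrix.det (Matrix.of fun β γ : WJ n δ (Finset.univ.erase i0) e =>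
    G.co (h * Ev δ f b β.1.1) (γ.1.1 + Finsupp.single i0 δ))

lemma Good.mm_succ (G : Good δ f b) (hδ : 0 < δ) (h : MvPolynomial (Fin n) K) (i0 : Fin n)
    {e : ℕ} (he : (n - 1) * (δ - 1) ≤ e) : G.mm h i0 (e + δ) = G.mm h i0 e := by
  classical
  rw [Good.mm, ← Matrix.det_submatrix_equiv_self (shEquiv hδ i0 he), Good.mm]
  refine congrArg Matrix.det ?_
  ext β γ
  simp only [Matrix.submatrix_apply, Matrix.of_apply, shEquiv, Equiv.coe_fn_mk]
  rw [Ev_add_single_delta hδ, mul_left_comm, G.co_mul_add_single hδ]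

lemma Good.Th_succ (G : Good δ f b) (hδ : 0 < δ) {f' : Fin n → MvPolynomial (Fin n) K}
    {b' : (Fin n →₀ ℕ) → MvPolynomial (Fin n) K} (G' : Good δ f' b') (i0 : Fin n)
    {e : ℕ} (he : (n - 1) * (δ - 1) ≤ e) :
    Th δ (Finset.univ.erase i0) (G.tr f' b') (e + δ) =
      Th δ (Finset.univ.erase i0) (G.tr f' b') e * G.mm (f' i0) i0 e := by
  classical
  rw [Th, ← Matrix.det_submatrix_equiv_self (shEquiv hδ i0 he), Th, Good.mm, ← Matrix.det_mul]
  refine congrArg Matrix.det ?_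
  ext α γ
  simp only [Matrix.submatrix_apply, Matrix.of_apply, shEquiv, Equiv.coe_fn_mk, Matrix.mul_apply]
  have hE := G'.isHomogeneous_Ev hδ α.1.1
  rw [α.1.deg] at hE
  rw [Good.tr, Ev_add_single_delta hδ]
  conv_lhs => rw [G.sum_co_hom hδ hE]
  rw [Finset.mul_sum, G.co_sum]
  simp only [mul_smul_comm, G.co_smul]
  have hp : ∀ β : Mon n e, G.co (Ev δ f' b' α.1.1) β.1 *
      G.co (f' i0 * Ev δ f b β.1) (γ.1.1 + Finsupp.single i0 δ) ≠ 0 →
      kapJ δ (Finset.univ.erase i0) β.1 = 0 := by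
    intro β hβ
    by_contra hk
    apply hβ
    obtain ⟨i, hi⟩ : ∃ i, kapJ δ (Finset.univ.erase i0) β.1 i ≠ 0 := by
      by_contra hcon
      push Not at hcon
      exact hk (Finsupp.ext hcon)
    rw [kap_apply] at hi
    have hiJ : i ∈ Finset.univ.erase i0 := by
      by_contra h; exact hi (if_neg h)
    rw [if_pos hiJ] at hi
    have hle : Finsupp.single i δ ≤ β.1 := by
      rw [Finsupp.single_le_iff]
      by_contra hcon
      exact hi (Nat.div_eq_of_lt (by omega))
    have h1 : Ev δ f b β.1 = f i * Ev δ f b (β.1 - Finsupp.single i δ) := by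
      rw [← Ev_add_single_delta hδ, tsub_add_cancel_of_le hle]
    rw [h1, mul_left_comm, G.co_mul_eq_zero_of_lt hδ, mul_zero]
    have h2 : (Finsupp.single i0 δ : Fin n →₀ ℕ) i = 0 := by
      rw [Finsupp.single_apply, if_neg]
      exact fun h => (Finset.ne_of_mem_erase hiJ) h.symm
    rw [Finsupp.add_apply, h2, add_zero]
    exact lt_of_kap_eq_zero hδ γ.2 hiJ
  rw [← Finset.sum_filter_of_ne (p := fun β : Mon n e => kapJ δ (Finset.univ.erase i0) β.1 = 0)
    (fun β _ hβ => hp β hβ)]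
  exact Finset.sum_subtype _ (by simp) _

/-- exchange of one component multiplies all `ResAt` by the same constant -/
lemma Good.resAt_exchange (hn : 1 ≤ n) (hδ : 1 ≤ δ) (G : Good δ f b)
    {f' : Fin n → MvPolynomial (Fin n) K}
    {b' : (Fin n →₀ ℕ) → MvPolynomial (Fin n) K} (G' : Good δ f' b') (i0 : Fin n)
    (hf : ∀ i, i ≠ i0 → f' i = f i) (k : ℕ) (hk : n ≤ k) :
    ResAt δ f' b' k = G.mm (f' i0) i0 ((n - 1) * δ) * ResAt δ f b k := by
  classical
  set J := (Finset.univ : Finset (Fin n)).erase i0 with hJdef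
  have hJ : ∀ i ∈ J, f' i = f i := fun i hi => hf i (Finset.ne_of_mem_erase hi)
  set θ : ℕ → K := fun j => Th δ J (G.tr f' b') (j * δ) with hθ
  have hθ0 : ∀ j, θ j ≠ 0 := fun j => G.Th_ne hδ G' J hJ j
  have hcard : J.card = n - 1 := by
    rw [hJdef, Finset.card_erase_of_mem (Finset.mem_univ i0), Finset.card_univ, Fintype.card_fin]
  have hb : ∀ j, n - 1 ≤ j → (n - 1) * (δ - 1) ≤ j * δ := fun j hj =>
    Nat.mul_le_mul hj (Nat.sub_le _ _)
  have hstep : ∀ j, n - 1 ≤ j → θ (j + 1) = θ j * G.mm (f' i0) i0 (j * δ) := by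
    intro j hj
    have := G.Th_succ hδ G' i0 (hb j hj)
    rw [← hJdef] at this
    rw [← this]
    simp only [hθ]
    rw [Nat.succ_mul]
  have hmm : ∀ j, n - 1 ≤ j → G.mm (f' i0) i0 (j * δ) = G.mm (f' i0) i0 ((n - 1) * δ) := by
    intro j hj
    induction j, hj using Nat.le_induction with
    | base => rfl
    | succ j hj ih =>
      rw [← ih, Nat.succ_mul]
      exact G.mm_succ hδ (f' i0) i0 (hb j hj)
  have h1 : (fun j => T δ f' b' (j * δ)) = fun j => star (cn (n - 1)) θ j * T δ f b (j * δ) := by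
    funext j
    have := G.T_compare hδ G' J hJ j
    rw [hcard] at this
    exact this
  have h2 : ResAt δ f' b' k = md n (fun j => T δ f' b' (j * δ)) k := rfl
  have h3 : ResAt δ f b k = md n (fun j => T δ f b (j * δ)) k := rfl
  rw [h2, h1, h3, md_mul n (fun j => star (cn (n - 1)) θ j) (fun j => T δ f b (j * δ)) k]
  have h5 : md n (fun j => star (cn (n - 1)) θ j) k = G.mm (f' i0) i0 ((n - 1) * δ) := by
    have h4 : md n (fun j => star (cn (n - 1)) θ j) k = θ k / θ (k - 1) := by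
      have h6 := md_star_cn' (n - 1) θ hθ0 (k := k) (by omega)
      rw [Nat.sub_add_cancel hn] at h6
      exact h6
    rw [h4]
    obtain ⟨k, rfl⟩ : ∃ k', k = k' + 1 := ⟨k - 1, by omega⟩
    rw [Nat.add_sub_cancel k 1, hstep k (by omega), hmm k (by omega), mul_comm,
      mul_div_cancel_right₀ _ (hθ0 k)]
  rw [h5]

/-- stability of `ResAt` is preserved by exchange -/
lemma Good.stable_exchange (hn : 1 ≤ n) (hδ : 1 ≤ δ) (G : Good δ f b)
    {f' : Fin n → MvPolynomial (Fin n) K}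
    {b' : (Fin n →₀ ℕ) → MvPolynomial (Fin n) K} (G' : Good δ f' b') (i0 : Fin n)
    (hf : ∀ i, i ≠ i0 → f' i = f i) (hst : ∀ k, n ≤ k → ResAt δ f b k = ResAt δ f b n)
    (k : ℕ) (hk : n ≤ k) : ResAt δ f' b' k = ResAt δ f' b' n := by
  rw [G.resAt_exchange hn hδ G' i0 hf k hk, G.resAt_exchange hn hδ G' i0 hf n le_rfl, hst k hk]

end exch

end AF23
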