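import Pool.Agent.AF23.A2Exch

/-! # Part A2 : linear combinations of the tuple -/

namespace AF23

open MvPolynomial

variable {n δ : ℕ}

section lin

lemma card_WJ (hδ : 0 < δ) (i0 : Fin n) :
    Fintype.card (WJ n δ (Finset.univ.erase i0) ((n - 1) * δ)) = δ ^ (n - 1) := by
  classical
  have hlt : ∀ w : WJ n δ (Finset.univ.erase i0) ((n - 1) * δ), ∀ i : {i : Fin n // i ≠ i0},
      w.1.1 i.1 < δ := fun w i =>
    lt_of_kap_eq_zero hδ w.2 (Finset.mem_erase.mpr ⟨i.2, Finset.mem_univ _⟩)
  have hsplit : ∀ α : Fin n →₀ ℕ, α.degree = α i0 + ∑ i : {i : Fin n // i ≠ i0}, α i.1 := by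
    intro α
    rw [Finsupp.degree_eq_sum, ← Finset.add_sum_erase _ _ (Finset.mem_univ i0)]
    congr 1
    exact Finset.sum_subtype _ (by simp) _
  have hc : Fintype.card {i : Fin n // i ≠ i0} = n - 1 := by
    rw [Fintype.card_subtype, Finset.filter_ne', Finset.card_erase_of_mem (Finset.mem_univ _),
      Finset.card_univ, Fintype.card_fin]
  have hb : Function.Bijective (fun (w : WJ n δ (Finset.univ.erase i0) ((n - 1) * δ))
      (i : {i : Fin n // i ≠ i0}) => (⟨w.1.1 i.1, hlt w i⟩ : Fin δ)) := by
    constructor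
    · intro w w' h
      have h1 : ∀ i : {i : Fin n // i ≠ i0}, w.1.1 i.1 = w'.1.1 i.1 := fun i => by
        have := congrFun h i
        exact Fin.ext_iff.mp this
      apply Subtype.ext
      apply Subtype.ext
      ext i
      by_cases hi : i = i0
      · subst hi
        have h2 := hsplit w.1.1
        have h3 := hsplit w'.1.1
        rw [w.1.deg] at h2
        rw [w'.1.deg] at h3
        have h4 : ∑ i : {j : Fin n // j ≠ i}, w.1.1 i.1 = ∑ i : {j : Fin n // j ≠ i}, w'.1.1 i.1 :=
          Finset.sum_congr rfl fun i _ => h1 i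
        omega
      · exact h1 ⟨i, hi⟩
    · intro g
      set s := ∑ i : {i : Fin n // i ≠ i0}, (g i : ℕ) with hs
      have hsle : s ≤ (n - 1) * δ := by
        have : s ≤ ∑ _i : {i : Fin n // i ≠ i0}, δ := Finset.sum_le_sum fun i _ => (g i).2.le
        rwa [Finset.sum_const, Finset.card_univ, hc, smul_eq_mul] at this
      set α : Fin n →₀ ℕ := Finsupp.equivFunOnFinite.symm
        (fun i => if h : i ≠ i0 then (g ⟨i, h⟩ : ℕ) else (n - 1) * δ - s) with hα
      have hα1 : ∀ i : {i : Fin n // i ≠ i0}, α i.1 = g i := by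
        intro i
        rw [hα, Finsupp.equivFunOnFinite_symm_apply_apply, dif_pos i.2]
      have hα0 : α i0 = (n - 1) * δ - s := by
        rw [hα, Finsupp.equivFunOnFinite_symm_apply_apply, dif_neg (by simp)]
      have hdeg : α.degree = (n - 1) * δ := by
        rw [hsplit α, hα0, Finset.sum_congr rfl fun i _ => hα1 i]
        omega
      have hkap : kapJ δ (Finset.univ.erase i0) α = 0 := by
        ext i
        rw [kap_apply, Finsupp.zero_apply]
        split_ifs with hi
        · rw [hα1 ⟨i, Finset.ne_of_mem_erase hi⟩]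
          exact Nat.div_eq_of_lt (g _).2
        · rfl
      refine ⟨⟨⟨α, mem_Mon.2 hdeg⟩, hkap⟩, ?_⟩
      funext i
      exact Fin.ext (hα1 i)
  rw [Fintype.card_of_bijective hb, Fintype.card_fun, Fintype.card_fin, hc]

variable {K : Type*} [Field K] {f : Fin n → MvPolynomial (Fin n) K}
  {b : (Fin n →₀ ℕ) → MvPolynomial (Fin n) K}

lemma lin_mul (A B : Matrix (Fin n) (Fin n) K) (f : Fin n → MvPolynomial (Fin n) K) :
    lin (A * B) f = lin A (lin B f) := by
  funext i
  simp only [lin, Matrix.mul_apply, map_sum, map_mul, Finset.sum_mul, Finset.mul_sum]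
  rw [Finset.sum_comm]
  exact Finset.sum_congr rfl fun k _ => Finset.sum_congr rfl fun j _ => by ring

lemma isTuple_lin (hf : IsTuple δ f) (A : Matrix (Fin n) (Fin n) K) : IsTuple δ (lin A f) := by
  intro i
  refine IsHomogeneous.sum _ _ _ fun j _ => ?_
  have := (isHomogeneous_C (Fin n) (A i j)).mul (hf j)
  rwa [zero_add] at this

lemma Good.T_trans (G : Good δ f b) (hδ : 0 < δ) {f' : Fin n → MvPolynomial (Fin n) K}
    (hf' : IsTuple δ f') {b' : (Fin n →₀ ℕ) → MvPolynomial (Fin n) K}
    (hb' : ∀ ν : Fin n →₀ ℕ, (∀ i, ν i < δ) → (b' ν).IsHomogeneous ν.degree) (D : ℕ) :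
    T δ f' b' D = (Matrix.of fun α γ : Mon n D => G.tr f' b' α.1 γ.1).det * T δ f b D := by
  rw [T_eq, G.det_cmat hδ _ (fun α => by
    have := Ev_isHomogeneous hδ hf' hb' α.1
    rwa [α.deg] at this)]
  rfl

lemma lin_diagonal (d : Fin n → K) (f : Fin n → MvPolynomial (Fin n) K) (i : Fin n) :
    lin (Matrix.diagonal d) f i = C (d i) * f i := by
  rw [lin, Finset.sum_eq_single i]
  · rw [Matrix.diagonal_apply_eq]
  · intro j _ hj
    rw [Matrix.diagonal_apply_ne _ hj.symm, map_zero, zero_mul]
  · intro h; exact absurd (Finset.mem_univ i) h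

lemma Ev_lin_diagonal (d : Fin n → K) (α : Fin n →₀ ℕ) :
    Ev δ (lin (Matrix.diagonal d) f) b α = (∏ i, d i ^ divF δ α i) • Ev δ f b α := by
  rw [Ev, Ev, smul_eq_C_mul, map_prod]
  simp only [lin_diagonal, mul_pow, Finset.prod_mul_distrib, map_pow]
  ring

lemma Good.good_diagonal (G : Good δ f b) (hδ : 0 < δ) (d : Fin n → K) (hd : ∀ i, d i ≠ 0) :
    Good δ (lin (Matrix.diagonal d) f) b := by
  classical
  have hf' := isTuple_lin G.fhom (Matrix.diagonal d)
  refine good_of_T_all hδ hf' G.bhom fun D => ?_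
  rw [G.T_trans hδ hf' G.bhom D]
  refine mul_ne_zero ?_ (G.T_ne_zero hδ D)
  have h1 : (Matrix.of fun α γ : Mon n D => G.tr (lin (Matrix.diagonal d) f) b α.1 γ.1) =
      Matrix.diagonal fun α : Mon n D => ∏ i, d i ^ divF δ α.1 i := by
    ext α γ
    rw [Matrix.of_apply, Good.tr, Ev_lin_diagonal, G.co_smul, G.co_Ev, Matrix.diagonal_apply]
    by_cases h : α = γ
    · subst h; simp
    · rw [if_neg h, if_neg (fun h' => h (Subtype.ext h')), mul_zero]
  rw [h1, Matrix.det_diagonal]
  exact Finset.prod_ne_zero_iff.mpr fun α _ => Finset.prod_ne_zero_iff.mpr fun i _ =>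
    pow_ne_zero _ (hd i)

lemma lin_transvection (i j : Fin n) (c : K) (f : Fin n → MvPolynomial (Fin n) K) (l : Fin n) :
    lin (Matrix.transvection i j c) f l = f l + if l = i then C c * f j else 0 := by
  classical
  rw [lin]
  simp only [Matrix.transvection, Matrix.add_apply, map_add, add_mul, Finset.sum_add_distrib]
  congr 1
  · rw [Finset.sum_eq_single l]
    · simp
    · intro m _ hm
      rw [Matrix.one_apply_ne hm.symm, map_zero, zero_mul]
    · intro h; exact absurd (Finset.mem_univ l) h
  · rw [Finset.sum_eq_single j]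
    · by_cases hl : l = i
      · subst hl; simp
      · rw [if_neg hl, Matrix.single_apply, if_neg (fun h => hl h.1.symm), map_zero, zero_mul]
    · intro m _ hm
      rw [Matrix.single_apply, if_neg (fun h => hm h.2.symm), map_zero, zero_mul]
    · intro h; exact absurd (Finset.mem_univ j) h

lemma Ev_add_single_mul (hδ : 0 < δ) (α : Fin n →₀ ℕ) (i : Fin n) (a : ℕ) :
    Ev δ f b (α + Finsupp.single i (δ * a)) = f i ^ a * Ev δ f b α := by
  classical
  have h2 : δ • (Finsupp.single i a : Fin n →₀ ℕ) = Finsupp.single i (δ * a) := by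
    simp [Finsupp.smul_single]
  rw [← h2, Ev_add hδ]
  congr 1
  rw [Finset.prod_eq_single i]
  · simp
  · intro j _ hj; simp [hj.symm]
  · simp

lemma Good.tr_transvection (G : Good δ f b) (hδ : 0 < δ) {i j : Fin n} (hij : i ≠ j) (c : K)
    {α γ : Fin n →₀ ℕ} (h : α i ≤ γ i) :
    G.tr (lin (Matrix.transvection i j c) f) b α γ = if α = γ then 1 else 0 := by
  classical
  set a := α i / δ with ha
  have hle : Finsupp.single i (δ * a) ≤ α := by
    rw [Finsupp.single_le_iff]
    exact Nat.mul_div_le _ _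
  set α0 := α - Finsupp.single i (δ * a) with hα0
  have hα : α0 + Finsupp.single i (δ * a) = α := tsub_add_cancel_of_le hle
  have hα0i : α0 i + δ * a = α i := by
    have := DFunLike.congr_fun hα i
    simpa using this
  have h0 : Ev δ (lin (Matrix.transvection i j c) f) b α0 = Ev δ f b α0 := by
    rw [Ev, Ev]
    congr 1
    refine Finset.prod_congr rfl fun l _ => ?_
    by_cases hl : l = i
    · subst hl
      have : divF δ α0 l = 0 := by
        rw [divF_apply]
        apply Nat.div_eq_of_lt
        have h1 : α l % δ + δ * a = α l := Nat.mod_add_div (α l) δ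
        have h2 := Nat.mod_lt (α l) hδ
        omega
      rw [this, pow_zero, pow_zero]
    · rw [lin_transvection, if_neg hl, add_zero]
  have h1 : Ev δ (lin (Matrix.transvection i j c) f) b α =
      ∑ m ∈ Finset.range (a + 1), (c ^ (a - m) * (a.choose m : K)) •
        Ev δ f b (α0 + Finsupp.single j (δ * (a - m)) + Finsupp.single i (δ * m)) := by
    conv_lhs => rw [← hα]
    rw [Ev_add_single_mul hδ, h0, lin_transvection, if_pos rfl, add_pow, Finset.sum_mul]
    refine Finset.sum_congr rfl fun m _ => ?_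
    rw [Ev_add_single_mul hδ, Ev_add_single_mul hδ, smul_eq_C_mul, map_mul, map_pow, mul_pow,
      map_natCast]
    ring
  rw [Good.tr, h1, G.co_sum]
  simp only [G.co_smul, G.co_Ev]
  rw [Finset.sum_eq_single_of_mem a (Finset.mem_range.mpr (Nat.lt_succ_self a))]
  · rw [Nat.sub_self, mul_zero, Finsupp.single_zero, add_zero, hα, pow_zero, Nat.choose_self,
      Nat.cast_one, one_mul, one_mul]
  · intro m hm hma
    rw [if_neg, mul_zero]
    intro hcon
    have h2 := DFunLike.congr_fun hcon i
    simp only [Finsupp.add_apply, Finsupp.single_eq_same] at h2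
    rw [Finsupp.single_apply, if_neg (Ne.symm hij)] at h2
    have h3 : δ * m < δ * a := Nat.mul_lt_mul_of_pos_left
      (by have := Finset.mem_range.mp hm; omega) hδ
    omega

/-- `T` is invariant under transvections -/
lemma Good.T_transvection (G : Good δ f b) (hδ : 0 < δ) {i j : Fin n} (hij : i ≠ j) (c : K)
    (D : ℕ) : T δ (lin (Matrix.transvection i j c) f) b D = T δ f b D := by
  classical
  rw [G.T_trans hδ (isTuple_lin G.fhom _) G.bhom D]
  have hbt : (Matrix.of fun α γ : Mon n D =>
      G.tr (lin (Matrix.transvection i j c) f) b α.1 γ.1).BlockTriangular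
        (fun α => OrderDual.toDual (α.1 i)) := by
    intro α γ h
    have h' : α.1 i < γ.1 i := OrderDual.toDual_lt_toDual.mp h
    rw [Matrix.of_apply, G.tr_transvection hδ hij c h'.le, if_neg]
    intro hc
    rw [hc] at h'
    exact lt_irrefl _ h'
  have h1 : (Matrix.of fun α γ : Mon n D =>
      G.tr (lin (Matrix.transvection i j c) f) b α.1 γ.1).det = 1 := by
    rw [hbt.det]
    refine Finset.prod_eq_one fun a _ => ?_
    have h2 : (Matrix.of fun α γ : Mon n D =>
      G.tr (lin (Matrix.transvection i j c) f) b α.1 γ.1).toSquareBlock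
        (fun α => OrderDual.toDual (α.1 i)) a = 1 := by
      ext α γ
      rw [Matrix.toSquareBlock_def, Matrix.of_apply, Matrix.of_apply]
      have h3 : α.1.1 i = γ.1.1 i := by
        have := α.2.trans γ.2.symm
        exact OrderDual.toDual.injective this
      rw [G.tr_transvection hδ hij c h3.le, Matrix.one_apply]
      by_cases h : α = γ
      · rw [if_pos h, if_pos (by rw [h])]
      · rw [if_neg h, if_neg (fun h' => h (Subtype.ext (Subtype.ext h')))]
    rw [h2, Matrix.det_one]
  rw [h1, one_mul]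

lemma Good.good_transvection (G : Good δ f b) (hδ : 0 < δ) {i j : Fin n} (hij : i ≠ j) (c : K) :
    Good δ (lin (Matrix.transvection i j c) f) b := by
  refine good_of_T_all hδ (isTuple_lin G.fhom _) G.bhom fun D => ?_
  rw [G.T_transvection hδ hij c D]
  exact G.T_ne_zero hδ D

lemma Good.resAt_transvection (G : Good δ f b) (hδ : 0 < δ) {i j : Fin n} (hij : i ≠ j) (c : K)
    (k : ℕ) : ResAt δ (lin (Matrix.transvection i j c) f) b k = ResAt δ f b k := by
  simp only [ResAt, G.T_transvection hδ hij c]

/-- matrices for which the transformation rule holds -/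
def LinOK (δ : ℕ) (C : Matrix (Fin n) (Fin n) K) : Prop :=
  ∀ (f : Fin n → MvPolynomial (Fin n) K) (b : (Fin n →₀ ℕ) → MvPolynomial (Fin n) K),
    Good δ f b → Good δ (lin C f) b ∧
      ∀ k, n ≤ k → ResAt δ (lin C f) b k = C.det ^ (δ ^ (n - 1)) * ResAt δ f b k

lemma LinOK.mul {A B : Matrix (Fin n) (Fin n) K} (hA : LinOK δ A) (hB : LinOK δ B) :
    LinOK δ (A * B) := by
  intro f b G
  obtain ⟨G1, h1⟩ := hB f b G
  obtain ⟨G2, h2⟩ := hA _ b G1
  rw [lin_mul]
  refine ⟨G2, fun k hk => ?_⟩
  rw [h2 k hk, h1 k hk, Matrix.det_mul, mul_pow, mul_assoc]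

lemma lin_one (f : Fin n → MvPolynomial (Fin n) K) : lin 1 f = f := by
  funext i
  rw [← Matrix.diagonal_one, lin_diagonal]
  simp

lemma linOK_one : LinOK δ (1 : Matrix (Fin n) (Fin n) K) := by
  intro f b G
  rw [lin_one]
  refine ⟨G, fun k _ => ?_⟩
  rw [Matrix.det_one, one_pow, one_mul]

lemma linOK_single (hn : 1 ≤ n) (hδ : 0 < δ) (i0 : Fin n) {c : K} (hc : c ≠ 0) :
    LinOK δ (Matrix.diagonal (Function.update (1 : Fin n → K) i0 c)) := by
  classical
  intro f b G
  have hd : ∀ i, Function.update (1 : Fin n → K) i0 c i ≠ 0 := by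
    intro i
    by_cases hi : i = i0
    · subst hi; rw [Function.update_self]; exact hc
    · rw [Function.update_of_ne hi]; exact one_ne_zero
  have G' := G.good_diagonal hδ _ hd
  refine ⟨G', fun k hk => ?_⟩
  have hf : ∀ i, i ≠ i0 → lin (Matrix.diagonal (Function.update (1 : Fin n → K) i0 c)) f i = f i := by
    intro i hi
    rw [lin_diagonal, Function.update_of_ne hi, Pi.one_apply, map_one, one_mul]
  rw [G.resAt_exchange hn hδ G' i0 hf k hk]
  have hm : G.mm (lin (Matrix.diagonal (Function.update (1 : Fin n → K) i0 c)) f i0) i0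
      ((n - 1) * δ) = c ^ (δ ^ (n - 1)) := by
    rw [lin_diagonal, Function.update_self, Good.mm]
    have h1 : (Matrix.of fun β γ : WJ n δ (Finset.univ.erase i0) ((n - 1) * δ) =>
        G.co (C c * f i0 * Ev δ f b β.1.1) (γ.1.1 + Finsupp.single i0 δ)) = c • 1 := by
      ext β γ
      rw [Matrix.of_apply, mul_assoc, G.co_C_mul, G.co_mul_add_single hδ, G.co_Ev,
        Matrix.smul_apply, Matrix.one_apply, smul_eq_mul]
      congr 1
      by_cases h : β = γ
      · rw [if_pos h, if_pos (by rw [h])]
      · rw [if_neg h, if_neg (fun h' => h (Subtype.ext (Subtype.ext h')))]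
    rw [h1, Matrix.det_smul, Matrix.det_one, mul_one, card_WJ hδ]
  rw [hm, Matrix.det_diagonal, Finset.prod_update_of_mem (Finset.mem_univ i0)]
  simp

lemma linOK_diagonal (hn : 1 ≤ n) (hδ : 0 < δ) (d : Fin n → K) (hd : ∀ i, d i ≠ 0) :
    LinOK δ (Matrix.diagonal d) := by
  classical
  have key : ∀ s : Finset (Fin n), LinOK δ (Matrix.diagonal fun i => if i ∈ s then d i else 1) := by
    intro s
    induction s using Finset.induction_on with
    | empty =>
      have : (Matrix.diagonal fun i : Fin n => if i ∈ (∅ : Finset (Fin n)) then d i else 1) =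
          (1 : Matrix (Fin n) (Fin n) K) := by
        rw [← Matrix.diagonal_one]; congr 1
      rw [this]
      exact linOK_one
    | insert a s ha ih =>
      have : (Matrix.diagonal fun i : Fin n => if i ∈ insert a s then d i else 1) =
          Matrix.diagonal (Function.update (1 : Fin n → K) a (d a)) *
            Matrix.diagonal fun i => if i ∈ s then d i else 1 := by
        rw [Matrix.diagonal_mul_diagonal]
        congr 1
        funext i
        by_cases hi : i = a
        · subst hi
          rw [Function.update_self, if_neg ha, if_pos (Finset.mem_insert_self _ _), mul_one]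
        · rw [Function.update_of_ne hi, Pi.one_apply, one_mul]
          simp [Finset.mem_insert, hi]
      rw [this]
      exact (linOK_single hn hδ a (hd a)).mul ih
  have := key Finset.univ
  simpa using this

lemma linOK_of_det (hn : 1 ≤ n) (hδ : 0 < δ) (C : Matrix (Fin n) (Fin n) K) (hC : C.det ≠ 0) :
    LinOK δ C := by
  classical
  refine Matrix.diagonal_transvection_induction_of_det_ne_zero (LinOK δ) C hC ?_ ?_ ?_
  · intro D hD
    rw [Matrix.det_diagonal, Finset.prod_ne_zero_iff] at hD
    exact linOK_diagonal hn hδ D fun i => hD i (Finset.mem_univ i)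
  · intro t f b G
    have h1 : t.toMatrix = Matrix.transvection t.i t.j t.c := rfl
    refine ⟨?_, fun k _ => ?_⟩
    · rw [h1]; exact G.good_transvection hδ t.hij t.c
    · rw [t.det, one_pow, one_mul, h1]
      exact G.resAt_transvection hδ t.hij t.c k
  · intro A B _ _ hA hB
    exact hA.mul hB

/-- A5 -/
theorem good_lin {f : Fin n → MvPolynomial (Fin n) K}
    {b : (Fin n →₀ ℕ) → MvPolynomial (Fin n) K} (G : Good δ f b)
    (C : Matrix (Fin n) (Fin n) K) (hC : C.det ≠ 0) : Good δ (lin C f) b := by
  rcases Nat.eq_zero_or_pos n with rfl | hn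
  · have : lin C f = f := by
      funext i; exact i.elim0
    rw [this]; exact G
  · rcases Nat.eq_zero_or_pos δ with rfl | hδ
    · have hEv : Ev 0 (lin C f) b = Ev 0 f b := by
        funext α
        rw [Ev, Ev]
        congr 1
        refine Finset.prod_congr rfl fun i _ => ?_
        rw [divF_apply, Nat.div_zero, pow_zero, pow_zero]
      exact ⟨isTuple_lin G.fhom C, G.bhom, hEv ▸ G.li, hEv ▸ G.sp⟩
    · exact ((linOK_of_det hn hδ C hC) f b G).1

theorem res_lin (hn : 1 ≤ n) (hδ : 1 ≤ δ) {f : Fin n → MvPolynomial (Fin n) K}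
    {b : (Fin n →₀ ℕ) → MvPolynomial (Fin n) K} (G : Good δ f b)
    (C : Matrix (Fin n) (Fin n) K) (hC : C.det ≠ 0) :
    Res δ (lin C f) = C.det ^ (δ ^ (n - 1)) * Res δ f := by
  obtain ⟨G', h⟩ := linOK_of_det hn hδ C hC f b G
  rw [G'.res_eq hn hδ, G.res_eq hn hδ]
  exact h n le_rfl

end lin

end AF23
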