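import Pool.Agent.AF23.A2Block

/-! # Part A2 : independence of the good family, exchange of one component -/

namespace AF23

open MvPolynomial

variable {n δ : ℕ}

section trans

variable {K : Type*} [Field K] {f : Fin n → MvPolynomial (Fin n) K}
  {b : (Fin n →₀ ℕ) → MvPolynomial (Fin n) K}

/-- coefficient matrix of a family of forms of degree `D` -/
noncomputable def cmat {D : ℕ} (g : Mon n D → MvPolynomial (Fin n) K) :
    Matrix (Mon n D) (Mon n D) K := Matrix.of fun α β => coeff β.1 (g α)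

lemma T_eq (D : ℕ) : T δ f b D = (cmat fun α : Mon n D => Ev δ f b α.1).det := rfl

lemma Good.det_cmat (G : Good δ f b) (hδ : 0 < δ) {D : ℕ} (g : Mon n D → MvPolynomial (Fin n) K)
    (hg : ∀ α, (g α).IsHomogeneous D) :
    (cmat g).det = (Matrix.of fun α γ : Mon n D => G.co (g α) γ.1).det * T δ f b D := by
  rw [T_eq, ← Matrix.det_mul]
  congr 1
  ext α β
  rw [Matrix.mul_apply]
  simp only [cmat, Matrix.of_apply]
  conv_lhs => rw [G.sum_co_hom hδ (hg α)]
  rw [coeff_sum]
  simp only [coeff_smul, smul_eq_mul]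

lemma Good.T_ne_zero (G : Good δ f b) (hδ : 0 < δ) (D : ℕ) : T δ f b D ≠ 0 := by
  have h := G.det_cmat hδ (D := D) (fun α => monomial α.1 1)
    (fun α => isHomogeneous_monomial _ α.deg)
  have h1 : (cmat fun α : Mon n D => (monomial α.1 (1 : K) : MvPolynomial (Fin n) K)) = 1 := by
    ext α β
    simp only [cmat, Matrix.of_apply, coeff_monomial, Matrix.one_apply]
    by_cases hab : α = β
    · subst hab; simp
    · rw [if_neg hab, if_neg fun h => hab (Subtype.ext h)]
  rw [h1, Matrix.det_one] at h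
  intro h0
  rw [h0, mul_zero] at h
  exact one_ne_zero h

/-- nonvanishing of all `T_D` is sufficient -/
lemma good_of_T_all (hδ : 0 < δ) (hf : IsTuple δ f)
    (hb : ∀ ν : Fin n →₀ ℕ, (∀ i, ν i < δ) → (b ν).IsHomogeneous ν.degree)
    (hT : ∀ D, T δ f b D ≠ 0) : Good δ f b where
  fhom := hf
  bhom := hb
  li := by
    classical
    rw [linearIndependent_iff']
    intro s g hg α₀ hα₀
    set D := α₀.degree with hD
    have h1 : ∀ β : Mon n D, ∑ γ : Mon n D, (if γ.1 ∈ s then g γ.1 else 0) *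
        coeff β.1 (Ev δ f b γ.1) = 0 := by
      intro β
      have h2 := congrArg (coeff β.1) hg
      rw [coeff_sum, coeff_zero] at h2
      simp only [coeff_smul, smul_eq_mul] at h2
      have h3 : ∑ γ : Mon n D, (if γ.1 ∈ s then g γ.1 else 0) * coeff β.1 (Ev δ f b γ.1) =
          ∑ α ∈ (Finset.finsuppAntidiag (Finset.univ : Finset (Fin n)) D),
            (if α ∈ s then g α else 0) * coeff β.1 (Ev δ f b α) :=
        Finset.sum_coe_sort (Finset.finsuppAntidiag (Finset.univ : Finset (Fin n)) D)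
          (fun α => (if α ∈ s then g α else 0) * coeff β.1 (Ev δ f b α))
      have h4 : ∑ α ∈ (Finset.finsuppAntidiag (Finset.univ : Finset (Fin n)) D),
            (if α ∈ s then g α else 0) * coeff β.1 (Ev δ f b α) =
          ∑ α ∈ (Finset.finsuppAntidiag (Finset.univ : Finset (Fin n)) D) ∪ s,
            (if α ∈ s then g α else 0) * coeff β.1 (Ev δ f b α) := by
        refine Finset.sum_subset Finset.subset_union_left fun α _ hα => ?_
        have : coeff β.1 (Ev δ f b α) = 0 := by
          refine (Ev_isHomogeneous hδ hf hb α).coeff_eq_zero ?_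
          intro hcon
          apply hα
          rw [mem_Mon, ← hcon, β.deg]
        rw [this, mul_zero]
      have h5 : ∑ α ∈ s, g α * coeff β.1 (Ev δ f b α) =
          ∑ α ∈ (Finset.finsuppAntidiag (Finset.univ : Finset (Fin n)) D) ∪ s,
            (if α ∈ s then g α else 0) * coeff β.1 (Ev δ f b α) := by
        refine Finset.sum_subset_zero_on_sdiff Finset.subset_union_right (fun α hα => ?_)
          fun α hα => ?_
        · rw [if_neg (Finset.mem_sdiff.mp hα).2, zero_mul]
        · rw [if_pos hα]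
      exact h3.trans (h4.trans (h5.symm.trans h2))
    have h2 := Matrix.eq_zero_of_vecMul_eq_zero (M := cmat fun α : Mon n D => Ev δ f b α.1)
      (hT D) (v := fun γ => if γ.1 ∈ s then g γ.1 else 0) (by
        funext β
        exact h1 β)
    have h3 := congrFun h2 ⟨α₀, mem_Mon.2 hD.symm⟩
    simpa [hα₀] using h3
  sp := by
    classical
    rw [eq_top_iff]
    rintro p -
    rw [p.as_sum]
    refine Submodule.sum_mem _ fun β hβ => ?_
    set D := β.degree with hD
    set M := (cmat fun α : Mon n D => Ev δ f b α.1) with hM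
    have hu : IsUnit M.det := isUnit_iff_ne_zero.mpr (hT D)
    have h1 : (monomial β (coeff β p) : MvPolynomial (Fin n) K) =
        ∑ γ : Mon n D, (coeff β p * M⁻¹ ⟨β, mem_Mon.2 rfl⟩ γ) • Ev δ f b γ.1 := by
      ext β'
      rw [coeff_sum]
      simp only [coeff_smul, smul_eq_mul]
      by_cases hβ' : β'.degree = D
      · have h2 : ∑ γ : Mon n D, M⁻¹ ⟨β, mem_Mon.2 rfl⟩ γ * coeff β' (Ev δ f b γ.1) =
            if β = β' then 1 else 0 := by
          have h3 := congrFun (congrFun (Matrix.nonsing_inv_mul M hu) ⟨β, mem_Mon.2 rfl⟩)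
            ⟨β', mem_Mon.2 hβ'⟩
          rw [Matrix.mul_apply, Matrix.one_apply] at h3
          simp only [Subtype.mk.injEq] at h3
          rw [← h3]
          rfl
        rw [coeff_monomial]
        have h4 : ∑ γ : Mon n D, coeff β p * M⁻¹ ⟨β, mem_Mon.2 rfl⟩ γ *
            coeff β' (Ev δ f b γ.1) = coeff β p * ∑ γ : Mon n D, M⁻¹ ⟨β, mem_Mon.2 rfl⟩ γ *
            coeff β' (Ev δ f b γ.1) := by
          rw [Finset.mul_sum]
          exact Finset.sum_congr rfl fun γ _ => by ring
        rw [h4, h2]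
        split_ifs <;> simp
      · rw [coeff_monomial, if_neg (fun h => hβ' (by rw [← h])), Finset.sum_eq_zero]
        intro γ _
        rw [(Ev_isHomogeneous hδ hf hb γ.1).coeff_eq_zero (by rw [γ.deg]; exact hβ'), mul_zero]
    rw [h1]
    exact Submodule.sum_mem _ fun γ _ => Submodule.smul_mem _ _ (Submodule.subset_span ⟨_, rfl⟩)

/-- transition coefficients between good families which agree (as tuples) in the directions `J` -/
noncomputable def Good.tr (G : Good δ f b) (f' : Fin n → MvPolynomial (Fin n) K)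
    (b' : (Fin n →₀ ℕ) → MvPolynomial (Fin n) K) (α γ : Fin n →₀ ℕ) : K :=
  G.co (Ev δ f' b' α) γ

lemma Good.shifty (G : Good δ f b) (hδ : 0 < δ) {f' : Fin n → MvPolynomial (Fin n) K}
    (b' : (Fin n →₀ ℕ) → MvPolynomial (Fin n) K) (J : Finset (Fin n))
    (hJ : ∀ i ∈ J, f' i = f i) : Shifty δ J (G.tr f' b') := by
  have key : ∀ κ : Fin n →₀ ℕ, κ.support ⊆ J → ∀ α γ, G.tr f' b' (α + δ • κ) γ =
      if δ • κ ≤ γ then G.tr f' b' α (γ - δ • κ) else 0 := by
    intro κ hκ α γ
    have h1 : (∏ i, f' i ^ κ i) = ∏ i, f i ^ κ i := by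
      refine Finset.prod_congr rfl fun i _ => ?_
      by_cases hi : κ i = 0
      · rw [hi, pow_zero, pow_zero]
      · rw [hJ i (hκ (Finsupp.mem_support_iff.mpr hi))]
    rw [tr, Ev_add hδ, h1, G.co_prod_mul hδ]
    rfl
  refine ⟨fun κ hκ α γ => ?_, fun κ hκ α γ h => ?_⟩
  · rw [key κ hκ, if_pos (le_add_of_nonneg_left zero_le), add_tsub_cancel_right]
  · by_contra hcon
    rw [key κ hκ, if_neg hcon] at h
    exact h rfl

/-- comparison of `T` in degrees `kδ` -/
lemma Good.T_compare (G : Good δ f b) (hδ : 0 < δ) {f' : Fin n → MvPolynomial (Fin n) K}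
    {b' : (Fin n →₀ ℕ) → MvPolynomial (Fin n) K} (G' : Good δ f' b') (J : Finset (Fin n))
    (hJ : ∀ i ∈ J, f' i = f i) (k : ℕ) :
    T δ f' b' (k * δ) = star (cn J.card) (fun j => Th δ J (G.tr f' b') (j * δ)) k *
      T δ f b (k * δ) := by
  rw [T_eq, G.det_cmat hδ _ (fun α => by
    have := G'.isHomogeneous_Ev hδ α.1
    rwa [α.deg] at this), ← (G.shifty hδ b' J hJ).det_eq_star hδ k]
  rfl

lemma Good.Th_ne (G : Good δ f b) (hδ : 0 < δ) {f' : Fin n → MvPolynomial (Fin n) K}
    {b' : (Fin n →₀ ℕ) → MvPolynomial (Fin n) K} (G' : Good δ f' b') (J : Finset (Fin n))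
    (hJ : ∀ i ∈ J, f' i = f i) (k : ℕ) : Th δ J (G.tr f' b') (k * δ) ≠ 0 := by
  have h1 := G.T_compare hδ G' J hJ k
  have h2 := G'.T_ne_zero hδ (k * δ)
  rw [h1] at h2
  have h3 := left_ne_zero_of_mul h2
  rw [star, Finset.prod_ne_zero_iff] at h3
  have h4 := h3 0 (Finset.mem_range.mpr (Nat.succ_pos _))
  rw [Nat.sub_zero] at h4
  intro h0
  rw [h0] at h4
  simp [cn] at h4

/-- `ResAt` does not depend on the good family -/
lemma Good.resAt_indep (hn : 1 ≤ n) (hδ : 1 ≤ δ) (G : Good δ f b)
    {b' : (Fin n →₀ ℕ) → MvPolynomial (Fin n) K} (G' : Good δ f b') {k : ℕ} (hk : n ≤ k) :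
    ResAt δ f b' k = ResAt δ f b k := by
  have hJ : ∀ i ∈ (Finset.univ : Finset (Fin n)), f i = f i := fun _ _ => rfl
  have h1 : (fun j => T δ f b' (j * δ)) = fun j =>
      star (cn n) (fun j => Th δ Finset.univ (G.tr f b') (j * δ)) j * T δ f b (j * δ) := by
    funext j
    have := G.T_compare hδ G' Finset.univ hJ j
    rw [Finset.card_univ, Fintype.card_fin] at this
    exact this
  set θ : ℕ → K := fun j => Th δ Finset.univ (G.tr f b') (j * δ) with hθ
  have hθ0 : ∀ j, θ j ≠ 0 := fun j => G.Th_ne hδ G' Finset.univ hJ j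
  have h2 : ResAt δ f b' k = md n (fun j => T δ f b' (j * δ)) k := rfl
  have h3 : ResAt δ f b k = md n (fun j => T δ f b (j * δ)) k := rfl
  rw [h2, h1, h3, md_mul n (fun j => star (cn n) θ j) (fun j => T δ f b (j * δ)) k]
  have h4 : md n (fun j => star (cn n) θ j) k = 1 := by
    have e1 : md n (fun j => star (cn n) θ j) k = θ k := md_star_cn n θ hθ0 hk
    rw [e1]
    have hem : IsEmpty (WJ n δ Finset.univ (k * δ)) := by
      constructor
      intro w
      have hw : ∀ i, w.1.1 i < δ := by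
        intro i
        have := DFunLike.congr_fun w.2 i
        rw [kap_apply, if_pos (Finset.mem_univ i), Finsupp.zero_apply,
          Nat.div_eq_zero_iff] at this
        omega
      have hd := w.1.deg
      rw [Finsupp.degree_eq_sum] at hd
      have h5 : ∑ i, w.1.1 i < ∑ _i : Fin n, δ :=
        Finset.sum_lt_sum_of_nonempty ⟨⟨0, hn⟩, Finset.mem_univ _⟩ fun i _ => hw i
      rw [hd, Finset.sum_const, Finset.card_univ, Fintype.card_fin, smul_eq_mul] at h5
      exact absurd h5 (not_lt.mpr (Nat.mul_le_mul_right δ hk))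
    exact Matrix.det_isEmpty
  rw [h4, one_mul]

/-- A4: the resultant does not depend on the good family. -/
theorem Good.res_eq (hn : 1 ≤ n) (hδ : 1 ≤ δ) {f : Fin n → MvPolynomial (Fin n) K}
    {b : (Fin n →₀ ℕ) → MvPolynomial (Fin n) K} (G : Good δ f b) :
    Res δ f = ResAt δ f b n := by
  have h : ∃ b, Good δ f b := ⟨b, G⟩
  rw [Res, dif_pos h]
  exact Good.resAt_indep hn hδ G h.choose_spec le_rfl

theorem Good.res_ne (hn : 1 ≤ n) (hδ : 1 ≤ δ) {f : Fin n → MvPolynomial (Fin n) K}
    {b : (Fin n →₀ ℕ) → MvPolynomial (Fin n) K} (G : Good δ f b) : Res δ f ≠ 0 := by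
  rw [G.res_eq hn hδ]
  exact md_ne n (fun j => T δ f b (j * δ)) (fun j => G.T_ne_zero hδ _) n

end trans

end AF23
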