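import Pool.Agent.AF23.BDefs

/-! Part B1: the Frobenius bound -/

namespace AF23

open MvPolynomial

variable {n δ : ℕ}

namespace B1

/-- constant exponent -/
noncomputable def cst (n c : ℕ) : Fin n →₀ ℕ := Finsupp.equivFunOnFinite.symm fun _ => c

@[simp] lemma cst_apply (c : ℕ) (i : Fin n) : cst n c i = c := rfl

@[simp] lemma top_apply (i : Fin n) : top n δ i = δ - 1 := rfl

lemma top_mul {q : ℕ} (hδ : 0 < δ) (hq : 0 < q) :
    top n (q * δ) = top n δ + δ • cst n (q - 1) := by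
  ext i
  simp only [top_apply, Finsupp.add_apply, Finsupp.smul_apply, cst_apply, smul_eq_mul]
  obtain ⟨q, rfl⟩ : ∃ r, q = r + 1 := ⟨q - 1, by omega⟩
  obtain ⟨δ, rfl⟩ : ∃ r, δ = r + 1 := ⟨δ - 1, by omega⟩
  simp only [Nat.add_sub_cancel]
  have : (q + 1) * (δ + 1) = δ + (δ + 1) * q + 1 := by ring
  omega

lemma degree_top : (top n δ).degree = n * (δ - 1) := by
  rw [Finsupp.degree_eq_sum]; simp

variable {K : Type*} [Field K] {g : Fin n → MvPolynomial (Fin n) K}
  {b : (Fin n →₀ ℕ) → MvPolynomial (Fin n) K}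

/-- `ω_q` kills multiples of `g_i^q` -/
lemma om_pow_mul (G : Good δ g b) (hδ : 0 < δ) {q : ℕ} (hq : 0 < q) (i : Fin n)
    (h : MvPolynomial (Fin n) K) : G.co (g i ^ q * h) (top n (q * δ)) = 0 := by
  rw [G.co_pow_mul hδ, if_neg]
  rw [top_apply, mul_comm]
  have : 0 < q * δ := Nat.mul_pos hq hδ
  omega

lemma om_prod_mul (G : Good δ g b) (hδ : 0 < δ) {q : ℕ} (hq : 0 < q)
    (h : MvPolynomial (Fin n) K) :
    G.co ((∏ i, g i ^ (q - 1)) * h) (top n (q * δ)) = G.co h (top n δ) := by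
  rw [top_mul hδ hq]
  have := G.co_prod_mul_add hδ (cst n (q - 1)) h (top n δ)
  simpa using this

/-! ### the ideal `(g)` -/

lemma Ev_mem (α : Fin n →₀ ℕ) (h : divF δ α ≠ 0) : Ev δ g b α ∈ Ideal.span (Set.range g) := by
  obtain ⟨i, hi⟩ : ∃ i, divF δ α i ≠ 0 := by
    by_contra hcon
    push Not at hcon
    exact h (Finsupp.ext hcon)
  unfold Ev
  apply Ideal.mul_mem_left
  rw [← Finset.mul_prod_erase Finset.univ _ (Finset.mem_univ i)]
  apply Ideal.mul_mem_right
  obtain ⟨r, hr⟩ : ∃ r, divF δ α i = r + 1 := ⟨divF δ α i - 1, by omega⟩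
  rw [hr, pow_succ]
  exact Ideal.mul_mem_left _ _ (Ideal.subset_span ⟨i, rfl⟩)

lemma eq_top_of_div {α : Fin n →₀ ℕ} (hδ : 0 < δ) (hd : divF δ α = 0)
    (h : n * (δ - 1) ≤ α.degree) : α = top n δ := by
  have hlt : ∀ i, α i ≤ δ - 1 := by
    intro i
    have h1 : divF δ α i = 0 := by rw [hd]; rfl
    rw [divF_apply, Nat.div_eq_zero_iff] at h1
    omega
  have hsum : ∑ i : Fin n, α i = ∑ i : Fin n, (δ - 1) := by
    apply le_antisymm (Finset.sum_le_sum fun i _ => hlt i)
    rw [Finsupp.degree_eq_sum] at h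
    simpa using h
  have := (Finset.sum_eq_sum_iff_of_le (fun i _ => hlt i)).mp hsum
  ext i
  exact this i (Finset.mem_univ i)

lemma mem_of_degree_gt (G : Good δ g b) (hδ : 0 < δ) {D : ℕ} {h : MvPolynomial (Fin n) K}
    (hh : h.IsHomogeneous D) (hD : n * (δ - 1) < D) : h ∈ Ideal.span (Set.range g) := by
  rw [G.sum_co_hom hδ hh]
  apply Ideal.sum_mem
  intro α _
  rw [MvPolynomial.smul_eq_C_mul]
  apply Ideal.mul_mem_left
  apply Ev_mem
  intro hd
  have h1 := eq_top_of_div hδ hd (by rw [α.deg]; exact hD.le)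
  have h2 := α.deg
  rw [h1, degree_top] at h2
  omega

lemma sub_mem (G : Good δ g b) (hδ : 0 < δ) {h : MvPolynomial (Fin n) K}
    (hh : h.IsHomogeneous (n * (δ - 1))) :
    h - C (G.co h (top n δ)) * Ev δ g b (top n δ) ∈ Ideal.span (Set.range g) := by
  classical
  have e := G.sum_co_hom hδ hh
  rw [← Finset.add_sum_erase Finset.univ _
    (Finset.mem_univ (⟨top n δ, mem_Mon.2 degree_top⟩ : Mon n (n * (δ - 1))))] at e
  rw [← MvPolynomial.smul_eq_C_mul, sub_eq_iff_eq_add'.mpr e]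
  apply Ideal.sum_mem
  intro α hα
  rw [MvPolynomial.smul_eq_C_mul]
  apply Ideal.mul_mem_left
  apply Ev_mem
  intro hd
  apply (Finset.mem_erase.mp hα).1
  apply Subtype.ext
  exact eq_top_of_div hδ hd (mem_Mon.1 α.2).ge

/-! ### Frobenius -/

section frob
variable {ℓ : ℕ} [Fact ℓ.Prime] [CharP K ℓ]

lemma om_ideal (G : Good δ g b) (hδ : 0 < δ) (e : ℕ) {x : MvPolynomial (Fin n) K}
    (hx : x ∈ Ideal.span (Set.range g)) :
    ∀ u, G.co (x ^ ℓ ^ e * u) (top n (ℓ ^ e * δ)) = 0 := by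
  have hq : 0 < ℓ ^ e := pow_pos (Fact.out : ℓ.Prime).pos e
  induction hx using Submodule.span_induction with
  | mem x hx =>
    obtain ⟨i, rfl⟩ := hx
    exact fun u => om_pow_mul G hδ hq i u
  | zero =>
    intro u
    rw [zero_pow hq.ne', zero_mul, G.co_zero]
  | add x y _ _ h1 h2 =>
    intro u
    rw [add_pow_char_pow, add_mul, G.co_add, h1, h2, add_zero]
  | smul a x _ h1 =>
    intro u
    rw [smul_eq_mul, mul_pow, mul_comm (a ^ _), mul_assoc, h1]

lemma om_frob (G : Good δ g b) (hδ : 0 < δ) (e : ℕ) {h : MvPolynomial (Fin n) K}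
    (hh : h.IsHomogeneous (n * (δ - 1))) (u : MvPolynomial (Fin n) K) :
    G.co (h ^ ℓ ^ e * u) (top n (ℓ ^ e * δ)) =
      G.co h (top n δ) ^ ℓ ^ e * G.co (Ev δ g b (top n δ) ^ ℓ ^ e * u) (top n (ℓ ^ e * δ)) := by
  have h1 := om_ideal G hδ e (sub_mem G hδ hh) u
  rw [sub_pow_char_pow, sub_mul, G.co_sub, sub_eq_zero] at h1
  rw [h1, mul_pow, mul_assoc, ← C_pow, G.co_C_mul]

end frob

/-! ### determinants -/

section det

open Matrix

variable (G : Good δ g b) (hδ : 0 < δ) {q : ℕ} (hq : 0 < q)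

/-- `R · z = g^q` -/
def Maps (q : ℕ) (g : Fin n → MvPolynomial (Fin n) K)
    (R : Matrix (Fin n) (Fin n) (MvPolynomial (Fin n) K)) : Prop :=
  ∀ i, ∑ j, R i j * X j = g i ^ q

include hδ hq in
lemma om_det_zero (A : Matrix (Fin n) (Fin n) (MvPolynomial (Fin n) K))
    (hA : ∀ i, ∑ j, A i j * X j = g i) (i : Fin n)
    (R : Matrix (Fin n) (Fin n) (MvPolynomial (Fin n) K))
    (hR : ∀ l, l ≠ i → ∑ j, R l j * X j = g l ^ q) (hi : ∑ j, R i j * X j = 0) :
    G.co R.det (top n (q * δ)) = 0 := by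
  classical
  -- `z_j D = ∑_l adj_{jl} w_l`
  set w : Fin n → MvPolynomial (Fin n) K := fun l => ∑ j, R l j * X j with hw
  have h1 : ∀ j, R.det * X j = ∑ l, R.adjugate j l * w l := by
    intro j
    have h2 : R.adjugate *ᵥ (R *ᵥ X) = R.det • (X : Fin n → MvPolynomial (Fin n) K) := by
      rw [Matrix.mulVec_mulVec, Matrix.adjugate_mul, Matrix.smul_mulVec, Matrix.one_mulVec]
    have h3 := congrFun h2 j
    rw [Pi.smul_apply, smul_eq_mul] at h3
    rw [← h3]
    rfl
  have h4 : g i ^ q * R.det = ∑ l, w l * (g i ^ (q - 1) * ∑ j, A i j * R.adjugate j l) := by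
    have e1 : g i * R.det = ∑ l, w l * ∑ j, A i j * R.adjugate j l := by
      calc g i * R.det = ∑ j, A i j * (R.det * X j) := by
            rw [← hA i, Finset.sum_mul]
            exact Finset.sum_congr rfl fun j _ => by ring
        _ = ∑ j, ∑ l, w l * (A i j * R.adjugate j l) := by
            refine Finset.sum_congr rfl fun j _ => ?_
            rw [h1, Finset.mul_sum]
            exact Finset.sum_congr rfl fun l _ => by ring
        _ = _ := by
            rw [Finset.sum_comm]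
            exact Finset.sum_congr rfl fun l _ => by rw [Finset.mul_sum]
    obtain ⟨r, rfl⟩ : ∃ r, q = r + 1 := ⟨q - 1, by omega⟩
    rw [Nat.add_sub_cancel, pow_succ, mul_assoc, e1, Finset.mul_sum]
    exact Finset.sum_congr rfl fun l _ => by ring
  have h5 : G.co (g i ^ q * R.det) (top n (q * δ) + Finsupp.single i (δ * q)) =
      G.co R.det (top n (q * δ)) := by
    rw [G.co_pow_mul hδ, if_pos (by simp)]
    simp
  rw [← h5, h4, G.co_sum]
  apply Finset.sum_eq_zero
  intro l _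
  by_cases hl : l = i
  · subst hl
    rw [show w l = 0 from hi, zero_mul, G.co_zero]
  · rw [show w l = g l ^ q from hR l hl, G.co_pow_mul hδ, if_neg]
    rw [Finsupp.add_apply, Finsupp.single_eq_of_ne hl, add_zero, top_apply, mul_comm]
    have : 0 < q * δ := Nat.mul_pos hq hδ
    omega

include hδ hq in
lemma om_det_eq (A : Matrix (Fin n) (Fin n) (MvPolynomial (Fin n) K))
    (hA : ∀ i, ∑ j, A i j * X j = g i)
    (R R' : Matrix (Fin n) (Fin n) (MvPolynomial (Fin n) K))
    (hR : Maps q g R) (hR' : Maps q g R') :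
    G.co R.det (top n (q * δ)) = G.co R'.det (top n (q * δ)) := by
  classical
  let M : Finset (Fin n) → Matrix (Fin n) (Fin n) (MvPolynomial (Fin n) K) := fun s =>
    Matrix.of fun i j => if i ∈ s then R' i j else R i j
  have hM : ∀ s, Maps q g (M s) := by
    intro s i
    by_cases hi : i ∈ s
    · simp only [M, Matrix.of_apply, if_pos hi]; exact hR' i
    · simp only [M, Matrix.of_apply, if_neg hi]; exact hR i
  have key : ∀ s : Finset (Fin n), G.co (M s).det (top n (q * δ)) =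
      G.co R.det (top n (q * δ)) := by
    intro s
    induction s using Finset.induction_on with
    | empty =>
      have e0 : M ∅ = R := by
        ext i j : 2
        simp [M]
      rw [e0]
    | insert i s hi ih =>
      rw [← ih]
      have e1 : (M s).updateRow i (R' i) = M (insert i s) := by
        ext i' j : 2
        by_cases h : i' = i
        · subst h; simp [M]
        · rw [Matrix.updateRow_ne h]
          simp [M, h]
      have e2 : (M s).updateRow i (R' i + (R i - R' i)) = M s := by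
        ext i' j : 2
        by_cases h : i' = i
        · subst h; simp [M, hi]
        · rw [Matrix.updateRow_ne h]
      have e3 := Matrix.det_updateRow_add (M s) i (R' i) (R i - R' i)
      rw [e1, e2] at e3
      rw [e3, G.co_add]
      have e4 : G.co ((M s).updateRow i (R i - R' i)).det (top n (q * δ)) = 0 := by
        refine om_det_zero G hδ hq A hA i _ ?_ ?_
        · intro l hl
          rw [Matrix.updateRow_ne hl]
          exact hM s l
        · simp only [Matrix.updateRow_self, Pi.sub_apply, sub_mul, Finset.sum_sub_distrib]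
          rw [hR i, hR' i, sub_self]
      rw [e4, add_zero]
  have e5 : M Finset.univ = R' := by
    ext i j : 2
    simp [M]
  rw [← key Finset.univ, e5]

end det

/-! ### the Jacobian matrix -/

section amat

open Matrix

/-- the matrix `a_ij = δ⁻¹ ∂_j g_i` -/
noncomputable def amat (δ : ℕ) (g : Fin n → MvPolynomial (Fin n) K) :
    Matrix (Fin n) (Fin n) (MvPolynomial (Fin n) K) :=
  Matrix.of fun i j => C ((δ : K)⁻¹) * pderiv j (g i)

lemma amat_X (hg : IsTuple δ g) (hδK : (δ : K) ≠ 0) (i : Fin n) :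
    ∑ j, amat δ g i j * X j = g i := by
  have h1 := (hg i).sum_X_mul_pderiv
  have h2 : ∑ j, amat δ g i j * X j = C ((δ : K)⁻¹) * ∑ j, X j * pderiv j (g i) := by
    rw [Finset.mul_sum]
    refine Finset.sum_congr rfl fun j _ => ?_
    simp only [amat, Matrix.of_apply]
    ring
  rw [h2, h1, nsmul_eq_mul, ← mul_assoc]
  have h3 : (C ((δ : K)⁻¹) : MvPolynomial (Fin n) K) * (δ : MvPolynomial (Fin n) K) = 1 := by
    rw [← map_natCast (C : K →+* MvPolynomial (Fin n) K), ← C_mul, inv_mul_cancel₀ hδK, C_1]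
  rw [h3, one_mul]

lemma jac_eq (hδK : (δ : K) ≠ 0) : jac g = C ((δ : K) ^ n) * (amat δ g).det := by
  have h1 : (Matrix.of fun i j => pderiv j (g i)) =
      (C (δ : K) : MvPolynomial (Fin n) K) • amat δ g := by
    ext i j : 2
    simp only [amat, Matrix.of_apply, Matrix.smul_apply, smul_eq_mul]
    rw [← mul_assoc, ← C_mul, mul_inv_cancel₀ hδK, C_1, one_mul]
  rw [jac, h1, Matrix.det_smul, Fintype.card_fin, C_pow]

lemma det_amat_hom (hg : IsTuple δ g) : (amat δ g).det.IsHomogeneous (n * (δ - 1)) := by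
  rw [Matrix.det_apply]
  apply IsHomogeneous.sum
  intro σ _
  have h1 : (∏ i, amat δ g (σ i) i).IsHomogeneous (n * (δ - 1)) := by
    have e : n * (δ - 1) = ∑ i : Fin n, (δ - 1) := by simp
    rw [e]
    apply IsHomogeneous.prod
    intro i _
    have h2 := (isHomogeneous_C (Fin n) ((δ : K)⁻¹)).mul ((hg (σ i)).pderiv (i := i))
    rw [zero_add] at h2
    exact h2
  rcases Int.units_eq_one_or (Equiv.Perm.sign σ) with h | h
  · rw [h, one_smul]; exact h1
  · rw [h, Units.neg_smul, one_smul]; exact h1.neg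

lemma prod_X (q : ℕ) : (∏ j : Fin n, (X j : MvPolynomial (Fin n) K) ^ (q - 1)) =
    monomial (top n q) 1 := by
  rw [monomial_eq, C_1, one_mul, Finsupp.prod_fintype]
  · rfl
  · intro i; simp

variable {ℓ : ℕ} [Fact ℓ.Prime] [CharP K ℓ]

lemma sigma_eq (G : Good δ g b) (hδ : 0 < δ) (hδK : (δ : K) ≠ 0) (e : ℕ) :
    G.co (amat δ g).det (top n δ) = G.co (amat δ g).det (top n δ) ^ ℓ ^ e *
      G.co (Ev δ g b (top n δ) ^ ℓ ^ e * monomial (top n (ℓ ^ e)) 1) (top n (ℓ ^ e * δ)) := by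
  have hq : 0 < ℓ ^ e := pow_pos (Fact.out : ℓ.Prime).pos e
  set q := ℓ ^ e with hqdef
  have hA := amat_X (K := K) G.fhom hδK
  let P : Matrix (Fin n) (Fin n) (MvPolynomial (Fin n) K) :=
    Matrix.of fun i j => X j ^ (q - 1) * amat δ g i j ^ q
  let Q : Matrix (Fin n) (Fin n) (MvPolynomial (Fin n) K) :=
    Matrix.of fun i j => g i ^ (q - 1) * amat δ g i j
  have hP : Maps q g P := by
    intro i
    have h1 : ∑ j, P i j * X j = ∑ j, (amat δ g i j * X j) ^ q := by
      refine Finset.sum_congr rfl fun j _ => ?_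
      simp only [P, Matrix.of_apply]
      rw [mul_pow]
      obtain ⟨r, hr⟩ : ∃ r, q = r + 1 := ⟨q - 1, by omega⟩
      rw [hr, Nat.add_sub_cancel]
      ring
    rw [h1, hqdef, ← sum_pow_char_pow, hA]
  have hQ : Maps q g Q := by
    intro i
    have h1 : ∑ j, Q i j * X j = g i ^ (q - 1) * ∑ j, amat δ g i j * X j := by
      rw [Finset.mul_sum]
      refine Finset.sum_congr rfl fun j _ => ?_
      simp only [Q, Matrix.of_apply]
      ring
    rw [h1, hA]
    obtain ⟨r, hr⟩ : ∃ r, q = r + 1 := ⟨q - 1, by omega⟩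
    rw [hr, Nat.add_sub_cancel, pow_succ]
  have hdP : P.det = (amat δ g).det ^ q * monomial (top n q) 1 := by
    have h1 := Matrix.det_mul_row (fun j : Fin n => (X j : MvPolynomial (Fin n) K) ^ (q - 1))
      (Matrix.of fun i j => amat δ g i j ^ q)
    have h2 : (Matrix.of fun i j => amat δ g i j ^ q) =
        (iterateFrobenius (MvPolynomial (Fin n) K) ℓ e).mapMatrix (amat δ g) := by
      ext i j : 2
      simp [iterateFrobenius_def, hqdef]
    have h3 : (Matrix.of fun i j => amat δ g i j ^ q).det = (amat δ g).det ^ q := by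
      rw [h2, ← RingHom.map_det, iterateFrobenius_def]
    rw [prod_X, h3] at h1
    rw [mul_comm]
    exact h1
  have hdQ : Q.det = (∏ i, g i ^ (q - 1)) * (amat δ g).det :=
    Matrix.det_mul_column (fun i => g i ^ (q - 1)) (amat δ g)
  have key := om_det_eq G hδ hq (amat δ g) hA Q P hQ hP
  rw [hdP, hdQ, om_prod_mul G hδ hq, om_frob G hδ e (det_amat_hom G.fhom)] at key
  exact key

end amat

/-! ### the bound -/

section bound

variable {ℓ : ℕ} [Fact ℓ.Prime] [CharP K ℓ]

lemma F_ideal (F : MvPolynomial (Fin n) K →ₗ[K] K) (hF : ∀ i h, F (g i * h) = 0)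
    {x : MvPolynomial (Fin n) K} (hx : x ∈ Ideal.span (Set.range g)) : F x = 0 := by
  have key : ∀ u, F (x * u) = 0 := by
    induction hx using Submodule.span_induction with
    | mem x hx =>
      obtain ⟨i, rfl⟩ := hx
      exact fun u => hF i u
    | zero => intro u; simp
    | add x y _ _ h1 h2 => intro u; rw [add_mul, map_add, h1, h2, add_zero]
    | smul a x _ h1 => intro u; rw [smul_eq_mul, mul_comm a, mul_assoc, h1]
  simpa using key 1

lemma F_eq (G : Good δ g b) (hδ : 0 < δ) (F : MvPolynomial (Fin n) K →ₗ[K] K)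
    (hF : ∀ i h, F (g i * h) = 0) {h : MvPolynomial (Fin n) K}
    (hh : h.IsHomogeneous (n * (δ - 1))) :
    F h = G.co h (top n δ) * F (Ev δ g b (top n δ)) := by
  have h1 := F_ideal F hF (sub_mem G hδ hh)
  rw [map_sub, sub_eq_zero, ← MvPolynomial.smul_eq_C_mul, map_smul, smul_eq_mul] at h1
  exact h1

/-- the values of `ω_q` at monomials -/
lemma om_monomial (G : Good δ g b) (hδ : 0 < δ) (e : ℕ) (ε : Fin n →₀ ℕ)
    (hε : ε.degree = n * (ℓ ^ e * δ - 1)) :
    G.co (monomial ε 1) (top n (ℓ ^ e * δ)) = 0 ∨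
    ∃ α : Fin n →₀ ℕ, α.degree = n * (δ - 1) ∧ G.co (monomial ε 1) (top n (ℓ ^ e * δ)) =
      G.co (monomial α 1) (top n δ) ^ ℓ ^ e *
      G.co (Ev δ g b (top n δ) ^ ℓ ^ e * monomial (top n (ℓ ^ e)) 1) (top n (ℓ ^ e * δ)) := by
  have hq : 0 < ℓ ^ e := pow_pos (Fact.out : ℓ.Prime).pos e
  set q := ℓ ^ e with hqdef
  set e' := modF q ε with he'
  set α := divF q ε with hα
  have h1 : e' + q • α = ε := modF_add_divF ε
  have h2 : (monomial ε 1 : MvPolynomial (Fin n) K) = monomial α 1 ^ q * monomial e' 1 := by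
    rw [monomial_pow, monomial_mul, one_pow, one_mul, ← h1, add_comm]
  have hdeg : e'.degree + q * α.degree = n * (q * δ - 1) := by
    rw [← hε, ← h1]; simp
  have e1 : n * (q * δ - 1) = n * (q - 1) + q * (n * (δ - 1)) := by
    obtain ⟨q', hq'⟩ : ∃ r, q = r + 1 := ⟨q - 1, by omega⟩
    obtain ⟨δ', hδ'⟩ : ∃ r, δ = r + 1 := ⟨δ - 1, by omega⟩
    rw [hq', hδ']
    simp only [Nat.add_sub_cancel]
    have : (q' + 1) * (δ' + 1) - 1 = q' + (q' + 1) * δ' := by
      have : (q' + 1) * (δ' + 1) = q' + (q' + 1) * δ' + 1 := by ring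
      omega
    rw [this]; ring
  have hhom : (monomial α (1 : K)).IsHomogeneous α.degree := isHomogeneous_monomial _ rfl
  rcases lt_or_ge (n * (δ - 1)) α.degree with hc | hc
  · left
    rw [h2, hqdef]
    exact om_ideal G hδ e (mem_of_degree_gt G hδ hhom hc) _
  · right
    have h3 : q * α.degree ≤ q * (n * (δ - 1)) := Nat.mul_le_mul_left q hc
    have h4 : e' = top n q := by
      refine eq_top_of_div hq ?_ (by omega)
      apply divF_eq_zero
      intro i
      exact modF_lt hq ε i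
    have h5 : q * α.degree = q * (n * (δ - 1)) := by
      rw [h4, degree_top] at hdeg
      omega
    have h6 : α.degree = n * (δ - 1) := Nat.eq_of_mul_eq_mul_left hq h5
    refine ⟨α, h6, ?_⟩
    rw [h2, h4, hqdef]
    exact om_frob G hδ e (by rw [← h6]; exact hhom) _

lemma v_sum_le {ι : Type*} (v : AbsoluteValue K ℝ) (hv : IsNonarchimedean v) {B : ℝ} (hB : 0 ≤ B)
    (s : Finset ι) (f : ι → K) (h : ∀ i ∈ s, v (f i) ≤ B) : v (∑ i ∈ s, f i) ≤ B := by
  classical
  induction s using Finset.induction_on with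
  | empty => simpa using hB
  | insert i s hi ih =>
    rw [Finset.sum_insert hi]
    refine (hv _ _).trans (max_le (h i (Finset.mem_insert_self i s)) (ih fun j hj => h j ?_))
    exact Finset.mem_insert_of_mem hj

lemma v_nat_le (v : AbsoluteValue K ℝ) (hv : IsNonarchimedean v) (k : ℕ) : v (k : K) ≤ 1 := by
  induction k with
  | zero => simp
  | succ k ih =>
    rw [Nat.cast_succ]
    exact (hv _ _).trans (max_le ih (by simp))

end bound

end B1

open B1 in
/-- B1: Frobenius bound. -/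
theorem frob_bound {ℓ : ℕ} (hn : 2 ≤ n) (hδ : 2 ≤ δ) [Fact ℓ.Prime] (hℓ : ¬ ℓ ∣ δ)
    {K : Type*} [Field K] [CharP K ℓ]
    (v : AbsoluteValue K ℝ) (hv : IsNonarchimedean v)
    (g : Fin n → MvPolynomial (Fin n) K) (m : (Fin n →₀ ℕ) → (Fin n →₀ ℕ))
    (G : Good δ g (fun ν => monomial (m ν) 1)) (hint : ∀ i, IntP v (g i))
    (F : MvPolynomial (Fin n) K →ₗ[K] K) (hF : ∀ i h, F (g i * h) = 0)
    (hFint : ∀ e : Fin n →₀ ℕ, e.degree = n * (δ - 1) → v (F (monomial e 1)) ≤ 1)
    (hτ0 : F (jac g) ≠ 0) :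
    ∃ C : ℝ, 1 ≤ C ∧ ∀ (e : ℕ) (h : MvPolynomial (Fin n) K),
      h.IsHomogeneous (n * (ℓ ^ e * δ - 1)) → IntP v h →
      v (G.co h (top n (ℓ ^ e * δ))) ≤ C * ((v (F (jac g)))⁻¹) ^ (ℓ ^ e) := by
  have hδ0 : 0 < δ := by omega
  have hδK : (δ : K) ≠ 0 := by
    rw [Ne, CharP.cast_eq_zero_iff K ℓ δ]; exact hℓ
  set σ := G.co (amat δ g).det (top n δ) with hσ
  set c := F (Ev δ g (fun ν => monomial (m ν) 1) (top n δ)) with hc
  have hjac : F (jac g) = (δ : K) ^ n * σ * c := by
    rw [F_eq G hδ0 F hF, jac_eq hδK, G.co_C_mul]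
    rw [jac_eq hδK]
    have := (isHomogeneous_C (Fin n) ((δ : K) ^ n)).mul (det_amat_hom G.fhom)
    rwa [zero_add] at this
  have hσ0 : σ ≠ 0 := by
    intro h; apply hτ0; rw [hjac, h]; ring
  have hc0 : c ≠ 0 := by
    intro h; apply hτ0; rw [hjac, h]; ring
  have hvσ : 0 < v σ := v.pos hσ0
  have hvc : 0 < v c := v.pos hc0
  have hvτ : 0 < v (F (jac g)) := v.pos hτ0
  have hτle : v (F (jac g)) ≤ v σ * v c := by
    rw [hjac, map_mul, map_mul, map_pow]
    have h1 : v (δ : K) ^ n ≤ 1 := pow_le_one₀ (v.nonneg _) (v_nat_le v hv δ)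
    calc v (δ : K) ^ n * v σ * v c = v (δ : K) ^ n * (v σ * v c) := by ring
      _ ≤ 1 * (v σ * v c) := mul_le_mul_of_nonneg_right h1 (by positivity)
      _ = v σ * v c := one_mul _
  have hω : ∀ α : Fin n →₀ ℕ, α.degree = n * (δ - 1) →
      v (G.co (monomial α 1) (top n δ)) * v c ≤ 1 := by
    intro α hα
    rw [← map_mul, ← F_eq G hδ0 F hF (isHomogeneous_monomial _ hα)]
    exact hFint α hα
  refine ⟨max 1 (v σ), le_max_left _ _, fun e h hh hI => ?_⟩
  set q := ℓ ^ e with hqdef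
  set τ := F (jac g) with hτ
  have hB0 : 0 ≤ max 1 (v σ) * ((v τ)⁻¹) ^ q := by positivity
  have hmon : ∀ ε : Fin n →₀ ℕ, ε.degree = n * (q * δ - 1) →
      v (G.co (monomial ε 1) (top n (q * δ))) ≤ max 1 (v σ) * ((v τ)⁻¹) ^ q := by
    intro ε hε
    rcases om_monomial G hδ0 e ε hε with h1 | ⟨α, hα, h1⟩
    · rw [hqdef, h1, map_zero]; exact hB0
    · rw [hqdef, h1, map_mul, map_pow]
      have h2 := sigma_eq (ℓ := ℓ) G hδ0 hδK e
      rw [← hσ] at h2
      set Φ := G.co (Ev δ g (fun ν => monomial (m ν) 1) (top n δ) ^ ℓ ^ e *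
        monomial (top n (ℓ ^ e)) 1) (top n (ℓ ^ e * δ)) with hΦ
      have h3 : v σ = v σ ^ q * v Φ := by
        conv_lhs => rw [h2]
        rw [map_mul, map_pow]
      rw [← hqdef, inv_pow, ← div_eq_mul_inv, le_div_iff₀ (by positivity)]
      set x := v (G.co (monomial α 1) (top n δ)) with hx
      have hx0 : 0 ≤ x := v.nonneg _
      calc x ^ q * v Φ * v τ ^ q ≤ x ^ q * v Φ * (v σ * v c) ^ q := by
            gcongr
        _ = (x * v c) ^ q * (v σ ^ q * v Φ) := by ring
        _ = (x * v c) ^ q * v σ := by rw [← h3]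
        _ ≤ 1 * v σ := by
            gcongr
            exact pow_le_one₀ (mul_nonneg hx0 hvc.le) (hω α hα)
        _ ≤ max 1 (v σ) := by rw [one_mul]; exact le_max_right _ _
  have hsum : G.co h (top n (q * δ)) =
      ∑ ε ∈ h.support, coeff ε h * G.co (monomial ε 1) (top n (q * δ)) := by
    conv_lhs => rw [h.as_sum]
    rw [G.co_sum]
    refine Finset.sum_congr rfl fun ε _ => ?_
    have : (monomial ε (coeff ε h) : MvPolynomial (Fin n) K) = C (coeff ε h) * monomial ε 1 := by
      rw [C_mul_monomial, mul_one]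
    rw [this, G.co_C_mul]
  rw [hsum]
  apply v_sum_le v hv hB0
  intro ε hε
  rw [map_mul]
  have hdeg : ε.degree = n * (q * δ - 1) := by
    have := hh (mem_support_iff.mp hε)
    rw [Finsupp.degree_eq_weight_one] 
    exact this
  calc v (coeff ε h) * v (G.co (monomial ε 1) (top n (q * δ)))
      ≤ 1 * v (G.co (monomial ε 1) (top n (q * δ))) :=
        mul_le_mul_of_nonneg_right (hI ε) (v.nonneg _)
    _ ≤ _ := by rw [one_mul]; exact hmon ε hdeg

end AF23
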