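import Pool.Agent.AF23.BDefs

/-! Part B2: an unramified fibre. -/

namespace AF23

open MvPolynomial

variable {n δ : ℕ}

/-- linearly independent functions have a nonzero evaluation determinant -/
lemma exists_points_of_li {K X ι : Type*} [Field K] [Fintype ι] [DecidableEq ι] (f : ι → X → K)
    (hf : LinearIndependent K f) :
    ∃ x : ι → X, Matrix.det (Matrix.of fun i j => f i (x j)) ≠ 0 := by
  classical
  let e : X → (ι → K) := fun x i => f i x
  have hspan : Submodule.span K (Set.range e) = ⊤ := by
    by_contra hne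
    obtain ⟨φ, hφ0, hφ⟩ := Submodule.exists_le_ker_of_lt_top _ (lt_top_iff_ne_top.2 hne)
    apply hφ0
    have h1 : ∀ x : X, φ (e x) = 0 := fun x =>
      hφ (Submodule.subset_span (Set.mem_range_self x))
    have h2 : ∀ w : ι → K, φ w = ∑ i, w i * φ (Pi.single i 1) := by
      intro w
      conv_lhs => rw [pi_eq_sum_univ' w]
      rw [map_sum]
      refine Finset.sum_congr rfl fun i _ => ?_
      rw [map_smul, smul_eq_mul]
    have h3 : ∑ i, φ (Pi.single i 1) • f i = 0 := by
      ext x
      have := h1 x
      rw [h2] at this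
      simp only [Finset.sum_apply, Pi.smul_apply, smul_eq_mul, Pi.zero_apply]
      rw [← this]
      exact Finset.sum_congr rfl fun i _ => mul_comm _ _
    have h4 := Fintype.linearIndependent_iff.1 hf _ h3
    ext i
    simpa using h4 i
  obtain ⟨s, hs, hs2, hs3⟩ := exists_linearIndependent K (Set.range e)
  have hs4 : Submodule.span K (Set.range ((↑) : s → (ι → K))) = ⊤ := by
    rw [Subtype.range_coe, hs2, hspan]
  let B : Module.Basis s K (ι → K) := Module.Basis.mk hs3 hs4.ge
  let E : s ≃ ι := B.indexEquiv (Pi.basisFun K ι)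
  have hx : ∀ j : ι, ∃ x : X, e x = (E.symm j : ι → K) := fun j => hs (E.symm j).2
  choose x hx using hx
  refine ⟨x, ?_⟩
  have hli : LinearIndependent K (fun j => e (x j)) := by
    have : (fun j => e (x j)) = (fun a : s => (a : ι → K)) ∘ E.symm := by
      ext1 j; exact hx j
    rw [this]
    exact hs3.comp _ E.symm.injective
  have h5 : LinearIndependent K (Matrix.of fun j i => f i (x j)).row := hli
  rw [Matrix.linearIndependent_rows_iff_isUnit, Matrix.isUnit_iff_isUnit_det] at h5
  have h6 := h5.ne_zero
  rwa [← Matrix.det_transpose] at h6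

/-- infinitely many elements of absolute value one -/
lemma infinite_norm_one {K : Type*} [Field K] [Infinite K] (v : AbsoluteValue K ℝ)
    (hv : IsNonarchimedean v) : {c : K | v c = 1}.Infinite := by
  intro hfin
  by_cases h : ∃ c : K, c ≠ 0 ∧ v c < 1
  · obtain ⟨c, hc0, hc1⟩ := h
    have hpos : 0 < v c := v.pos hc0
    have hinj : Function.Injective (fun k : ℕ => 1 + c ^ (k + 1)) := by
      intro a b hab
      have h1 : c ^ (a + 1) = c ^ (b + 1) := by simpa using hab
      have h2 : (v c) ^ (a + 1) = (v c) ^ (b + 1) := by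
        rw [← map_pow, ← map_pow, h1]
      have := pow_right_injective₀ hpos hc1.ne h2
      omega
    refine Set.infinite_range_of_injective hinj (hfin.subset ?_)
    rintro _ ⟨k, rfl⟩
    have hk : v (c ^ (k + 1)) < 1 := by
      rw [map_pow]; exact pow_lt_one₀ (v.nonneg _) hc1 (Nat.succ_ne_zero k)
    have h1 : v (1 + c ^ (k + 1)) ≤ 1 := by
      refine (hv _ _).trans ?_
      rw [map_one]; exact max_le le_rfl hk.le
    refine le_antisymm h1 ?_
    by_contra hlt
    push Not at hlt
    have h2 : (1 : K) = (1 + c ^ (k + 1)) + (-(c ^ (k + 1))) := by ring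
    have h3 : v (1 : K) ≤ max (v (1 + c ^ (k + 1))) (v (-(c ^ (k + 1)))) := by
      conv_lhs => rw [h2]
      exact hv _ _
    rw [map_one, AbsoluteValue.map_neg] at h3
    exact absurd h3 (not_le.2 (max_lt hlt hk))
  · push Not at h
    have h1 : ∀ c : K, c ≠ 0 → v c = 1 := by
      intro c hc
      refine le_antisymm ?_ (h c hc)
      have := h c⁻¹ (inv_ne_zero hc)
      rw [map_inv₀] at this
      have hpos : 0 < v c := v.pos hc
      rw [one_le_inv₀ hpos] at this
      exact this
    refine (Set.Finite.infinite_compl (Set.finite_singleton (0 : K))) (hfin.subset ?_)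
    intro c hc
    exact h1 c hc

section fin

lemma finite_of_span {K R S : Type*} [Field K] [CommRing R] [CommRing S] [Algebra K R]
    [Algebra K S] (φ : R →ₐ[K] S) (s : Set S) (hs : s.Finite) (t : Set S)
    (ht : Submodule.span K t = ⊤) (h : ∀ x ∈ t, ∃ r : R, ∃ b ∈ s, x = φ r * b) :
    φ.toRingHom.Finite := by
  let _ := φ.toRingHom.toAlgebra
  have hst : IsScalarTower K R S := IsScalarTower.of_algebraMap_eq' φ.comp_algebraMap.symm
  let N : Submodule R S := Submodule.span R s
  have h1 : N.restrictScalars K = ⊤ := by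
    rw [eq_top_iff, ← ht, Submodule.span_le]
    intro x hx
    obtain ⟨r, b, hb, rfl⟩ := h x hx
    have : φ r * b = r • b := rfl
    rw [this]
    exact N.smul_mem r (Submodule.subset_span hb)
  have h2 : N = ⊤ := by
    rw [eq_top_iff]
    intro x _
    have : x ∈ N.restrictScalars K := h1 ▸ Submodule.mem_top
    exact this
  change Module.Finite R S
  exact ⟨⟨hs.toFinset, by rw [Set.Finite.coe_toFinset]; exact h2⟩⟩

lemma exists_dvd_of_finite {R S : Type*} [CommRing R] [IsDomain R] [CommRing S] [IsDomain S]
    (φ : R →+* S) (hfin : φ.Finite) (s : S) (hs : s ≠ 0) :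
    ∃ r : R, r ≠ 0 ∧ s ∣ φ r := by
  let _ := φ.toAlgebra
  have h1 : Module.Finite R S := hfin
  have h2 : IsIntegral R s := Algebra.IsIntegral.isIntegral s
  exact h2.isAlgebraic.exists_nonzero_dvd (mem_nonZeroDivisors_of_ne_zero hs)

end fin

section fibre
variable {K : Type*} [Field K] {g : Fin n → MvPolynomial (Fin n) K}
  {b : (Fin n →₀ ℕ) → MvPolynomial (Fin n) K}

/-- the ideal of a fibre -/
noncomputable def fibI (g : Fin n → MvPolynomial (Fin n) K) (y : Fin n → K) :
    Ideal (MvPolynomial (Fin n) K) :=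
  Ideal.span (Set.range fun i => g i - C (y i))

/-- coordinates on a fibre -/
noncomputable def fibL (G : Good δ g b) (y : Fin n → K) (ν : Fin n →₀ ℕ) :
    MvPolynomial (Fin n) K →ₗ[K] K :=
  G.basis.constr K fun α => if modF δ α = ν then ∏ i, y i ^ divF δ α i else 0

lemma fibL_Ev (G : Good δ g b) (y : Fin n → K) (ν α : Fin n →₀ ℕ) :
    fibL G y ν (Ev δ g b α) = if modF δ α = ν then ∏ i, y i ^ divF δ α i else 0 := by
  rw [← G.basis_apply, fibL, Module.Basis.constr_basis]

lemma prod_single_pow {M : Type*} [CommMonoid M] (f : Fin n → M) (i : Fin n) :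
    (∏ j, f j ^ (Finsupp.single i 1 : Fin n →₀ ℕ) j) = f i := by
  classical
  rw [Finset.prod_eq_single i]
  · simp
  · intro j _ hj; simp [hj.symm]
  · simp

lemma fibL_mul (hδ : 0 < δ) (G : Good δ g b) (y : Fin n → K) (ν : Fin n →₀ ℕ) (i : Fin n)
    (h : MvPolynomial (Fin n) K) : fibL G y ν (g i * h) = y i * fibL G y ν h := by
  have key : (fibL G y ν).comp (LinearMap.mulLeft K (g i)) = y i • fibL G y ν := by
    refine G.basis.ext fun α => ?_
    rw [LinearMap.comp_apply, LinearMap.mulLeft_apply, LinearMap.smul_apply, G.basis_apply]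
    have h1 := Ev_add (f := g) (b := b) hδ α (Finsupp.single i 1)
    rw [prod_single_pow] at h1
    rw [← h1, fibL_Ev, fibL_Ev, modF_add_smul, divF_add_smul hδ]
    split_ifs with hν
    · simp only [Finsupp.add_apply, pow_add, Finset.prod_mul_distrib, prod_single_pow, smul_eq_mul]
      ring
    · simp
  have := LinearMap.congr_fun key h
  simpa using this

lemma fibL_of_mem (hδ : 0 < δ) (G : Good δ g b) (y : Fin n → K) (ν : Fin n →₀ ℕ)
    {h : MvPolynomial (Fin n) K} (hh : h ∈ fibI g y) : fibL G y ν h = 0 := by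
  obtain ⟨c, rfl⟩ := (Ideal.mem_span_range_iff_exists_fun).1 hh
  rw [map_sum]
  refine Finset.sum_eq_zero fun i _ => ?_
  have h1 : c i * (g i - C (y i)) = g i * c i - y i • c i := by
    rw [MvPolynomial.smul_eq_C_mul]; ring
  rw [h1, map_sub, fibL_mul hδ, map_smul, smul_eq_mul, sub_self]

lemma finite_aeval (hδ : 0 < δ) (G : Good δ g b) :
    (aeval g : MvPolynomial (Fin n) K →ₐ[K] MvPolynomial (Fin n) K).toRingHom.Finite := by
  classical
  refine finite_of_span _ (b '' {ν : Fin n →₀ ℕ | ∀ i, ν i < δ}) ?_ (Set.range (Ev δ g b)) G.sp ?_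
  · apply Set.Finite.image
    refine (Set.finite_Iic (Finsupp.equivFunOnFinite.symm fun _ : Fin n => δ)).subset ?_
    intro ν hν i
    exact (hν i).le
  · rintro _ ⟨α, rfl⟩
    refine ⟨monomial (divF δ α) 1, b (modF δ α), ⟨_, modF_lt hδ α, rfl⟩, ?_⟩
    rw [aeval_monomial, map_one, one_mul, Finsupp.prod_pow, Ev, mul_comm]

/-- a multiple of the Jacobian in `K[g]` -/
lemma exists_mult (hδ : 0 < δ) (G : Good δ g b) (hJ : jac g ≠ 0) :
    ∃ P : MvPolynomial (Fin n) K, P ≠ 0 ∧ jac g ∣ aeval g P :=
  exists_dvd_of_finite _ (finite_aeval hδ G) _ hJ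

lemma aeval_sub_mem (g : Fin n → MvPolynomial (Fin n) K) (y : Fin n → K)
    (P : MvPolynomial (Fin n) K) : aeval g P - C (eval y P) ∈ fibI g y := by
  rw [← Ideal.Quotient.eq_zero_iff_mem, map_sub, sub_eq_zero]
  have h1 : (Ideal.Quotient.mkₐ K (fibI g y)).comp (aeval g) =
      (Ideal.Quotient.mkₐ K (fibI g y)).comp (aeval fun i => C (y i)) := by
    ext i
    simp only [AlgHom.comp_apply, aeval_X]
    rw [← sub_eq_zero, ← map_sub]
    exact Ideal.Quotient.eq_zero_iff_mem.2 (Ideal.subset_span ⟨i, rfl⟩)
  have h2 := AlgHom.congr_fun h1 P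
  simp only [AlgHom.comp_apply, Ideal.Quotient.mkₐ_eq_mk] at h2
  rw [h2]
  congr 1
  rw [aeval_def, eval₂_eq', eval_eq', map_sum]
  refine Finset.sum_congr rfl fun d _ => ?_
  rw [map_mul, map_prod]
  simp

/-- vanishing of the differentials -/
lemma subsingleton_kaehler {A : Type*} [CommRing A] [Algebra K A]
    (mk : MvPolynomial (Fin n) K →ₐ[K] A) (hs : Function.Surjective mk)
    (g : Fin n → MvPolynomial (Fin n) K) (y : Fin n → K)
    (hgy : ∀ i, mk (g i) = algebraMap K A (y i)) (hu : IsUnit (mk (jac g))) :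
    Subsingleton (Ω[A⁄K]) := by
  classical
  have hD : ∀ p : MvPolynomial (Fin n) K, KaehlerDifferential.D K A (mk p) =
      ∑ j, mk (pderiv j p) • KaehlerDifferential.D K A (mk (X j)) := by
    intro p
    induction p using MvPolynomial.induction_on with
    | C a =>
      have h1 : mk (C a) = algebraMap K A a := by
        rw [← MvPolynomial.algebraMap_eq]; exact mk.commutes a
      rw [h1, Derivation.map_algebraMap]
      simp
    | add p q hp hq =>
      rw [map_add, map_add, hp, hq, ← Finset.sum_add_distrib]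
      refine Finset.sum_congr rfl fun j _ => ?_
      rw [map_add, map_add, add_smul]
    | mul_X p i hp =>
      rw [map_mul, Derivation.leibniz, hp]
      have h1 : ∀ j, mk (pderiv j (p * X i)) = (if i = j then mk p else 0) +
          mk (X i) * mk (pderiv j p) := by
        intro j
        rw [pderiv_mul, map_add, map_mul, map_mul, add_comm]
        congr 1
        · rw [pderiv_X]
          by_cases hij : i = j
          · subst hij; simp
          · simp [hij]
        · rw [mul_comm]
      simp only [h1, add_smul, Finset.sum_add_distrib]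
      congr 1
      · simp [ite_smul]
      · rw [Finset.smul_sum]
        simp only [mul_smul]
  have hg : ∀ i, KaehlerDifferential.D K A (mk (g i)) = 0 := by
    intro i
    rw [hgy i, Derivation.map_algebraMap]
  let M : Matrix (Fin n) (Fin n) A := Matrix.of fun i j => mk (pderiv j (g i))
  have hdet : M.det = mk (jac g) := by
    rw [jac]
    have : M = mk.toRingHom.mapMatrix (Matrix.of fun i j => pderiv j (g i)) := rfl
    rw [this, ← RingHom.map_det]; rfl
  have hX : ∀ j, KaehlerDifferential.D K A (mk (X j)) = 0 := by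
    intro j
    have h1 : M.det • KaehlerDifferential.D K A (mk (X j)) = 0 := by
      have h2 : ∀ k, (M.adjugate * M) j k = if j = k then M.det else 0 := by
        intro k
        rw [Matrix.adjugate_mul, Matrix.smul_apply, Matrix.one_apply]
        split_ifs <;> simp
      calc M.det • KaehlerDifferential.D K A (mk (X j))
          = ∑ k, (M.adjugate * M) j k • KaehlerDifferential.D K A (mk (X k)) := by
            simp only [h2, ite_smul, zero_smul]
            simp
        _ = ∑ i, M.adjugate j i • ∑ k, M i k • KaehlerDifferential.D K A (mk (X k)) := by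
            simp only [Matrix.mul_apply, Finset.sum_smul, Finset.smul_sum]
            rw [Finset.sum_comm]
            refine Finset.sum_congr rfl fun i _ => Finset.sum_congr rfl fun k _ => ?_
            rw [mul_smul]
        _ = 0 := by
            refine Finset.sum_eq_zero fun i _ => ?_
            have h3 := hD (g i)
            rw [hg i] at h3
            have h4 : ∑ k, M i k • KaehlerDifferential.D K A (mk (X k)) = 0 := h3.symm
            rw [h4, smul_zero]
    rw [hdet] at h1
    obtain ⟨u, hu'⟩ := hu
    rw [← hu'] at h1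
    have h6 := congrArg (fun z => ((u⁻¹ : Aˣ) : A) • z) h1
    simpa [smul_smul] using h6
  have htop : (⊤ : Submodule A (Ω[A⁄K])) = ⊥ := by
    rw [← KaehlerDifferential.span_range_derivation, Submodule.span_eq_bot]
    rintro _ ⟨a, rfl⟩
    obtain ⟨p, rfl⟩ := hs a
    have := hD p
    simp only [hX, smul_zero, Finset.sum_const_zero] at this
    exact this
  exact (Submodule.subsingleton_iff A).1 (subsingleton_of_bot_eq_top htop.symm)

/-- reducedness of an unramified fibre -/
lemma fib_isRadical (g : Fin n → MvPolynomial (Fin n) K) (y : Fin n → K)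
    (hu : IsUnit (Ideal.Quotient.mk (fibI g y) (jac g))) : (fibI g y).IsRadical := by
  have hsub : Subsingleton (Ω[(MvPolynomial (Fin n) K ⧸ fibI g y)⁄K]) := by
    refine subsingleton_kaehler (Ideal.Quotient.mkₐ K (fibI g y))
      (Ideal.Quotient.mkₐ_surjective K _) g y (fun i => ?_) hu
    have h2 : Ideal.Quotient.mkₐ K (fibI g y) (g i) =
        Ideal.Quotient.mkₐ K (fibI g y) (C (y i)) := by
      rw [← sub_eq_zero, ← map_sub]
      exact Ideal.Quotient.eq_zero_iff_mem.2 (Ideal.subset_span ⟨i, rfl⟩)
    rw [h2, ← MvPolynomial.algebraMap_eq]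
    exact (Ideal.Quotient.mkₐ K (fibI g y)).commutes _
  have hun : Algebra.FormallyUnramified K (MvPolynomial (Fin n) K ⧸ fibI g y) := ⟨hsub⟩
  have hred : IsReduced (MvPolynomial (Fin n) K ⧸ fibI g y) :=
    Algebra.FormallyUnramified.isReduced_of_field K _
  exact (Ideal.isRadical_iff_quotient_reduced _).2 hred

end fibre

/-- B2: an unramified fibre. -/
theorem exists_points (hn : 2 ≤ n) (hδ : 2 ≤ δ) {K : Type*} [Field K] [IsAlgClosed K]
    (v : AbsoluteValue K ℝ) (hv : IsNonarchimedean v) (hδK : (δ : K) ≠ 0)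
    (g : Fin n → MvPolynomial (Fin n) K) (m : (Fin n →₀ ℕ) → (Fin n →₀ ℕ))
    (G : Good δ g (fun ν => monomial (m ν) 1)) (hJ : jac g ≠ 0) (i0 : Fin n) :
    ∃ C : Matrix (Fin n) (Fin n) K, (∀ i j, v (C i j) ≤ 1) ∧ v C.det = 1 ∧
      ∃ x : Z0 n δ → Fin n → K,
        (∀ p i, eval (x p) (lin C g i) = if i = i0 then 1 else 0) ∧
        Matrix.det (Matrix.of fun (ν μ : Z0 n δ) =>
          eval (x μ) (monomial (m ν.e) (1 : K))) ≠ 0 := by
  classical
  have hδ0 : 0 < δ := by omega
  obtain ⟨P, hP0, hP⟩ := exists_mult hδ0 G hJ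
  have hinf : {c : K | v c = 1}.Infinite := infinite_norm_one v hv
  obtain ⟨y, hy1, hy2⟩ : ∃ y : Fin n → K, (∀ i, v (y i) = 1) ∧ eval y P ≠ 0 := by
    by_contra hcon
    push Not at hcon
    apply hP0
    refine funext_set (fun _ => {c : K | v c = 1}) (fun _ => hinf) fun y hy => ?_
    rw [map_zero]
    exact hcon y fun i => hy i (Set.mem_univ i)
  have hu : IsUnit (Ideal.Quotient.mk (fibI g y) (jac g)) := by
    obtain ⟨w, hw⟩ := hP
    have h1 : Ideal.Quotient.mk (fibI g y) (jac g) * Ideal.Quotient.mk (fibI g y) w =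
        Ideal.Quotient.mk (fibI g y) (C (eval y P)) := by
      rw [← map_mul, ← hw, ← sub_eq_zero, ← map_sub]
      exact Ideal.Quotient.eq_zero_iff_mem.2 (aeval_sub_mem g y P)
    have h2 : IsUnit (Ideal.Quotient.mk (fibI g y) (C (eval y P))) :=
      ((isUnit_iff_ne_zero.2 hy2).map (C : K →+* MvPolynomial (Fin n) K)).map _
    rw [← h1] at h2
    exact isUnit_of_mul_isUnit_left h2
  have hrad := fib_isRadical g y hu
  -- functions on the fibre
  let Z : Type _ := {x : Fin n → K // ∀ i, eval x (g i) = y i}
  have hli : LinearIndependent K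
      (fun (ν : Z0 n δ) (x : Z) => eval x.1 (monomial (m ν.e) (1 : K))) := by
    rw [Fintype.linearIndependent_iff]
    intro c hc ν
    have hmem : (∑ μ : Z0 n δ, c μ • (monomial (m μ.e) (1 : K) : MvPolynomial (Fin n) K)) ∈
        fibI g y := by
      have h1 : (∑ μ : Z0 n δ, c μ • (monomial (m μ.e) (1 : K) : MvPolynomial (Fin n) K)) ∈
          vanishingIdeal K (zeroLocus K (fibI g y)) := by
        intro x hx
        have hx' : ∀ i, eval x (g i) = y i := by
          intro i
          have h2 := hx (g i - C (y i)) (Ideal.subset_span ⟨i, rfl⟩)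
          rw [map_sub, aeval_C, sub_eq_zero] at h2
          simpa [aeval_eq_eval] using h2
        have h3 := congrFun hc ⟨x, hx'⟩
        rw [aeval_eq_eval, map_sum]
        simp only [Finset.sum_apply, Pi.smul_apply, Pi.zero_apply] at h3
        rw [← h3]
        refine Finset.sum_congr rfl fun μ _ => ?_
        simp
      rw [vanishingIdeal_zeroLocus_eq_radical, hrad.radical] at h1
      exact h1
    have h2 := fibL_of_mem hδ0 G y ν.e hmem
    rw [map_sum] at h2
    have hlt : ∀ μ : Z0 n δ, ∀ i, μ.e i < δ := fun μ i => (μ.1 i).2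
    have h3 : ∀ μ : Z0 n δ, fibL G y ν.e (c μ • (monomial (m μ.e) (1 : K))) =
        if μ = ν then c μ else 0 := by
      intro μ
      have h4 : (monomial (m μ.e) (1 : K) : MvPolynomial (Fin n) K) =
          Ev δ g (fun ν => monomial (m ν) 1) μ.e := by
        rw [Ev_of_lt (hlt μ)]
      rw [map_smul, h4, fibL_Ev, modF_eq_self (hlt μ), divF_eq_zero (hlt μ)]
      by_cases hμ : μ = ν
      · subst hμ; simp
      · rw [if_neg hμ, if_neg, smul_zero]
        intro h5
        apply hμ
        apply Subtype.ext
        funext i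
        apply Fin.ext
        exact DFunLike.congr_fun h5 i
    simp only [h3] at h2
    simpa using h2
  obtain ⟨x, hx⟩ := exists_points_of_li _ hli
  set c := y i0 with hc
  have hc1 : v c = 1 := hy1 i0
  have hc0 : c ≠ 0 := by
    intro h0; rw [h0, map_zero] at hc1; exact zero_ne_one hc1
  let w : Fin n → K := fun i => if i = i0 then c⁻¹ else -(y i * c⁻¹)
  refine ⟨(1 : Matrix (Fin n) (Fin n) K).updateCol i0 w, ?_, ?_, fun p => (x p).1, ?_, hx⟩
  · intro i j
    rw [Matrix.updateCol_apply]
    split_ifs with hj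
    · simp only [w]
      split_ifs with hi
      · rw [map_inv₀, hc1, inv_one]
      · rw [AbsoluteValue.map_neg, map_mul, map_inv₀, hc1, inv_one, mul_one, hy1]
    · rw [Matrix.one_apply]
      split_ifs
      · rw [map_one]
      · rw [map_zero]; exact zero_le_one
  · rw [← Matrix.cramer_apply, Matrix.cramer_one]
    simp [w, map_inv₀, hc1]
  · intro p i
    rw [lin, map_sum]
    simp only [map_mul, eval_C, (x p).2]
    simp only [Matrix.updateCol_apply, Matrix.one_apply]
    have hsum : ∑ j, (if j = i0 then w i else if i = j then 1 else 0) * y j =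
        w i * c + (if i = i0 then 0 else y i) := by
      rw [← Finset.add_sum_erase _ _ (Finset.mem_univ i0)]
      rw [if_pos rfl]
      congr 1
      by_cases hi : i = i0
      · rw [if_pos hi]
        refine Finset.sum_eq_zero fun j hj => ?_
        have hj' : j ≠ i0 := Finset.ne_of_mem_erase hj
        rw [if_neg hj', if_neg, zero_mul]
        rw [hi]; exact hj'.symm
      · rw [if_neg hi, Finset.sum_eq_single i]
        · simp [hi]
        · intro j _ hji
          have : i ≠ j := hji.symm
          by_cases hj' : j = i0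
          · simp_all
          · simp [hj', this]
        · intro h; exact absurd (Finset.mem_erase.2 ⟨hi, Finset.mem_univ i⟩) h
    rw [hsum]
    simp only [w]
    by_cases hi : i = i0
    · simp [hi, hc0]
    · simp [hi, hc0]

end AF23
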