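import Pool.Agent.AF23.BLev

/-! Part B3: center bound -/

namespace AF23

open MvPolynomial

variable {n δ : ℕ}

section
variable {K : Type*} [Field K]

lemma ball_infinite [Infinite K] (v : AbsoluteValue K ℝ) : {c : K | v c ≤ 1}.Infinite := by
  by_cases h : ∃ t : K, t ≠ 0 ∧ v t < 1
  · obtain ⟨t, ht0, ht1⟩ := h
    have hp : 0 < v t := v.pos ht0
    refine Set.infinite_of_injective_forall_mem (f := fun k : ℕ => t ^ k) ?_ ?_
    · intro a b hab
      have h1 : v t ^ a = v t ^ b := by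
        have := congrArg v hab
        simpa [map_pow] using this
      exact (pow_right_injective₀ hp ht1.ne) h1
    · intro k
      simp only [Set.mem_ofPred_eq, map_pow]
      exact pow_le_one₀ hp.le ht1.le
  · push Not at h
    have : {c : K | v c ≤ 1} = Set.univ := by
      ext c
      simp only [Set.mem_ofPred_eq, Set.mem_univ, iff_true]
      by_cases hc : c = 0
      · simp [hc]
      · have h1 := h c⁻¹ (inv_ne_zero hc)
        rw [map_inv₀] at h1
        exact (one_le_inv₀ (v.pos hc)).1 h1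
    rw [this]
    exact Set.infinite_univ

/-- an integral linear form not vanishing at finitely many nonzero vectors -/
lemma exists_linear [Infinite K] (v : AbsoluteValue K ℝ) {ι : Type*} [Fintype ι]
    (x : ι → Fin n → K) (hx : ∀ i, x i ≠ 0) :
    ∃ c : Fin n → K, (∀ j, v (c j) ≤ 1) ∧ ∀ i, ∑ j, c j * x i j ≠ 0 := by
  classical
  set P : MvPolynomial (Fin n) K := ∏ i, ∑ j, MvPolynomial.C (x i j) * X j with hP
  have hP0 : P ≠ 0 := by
    rw [hP, Finset.prod_ne_zero_iff]
    intro i _ h0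
    apply hx i
    funext j
    have := congrArg (coeff (Finsupp.single j 1)) h0
    simpa [coeff_sum, coeff_C_mul, coeff_X, Finsupp.single_left_inj] using this
  by_contra hcon
  push Not at hcon
  apply hP0
  apply MvPolynomial.funext_set (fun _ : Fin n => {c : K | v c ≤ 1})
    (fun _ => ball_infinite v)
  intro c hc
  obtain ⟨i, hi⟩ := hcon c (fun j => hc j (Set.mem_univ _))
  rw [map_zero, hP, eval_prod]
  refine Finset.prod_eq_zero (Finset.mem_univ i) ?_
  rw [map_sum]
  rw [← hi]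
  refine Finset.sum_congr rfl fun j _ => ?_
  simp [mul_comm]

end

namespace BCtx

variable {ℓ : ℕ} {K : Type*} [Field K] (B : BCtx n δ ℓ K)

lemma npos (B : BCtx n δ ℓ K) : 0 < n := lt_of_lt_of_le (by norm_num) B.hn

lemma x_ne (p : Z0 n δ) : B.x p ≠ 0 := by
  intro h
  have h1 := B.hx p B.i0
  rw [if_pos rfl, h] at h1
  have h3 : eval (0 : Fin n → K) (B.g B.i0) = 0 := by
    have h4 : (0 : Fin n → K) = fun _ => 0 := rfl
    rw [h4, MvPolynomial.eval_zero', MvPolynomial.constantCoeff_eq]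
    exact (B.G.fhom B.i0).coeff_eq_zero (by simpa using B.δpos.ne)
  rw [h3] at h1
  exact zero_ne_one h1

/-- integral form of degree `s` not vanishing at the points -/
lemma exists_u [Infinite K] : ∃ u : MvPolynomial (Fin n) K, u.IsHomogeneous (n * (δ - 1)) ∧
    IntP B.v u ∧ ∀ p, eval (B.x p) u ≠ 0 := by
  obtain ⟨c, hc, hc0⟩ := exists_linear B.v B.x B.x_ne
  refine ⟨(∑ j, MvPolynomial.C (c j) * X j) ^ (n * (δ - 1)), ?_, ?_, ?_⟩
  · have : (∑ j, MvPolynomial.C (c j) * X j : MvPolynomial (Fin n) K).IsHomogeneous 1 := by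
      refine IsHomogeneous.sum _ _ _ fun j _ => ?_
      have := (isHomogeneous_C (Fin n) (c j)).mul (isHomogeneous_X K j)
      simpa using this
    have h2 := this.pow (n * (δ - 1))
    simpa using h2
  · exact IntP.pow B.na (IntP.sum B.na _ fun j _ => (IntP_X j).C_mul B.na (hc j)) _
  · intro p
    rw [eval_pow]
    apply pow_ne_zero
    have := hc0 p
    simpa [map_sum] using this

/-- evaluation matrix -/
noncomputable def V : Matrix (Z0 n δ) (Z0 n δ) K :=
  Matrix.of fun (ν μ : Z0 n δ) => eval (B.x μ) (monomial (B.m ν.e) (1 : K))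

lemma V_mul_inv : B.V * B.V⁻¹ = 1 :=
  Matrix.mul_nonsing_inv _ (Ne.isUnit B.hV)

lemma inv_mul_V : B.V⁻¹ * B.V = 1 :=
  Matrix.nonsing_inv_mul _ (Ne.isUnit B.hV)

lemma sum_level {M : Type*} [AddCommMonoid M] {i0 : Fin n} (hδ : 0 < δ) (γ : Fin n →₀ ℕ)
    (hγ : γ i0 = 0) (k : ℕ) (hk : γ.degree + n ≤ k + 1) (F : Mon n (k * δ) → M) :
    ∑ α : Mon n (k * δ), (if key δ i0 α.1 = toLex γ then F α else 0) =
      ∑ ν : Z0 n δ, F (levelEquiv hδ i0 γ hγ k hk ν).1 := by
  classical
  rw [← Finset.sum_filter]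
  rw [Equiv.sum_comp (levelEquiv hδ i0 γ hγ k hk) (fun a => F a.1)]
  exact Finset.sum_subtype _ (by simp) _

/-- leading coefficient in terms of coordinates -/
lemma LC_hom {k : ℕ} {h : MvPolynomial (Fin n) K} (hh : h.IsHomogeneous (k * δ))
    (γ : Fin n →₀ ℕ) (hγ : γ B.i0 = 0) (hk : γ.degree + n ≤ k + 1) (p : Z0 n δ) :
    B.LC (toLex γ) (B.x p) h = ∑ ν : Z0 n δ, B.G.co h (lvl B.i0 γ k ν) * B.V ν p := by
  conv_lhs => rw [B.G.sum_co_hom B.δpos hh]
  rw [map_sum]
  simp only [map_smul, LC_Ev, smul_eq_mul, mul_ite, mul_zero]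
  rw [sum_level B.δpos γ hγ k hk (fun α => B.G.co h α.1 * eval (B.x p) (B.b (modF δ α.1)))]
  refine Finset.sum_congr rfl fun ν _ => ?_
  have h1 : (levelEquiv B.δpos B.i0 γ hγ k hk ν).1.1 = lvl B.i0 γ k ν := rfl
  rw [h1, modF_lvl]
  rfl

/-- exponent of the functional at level `γ`, degree `k` -/
noncomputable def topE (n δ : ℕ) (i0 : Fin n) (γ : Fin n →₀ ℕ) (k : ℕ) : Fin n →₀ ℕ :=
  top n δ + δ • (γ + Finsupp.single i0 (k - γ.degree))

lemma key_topE (γ : Fin n →₀ ℕ) (hγ : γ B.i0 = 0) (k : ℕ) :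
    key δ B.i0 (topE n δ B.i0 γ k) = toLex γ := by
  have h0 : key δ B.i0 (top n δ) = 0 := by
    apply key_of_lt
    intro i
    have : top n δ i = δ - 1 := rfl
    have := B.δpos
    omega
  rw [topE, key_add B.δpos, h0, zero_add, Finsupp.erase_add, Finsupp.erase_single, add_zero]
  congr 1
  rw [Finsupp.erase_of_notMem_support]
  simp [hγ]

/-- the constants `ζ_ν` -/
noncomputable def zeta (u : MvPolynomial (Fin n) K) (ν : Z0 n δ) : K :=
  B.G.co (u * B.b ν.e) (top n δ + δ • Finsupp.single B.i0 ν.w)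

lemma co_mul_Ev_topE (u : MvPolynomial (Fin n) K) (γ : Fin n →₀ ℕ) (k : ℕ) (ν : Z0 n δ)
    (hk : γ.degree + ν.w ≤ k) :
    B.G.co (u * Ev δ B.g B.b (lvl B.i0 γ k ν)) (topE n δ B.i0 γ k) = B.zeta u ν := by
  have h1 : Ev δ B.g B.b (lvl B.i0 γ k ν) =
      (∏ i, B.g i ^ (γ + Finsupp.single B.i0 (k - γ.degree - ν.w)) i) * B.b ν.e := by
    rw [lvl, Ev_add B.δpos, Ev_of_lt ν.e_lt]
  have h2 : topE n δ B.i0 γ k = (top n δ + δ • Finsupp.single B.i0 ν.w) +
      δ • (γ + Finsupp.single B.i0 (k - γ.degree - ν.w)) := by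
    have h3 : k - γ.degree = ν.w + (k - γ.degree - ν.w) := by omega
    rw [topE, h3, Finsupp.single_add]
    have h4 : ν.w + (k - γ.degree - ν.w) - ν.w = k - γ.degree - ν.w := by omega
    rw [h4]
    simp only [smul_add]
    abel
  rw [h1, mul_left_comm, h2, B.G.co_prod_mul_add B.δpos, zeta]

/-- the weights -/
noncomputable def wt (u : MvPolynomial (Fin n) K) (p : Z0 n δ) : K :=
  ∑ ν, B.V⁻¹ p ν * B.zeta u ν

/-- (S') -/
lemma co_topE (u : MvPolynomial (Fin n) K) (γ : Fin n →₀ ℕ) (hγ : γ B.i0 = 0) (k : ℕ)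
    (hk : γ.degree + n ≤ k + 1) (h : MvPolynomial (Fin n) K) (hh : h.IsHomogeneous (k * δ))
    (hF : B.Fil (toLex γ) h) :
    B.G.co (u * h) (topE n δ B.i0 γ k) = ∑ p, B.wt u p * B.LC (toLex γ) (B.x p) h := by
  classical
  have e1 : B.G.co (u * h) (topE n δ B.i0 γ k) =
      ∑ ν : Z0 n δ, B.G.co h (lvl B.i0 γ k ν) * B.zeta u ν := by
    conv_lhs => rw [B.G.sum_co_hom B.δpos hh, Finset.mul_sum]
    rw [B.G.co_sum]
    have h1 : ∀ α : Mon n (k * δ),
        B.G.co (u * (B.G.co h α.1 • Ev δ B.g B.b α.1)) (topE n δ B.i0 γ k) =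
        if key δ B.i0 α.1 = toLex γ then
          B.G.co h α.1 * B.G.co (u * Ev δ B.g B.b α.1) (topE n δ B.i0 γ k) else 0 := by
      intro α
      rw [mul_smul_comm, B.G.co_smul]
      split_ifs with hk'
      · rfl
      · by_cases h0 : B.G.co h α.1 = 0
        · rw [h0, zero_mul]
        · have h2 : toLex γ < key δ B.i0 α.1 := lt_of_le_of_ne (hF _ h0) (Ne.symm hk')
          have h3 : B.Fil (0 + key δ B.i0 α.1) (u * Ev δ B.g B.b α.1) :=
            B.Fil_mul (B.Fil_zero u) (B.Fil_Ev α.1)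
          rw [zero_add] at h3
          by_contra hne
          have h4 := h3 _ (right_ne_zero_of_mul hne)
          rw [B.key_topE γ hγ] at h4
          exact absurd h2 (not_lt.2 h4)
    rw [Finset.sum_congr rfl fun α _ => h1 α]
    rw [sum_level B.δpos γ hγ k hk
      (fun α => B.G.co h α.1 * B.G.co (u * Ev δ B.g B.b α.1) (topE n δ B.i0 γ k))]
    refine Finset.sum_congr rfl fun ν _ => ?_
    have h1 : (levelEquiv B.δpos B.i0 γ hγ k hk ν).1.1 = lvl B.i0 γ k ν := rfl
    rw [h1, B.co_mul_Ev_topE]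
    have := ν.w_lt B.npos
    omega
  rw [e1]
  simp only [wt, Finset.sum_mul]
  rw [Finset.sum_comm]
  have h5 : ∀ p, B.LC (toLex γ) (B.x p) h =
      ∑ ν : Z0 n δ, B.G.co h (lvl B.i0 γ k ν) * B.V ν p := fun p => B.LC_hom hh γ hγ hk p
  simp only [h5]
  have h6 : ∀ ν μ : Z0 n δ, ∑ p, B.V ν p * B.V⁻¹ p μ = if ν = μ then 1 else 0 := by
    intro ν μ
    have := congrFun (congrFun B.V_mul_inv ν) μ
    rw [Matrix.mul_apply, Matrix.one_apply] at this
    exact this
  symm
  calc ∑ y, ∑ x, B.V⁻¹ x y * B.zeta u y * ∑ ν, B.G.co h (lvl B.i0 γ k ν) * B.V ν x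
      = ∑ y, ∑ ν, B.zeta u y * B.G.co h (lvl B.i0 γ k ν) * ∑ x, B.V ν x * B.V⁻¹ x y := by
        refine Finset.sum_congr rfl fun y _ => ?_
        simp only [Finset.mul_sum]
        rw [Finset.sum_comm]
        refine Finset.sum_congr rfl fun ν _ => ?_
        refine Finset.sum_congr rfl fun x _ => ?_
        ring
    _ = ∑ y, B.G.co h (lvl B.i0 γ k y) * B.zeta u y := by
        refine Finset.sum_congr rfl fun y _ => ?_
        rw [Finset.sum_eq_single y]
        · rw [h6, if_pos rfl]; ring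
        · intro ν _ hν; rw [h6, if_neg hν, mul_zero]
        · simp

/-- element of degree `nδ` with value `1` at `x_p` and `0` at the other points -/
noncomputable def idem (p : Z0 n δ) : MvPolynomial (Fin n) K :=
  ∑ ν, B.V⁻¹ p ν • (B.b ν.e * B.g B.i0 ^ (n - ν.w))

lemma idem_hom (p : Z0 n δ) : (B.idem p).IsHomogeneous (n * δ) := by
  refine IsHomogeneous.sum _ _ _ fun ν _ => ?_
  rw [smul_eq_C_mul]
  have h1 := (isHomogeneous_C (Fin n) (B.V⁻¹ p ν)).mul
    ((B.G.bhom ν.e ν.e_lt).mul ((B.G.fhom B.i0).pow (n - ν.w)))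
  have h2 : 0 + (ν.e.degree + δ * (n - ν.w)) = n * δ := by
    have := ν.w_lt B.npos
    rw [← ν.δ_mul_w, zero_add, ← mul_add, mul_comm]
    congr 1; omega
  rw [h2] at h1
  exact h1

lemma eval_idem (p p' : Z0 n δ) : eval (B.x p') (B.idem p) = if p = p' then 1 else 0 := by
  have h1 : eval (B.x p') (B.idem p) = ∑ ν, B.V⁻¹ p ν * B.V ν p' := by
    rw [idem, map_sum]
    refine Finset.sum_congr rfl fun ν _ => ?_
    rw [smul_eval, eval_mul, eval_pow, B.hx, if_pos rfl, one_pow, mul_one]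
    rfl
  rw [h1, ← Matrix.mul_apply, B.inv_mul_V, Matrix.one_apply]

lemma wt_ne (u : MvPolynomial (Fin n) K) (hu : u.IsHomogeneous (n * (δ - 1)))
    (hux : ∀ p, eval (B.x p) u ≠ 0) (p : Z0 n δ) : B.wt u p ≠ 0 := by
  classical
  intro hw
  set c := u * B.idem p with hc
  have hcx : eval (B.x p) c ≠ 0 := by
    rw [hc, eval_mul, B.eval_idem, if_pos rfl, mul_one]; exact hux p
  have hchom : c.IsHomogeneous (n * (δ - 1) + n * δ) := hu.mul (B.idem_hom p)
  -- coordinates of `c` at level `0`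
  have hex : ∃ t, ∃ α, key δ B.i0 α = 0 ∧ B.G.co c α ≠ 0 ∧ divF δ α B.i0 = t := by
    by_contra hcon
    push Not at hcon
    apply hcx
    rw [← B.LC_zero, B.LC_eq_sum]
    refine Finset.sum_eq_zero fun α hα => ?_
    rw [if_neg, mul_zero]
    intro hk
    exact hcon _ α hk (Finsupp.mem_support_iff.1 hα) rfl
  let t0 := Nat.find hex
  obtain ⟨α0, hα0, hα0c, hα0t⟩ := Nat.find_spec hex
  have hmin : ∀ α, key δ B.i0 α = 0 → B.G.co c α ≠ 0 → t0 ≤ divF δ α B.i0 := by
    intro α h1 h2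
    exact Nat.find_min' hex ⟨α, h1, h2, rfl⟩
  have hdiv : ∀ α, key δ B.i0 α = 0 → divF δ α = Finsupp.single B.i0 (divF δ α B.i0) := by
    intro α hα
    have h1 : (divF δ α).erase B.i0 = 0 := hα
    have h2 := Finsupp.single_add_erase B.i0 (divF δ α)
    rw [h1, add_zero] at h2
    exact h2.symm
  have hα0deg : α0.degree = n * (δ - 1) + n * δ := by
    by_contra hne
    exact hα0c (B.G.co_eq_zero_of_degree B.δpos hchom hne)
  -- the quotient element
  set S0 := (B.G.basis.repr c).support.filter (fun α => key δ B.i0 α = 0) with hS0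
  set c1 := ∑ α ∈ S0, B.G.co c α • Ev δ B.g B.b (α - δ • Finsupp.single B.i0 t0) with hc1
  set c2 := ∑ α ∈ (B.G.basis.repr c).support.filter (fun α => ¬ key δ B.i0 α = 0),
    B.G.co c α • Ev δ B.g B.b α with hc2
  have hle : ∀ α ∈ S0, δ • Finsupp.single B.i0 t0 ≤ α := by
    intro α hα
    rw [hS0, Finset.mem_filter, Finsupp.mem_support_iff] at hα
    have h1 := hmin α hα.2 hα.1
    rw [Finsupp.smul_single, Finsupp.single_le_iff, smul_eq_mul]
    rw [divF_apply, Nat.le_div_iff_mul_le B.δpos] at h1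
    rw [mul_comm]; exact h1
  have hdecomp : c = B.g B.i0 ^ t0 * c1 + c2 := by
    have h1 : B.g B.i0 ^ t0 * c1 = ∑ α ∈ S0, B.G.co c α • Ev δ B.g B.b α := by
      rw [hc1, Finset.mul_sum]
      refine Finset.sum_congr rfl fun α hα => ?_
      rw [mul_smul_comm]
      congr 1
      have h2 : Ev δ B.g B.b α =
          Ev δ B.g B.b ((α - δ • Finsupp.single B.i0 t0) + δ • Finsupp.single B.i0 t0) := by
        rw [tsub_add_cancel_of_le (hle α hα)]
      rw [h2, Ev_add B.δpos]
      congr 1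
      rw [Finset.prod_eq_single B.i0]
      · simp
      · intro j _ hj; simp [hj.symm]
      · simp
    rw [h1, hc2, hS0]
    conv_lhs => rw [B.G.sum_co c]
    rw [Finset.sum_filter_add_sum_filter_not]
  have hc1co : B.G.co c1 (α0 - δ • Finsupp.single B.i0 t0) = B.G.co c α0 := by
    have hα0S : α0 ∈ S0 := by
      rw [hS0, Finset.mem_filter, Finsupp.mem_support_iff]; exact ⟨hα0c, hα0⟩
    rw [hc1, B.G.co_sum, Finset.sum_eq_single_of_mem α0 hα0S]
    · rw [B.G.co_smul, B.G.co_Ev_self, mul_one]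
    · intro α hα hne
      rw [B.G.co_smul, B.G.co_Ev, if_neg, mul_zero]
      intro heq
      apply hne
      have : (α - δ • Finsupp.single B.i0 t0) + δ • Finsupp.single B.i0 t0 =
          (α0 - δ • Finsupp.single B.i0 t0) + δ • Finsupp.single B.i0 t0 := by rw [heq]
      rwa [tsub_add_cancel_of_le (hle α hα), tsub_add_cancel_of_le (hle α0 hα0S)] at this
  have hα0mod : α0 - δ • Finsupp.single B.i0 t0 = modF δ α0 := by
    have h1 := modF_add_divF (δ := δ) α0
    rw [hdiv α0 hα0] at h1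
    have h2 : divF δ α0 B.i0 = t0 := hα0t
    rw [h2] at h1
    conv_lhs => rw [← h1]
    simp
  -- degree bookkeeping
  have hdeg : (modF δ α0).degree + δ * t0 = n * (δ - 1) + n * δ := by
    rw [← hα0deg, degree_eq (δ := δ) α0, hdiv α0 hα0, Finsupp.degree_single]
    have h2 : divF δ α0 B.i0 = t0 := hα0t
    rw [h2]
  have hmodle : (modF δ α0).degree ≤ n * (δ - 1) := by
    rw [Finsupp.degree_eq_sum]
    calc ∑ i, modF δ α0 i ≤ ∑ _i : Fin n, (δ - 1) :=
          Finset.sum_le_sum fun i _ => Nat.le_sub_one_of_lt (modF_lt B.δpos α0 i)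
      _ = n * (δ - 1) := by simp
  have hnt : n ≤ t0 := by
    have : n * δ ≤ t0 * δ := by rw [mul_comm t0]; omega
    exact Nat.le_of_mul_le_mul_right this B.δpos
  have hc1hom : c1.IsHomogeneous (modF δ α0).degree := by
    refine IsHomogeneous.sum _ _ _ fun α hα => ?_
    rw [smul_eq_C_mul]
    have h1 := (isHomogeneous_C (Fin n) (B.G.co c α)).mul
      (B.G.isHomogeneous_Ev B.δpos (α - δ • Finsupp.single B.i0 t0))
    have h2 : 0 + (α - δ • Finsupp.single B.i0 t0).degree = (modF δ α0).degree := by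
      have h3 := hle α hα
      rw [hS0, Finset.mem_filter, Finsupp.mem_support_iff] at hα
      have h4 : α.degree = n * (δ - 1) + n * δ := by
        by_contra hne
        exact hα.1 (B.G.co_eq_zero_of_degree B.δpos hchom hne)
      have h5 : (α - δ • Finsupp.single B.i0 t0).degree + δ * t0 = α.degree := by
        have h6 : (δ • Finsupp.single B.i0 t0 : Fin n →₀ ℕ).degree = δ * t0 := by
          rw [map_nsmul, Finsupp.degree_single, smul_eq_mul]
        rw [← h6, ← map_add, tsub_add_cancel_of_le h3]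
      omega
    rw [h2] at h1
    exact h1
  -- `c1` is not in the ideal
  have hc1n : c1 ∉ Ideal.span (Set.range B.g) := by
    intro hmem
    have hz : B.G.co c1 (modF δ α0) = 0 := by
      refine Submodule.span_induction (p := fun z _ => B.G.co z (modF δ α0) = 0) ?_ ?_ ?_ ?_
        (show c1 ∈ Submodule.span K {z | ∃ i w, z = B.g i * w} from ?_)
      · rintro z ⟨i, w, rfl⟩
        have h1 := B.G.co_pow_mul B.δpos i 1 w (modF δ α0)
        rw [pow_one, mul_one, if_neg (not_le.2 (modF_lt B.δpos α0 i))] at h1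
        exact h1
      · exact B.G.co_zero _
      · intro a b _ _ ha hb; rw [B.G.co_add, ha, hb, add_zero]
      · intro r a _ ha; rw [B.G.co_smul, ha, mul_zero]
      · refine Submodule.span_induction ?_ ?_ ?_ ?_ hmem
        · rintro z ⟨i, rfl⟩
          exact Submodule.subset_span ⟨i, 1, (mul_one _).symm⟩
        · exact Submodule.zero_mem _
        · intro a b _ _ ha hb; exact Submodule.add_mem _ ha hb
        · intro r a _ ha
          refine Submodule.span_induction ?_ ?_ ?_ ?_ ha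
          · rintro z ⟨i, w, rfl⟩
            exact Submodule.subset_span ⟨i, r * w, by simp only [smul_eq_mul]; ring⟩
          · simp
          · intro a b _ _ ha hb; rw [smul_add]; exact Submodule.add_mem _ ha hb
          · intro k a _ ha; rw [smul_comm]; exact Submodule.smul_mem _ _ ha
    rw [← hα0mod, hc1co] at hz
    exact hα0c hz
  -- duality
  have hdual : ∃ w : MvPolynomial (Fin n) K,
      w.IsHomogeneous (n * (δ - 1) - (modF δ α0).degree) ∧
      B.G.co (c1 * w) (top n δ) ≠ 0 := by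
    by_contra hcon
    push Not at hcon
    exact hc1n (B.dual _ hmodle c1 hc1hom hcon)
  obtain ⟨w, hwhom, hw1⟩ := hdual
  have hwdeg : n * (δ - 1) - (modF δ α0).degree = (t0 - n) * δ := by
    rw [Nat.sub_mul, mul_comm t0]; omega
  rw [hwdeg] at hwhom
  -- first computation
  have hA : B.G.co (c * w) (topE n δ B.i0 0 t0) ≠ 0 := by
    have h1 : topE n δ B.i0 0 t0 = top n δ + Finsupp.single B.i0 (δ * t0) := by
      simp [topE, Finsupp.smul_single]
    have h2 : B.G.co (B.g B.i0 ^ t0 * (c1 * w)) (topE n δ B.i0 0 t0) =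
        B.G.co (c1 * w) (top n δ) := by
      rw [B.G.co_pow_mul B.δpos, h1, if_pos (by simp)]
      simp
    have h3 : B.G.co (c2 * w) (topE n δ B.i0 0 t0) = 0 := by
      by_contra hne
      rw [hc2, Finset.sum_mul, B.G.co_sum] at hne
      obtain ⟨α, hα, hα2⟩ := Finset.exists_ne_zero_of_sum_ne_zero hne
      rw [smul_mul_assoc, B.G.co_smul] at hα2
      have h4 : B.Fil (key δ B.i0 α + 0) (Ev δ B.g B.b α * w) :=
        B.Fil_mul (B.Fil_Ev α) (B.Fil_zero w)
      rw [add_zero] at h4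
      have h5 := h4 _ (right_ne_zero_of_mul hα2)
      rw [B.key_topE 0 (by simp)] at h5
      rw [Finset.mem_filter] at hα
      exact hα.2 (le_antisymm h5 (zero_le_lex _))
    rw [hdecomp, add_mul, B.G.co_add, h3, add_zero, mul_assoc, h2]
    exact hw1
  apply hA
  have h1 : (B.idem p * w).IsHomogeneous (t0 * δ) := by
    have := (B.idem_hom p).mul hwhom
    have h2 : n * δ + (t0 - n) * δ = t0 * δ := by
      rw [← add_mul]; congr 1; omega
    rwa [h2] at this
  have h2 := B.co_topE u 0 (by simp) t0 (by simp; omega) (B.idem p * w) h1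
    (B.Fil_zero _)
  rw [hc, mul_assoc, h2]
  refine Finset.sum_eq_zero fun p' _ => ?_
  have h3 : (toLex (0 : Fin n →₀ ℕ)) = (0 : Lex (Fin n →₀ ℕ)) := rfl
  rw [h3, B.LC_zero, eval_mul, B.eval_idem]
  by_cases hp : p = p'
  · rw [← hp, hw, zero_mul]
  · rw [if_neg hp, zero_mul, mul_zero]

lemma ctr_eq (k : ℕ) : ctr B.i0 k =
    toLex ((Finsupp.equivFunOnFinite.symm fun _ : Fin n => k).erase B.i0) := rfl

lemma nsmul_ctr (a k : ℕ) : a • ctr B.i0 k = ctr B.i0 (a * k) := by
  have h1 : a • (Finsupp.equivFunOnFinite.symm fun _ : Fin n => k).erase B.i0 =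
      (Finsupp.equivFunOnFinite.symm fun _ : Fin n => a * k).erase B.i0 := by
    ext i
    by_cases hi : i = B.i0
    · simp [hi]
    · simp [Finsupp.erase_ne hi]
  rw [ctr_eq, ctr_eq, ← h1]; rfl

lemma ctr_add (a k : ℕ) : ctr B.i0 a + ctr B.i0 k = ctr B.i0 (a + k) := by
  have h1 : (Finsupp.equivFunOnFinite.symm fun _ : Fin n => a).erase B.i0 +
      (Finsupp.equivFunOnFinite.symm fun _ : Fin n => k).erase B.i0 =
      (Finsupp.equivFunOnFinite.symm fun _ : Fin n => a + k).erase B.i0 := by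
    ext i
    by_cases hi : i = B.i0
    · simp [hi]
    · simp [Finsupp.erase_ne hi]
  rw [ctr_eq, ctr_eq, ctr_eq, ← h1]; rfl

/-- the exponent `(k,…,k)` without the coordinate `i0` -/
noncomputable def cE (i0 : Fin n) (k : ℕ) : Fin n →₀ ℕ :=
  (Finsupp.equivFunOnFinite.symm fun _ : Fin n => k).erase i0

lemma degree_cE (k : ℕ) : (cE B.i0 k).degree = (n - 1) * k := by
  have h1 : Finsupp.single B.i0 k + cE B.i0 k =
      (Finsupp.equivFunOnFinite.symm fun _ : Fin n => k) := by
    have := Finsupp.single_add_erase B.i0 (Finsupp.equivFunOnFinite.symm fun _ : Fin n => k)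
    simpa [cE] using this
  have h2 := congrArg Finsupp.degree h1
  rw [map_add, Finsupp.degree_single] at h2
  have h3 : (Finsupp.equivFunOnFinite.symm fun _ : Fin n => k).degree = n * k := by
    rw [Finsupp.degree_eq_sum]; simp
  rw [h3] at h2
  have hn := B.npos
  obtain ⟨m, rfl⟩ : ∃ m, n = m + 1 := ⟨n - 1, by omega⟩
  rw [Nat.add_sub_cancel]
  rw [add_mul, one_mul] at h2
  omega

lemma topE_cE {q : ℕ} (hq : 1 ≤ q) :
    topE n δ B.i0 (cE B.i0 (q - 1)) (n * (q - 1)) = top n (q * δ) := by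
  have hn := B.npos
  have h1 : n * (q - 1) - (cE B.i0 (q - 1)).degree = q - 1 := by
    rw [B.degree_cE]
    obtain ⟨m, rfl⟩ : ∃ m, n = m + 1 := ⟨n - 1, by omega⟩
    rw [Nat.add_sub_cancel, add_mul, one_mul, Nat.add_sub_cancel_left]
  have h2 : cE B.i0 (q - 1) + Finsupp.single B.i0 (q - 1) =
      (Finsupp.equivFunOnFinite.symm fun _ : Fin n => q - 1) := by
    have := Finsupp.single_add_erase B.i0 (Finsupp.equivFunOnFinite.symm fun _ : Fin n => q - 1)
    rw [add_comm]; simpa [cE] using this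
  rw [topE, h1, h2]
  ext i
  have h3 := B.δpos
  simp only [top, Finsupp.add_apply, Finsupp.smul_apply, Finsupp.equivFunOnFinite_symm_apply_apply,
    smul_eq_mul]
  obtain ⟨r, rfl⟩ : ∃ r, q = r + 1 := ⟨q - 1, by omega⟩
  rw [Nat.add_sub_cancel, add_mul, one_mul, mul_comm δ r]
  omega

end BCtx

end AF23
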