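import Pool.Agent.AF23.B3

/-! Part B3: the center bound -/

namespace AF23

open MvPolynomial

variable {n δ : ℕ}

namespace BCtx

variable {ℓ : ℕ} {K : Type*} [Field K] (B : BCtx n δ ℓ K)

/-- there is a nonzero scalar making a polynomial integral -/
lemma exists_scale (v : AbsoluteValue K ℝ) (h : MvPolynomial (Fin n) K) :
    ∃ c : K, c ≠ 0 ∧ IntP v (c • h) := by
  classical
  by_cases h0 : h = 0
  · exact ⟨1, one_ne_zero, by rw [h0, smul_zero]; exact IntP_zero⟩
  · have hne : h.support.Nonempty := by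
      rw [Finset.nonempty_iff_ne_empty]; simpa using h0
    obtain ⟨e, he, hmax⟩ := Finset.exists_max_image h.support (fun e => v (coeff e h)) hne
    have hce : coeff e h ≠ 0 := by simpa using he
    refine ⟨(coeff e h)⁻¹, inv_ne_zero hce, fun e' => ?_⟩
    rw [coeff_smul, smul_eq_mul, map_mul, map_inv₀]
    by_cases he' : e' ∈ h.support
    · have := hmax e' he'
      have hp : 0 < v (coeff e h) := v.pos hce
      rw [inv_mul_le_iff₀ hp, mul_one]; exact this
    · have : coeff e' h = 0 := by simpa using he'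
      rw [this]; simp

lemma frob' {q : ℕ} (e : ℕ) (hq : q = ℓ ^ e) (h : MvPolynomial (Fin n) K)
    (hh : h.IsHomogeneous (n * (q * δ - 1))) (hi : IntP B.v h) :
    B.v (B.G.co h (top n (q * δ))) ≤ B.Cσ * (B.t⁻¹) ^ q := by
  subst hq; exact B.frob e h hh hi

/-- B3: center bound. -/
theorem center [Infinite K] (k : ℕ) (H : MvPolynomial (Fin n) K)
    (hH : H.IsHomogeneous (n * k * δ)) (hI : IntP B.v H) (hF : B.Fil (ctr B.i0 k) H)
    (p : Z0 n δ) : B.v (B.LC (ctr B.i0 k) (B.x p) H) ≤ (B.t⁻¹) ^ k := by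
  classical
  have hn := B.npos
  have hδ := B.δpos
  have ht1 : 1 < B.t⁻¹ := (one_lt_inv₀ B.t0).2 B.t1
  have htp : 0 < B.t⁻¹ := zero_lt_one.trans ht1
  rcases Nat.eq_zero_or_pos k with hk0 | hk
  · subst hk0
    have h0 : ctr B.i0 0 = 0 := by
      rw [ctr_eq]
      have : (Finsupp.equivFunOnFinite.symm fun _ : Fin n => 0).erase B.i0 = 0 := by
        ext i; by_cases hi : i = B.i0 <;> simp [hi]
      rw [this]; rfl
    rw [h0, LC_zero, pow_zero]
    rw [mul_zero, zero_mul] at hH
    have h1 := (totalDegree_eq_zero_iff_eq_C (p := H)).1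
      (Nat.le_zero.1 hH.totalDegree_le)
    rw [h1, eval_C]
    exact hI 0
  -- auxiliary data
  obtain ⟨u, hu, huI, hux⟩ := B.exists_u
  have hw := B.wt_ne u hu hux p
  obtain ⟨π, hπ0, hπ⟩ := exists_scale B.v (B.idem p)
  set x := B.v (B.LC (ctr B.i0 k) (B.x p) H) with hx
  set W := B.v (B.wt u p * π) with hW
  have hWpos : 0 < W := B.v.pos (mul_ne_zero hw hπ0)
  -- the main estimate
  have main : ∀ (e a b q : ℕ), q = ℓ ^ e → q = a * k + b + 1 → n ≤ b →
      W * x ^ a ≤ B.Cσ * (B.t⁻¹) ^ q := by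
    intro e a b q hq hqab hb
    have hq1 : 1 ≤ q := by omega
    set β : Fin n →₀ ℕ := cE B.i0 b + Finsupp.single B.i0 (b - n) with hβ
    set Gp : MvPolynomial (Fin n) K := H ^ a * ((∏ i, B.g i ^ β i) * (π • B.idem p)) with hG
    have hβe : β.erase B.i0 = cE B.i0 b := by
      rw [hβ, Finsupp.erase_add, Finsupp.erase_single, add_zero, cE, Finsupp.erase_idem]
    have hβdeg : β.degree = (n - 1) * b + (b - n) := by
      rw [hβ, map_add, B.degree_cE, Finsupp.degree_single]
    have hGhom : Gp.IsHomogeneous (n * (q - 1) * δ) := by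
      have h1 := hH.pow a
      have h2 : (∏ i, B.g i ^ β i).IsHomogeneous (δ * β.degree) := by
        rw [Finsupp.degree_eq_sum, Finset.mul_sum]
        exact IsHomogeneous.prod _ _ _ fun i _ => (B.G.fhom i).pow _
      have h3 : (π • B.idem p).IsHomogeneous (n * δ) := by
        rw [smul_eq_C_mul]
        have := (isHomogeneous_C (Fin n) π).mul (B.idem_hom p)
        rwa [zero_add] at this
      have h4 := h1.mul (h2.mul h3)
      have h5 : n * k * δ * a + (δ * β.degree + n * δ) = n * (q - 1) * δ := by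
        rw [hβdeg]
        obtain ⟨m, rfl⟩ : ∃ m, n = m + 1 := ⟨n - 1, by omega⟩
        obtain ⟨c, rfl⟩ : ∃ c, b = (m + 1) + c := ⟨b - (m + 1), by omega⟩
        have h6 : q - 1 = a * k + (m + 1 + c) := by omega
        rw [h6, Nat.add_sub_cancel, Nat.add_sub_cancel_left]
        ring
      rw [h5] at h4
      exact h4
    have hFG : B.Fil (ctr B.i0 (q - 1)) Gp := by
      have h1 := B.Fil_pow hF a
      rw [B.nsmul_ctr] at h1
      have h2 := B.Fil_prod_mul β (B.Fil_zero (π • B.idem p))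
      rw [zero_add, hβe] at h2
      have h3 := B.Fil_mul h1 h2
      have h4 : ctr B.i0 (a * k) + toLex (cE B.i0 b) = ctr B.i0 (q - 1) := by
        have : toLex (cE B.i0 b) = ctr B.i0 b := rfl
        rw [this, B.ctr_add]; congr 1; omega
      rw [h4] at h3
      exact h3
    have hLC : ∀ p', B.LC (ctr B.i0 (q - 1)) (B.x p') Gp =
        (B.LC (ctr B.i0 k) (B.x p') H) ^ a * (π * if p = p' then 1 else 0) := by
      intro p'
      have h1 := B.Fil_pow hF a
      have h2 := B.Fil_prod_mul β (B.Fil_zero (π • B.idem p))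
      have h3 := B.LC_mul p' h1 h2
      have h4 : a • ctr B.i0 k + (0 + toLex (β.erase B.i0)) = ctr B.i0 (q - 1) := by
        rw [hβe, zero_add, B.nsmul_ctr]
        have : toLex (cE B.i0 b) = ctr B.i0 b := rfl
        rw [this, B.ctr_add]; congr 1; omega
      rw [h4] at h3
      rw [hG, h3, B.LC_pow p' hF a, B.LC_prod_mul, B.LC_zero, smul_eval, B.eval_idem]
    have hco : B.G.co (u * Gp) (top n (q * δ)) = B.wt u p * π * (B.LC (ctr B.i0 k) (B.x p) H) ^ a := by
      have h1 := B.co_topE u (cE B.i0 (q - 1)) (by simp [cE]) (n * (q - 1)) (by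
        rw [B.degree_cE]
        obtain ⟨m, rfl⟩ : ∃ m, n = m + 1 := ⟨n - 1, by omega⟩
        rw [Nat.add_sub_cancel]
        have : m ≤ q - 1 := by
          have : m + 1 ≤ b := hb
          omega
        nlinarith) Gp hGhom hFG
      rw [B.topE_cE hq1] at h1
      rw [h1]
      have h2 : ∀ p', B.LC (toLex (cE B.i0 (q - 1))) (B.x p') Gp =
        (B.LC (ctr B.i0 k) (B.x p') H) ^ a * (π * if p = p' then 1 else 0) := hLC
      rw [Finset.sum_eq_single p]
      · rw [h2, if_pos rfl]; ring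
      · intro p' _ hp'
        rw [h2, if_neg (Ne.symm hp'), mul_zero, mul_zero, mul_zero]
      · simp
    have hint : IntP B.v (u * Gp) := by
      refine huI.mul B.na ?_
      refine (hI.pow B.na a).mul B.na ?_
      exact (IntP.prod B.na _ fun i _ => (B.gint i).pow B.na _).mul B.na hπ
    have hhom : (u * Gp).IsHomogeneous (n * (q * δ - 1)) := by
      have h1 := hu.mul hGhom
      have h2 : n * (δ - 1) + n * (q - 1) * δ = n * (q * δ - 1) := by
        obtain ⟨r, rfl⟩ : ∃ r, q = r + 1 := ⟨q - 1, by omega⟩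
        obtain ⟨d, rfl⟩ : ∃ d, δ = d + 1 := ⟨δ - 1, by omega⟩
        rw [Nat.add_sub_cancel, Nat.add_sub_cancel]
        have : (r + 1) * (d + 1) - 1 = r * (d + 1) + d := by
          rw [add_mul, one_mul]; omega
        rw [this]; ring
      rw [h2] at h1
      exact h1
    have h1 := B.frob' e hq (u * Gp) hhom hint
    rw [hco, map_mul, map_pow] at h1
    exact h1
  -- limiting argument
  by_contra hcon
  push Not at hcon
  have hyp : 0 < (B.t⁻¹) ^ k := pow_pos htp k
  set y := (B.t⁻¹) ^ k with hy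
  have hr : 1 < x / y := (one_lt_div hyp).2 hcon
  set Cc := B.Cσ * (B.t⁻¹) ^ (n + k + 1) / W with hCc
  obtain ⟨A, hA⟩ := pow_unbounded_of_one_lt Cc hr
  -- choose e
  set e := A * k + n + 1 with he
  set q := ℓ ^ e with hq
  have hqe : e < q := Nat.lt_pow_self B.hℓ.one_lt
  set a := (q - 1 - n) / k with ha
  set b := q - 1 - a * k with hb
  have hak : a * k ≤ q - 1 - n := Nat.div_mul_le_self _ _
  have hbn : n ≤ b := by omega
  have hqab : q = a * k + b + 1 := by omega
  have hAa : A ≤ a := by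
    rw [ha, Nat.le_div_iff_mul_le hk]; omega
  have hb2 : b < n + k := by
    have h1 : q - 1 - n < (a + 1) * k := by
      have h0 := Nat.div_add_mod (q - 1 - n) k
      have h00 := Nat.mod_lt (q - 1 - n) hk
      rw [← ha, mul_comm] at h0
      rw [add_mul, one_mul]; omega
    rw [add_mul, one_mul] at h1; omega
  have h1 := main e a b q hq hqab hbn
  have h2 : (B.t⁻¹) ^ q ≤ y ^ a * (B.t⁻¹) ^ (n + k + 1) := by
    rw [hy, ← pow_mul, ← pow_add]
    apply pow_le_pow_right₀ ht1.le
    rw [mul_comm k a]; omega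
  have h3 : W * x ^ a ≤ B.Cσ * (y ^ a * (B.t⁻¹) ^ (n + k + 1)) :=
    h1.trans (mul_le_mul_of_nonneg_left h2 (zero_le_one.trans B.Cσ0))
  have h4 : (x / y) ^ a ≤ Cc := by
    rw [div_pow, hCc, div_le_div_iff₀ (pow_pos hyp a) hWpos]
    calc x ^ a * W = W * x ^ a := mul_comm _ _
      _ ≤ B.Cσ * (y ^ a * (B.t⁻¹) ^ (n + k + 1)) := h3
      _ = B.Cσ * (B.t⁻¹) ^ (n + k + 1) * y ^ a := by ring
  have h5 : (x / y) ^ A ≤ (x / y) ^ a := pow_le_pow_right₀ hr.le hAa
  linarith

end BCtx

end AF23
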