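import Pool.Agent.AF23.BLev

/-! Part B4: Hermite form over the unit ball, triangular families -/

namespace AF23

open MvPolynomial

section hermite
variable {K : Type*} [Field K] {v : AbsoluteValue K ℝ}

lemma intM_mul (hv : IsNonarchimedean v) {ι : Type*} [Fintype ι] {A B : Matrix ι ι K}
    (hA : ∀ i j, v (A i j) ≤ 1) (hB : ∀ i j, v (B i j) ≤ 1) : ∀ i j, v ((A * B) i j) ≤ 1 := by
  intro i j
  rw [Matrix.mul_apply]
  refine v_sum_le hv _ _ zero_le_one fun k _ => ?_
  rw [map_mul]
  exact mul_le_one₀ (hA _ _) (v.nonneg _) (hB _ _)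

lemma hermite_fin (hv : IsNonarchimedean v) : ∀ (m : ℕ) (X : Matrix (Fin m) (Fin m) K),
    X.det ≠ 0 → ∃ U : Matrix (Fin m) (Fin m) K, (∀ i j, v (U i j) ≤ 1) ∧ v U.det = 1 ∧
      ∀ i j, j < i → (U * X) i j = 0 := by
  intro m
  induction m with
  | zero =>
    intro X _
    exact ⟨1, fun i => i.elim0, by simp, fun i => i.elim0⟩
  | succ m ih =>
    intro X hX
    -- pivot
    obtain ⟨p, _, hp⟩ := Finset.exists_max_image (Finset.univ : Finset (Fin (m + 1)))
      (fun i => v (X i 0)) ⟨0, Finset.mem_univ _⟩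
    have hp0 : X p 0 ≠ 0 := by
      intro h0
      apply hX
      apply Matrix.det_eq_zero_of_column_eq_zero 0
      intro i
      have := hp i (Finset.mem_univ _)
      rw [h0, map_zero] at this
      exact (v.eq_zero).1 (le_antisymm this (v.nonneg _))
    set σ : Equiv.Perm (Fin (m + 1)) := Equiv.swap 0 p with hσ
    set P : Matrix (Fin (m + 1)) (Fin (m + 1)) K := (1 : Matrix _ _ K).submatrix σ id with hP
    have hPint : ∀ i j, v (P i j) ≤ 1 := by
      intro i j
      rw [hP, Matrix.submatrix_apply, Matrix.one_apply]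
      split_ifs <;> simp
    have hPdet : v P.det = 1 := by
      rw [hP, Matrix.det_permute, Matrix.det_one, mul_one]
      rcases Int.units_eq_one_or (Equiv.Perm.sign σ) with h | h <;> rw [h] <;> simp
    set X1 := P * X with hX1
    have hX1a : ∀ i j, X1 i j = X (σ i) j := by
      intro i j
      rw [hX1, Matrix.mul_apply, Finset.sum_eq_single (σ i)]
      · rw [hP, Matrix.submatrix_apply, id, Matrix.one_apply_eq, one_mul]
      · intro k _ hk
        rw [hP, Matrix.submatrix_apply, id, Matrix.one_apply_ne hk.symm, zero_mul]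
      · simp
    have hσ0 : σ 0 = p := Equiv.swap_apply_left _ _
    have h00 : X1 0 0 ≠ 0 := by rw [hX1a, hσ0]; exact hp0
    set E : Matrix (Fin (m + 1)) (Fin (m + 1)) K := Matrix.of fun i j =>
      if i = j then 1 else if j = 0 then -(X1 i 0 / X1 0 0) else 0 with hE
    have hEint : ∀ i j, v (E i j) ≤ 1 := by
      intro i j
      rw [hE, Matrix.of_apply]
      split_ifs
      · simp
      · rw [AbsoluteValue.map_neg, map_div₀]
        apply div_le_one_of_le₀ _ (v.nonneg _)
        rw [hX1a, hX1a, hσ0]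
        exact hp _ (Finset.mem_univ _)
      · simp
    have hEdet : E.det = 1 := by
      rw [Matrix.det_of_isLowerTriangular]
      · simp [hE]
      · intro i j hij
        have h1 : i < j := hij
        have h2 : j ≠ 0 := fun h => by rw [h] at h1; exact absurd h1 (Fin.not_lt_zero _)
        simp [hE, h1.ne, h2]
    set X2 := E * X1 with hX2
    have hX2col : ∀ i : Fin m, X2 i.succ 0 = 0 := by
      intro i
      rw [hX2, Matrix.mul_apply, Fin.sum_univ_succ]
      rw [Finset.sum_eq_single i]
      · simp [hE, Fin.succ_ne_zero, h00]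
      · intro k _ hk
        have : i.succ ≠ k.succ := fun h => hk (Fin.succ_injective _ h).symm
        simp [hE, this, Fin.succ_ne_zero]
      · simp
    have hX2det : X2.det ≠ 0 := by
      rw [hX2, hX1, Matrix.det_mul, Matrix.det_mul, hEdet, one_mul]
      refine mul_ne_zero ?_ hX
      intro h0; rw [h0, map_zero] at hPdet; exact zero_ne_one hPdet
    set X3 : Matrix (Fin m) (Fin m) K := X2.submatrix Fin.succ Fin.succ with hX3
    have hX3det : X3.det ≠ 0 := by
      intro h0
      apply hX2det
      rw [Matrix.det_succ_column_zero, Fin.sum_univ_succ]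
      have h1 : X2.submatrix (Fin.succAbove 0) Fin.succ = X3 := by
        ext i j; simp [hX3]
      rw [h1, h0, mul_zero, zero_add]
      refine Finset.sum_eq_zero fun i _ => ?_
      rw [hX2col, mul_zero, zero_mul]
    obtain ⟨U', hU'int, hU'det, hU'tri⟩ := ih X3 hX3det
    set U2 : Matrix (Fin (m + 1)) (Fin (m + 1)) K :=
      Matrix.of (Fin.cons (Fin.cons 1 0) fun i => Fin.cons 0 (U' i)) with hU2
    have hU2int : ∀ i j, v (U2 i j) ≤ 1 := by
      intro i j
      refine Fin.cases ?_ (fun i => ?_) i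
      · refine Fin.cases ?_ (fun j => ?_) j <;> simp [hU2]
      · refine Fin.cases ?_ (fun j => ?_) j
        · simp [hU2]
        · simpa [hU2] using hU'int i j
    have hU2det : U2.det = U'.det := by
      rw [Matrix.det_succ_row_zero, Fin.sum_univ_succ]
      have h1 : U2.submatrix Fin.succ (Fin.succAbove 0) = U' := by
        ext i j; simp [hU2]
      rw [h1]
      simp [hU2]
    refine ⟨U2 * (E * P), intM_mul hv hU2int (intM_mul hv hEint hPint), ?_, ?_⟩
    · rw [Matrix.det_mul, Matrix.det_mul, hU2det, hEdet, one_mul, map_mul, hU'det, hPdet, one_mul]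
    · intro i j hij
      have h1 : U2 * (E * P) * X = U2 * X2 := by
        rw [hX2, hX1, Matrix.mul_assoc, Matrix.mul_assoc]
      rw [h1]
      revert hij
      refine Fin.cases ?_ (fun i => ?_) i
      · intro h; exact absurd h (Fin.not_lt_zero _)
      · refine Fin.cases ?_ (fun j => ?_) j
        · intro _
          rw [Matrix.mul_apply, Fin.sum_univ_succ]
          rw [Finset.sum_eq_zero fun k _ => by rw [hX2col, mul_zero]]
          simp [hU2]
        · intro hij
          have h2 := hU'tri i j (Fin.succ_lt_succ_iff.1 hij)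
          rw [Matrix.mul_apply] at h2
          rw [Matrix.mul_apply, Fin.sum_univ_succ]
          simp only [hU2, Matrix.of_apply, Fin.cons_succ, Fin.cons_zero, zero_mul, zero_add]
          exact h2

/-- Hermite form for an arbitrary index type with an injective order function. -/
lemma hermite (hv : IsNonarchimedean v) {ι β : Type*} [Fintype ι] [DecidableEq ι] [LinearOrder β]
    (ord : ι → β) (hinj : Function.Injective ord) (X : Matrix ι ι K) (hX : X.det ≠ 0) :
    ∃ U : Matrix ι ι K, (∀ i j, v (U i j) ≤ 1) ∧ v U.det = 1 ∧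
      ∀ i j, ord j < ord i → (U * X) i j = 0 := by
  let _ : LinearOrder ι := LinearOrder.lift' ord hinj
  let e : Fin (Fintype.card ι) ≃o ι := monoEquivOfFin ι rfl
  have hdet : (X.submatrix e e).det = X.det := Matrix.det_submatrix_equiv_self e.toEquiv X
  obtain ⟨U, h1, h2, h3⟩ := hermite_fin hv _ (X.submatrix e e) (by rw [hdet]; exact hX)
  refine ⟨U.submatrix e.symm e.symm, fun i j => h1 _ _, ?_, ?_⟩
  · rw [show (U.submatrix e.symm e.symm).det = U.det from
      Matrix.det_submatrix_equiv_self e.symm.toEquiv U]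
    exact h2
  · intro i j hij
    have h4 : e.symm j < e.symm i := by
      rw [OrderIso.lt_iff_lt]; exact hij
    have h5 := h3 _ _ h4
    rw [Matrix.mul_apply] at h5 ⊢
    rw [← h5]
    refine (Fintype.sum_equiv e.toEquiv _ _ fun k => ?_).symm
    simp
end hermite

variable {n δ : ℕ}

namespace BCtx
variable {ℓ : ℕ} {K : Type*} [Field K] (B : BCtx n δ ℓ K)

/-- coordinates of the monomials -/
noncomputable def Xm (D : ℕ) : Matrix (Mon n D) (Mon n D) K :=
  Matrix.of fun κ α => B.G.co (monomial κ.1 1) α.1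

lemma Xm_mul (D : ℕ) : B.Xm D * (Matrix.of fun α β : Mon n D =>
    coeff β.1 (Ev δ B.g B.b α.1)) = 1 := by
  ext κ β
  rw [Matrix.mul_apply]
  have h1 : (monomial κ.1 (1 : K)).IsHomogeneous D := isHomogeneous_monomial _ κ.deg
  have h2 := congrArg (coeff β.1) (B.G.sum_co_hom B.δpos h1)
  rw [coeff_sum, coeff_monomial] at h2
  rw [Matrix.one_apply]
  simp only [coeff_smul, smul_eq_mul] at h2
  rw [show (if κ = β then (1 : K) else 0) = if κ.1 = β.1 then 1 else 0 by
    simp only [Subtype.ext_iff], h2]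
  rfl

lemma det_Xm (D : ℕ) : (B.Xm D).det * T δ B.g B.b D = 1 := by
  have := congrArg Matrix.det (B.Xm_mul D)
  rw [Matrix.det_mul, Matrix.det_one] at this
  exact this

lemma T_ne (D : ℕ) : T δ B.g B.b D ≠ 0 := right_ne_zero_of_mul_eq_one (B.det_Xm D)

lemma v_det_Xm (D : ℕ) : B.v (B.Xm D).det = (B.v (T δ B.g B.b D))⁻¹ := by
  have := congrArg B.v (B.det_Xm D)
  rw [map_mul, map_one] at this
  exact eq_inv_of_mul_eq_one_left this

/-- B4: triangular families exist. -/
theorem exists_tri (k : ℕ) : Nonempty (B.Tri k) := by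
  classical
  have hX : (B.Xm (k * δ)).det ≠ 0 := left_ne_zero_of_mul_eq_one (B.det_Xm _)
  obtain ⟨U, hU1, hU2, hU3⟩ := hermite B.na
    (fun α : Mon n (k * δ) => toLex (key δ B.i0 α.1, toLex α.1)) (by
      intro α β h
      have h1 : (key δ B.i0 α.1, toLex α.1) = (key δ B.i0 β.1, toLex β.1) := h
      exact Subtype.ext (congrArg Prod.snd h1)) (B.Xm (k * δ)) hX
  have hco : ∀ α α' : Mon n (k * δ),
      B.G.co (∑ κ : Mon n (k * δ), U α κ • monomial κ.1 (1 : K)) α'.1 =
        (U * B.Xm (k * δ)) α α' := by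
    intro α α'
    rw [B.G.co_sum, Matrix.mul_apply]
    refine Finset.sum_congr rfl fun κ _ => ?_
    rw [B.G.co_smul]; rfl
  refine ⟨⟨fun α => ∑ κ : Mon n (k * δ), U α κ • monomial κ.1 (1 : K), ?_, ?_, ?_, ?_⟩⟩
  · intro α
    refine IsHomogeneous.sum _ _ _ fun κ _ => ?_
    rw [smul_monomial]
    exact isHomogeneous_monomial _ κ.deg
  · intro α
    exact IntP.sum B.na _ fun κ _ => (IntP_monomial κ.1 (by simp)).smul (hU1 _ _)
  · intro α α' h
    rw [hco]
    apply hU3
    rw [Prod.Lex.toLex_lt_toLex]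
    exact Or.inl h
  · have : (Matrix.of fun α α' : Mon n (k * δ) =>
        B.G.co (∑ κ : Mon n (k * δ), U α κ • monomial κ.1 (1 : K)) α'.1) = U * B.Xm (k * δ) := by
      ext α α'; exact hco α α'
    rw [this, Matrix.det_mul, map_mul, hU2, one_mul, B.v_det_Xm]

lemma level_degree_le {k : ℕ} (α : Mon n (k * δ)) :
    ((divF δ α.1).erase B.i0).degree ≤ k := by
  have h1 := degree_eq (δ := δ) α.1
  rw [α.deg] at h1
  have h2 : δ * (divF δ α.1).degree ≤ k * δ := by omega
  rw [mul_comm] at h2
  have h3 := Nat.le_of_mul_le_mul_right h2 B.δpos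
  have h4 := congrArg Finsupp.degree (Finsupp.single_add_erase B.i0 (divF δ α.1))
  rw [map_add] at h4
  omega

lemma erase_inj {k : ℕ} {β β' : Mon n k} (h : β.1.erase B.i0 = β'.1.erase B.i0) : β = β' := by
  apply Subtype.ext
  have h1 := Finsupp.single_add_erase B.i0 β.1
  have h2 := Finsupp.single_add_erase B.i0 β'.1
  have h3 := congrArg Finsupp.degree h1
  have h4 := congrArg Finsupp.degree h2
  rw [map_add, Finsupp.degree_single, β.deg] at h3
  rw [map_add, Finsupp.degree_single, β'.deg, ← h] at h4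
  have h5 : β.1 B.i0 = β'.1 B.i0 := by omega
  rw [← h1, ← h2, h, h5]

theorem Tri.prod_lv {B : BCtx n δ ℓ K} {k : ℕ} (Λ : B.Tri k) :
    ∏ β : Mon n k, Λ.lv β = (B.v (T δ B.g B.b (k * δ)))⁻¹ := by
  classical
  rw [← Λ.det]
  have hbt : (Matrix.of fun α α' : Mon n (k * δ) => B.G.co (Λ.h α) α'.1).BlockTriangular
      (fun α => key δ B.i0 α.1) := by
    intro α α' h
    exact Λ.tri α α' h
  rw [hbt.det, map_prod]
  have himg : (Finset.univ : Finset (Mon n (k * δ))).image (fun α => key δ B.i0 α.1) =
      (Finset.univ : Finset (Mon n k)).image (fun β => toLex (β.1.erase B.i0)) := by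
    ext κ
    simp only [Finset.mem_image, Finset.mem_univ, true_and]
    constructor
    · rintro ⟨α, rfl⟩
      have hle := B.level_degree_le α
      refine ⟨⟨(divF δ α.1).erase B.i0 +
        Finsupp.single B.i0 (k - ((divF δ α.1).erase B.i0).degree), mem_Mon.2 ?_⟩, ?_⟩
      · rw [map_add, Finsupp.degree_single]; omega
      · rw [Finsupp.erase_add, Finsupp.erase_single, add_zero, Finsupp.erase_idem]; rfl
    · rintro ⟨β, rfl⟩
      refine ⟨⟨δ • β.1, mem_Mon.2 ?_⟩, ?_⟩
      · rw [map_nsmul, β.deg, smul_eq_mul, mul_comm]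
      · have := key_add (i0 := B.i0) B.δpos 0 β.1
        rw [zero_add] at this
        show key δ B.i0 (δ • β.1) = _
        rw [this, key_of_lt (fun i => by simpa using B.δpos), zero_add]
  rw [himg, Finset.prod_image]
  · rfl
  · intro β _ β' _ h
    exact B.erase_inj h

end BCtx

end AF23
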