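import Pool.Agent.AF23.B3c
import Pool.Agent.AF23.B4

/-! Part B5: bounds for block determinants -/

namespace AF23

open MvPolynomial

variable {n δ : ℕ}

/-- `Z0 n δ` has `δ^(n-1)` elements -/
lemma card_Z0 (hn : 0 < n) (hδ : 0 < δ) : Fintype.card (Z0 n δ) = δ ^ (n - 1) := by
  obtain ⟨m, rfl⟩ : ∃ m, n = m + 1 := ⟨n - 1, by omega⟩
  rw [Nat.add_sub_cancel]
  have e : Z0 (m + 1) δ ≃ (Fin m → Fin δ) := by
    refine ⟨fun ν i => ν.1 i.succ, fun τ => ⟨Fin.cons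
      ⟨(δ - (∑ i, (τ i : ℕ)) % δ) % δ, Nat.mod_lt _ hδ⟩ τ, ?_⟩, ?_, ?_⟩
    · rw [Fin.sum_univ_succ]
      simp only [Fin.cons_zero, Fin.cons_succ]
      have h1 : (∑ i, (τ i : ℕ)) % δ < δ := Nat.mod_lt _ hδ
      rw [Nat.dvd_iff_mod_eq_zero, Nat.mod_add_mod, ← Nat.add_mod_mod,
        Nat.sub_add_cancel h1.le, Nat.mod_self]
    · intro ν
      apply Subtype.ext
      funext i
      refine Fin.cases ?_ (fun i => ?_) i
      · apply Fin.ext
        simp only [Fin.cons_zero]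
        have h2 := ν.2
        rw [Fin.sum_univ_succ, Nat.dvd_iff_mod_eq_zero] at h2
        have h3 := (ν.1 0).2
        set s := ∑ i : Fin m, ((ν.1 i.succ : Fin δ) : ℕ) with hs
        have h4 : s % δ < δ := Nat.mod_lt _ hδ
        rw [← Nat.add_mod_mod] at h2
        rcases Nat.eq_zero_or_pos (s % δ) with h0 | h0
        · rw [h0, Nat.sub_zero, Nat.mod_self]
          rw [h0, add_zero, Nat.mod_eq_of_lt h3] at h2
          exact h2.symm
        · rw [Nat.mod_eq_of_lt (by omega)]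
          have h5 : δ ∣ (ν.1 0 : ℕ) + s % δ := Nat.dvd_of_mod_eq_zero h2
          have h6 : (ν.1 0 : ℕ) + s % δ = δ := by
            obtain ⟨c, hc⟩ := h5
            have : c = 1 := by
              have h7 : c < 2 := by
                by_contra hcon
                have : 2 ≤ c := by omega
                have : δ * 2 ≤ δ * c := Nat.mul_le_mul_left _ this
                omega
              have h8 : c ≠ 0 := by rintro rfl; omega
              omega
            rw [hc, this, mul_one]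
          omega
      · simp
    · intro τ; funext i; simp
  rw [Fintype.card_congr e]
  simp

namespace BCtx
variable {ℓ : ℕ} {K : Type*} [Field K] (B : BCtx n δ ℓ K)

/-- homogeneous integral elements: bound for the leading coefficients -/
lemma LC_bound [Infinite K] {k : ℕ} {h : MvPolynomial (Fin n) K} (hh : h.IsHomogeneous (k * δ))
    (hI : IntP B.v h) (γ : Fin n →₀ ℕ) (hγ : γ B.i0 = 0) (hk : γ.degree ≤ k)
    (hF : B.Fil (toLex γ) h) (p : Z0 n δ) :
    B.v (B.LC (toLex γ) (B.x p) h) ≤ (B.t⁻¹) ^ k := by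
  have hle : γ ≤ cE B.i0 k := by
    intro i
    by_cases hi : i = B.i0
    · rw [hi, hγ]; exact Nat.zero_le _
    · have h1 : γ i ≤ γ.degree := Finsupp.le_degree i γ
      have h2 : cE B.i0 k i = k := by simp [cE, Finsupp.erase_ne hi]
      rw [h2]; omega
  set β : Fin n →₀ ℕ := (cE B.i0 k - γ) + Finsupp.single B.i0 γ.degree with hβ
  have hcE0 : cE B.i0 k B.i0 = 0 := by simp [cE]
  have hβe : β.erase B.i0 = cE B.i0 k - γ := by
    rw [hβ, Finsupp.erase_add, Finsupp.erase_single, add_zero]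
    rw [Finsupp.erase_of_notMem_support]
    simp [hcE0]
  have hsum : γ + (cE B.i0 k - γ) = cE B.i0 k := add_tsub_cancel_of_le hle
  have hβdeg : β.degree = (n - 1) * k := by
    have h1 := congrArg Finsupp.degree hsum
    rw [map_add, B.degree_cE] at h1
    rw [hβ, map_add, Finsupp.degree_single]; omega
  have hHhom : ((∏ i, B.g i ^ β i) * h).IsHomogeneous (n * k * δ) := by
    have h2 : (∏ i, B.g i ^ β i).IsHomogeneous (δ * β.degree) := by
      rw [Finsupp.degree_eq_sum, Finset.mul_sum]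
      exact IsHomogeneous.prod _ _ _ fun i _ => (B.G.fhom i).pow _
    have h3 := h2.mul hh
    have h4 : δ * β.degree + k * δ = n * k * δ := by
      rw [hβdeg]
      have hn := B.npos
      obtain ⟨m, rfl⟩ : ∃ m, n = m + 1 := ⟨n - 1, by omega⟩
      rw [Nat.add_sub_cancel]; ring
    rw [h4] at h3; exact h3
  have hHF : B.Fil (ctr B.i0 k) ((∏ i, B.g i ^ β i) * h) := by
    have := B.Fil_prod_mul β hF
    rw [hβe, ← toLex_add, hsum] at this
    exact this
  have hHI : IntP B.v ((∏ i, B.g i ^ β i) * h) :=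
    (IntP.prod B.na _ fun i _ => (B.gint i).pow B.na _).mul B.na hI
  have h1 := B.center k _ hHhom hHI hHF p
  have h2 := B.LC_prod_mul (toLex γ) β (B.x p) h
  rw [hβe, ← toLex_add, hsum] at h2
  have h3 : ctr B.i0 k = toLex (cE B.i0 k) := rfl
  rw [h3, h2] at h1
  exact h1

/-- coordinates from leading coefficients -/
lemma co_eq_LC {k : ℕ} {h : MvPolynomial (Fin n) K} (hh : h.IsHomogeneous (k * δ))
    (γ : Fin n →₀ ℕ) (hγ : γ B.i0 = 0) (α : Fin n →₀ ℕ) (hα : α.degree = k * δ)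
    (hκ : key δ B.i0 α = toLex γ) (ν : Z0 n δ) (hν : ν.e = modF δ α) :
    B.G.co h α = ∑ p, B.LC (toLex γ) (B.x p) h * B.V⁻¹ p ν := by
  classical
  obtain ⟨hα1, hα2⟩ := eq_lvl B.δpos B.i0 γ k α hα hκ ν hν
  set h' := (∏ i, B.g i ^ (Finsupp.single B.i0 n : Fin n →₀ ℕ) i) * h with hh'
  have hh'hom : h'.IsHomogeneous ((n + k) * δ) := by
    have h2 : (∏ i, B.g i ^ (Finsupp.single B.i0 n : Fin n →₀ ℕ) i).IsHomogeneous (δ * n) := by
      have h3 : δ * n = ∑ i, δ * (Finsupp.single B.i0 n : Fin n →₀ ℕ) i := by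
        rw [← Finset.mul_sum, ← Finsupp.degree_eq_sum, Finsupp.degree_single]
      rw [h3]
      exact IsHomogeneous.prod _ _ _ fun i _ => (B.G.fhom i).pow _
    have h3 := h2.mul hh
    have h4 : δ * n + k * δ = (n + k) * δ := by ring
    rw [h4] at h3; exact h3
  have hco : B.G.co h' (α + δ • Finsupp.single B.i0 n) = B.G.co h α :=
    B.G.co_prod_mul_add B.δpos _ _ _
  have hlvl : α + δ • Finsupp.single B.i0 n = lvl B.i0 γ (n + k) ν := by
    rw [hα1, lvl, lvl]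
    have : n + k - γ.degree - ν.w = (k - γ.degree - ν.w) + n := by omega
    rw [this, Finsupp.single_add, add_assoc, ← smul_add, add_assoc]
  have hLC : ∀ p, B.LC (toLex γ) (B.x p) h =
      ∑ ν : Z0 n δ, B.G.co h' (lvl B.i0 γ (n + k) ν) * B.V ν p := by
    intro p
    rw [← B.LC_hom hh'hom γ hγ (by omega) p]
    have h5 := B.LC_prod_mul (toLex γ) (Finsupp.single B.i0 n) (B.x p) h
    rw [Finsupp.erase_single, toLex_zero, add_zero] at h5
    exact h5.symm
  simp only [hLC, Finset.sum_mul]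
  rw [Finset.sum_comm]
  have h6 : ∀ ν μ : Z0 n δ, ∑ p, B.V ν p * B.V⁻¹ p μ = if ν = μ then 1 else 0 := by
    intro ν μ
    have := congrFun (congrFun B.V_mul_inv ν) μ
    rw [Matrix.mul_apply, Matrix.one_apply] at this
    exact this
  have h7 : ∀ y, ∑ x, B.G.co h' (lvl B.i0 γ (n + k) y) * B.V y x * B.V⁻¹ x ν =
      B.G.co h' (lvl B.i0 γ (n + k) y) * if y = ν then 1 else 0 := by
    intro y
    rw [← h6, Finset.mul_sum]
    refine Finset.sum_congr rfl fun x _ => ?_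
    ring
  simp only [h7]
  simp only [mul_ite, mul_one, mul_zero, Finset.sum_ite_eq', Finset.mem_univ, if_true]
  rw [← hlvl, hco]

/-- a bound for the entries of `V⁻¹` -/
noncomputable def CV : ℝ := 1 + ∑ p, ∑ ν, B.v (B.V⁻¹ p ν)

lemma le_CV (p ν : Z0 n δ) : B.v (B.V⁻¹ p ν) ≤ B.CV := by
  have h1 : B.v (B.V⁻¹ p ν) ≤ ∑ ν, B.v (B.V⁻¹ p ν) :=
    Finset.single_le_sum (f := fun ν => B.v (B.V⁻¹ p ν)) (fun _ _ => B.v.nonneg _)
      (Finset.mem_univ _)
  have h2 : ∑ ν, B.v (B.V⁻¹ p ν) ≤ ∑ p, ∑ ν, B.v (B.V⁻¹ p ν) :=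
    Finset.single_le_sum (f := fun p => ∑ ν, B.v (B.V⁻¹ p ν))
      (fun _ _ => Finset.sum_nonneg fun _ _ => B.v.nonneg _) (Finset.mem_univ _)
  rw [CV]; linarith

lemma one_le_CV : 1 ≤ B.CV := by
  rw [CV]
  have : 0 ≤ ∑ p, ∑ ν, B.v (B.V⁻¹ p ν) :=
    Finset.sum_nonneg fun _ _ => Finset.sum_nonneg fun _ _ => B.v.nonneg _
  linarith

lemma key_eq_toLex (α : Fin n →₀ ℕ) : key δ B.i0 α = toLex ((divF δ α).erase B.i0) := rfl

lemma Tri.fil {B : BCtx n δ ℓ K} {k : ℕ} (Λ : B.Tri k) (α : Mon n (k * δ)) :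
    B.Fil (key δ B.i0 α.1) (Λ.h α) := by
  intro α' hα'
  by_contra hcon
  push Not at hcon
  by_cases hd : α'.degree = k * δ
  · exact hα' (Λ.tri α ⟨α', mem_Mon.2 hd⟩ hcon)
  · exact hα' (B.G.co_eq_zero_of_degree B.δpos (Λ.hom α) hd)

lemma Tri.LC_le [Infinite K] {B : BCtx n δ ℓ K} {k : ℕ} (Λ : B.Tri k) (α : Mon n (k * δ))
    (γ : Fin n →₀ ℕ) (hγ : key δ B.i0 α.1 = toLex γ) (p : Z0 n δ) :
    B.v (B.LC (toLex γ) (B.x p) (Λ.h α)) ≤ (B.t⁻¹) ^ k := by
  have h1 : (divF δ α.1).erase B.i0 = γ := hγ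
  have h2 := B.level_degree_le α
  rw [h1] at h2
  refine B.LC_bound (Λ.hom α) (Λ.int α) γ (by rw [← h1]; simp) h2 ?_ p
  rw [← hγ]; exact Λ.fil α

lemma Tri.entry_le [Infinite K] {B : BCtx n δ ℓ K} {k : ℕ} (Λ : B.Tri k) (α α' : Mon n (k * δ))
    (h : key δ B.i0 α.1 = key δ B.i0 α'.1) :
    B.v (B.G.co (Λ.h α) α'.1) ≤ B.CV * (B.t⁻¹) ^ k := by
  obtain ⟨ν, hν⟩ := exists_Z0 B.δpos α'.1 (by rw [α'.deg]; exact Dvd.intro_left _ rfl)
  have htp : 0 < B.t⁻¹ := inv_pos.2 B.t0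
  rw [B.co_eq_LC (Λ.hom α) ((divF δ α'.1).erase B.i0) (by simp) α'.1 α'.deg rfl ν hν]
  refine v_sum_le B.na _ _ (mul_nonneg (zero_le_one.trans B.one_le_CV) (pow_nonneg htp.le _))
    fun p _ => ?_
  rw [map_mul, mul_comm]
  exact mul_le_mul (B.le_CV p ν) (Λ.LC_le α _ h p) (B.v.nonneg _)
    (zero_le_one.trans B.one_le_CV)

lemma card_level_le {k : ℕ} (γ : Fin n →₀ ℕ) :
    Fintype.card {α : Mon n (k * δ) // key δ B.i0 α.1 = toLex γ} ≤ δ ^ (n - 1) := by
  rw [← card_Z0 B.npos B.δpos]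
  choose f hf using fun α : {α : Mon n (k * δ) // key δ B.i0 α.1 = toLex γ} =>
    exists_Z0 B.δpos α.1.1 (by rw [α.1.deg]; exact Dvd.intro_left _ rfl)
  refine Fintype.card_le_of_injective f fun α α' h => ?_
  apply Subtype.ext
  apply Subtype.ext
  have h1 := (eq_lvl B.δpos B.i0 γ k α.1.1 α.1.deg α.2 _ (hf α)).1
  have h2 := (eq_lvl B.δpos B.i0 γ k α'.1.1 α'.1.deg α'.2 _ (hf α')).1
  rw [h1, h2, h]

theorem Tri.lv_pos {B : BCtx n δ ℓ K} {k : ℕ} (Λ : B.Tri k) (β : Mon n k) : 0 < Λ.lv β := by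
  have h1 := Λ.prod_lv
  have h2 : (B.v (T δ B.g B.b (k * δ)))⁻¹ ≠ 0 := inv_ne_zero (B.v.ne_zero_iff.2 (B.T_ne _))
  rw [← h1, Finset.prod_ne_zero_iff] at h2
  exact lt_of_le_of_ne (B.v.nonneg _) (h2 β (Finset.mem_univ _)).symm

theorem Tri.lv_le [Infinite K] {B : BCtx n δ ℓ K} {k : ℕ} (Λ : B.Tri k) (β : Mon n k) :
    Λ.lv β ≤ (B.CV * (B.t⁻¹) ^ k) ^ (δ ^ (n - 1)) := by
  classical
  have ht1 : 1 < B.t⁻¹ := (one_lt_inv₀ B.t0).2 B.t1
  have h1 : Λ.lv β ≤ (B.CV * (B.t⁻¹) ^ k) ^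
      Fintype.card {α : Mon n (k * δ) // key δ B.i0 α.1 = toLex (β.1.erase B.i0)} := by
    apply v_det_le B.na
    intro α α'
    exact Λ.entry_le α.1 α'.1 (α.2.trans α'.2.symm)
  refine h1.trans (pow_le_pow_right₀ ?_ (B.card_level_le _))
  exact one_le_mul_of_one_le_of_one_le B.one_le_CV (one_le_pow₀ ht1.le)

/-- in a full level the block determinant is bounded by a product of leading coefficients -/
lemma Tri.lv_full {B : BCtx n δ ℓ K} {k : ℕ} (Λ : B.Tri k) (β : Mon n k)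
    (hβ : (β.1.erase B.i0).degree + n ≤ k + 1) :
    ∃ α : Z0 n δ → Mon n (k * δ), (∀ p, key δ B.i0 (α p).1 = toLex (β.1.erase B.i0)) ∧
      Λ.lv β * B.v B.V.det ≤
        ∏ p, B.v (B.LC (toLex (β.1.erase B.i0)) (B.x p) (Λ.h (α p))) := by
  classical
  set γ := β.1.erase B.i0 with hγ
  have hγ0 : γ B.i0 = 0 := by simp [hγ]
  let e := levelEquiv B.δpos B.i0 γ hγ0 k hβ
  set L : Matrix (Z0 n δ) (Z0 n δ) K :=
    Matrix.of fun ν ν' => B.G.co (Λ.h (e ν).1) (e ν').1.1 with hL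
  have h1 : Λ.lv β = B.v L.det := by
    have e1 := Matrix.det_submatrix_equiv_self e (Matrix.of fun α α' :
      {α : Mon n (k * δ) // key δ B.i0 α.1 = toLex (β.1.erase B.i0)} =>
      B.G.co (Λ.h α.1) α'.1.1)
    have e2 : Λ.lv β = B.v (Matrix.det (Matrix.of fun α α' :
      {α : Mon n (k * δ) // key δ B.i0 α.1 = toLex (β.1.erase B.i0)} =>
      B.G.co (Λ.h α.1) α'.1.1)) := rfl
    rw [e2, ← e1]
    rfl
  have h2 : L * B.V = Matrix.of fun ν p => B.LC (toLex γ) (B.x p) (Λ.h (e ν).1) := by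
    ext ν p
    rw [Matrix.mul_apply, Matrix.of_apply, B.LC_hom (Λ.hom _) γ hγ0 hβ p]
    rfl
  obtain ⟨σ, hσ⟩ := v_det_le_perm B.na (L * B.V)
  refine ⟨fun p => (e (σ p)).1, fun p => (e (σ p)).2, ?_⟩
  rw [h1, ← map_mul, ← Matrix.det_mul]
  refine hσ.trans (le_of_eq ?_)
  refine Finset.prod_congr rfl fun p _ => ?_
  rw [h2]; rfl

lemma Fil_finprod {m : ℕ} (κ : Fin m → Lex (Fin n →₀ ℕ)) (h : Fin m → MvPolynomial (Fin n) K)
    (hF : ∀ i, B.Fil (κ i) (h i)) (p : Z0 n δ) :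
    B.Fil (∑ i, κ i) (∏ i, h i) ∧
      B.LC (∑ i, κ i) (B.x p) (∏ i, h i) = ∏ i, B.LC (κ i) (B.x p) (h i) := by
  induction m with
  | zero => simp [LC_zero, Fil_zero]
  | succ m ih =>
    have := ih (fun i => κ i.succ) (fun i => h i.succ) (fun i => hF i.succ)
    rw [Fin.sum_univ_succ, Fin.prod_univ_succ, Fin.prod_univ_succ]
    exact ⟨B.Fil_mul (hF 0) this.1, by rw [B.LC_mul p (hF 0) this.1, this.2]⟩

/-- B5: bounds for the block determinants. -/
theorem lv_bounds [Infinite K] : ∃ C : ℝ, 1 ≤ C ∧ ∀ (k : ℕ) (Λ : B.Tri k),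
    (∀ β : Mon n k, 0 < Λ.lv β) ∧
    (∀ β : Mon n k, Λ.lv β ≤ (C * (B.t⁻¹) ^ k) ^ (δ ^ (n - 1))) ∧
    (∀ β : Mon n k, (∀ i, n ≤ β.1 i) → ∀ γ : Fin n → Mon n k,
      (∀ i, (γ i).1 = rot i β.1) →
      ∏ i : Fin n, Λ.lv (γ i) ≤ C * (B.t⁻¹) ^ (δ ^ (n - 1) * k)) := by
  classical
  have htp : 0 < B.t⁻¹ := inv_pos.2 B.t0
  have ht1 : 1 < B.t⁻¹ := (one_lt_inv₀ B.t0).2 B.t1
  have hVpos : 0 < B.v B.V.det := B.v.pos B.hV
  set C := max B.CV (((B.v B.V.det)⁻¹) ^ n) with hC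
  refine ⟨C, B.one_le_CV.trans (le_max_left _ _), fun k Λ => ⟨Λ.lv_pos, ?_, ?_⟩⟩
  · intro β
    refine (Λ.lv_le β).trans ?_
    apply pow_le_pow_left₀
    · exact mul_nonneg (zero_le_one.trans B.one_le_CV) (pow_nonneg htp.le _)
    · exact mul_le_mul_of_nonneg_right (le_max_left _ _) (pow_nonneg htp.le _)
  · intro β hβ γ hγ
    have hn := B.npos
    have : NeZero n := ⟨hn.ne'⟩
    -- every rotated level is full
    have hfull : ∀ i, ((γ i).1.erase B.i0).degree + n ≤ k + 1 := by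
      intro i
      have h1 := congrArg Finsupp.degree (Finsupp.single_add_erase B.i0 (γ i).1)
      rw [map_add, Finsupp.degree_single, (γ i).deg] at h1
      have h2 : n ≤ (γ i).1 B.i0 := by
        rw [hγ i]; exact hβ _
      omega
    choose α hα1 hα2 using fun i => Λ.lv_full (γ i) (hfull i)
    -- the product for a fixed point
    have hsum : ∑ i, toLex ((γ i).1.erase B.i0) = ctr B.i0 k := by
      have h1 : ∑ i, (γ i).1.erase B.i0 = cE B.i0 k := by
        ext j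
        rw [Finsupp.finsetSum_apply]
        by_cases hj : j = B.i0
        · simp [hj, cE]
        · have h2 : ∀ i, ((γ i).1.erase B.i0) j = β.1 (j + i) := by
            intro i
            rw [Finsupp.erase_ne hj, hγ i]; rfl
          rw [Finset.sum_congr rfl fun i _ => h2 i]
          have h3 : ∑ i, β.1 (j + i) = ∑ i, β.1 i := Equiv.sum_comp (Equiv.addLeft j) _
          rw [h3, ← Finsupp.degree_eq_sum, β.deg]
          simp [cE, Finsupp.erase_ne hj]
      have h2 : ctr B.i0 k = toLex (cE B.i0 k) := rfl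
      rw [h2, ← h1]
      exact (map_sum (toLexAddEquiv (α := Fin n →₀ ℕ)) _ _).symm
    have hpt : ∀ p, ∏ i, B.v (B.LC (toLex ((γ i).1.erase B.i0)) (B.x p) (Λ.h (α i p))) ≤
        (B.t⁻¹) ^ k := by
      intro p
      have h1 := B.Fil_finprod (fun i => toLex ((γ i).1.erase B.i0)) (fun i => Λ.h (α i p))
        (fun i => by rw [← hα1 i p]; exact Λ.fil _) p
      rw [← map_prod, ← h1.2, hsum]
      refine B.center k _ ?_ ?_ ?_ p
      · have h2 := IsHomogeneous.prod (Finset.univ : Finset (Fin n)) (fun i => Λ.h (α i p))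
          (fun _ => k * δ) (fun i _ => Λ.hom _)
        simpa [mul_assoc] using h2
      · exact IntP.prod B.na _ fun i _ => Λ.int _
      · rw [← hsum]; exact h1.1
    have h1 : ∏ i : Fin n, (Λ.lv (γ i) * B.v B.V.det) ≤
        ∏ i, ∏ p, B.v (B.LC (toLex ((γ i).1.erase B.i0)) (B.x p) (Λ.h (α i p))) :=
      Finset.prod_le_prod (fun i _ => mul_nonneg (Λ.lv_pos _).le hVpos.le) fun i _ => hα2 i
    rw [Finset.prod_comm] at h1
    have h2 : ∏ p : Z0 n δ, ∏ i, B.v (B.LC (toLex ((γ i).1.erase B.i0)) (B.x p) (Λ.h (α i p))) ≤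
        ∏ _p : Z0 n δ, (B.t⁻¹) ^ k :=
      Finset.prod_le_prod (fun p _ => Finset.prod_nonneg fun i _ => B.v.nonneg _)
        fun p _ => hpt p
    rw [Finset.prod_const, Finset.card_univ, card_Z0 hn B.δpos, ← pow_mul] at h2
    rw [Finset.prod_mul_distrib, Finset.prod_const, Finset.card_univ, Fintype.card_fin] at h1
    have h3 := h1.trans h2
    have h4 : ∏ i : Fin n, Λ.lv (γ i) ≤
        ((B.v B.V.det)⁻¹) ^ n * (B.t⁻¹) ^ (k * δ ^ (n - 1)) := by
      rw [inv_pow, ← div_eq_inv_mul, le_div_iff₀ (pow_pos hVpos n)]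
      exact h3
    refine h4.trans ?_
    rw [mul_comm k]
    exact mul_le_mul_of_nonneg_right (le_max_right _ _) (pow_nonneg htp.le _)

end BCtx

end AF23
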