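import Pool.Agent.AF23.B6c

/-! Part B6: the duality inequality -/

namespace AF23

open MvPolynomial

variable {n δ : ℕ}

lemma det_inst_irrel {m R : Type*} [CommRing R] (i1 i1' : DecidableEq m) (i2 i2' : Fintype m)
    (M : Matrix m m R) : @Matrix.det m i1 i2 R _ M = @Matrix.det m i1' i2' R _ M := by
  have h1 : i1 = i1' := Subsingleton.elim _ _
  have h2 : i2 = i2' := Subsingleton.elim _ _
  subst h1
  subst h2
  rfl

/-- lower bound for a block triangular determinant -/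
lemma abs_det_block {K : Type*} [Field K] (v : AbsoluteValue K ℝ) {m β : Type*} [Fintype m]
    [DecidableEq m] [LinearOrder β] (M : Matrix m m K) (b : m → β) (hM : M.BlockTriangular b)
    (Fc : β → ℝ) (hFc : ∀ κ, 0 ≤ Fc κ)
    {inst0 : DecidableEq β}
    {inst1 : ∀ κ, Fintype {a // b a = κ}} {inst2 : ∀ κ, DecidableEq {a // b a = κ}}
    (h : ∀ κ, Fc κ ≤ v (Matrix.det (Matrix.of fun a a' : {a // b a = κ} => M a.1 a'.1))) :
    ∏ κ ∈ @Finset.image m β inst0 b Finset.univ, Fc κ ≤ v M.det := by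
  have h0 : inst0 = LinearOrder.toDecidableEq := Subsingleton.elim _ _
  subst h0
  rw [hM.det, map_prod]
  refine Finset.prod_le_prod (fun κ _ => hFc κ) fun κ _ => ?_
  have heq : M.toSquareBlock b κ = Matrix.of fun a a' : {a // b a = κ} => M a.1 a'.1 := rfl
  rw [heq]
  exact (h κ).trans (le_of_eq (congrArg v (det_inst_irrel _ _ _ _ _)))

namespace BCtx
variable {ℓ : ℕ} {K : Type*} [Field K] (B : BCtx n δ ℓ K)

/-- the number of levels -/
lemma card_levels_le {q k : ℕ} (hq : 1 ≤ q) :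
    ((Finset.univ : Finset (Box n δ q k)).image (fun α => key δ B.i0 α.1.1)).card ≤
      q ^ (n - 1) := by
  classical
  have hn := B.npos
  have hδ := B.δpos
  have hcard : Fintype.card ({i : Fin n // i ≠ B.i0} → Fin q) = q ^ (n - 1) := by
    rw [Fintype.card_fun, Fintype.card_fin]
    congr 1
    rw [Fintype.card_subtype_compl, Fintype.card_fin, Fintype.card_subtype_eq]
  rw [← hcard, ← Finset.card_univ]
  apply Finset.card_le_card_of_injOn
    (fun κ => fun i : {i : Fin n // i ≠ B.i0} =>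
      (⟨(ofLex κ) i.1 % q, Nat.mod_lt _ hq⟩ : Fin q))
  · intro κ _; exact Finset.mem_coe.2 (Finset.mem_univ _)
  · intro κ hκ κ' hκ' h
    rw [Finset.coe_image] at hκ hκ'
    obtain ⟨α, _, rfl⟩ := hκ
    obtain ⟨α', _, rfl⟩ := hκ'
    have hlt : ∀ (α : Box n δ q k) (i : Fin n), ofLex (key δ B.i0 α.1.1) i < q := by
      intro α i
      have h1 : ofLex (key δ B.i0 α.1.1) = (divF δ α.1.1).erase B.i0 := rfl
      rw [h1]
      by_cases hi : i = B.i0
      · rw [hi, Finsupp.erase_same]; exact hq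
      · rw [Finsupp.erase_ne hi]
        have := α.div_le hδ i
        rw [cst_apply] at this
        omega
    have h2 : ofLex (key δ B.i0 α.1.1) = ofLex (key δ B.i0 α'.1.1) := by
      ext i
      by_cases hi : i = B.i0
      · have h1 : ∀ α : Box n δ q k, ofLex (key δ B.i0 α.1.1) B.i0 = 0 := by
          intro α
          have h1 : ofLex (key δ B.i0 α.1.1) = (divF δ α.1.1).erase B.i0 := rfl
          rw [h1, Finsupp.erase_same]
        rw [hi, h1, h1]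
      · have h3 := congrArg Fin.val (congrFun h ⟨i, hi⟩)
        simp only [Nat.mod_eq_of_lt (hlt _ _)] at h3
        exact h3
    exact h2


lemma key_top_q {q : ℕ} (hq1 : 1 ≤ q) : key δ B.i0 (top n (q * δ)) = toLex (cE B.i0 (q - 1)) := by
  rw [← B.topE_cE hq1, B.key_topE]
  simp [cE]

lemma Box.key_le {q k : ℕ} (α : Box n δ q k) :
    (divF δ α.1.1).erase B.i0 ≤ cE B.i0 (q - 1) := by
  intro i
  by_cases hi : i = B.i0
  · rw [hi, Finsupp.erase_same]; exact Nat.zero_le _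
  · have h2 : cE B.i0 (q - 1) i = q - 1 := by simp [cE, Finsupp.erase_ne hi]
    rw [h2, Finsupp.erase_ne hi]
    exact α.div_le B.δpos i

/-- gluing families at the levels -/
lemma glue {q k : ℕ} (hq1 : 1 ≤ q) (Fc : Lex (Fin n →₀ ℕ) → ℝ) (hFcpos : ∀ κ, 0 ≤ Fc κ)
    (W : ∀ κ : Lex (Fin n →₀ ℕ), {α : Box n δ q k // key δ B.i0 α.1.1 = κ} →
      MvPolynomial (Fin n) K)
    (hW3 : ∀ κ α, B.Fil (toLex (cE B.i0 (q - 1) - ofLex κ)) (W κ α))
    (hW4 : ∀ κ, Fc κ ≤ B.v (Matrix.det (Matrix.of fun α α' :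
        {α : Box n δ q k // key δ B.i0 α.1.1 = κ} =>
          B.G.co (Ev δ B.g B.b α.1.1.1 * W κ α') (top n (q * δ)))))
    (w : Box n δ q k → MvPolynomial (Fin n) K)
    (hw : ∀ κ (α : {α : Box n δ q k // key δ B.i0 α.1.1 = κ}), w α.1 = W κ α) :
    ∏ κ ∈ (Finset.univ : Finset (Box n δ q k)).image (fun α => key δ B.i0 α.1.1), Fc κ ≤
      B.v (Matrix.det (Matrix.of fun α α' : Box n δ q k =>
        B.G.co (Ev δ B.g B.b α.1.1 * w α') (top n (q * δ)))) := by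
  obtain ⟨M, hM⟩ : ∃ M : Matrix (Box n δ q k) (Box n δ q k) K, M = Matrix.of fun α α' =>
    B.G.co (Ev δ B.g B.b α.1.1 * w α') (top n (q * δ)) := ⟨_, rfl⟩
  have hMa : ∀ α α', M α α' = B.G.co (Ev δ B.g B.b α.1.1 * w α') (top n (q * δ)) := by
    intro α α'; rw [hM]; rfl
  rw [← hM]
  have hMtri : M.BlockTriangular (fun α : Box n δ q k => key δ B.i0 α.1.1) := by
    intro α α' hlt
    by_contra hne
    rw [hMa] at hne
    have hFw : B.Fil (toLex (cE B.i0 (q - 1) - (divF δ α'.1.1).erase B.i0)) (w α') := by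
      rw [hw _ ⟨α', rfl⟩]
      exact hW3 (key δ B.i0 α'.1.1) ⟨α', rfl⟩
    have h1 := B.Fil_mul (B.Fil_Ev α.1.1) hFw
    have h2 := h1 _ hne
    rw [B.key_top_q hq1] at h2
    have h3 : toLex (cE B.i0 (q - 1)) =
        key δ B.i0 α'.1.1 + toLex (cE B.i0 (q - 1) - (divF δ α'.1.1).erase B.i0) := by
      rw [B.key_eq_toLex, ← toLex_add, add_tsub_cancel_of_le (Box.key_le B α')]
    rw [h3] at h2
    have h5 := le_of_add_le_add_right h2
    exact absurd hlt (not_lt.2 h5)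
  have h4 : ∀ κ, Fc κ ≤ B.v (Matrix.det (Matrix.of fun α α' :
        {α : Box n δ q k // key δ B.i0 α.1.1 = κ} => M α.1 α'.1)) := by
    intro κ
    refine (hW4 κ).trans (le_of_eq ?_)
    refine congrArg B.v (congrArg Matrix.det ?_)
    ext α α'
    rw [Matrix.of_apply, Matrix.of_apply, hMa, hw κ α']
  exact abs_det_block B.v M (fun α : Box n δ q k => key δ B.i0 α.1.1) hMtri Fc hFcpos h4

/-- pairing of the monomials of the box with a family -/
lemma box_mul {q k : ℕ} (hq1 : 1 ≤ q) (w : Box n δ q k → MvPolynomial (Fin n) K)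
    (h : MvPolynomial (Fin n) K) (h1 : h.IsHomogeneous (k * δ)) (α' : Box n δ q k) :
    ∑ α : Box n δ q k, B.G.co h α.1.1 * B.G.co (Ev δ B.g B.b α.1.1 * w α') (top n (q * δ)) =
      B.G.co (h * w α') (top n (q * δ)) := by
  classical
  have hδ := B.δpos
  conv_rhs => rw [B.G.sum_co_hom hδ h1, Finset.sum_mul]
  rw [B.G.co_sum]
  have h2 : ∀ α : Mon n (k * δ), B.G.co (B.G.co h α.1 •
      Ev δ B.g B.b α.1 * w α') (top n (q * δ)) =
      if ∀ i, α.1 i < q * δ then B.G.co h α.1 *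
        B.G.co (Ev δ B.g B.b α.1 * w α') (top n (q * δ)) else 0 := by
    intro α
    rw [smul_mul_assoc, B.G.co_smul]
    split_ifs with hα
    · rfl
    · push Not at hα
      obtain ⟨i, hi⟩ := hα
      have h3 : δ • Finsupp.single i q ≤ α.1 := by
        rw [Finsupp.smul_single, smul_eq_mul, Finsupp.single_le_iff, mul_comm]
        exact hi
      have h4 : Ev δ B.g B.b α.1 * w α' = (∏ l, B.g l ^ (Finsupp.single i q : Fin n →₀ ℕ) l) *
          (Ev δ B.g B.b (α.1 - δ • Finsupp.single i q) * w α') := by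
        rw [← mul_assoc, ← Ev_add hδ, tsub_add_cancel_of_le h3]
      rw [h4, B.G.co_prod_mul hδ, if_neg, mul_zero]
      intro hcon
      have h5 := hcon i
      rw [Finsupp.smul_single, Finsupp.single_eq_same, smul_eq_mul] at h5
      have h6 : top n (q * δ) i = q * δ - 1 := rfl
      have h7 : 0 < q * δ := Nat.mul_pos hq1 hδ
      rw [h6, mul_comm δ q] at h5
      omega
  rw [Finset.sum_congr rfl fun α _ => h2 α, ← Finset.sum_filter]
  symm
  exact Finset.sum_subtype (p := fun α : Mon n (k * δ) => ∀ i, α.1 i < q * δ) _ (by simp)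
    (fun α : Mon n (k * δ) => B.G.co h α.1 * B.G.co (Ev δ B.g B.b α.1 * w α') (top n (q * δ)))

/-- the good exponents -/
noncomputable def Om (n q k' : ℕ) : Finset (Mon n k') :=
  (Finset.univ : Finset (Mon n k')).filter (fun β => ∀ i, n ≤ β.1 i ∧ β.1 i + n ≤ q)

/-- the level of a good exponent -/
noncomputable def lev (q : ℕ) {k' : ℕ} (β : Mon n k') : Lex (Fin n →₀ ℕ) :=
  toLex (cE B.i0 (q - 1) - β.1.erase B.i0)

lemma Om_erase_le {q k' : ℕ} {β : Mon n k'} (hβ : β ∈ Om n q k') :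
    β.1.erase B.i0 ≤ cE B.i0 (q - 1) := by
  intro i
  rw [Om, Finset.mem_filter] at hβ
  by_cases hi : i = B.i0
  · rw [hi, Finsupp.erase_same]; exact Nat.zero_le _
  · have h2 : cE B.i0 (q - 1) i = q - 1 := by simp [cE, Finsupp.erase_ne hi]
    rw [h2, Finsupp.erase_ne hi]
    have := (hβ.2 i).2
    have := B.npos
    omega

lemma lev_injOn (q k' : ℕ) : Set.InjOn (B.lev q (k' := k')) (Om n q k') := by
  intro β hβ β' hβ' h
  apply B.erase_inj
  have h1 : cE B.i0 (q - 1) - β.1.erase B.i0 = cE B.i0 (q - 1) - β'.1.erase B.i0 := h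
  have h2 := tsub_add_cancel_of_le (B.Om_erase_le hβ)
  have h3 := tsub_add_cancel_of_le (B.Om_erase_le hβ')
  rw [h1] at h2
  exact add_left_cancel (h2.trans h3.symm)

lemma lev_mem {q k k' : ℕ} (hq1 : 1 ≤ q) (hkk' : k + k' = n * (q - 1)) {β : Mon n k'}
    (hβ : β ∈ Om n q k') : B.lev q β ∈
      (Finset.univ : Finset (Box n δ q k)).image (fun α => key δ B.i0 α.1.1) := by
  classical
  have hδ := B.δpos
  have hn := B.npos
  have hβ2 := (Finset.mem_filter.1 hβ).2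
  rw [Finset.mem_image]
  have hdeg : (cE B.i0 (q - 1) - β.1.erase B.i0).degree + (q - 1) = k + β.1 B.i0 := by
    have h1 := congrArg Finsupp.degree (tsub_add_cancel_of_le (B.Om_erase_le hβ))
    rw [map_add, B.degree_cE] at h1
    have h2 : (n - 1) * (q - 1) + (q - 1) = n * (q - 1) := by
      obtain ⟨m, hm⟩ : ∃ m, n = m + 1 := ⟨n - 1, by omega⟩
      rw [hm, Nat.add_sub_cancel]; ring
    have h3 := congrArg Finsupp.degree (Finsupp.single_add_erase B.i0 β.1)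
    rw [map_add, Finsupp.degree_single, β.deg] at h3
    omega
  have hb0 := hβ2 B.i0
  have hlev : B.lev q β = toLex (cE B.i0 (q - 1) - β.1.erase B.i0) := rfl
  rw [hlev]
  set γ := cE B.i0 (q - 1) - β.1.erase B.i0 with hγ
  have hγ0 : γ B.i0 = 0 := by
    rw [hγ, Finsupp.tsub_apply]; simp [cE]
  set η : Fin n →₀ ℕ := γ + Finsupp.single B.i0 (q - 1 - β.1 B.i0) with hη
  have hηdeg : η.degree = k := by
    rw [hη, map_add, Finsupp.degree_single]; omega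
  have hηle : ∀ i, η i ≤ q - 1 := by
    intro i
    rw [hη, Finsupp.add_apply]
    by_cases hi : i = B.i0
    · rw [hi, hγ0, Finsupp.single_eq_same]; omega
    · rw [Finsupp.single_eq_of_ne hi, add_zero, hγ, Finsupp.tsub_apply]
      have h2 : cE B.i0 (q - 1) i = q - 1 := by simp [cE, Finsupp.erase_ne hi]
      omega
  refine ⟨⟨⟨δ • η, mem_Mon.2 ?_⟩, ?_⟩, Finset.mem_univ _, ?_⟩
  · rw [map_nsmul, hηdeg, smul_eq_mul, mul_comm]
  · intro i
    show δ * η i < q * δ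
    have h4 : δ * η i ≤ δ * (q - 1) := Nat.mul_le_mul_left _ (hηle i)
    have h5 : δ * (q - 1) + δ = q * δ := by
      obtain ⟨r, hr⟩ : ∃ r, q = r + 1 := ⟨q - 1, by omega⟩
      rw [hr, Nat.add_sub_cancel]; ring
    omega
  · have h6 := key_add (i0 := B.i0) hδ 0 η
    rw [zero_add] at h6
    show key δ B.i0 (δ • η) = _
    rw [h6, key_of_lt (fun i => by simpa using hδ), zero_add, hη, Finsupp.erase_add,
      Finsupp.erase_single, add_zero]
    show toLex (γ.erase B.i0) = toLex γ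
    rw [Finsupp.erase_of_notMem_support]
    simp [hγ0]

lemma levels_prod {q k k' : ℕ} (hq1 : 1 ≤ q) (hkk' : k + k' = n * (q - 1))
    (L : Mon n k' → ℝ) (hL : ∀ β, 0 ≤ L β) (c1 : ℝ) (hc1pos : 0 < c1) (hc1one : c1 ≤ 1)
    (Fc : Lex (Fin n →₀ ℕ) → ℝ) (hFc1 : ∀ β ∈ Om n q k', Fc (B.lev q β) = c1 * L β)
    (hFc2 : ∀ κ, (¬ ∃ β ∈ Om n q k', B.lev q β = κ) → Fc κ = c1) :
    c1 ^ (q ^ (n - 1)) * ∏ β ∈ Om n q k', L β ≤
      ∏ κ ∈ (Finset.univ : Finset (Box n δ q k)).image (fun α => key δ B.i0 α.1.1), Fc κ := by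
  classical
  set I := (Finset.univ : Finset (Box n δ q k)).image (fun α => key δ B.i0 α.1.1) with hI
  set Ω := Om n q k' with hΩ
  have hsub : Ω.image (B.lev q) ⊆ I := by
    intro κ hκ
    rw [Finset.mem_image] at hκ
    obtain ⟨β, hβ, rfl⟩ := hκ
    exact B.lev_mem hq1 hkk' hβ
  have hlevinj : Set.InjOn (B.lev q) (Ω : Set (Mon n k')) := B.lev_injOn q k'
  rw [← Finset.prod_sdiff hsub, Finset.prod_image hlevinj]
  have h2 : ∏ κ ∈ I \ Ω.image (B.lev q), Fc κ = c1 ^ (I \ Ω.image (B.lev q)).card := by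
    rw [← Finset.prod_const]
    refine Finset.prod_congr rfl fun κ hκ => hFc2 κ ?_
    rw [Finset.mem_sdiff] at hκ
    rintro ⟨β, hβ, h⟩
    exact hκ.2 (Finset.mem_image.2 ⟨β, hβ, h⟩)
  have h3 : ∏ β ∈ Ω, Fc (B.lev q β) = c1 ^ Ω.card * ∏ β ∈ Ω, L β := by
    rw [Finset.prod_congr rfl hFc1, Finset.prod_mul_distrib, Finset.prod_const]
  rw [h2, h3, ← mul_assoc, ← pow_add]
  apply mul_le_mul_of_nonneg_right _ (Finset.prod_nonneg fun β _ => hL β)
  apply pow_le_pow_of_le_one hc1pos.le hc1one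
  have h4 : (I \ Ω.image (B.lev q)).card + Ω.card = I.card := by
    rw [Finset.card_sdiff_of_subset hsub, Finset.card_image_of_injOn hlevinj]
    have h5 := Finset.card_le_card hsub
    rw [Finset.card_image_of_injOn hlevinj] at h5
    omega
  rw [h4]
  exact B.card_levels_le hq1

/-- families at all the levels -/
lemma exists_families [Infinite K] : ∃ c1 : ℝ, 0 < c1 ∧ c1 ≤ 1 ∧ ∀ {q k k' : ℕ}, 1 ≤ q →
    k + k' = n * (q - 1) → ∀ Λ : B.Tri k',
    ∃ w : Box n δ q k → MvPolynomial (Fin n) K,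
      (∀ α, (w α).IsHomogeneous (n * (q * δ - 1) - k * δ)) ∧ (∀ α, IntP B.v (w α)) ∧
      c1 ^ (q ^ (n - 1)) * ∏ β ∈ Om n q k', Λ.lv β ≤
      B.v (Matrix.det (Matrix.of fun α α' : Box n δ q k =>
        B.G.co (Ev δ B.g B.b α.1.1 * w α') (top n (q * δ)))) := by
  obtain ⟨bs, c, hc0, hc1, hbs⟩ := B.exists_dual
  obtain ⟨u, hu, huI, hux⟩ := B.exists_u
  obtain ⟨a1, ha1⟩ : ∃ a1 : ℝ, a1 = (B.v c) ^ (δ ^ (n - 1)) := ⟨_, rfl⟩
  obtain ⟨a2, ha2⟩ : ∃ a2 : ℝ, a2 = (B.v B.V.det) ^ 2 * (∏ p, B.v (B.wt u p)) := ⟨_, rfl⟩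
  have ha1pos : 0 < a1 := by rw [ha1]; exact pow_pos (B.v.pos hc0) _
  have ha2pos : 0 < a2 := by
    rw [ha2]
    exact mul_pos (pow_pos (B.v.pos B.hV) _)
      (Finset.prod_pos fun p _ => B.v.pos (B.wt_ne u hu hux p))
  obtain ⟨c1, hc1'⟩ : ∃ c1 : ℝ, c1 = min 1 (min a1 a2) := ⟨_, rfl⟩
  have hc1pos : 0 < c1 := by rw [hc1']; exact lt_min one_pos (lt_min ha1pos ha2pos)
  have hc1one : c1 ≤ 1 := by rw [hc1']; exact min_le_left _ _
  have hc1a1 : c1 ≤ a1 := by rw [hc1']; exact (min_le_right _ _).trans (min_le_left _ _)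
  have hc1a2 : c1 ≤ a2 := by rw [hc1']; exact (min_le_right _ _).trans (min_le_right _ _)
  refine ⟨c1, hc1pos, hc1one, ?_⟩
  intro q k k' hq1 hkk' Λ
  -- the factor at a level
  have hex : ∃ Fc : Lex (Fin n →₀ ℕ) → ℝ,
      (∀ β ∈ Om n q k', Fc (B.lev q β) = c1 * Λ.lv β) ∧
      (∀ κ, (¬ ∃ β ∈ Om n q k', B.lev q β = κ) → Fc κ = c1) := by
    classical
    refine ⟨fun κ => if h : ∃ β ∈ Om n q k', B.lev q β = κ then c1 * Λ.lv h.choose else c1,
      ?_, ?_⟩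
    · intro β hβ
      have h : ∃ β' ∈ Om n q k', B.lev q β' = B.lev q β := ⟨β, hβ, rfl⟩
      have h2 : h.choose = β := B.lev_injOn q k' h.choose_spec.1 hβ h.choose_spec.2
      show (if h : ∃ β' ∈ Om n q k', B.lev q β' = B.lev q β then c1 * Λ.lv h.choose else c1) = _
      rw [dif_pos h, h2]
    · intro κ h
      show (if h : ∃ β' ∈ Om n q k', B.lev q β' = κ then c1 * Λ.lv h.choose else c1) = _
      rw [dif_neg h]
  obtain ⟨Fc, hFc1, hFc2⟩ := hex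
  have hFcpos : ∀ κ, 0 ≤ Fc κ := by
    intro κ
    by_cases h : ∃ β ∈ Om n q k', B.lev q β = κ
    · obtain ⟨β, hβ, rfl⟩ := h
      rw [hFc1 β hβ]
      exact mul_nonneg hc1pos.le (Λ.lv_pos β).le
    · rw [hFc2 κ h]; exact hc1pos.le
  -- families at the levels
  have hlevel : ∀ κ : Lex (Fin n →₀ ℕ),
      ∃ W : {α : Box n δ q k // key δ B.i0 α.1.1 = κ} → MvPolynomial (Fin n) K,
      (∀ α, (W α).IsHomogeneous (n * (q * δ - 1) - k * δ)) ∧ (∀ α, IntP B.v (W α)) ∧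
      (∀ α, B.Fil (toLex (cE B.i0 (q - 1) - ofLex κ)) (W α)) ∧
      Fc κ ≤ B.v (Matrix.det (Matrix.of fun α α' :
        {α : Box n δ q k // key δ B.i0 α.1.1 = κ} =>
          B.G.co (Ev δ B.g B.b α.1.1.1 * W α') (top n (q * δ)))) := by
    intro κ
    by_cases h : ∃ β ∈ Om n q k', B.lev q β = κ
    · obtain ⟨β, hβ, rfl⟩ := h
      have hβ2 := (Finset.mem_filter.1 hβ).2
      obtain ⟨W, hW1, hW2, hW3, hW4⟩ := B.level_good (k := k) hq1 hkk' u hu huI Λ β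
        (fun i => (hβ2 i).1) (fun i => (hβ2 i).2) _ rfl
      refine ⟨W, hW1, hW2, hW3, ?_⟩
      rw [hFc1 β hβ]
      rw [← ha2] at hW4
      exact (mul_le_mul_of_nonneg_right hc1a2 (Λ.lv_pos β).le).trans hW4
    · obtain ⟨W, hW1, hW2, hW3, hW4⟩ := B.level_gen (k := k) hq1 bs c hc1 hbs (ofLex κ)
      refine ⟨W, hW1, hW2, hW3, ?_⟩
      rw [hFc2 κ h]
      rw [← ha1] at hW4
      exact hc1a1.trans hW4
  choose W hW1 hW2 hW3 hW4 using hlevel
  refine ⟨fun α => W (key δ B.i0 α.1.1) ⟨α, rfl⟩, fun α => hW1 _ _, fun α => hW2 _ _, ?_⟩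
  refine (B.levels_prod hq1 hkk' Λ.lv (fun β => (Λ.lv_pos β).le) c1 hc1pos hc1one Fc
    hFc1 hFc2).trans (B.glue hq1 Fc hFcpos W hW3 hW4 _ ?_)
  rintro κ ⟨α, rfl⟩
  rfl

lemma dual_core {q k : ℕ} (hq1 : 1 ≤ q) (hk : k * δ ≤ n * (q * δ - 1))
    (w : Box n δ q k → MvPolynomial (Fin n) K)
    (hw1 : ∀ α, (w α).IsHomogeneous (n * (q * δ - 1) - k * δ)) (hw2 : ∀ α, IntP B.v (w α))
    (c : ℝ)
    (hfrob : ∀ h : MvPolynomial (Fin n) K, h.IsHomogeneous (n * (q * δ - 1)) →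
      IntP B.v h → B.v (B.G.co h (top n (q * δ))) ≤ c)
    (θ : Box n δ q k → Mon n (k * δ)) :
    B.v (Matrix.det (Matrix.of fun x α : Box n δ q k =>
        B.G.co (monomial (θ x).1 1) α.1.1)) *
      B.v (Matrix.det (Matrix.of fun α α' : Box n δ q k =>
        B.G.co (Ev δ B.g B.b α.1.1 * w α') (top n (q * δ)))) ≤ c ^ Fintype.card (Box n δ q k) := by
  rw [← map_mul, ← Matrix.det_mul]
  apply v_det_le B.na
  intro x α'
  have hZ : ((Matrix.of fun x α : Box n δ q k => B.G.co (monomial (θ x).1 1) α.1.1) *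
      (Matrix.of fun α α' : Box n δ q k =>
        B.G.co (Ev δ B.g B.b α.1.1 * w α') (top n (q * δ)))) x α' =
      B.G.co (monomial (θ x).1 1 * w α') (top n (q * δ)) := by
    rw [← B.box_mul hq1 w _ (isHomogeneous_monomial _ (θ x).deg) α', Matrix.mul_apply]
    rfl
  rw [hZ]
  refine hfrob _ ?_ ?_
  · have h1 : (monomial (θ x).1 (1 : K)).IsHomogeneous (k * δ) :=
      isHomogeneous_monomial _ (θ x).deg
    have h2 := h1.mul (hw1 α')
    rw [Nat.add_sub_cancel' hk] at h2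
    exact h2
  · exact (IntP_monomial _ (by simp)).mul B.na (hw2 _)

/-- B6: duality inequality, `q = ℓ^e`, `D = (q+j)δ`, `jδ < q`. -/
theorem dual_ineq [CharP K ℓ] [Infinite K]
    (μ : Fin n → (Fin n →₀ ℕ))
    (hμ : B.v (Matrix.det (Matrix.of fun i j => coeff (μ j) (B.g i))) = 1) :
    ∃ C : ℝ, 1 ≤ C ∧ ∀ (e j : ℕ), j * δ < ℓ ^ e → 2 * n ≤ ℓ ^ e →
      ∀ Λ : B.Tri (n * (ℓ ^ e - 1) - (ℓ ^ e + j)),
      (B.v (T δ B.g B.b ((ℓ ^ e + j) * δ)))⁻¹ * (B.v (T δ B.g B.b (j * δ))) ^ n *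
        ∏ β ∈ (Finset.univ : Finset (Mon n (n * (ℓ ^ e - 1) - (ℓ ^ e + j)))).filter
          (fun β => ∀ i, n ≤ β.1 i ∧ β.1 i + n ≤ ℓ ^ e), Λ.lv β ≤
      (C * (B.t⁻¹) ^ (ℓ ^ e)) ^
        (Fintype.card {α : Mon n ((ℓ ^ e + j) * δ) // ∀ i, α.1 i < ℓ ^ e * δ}) *
        C ^ ((ℓ ^ e) ^ (n - 1)) := by
  have hδ := B.δpos
  have hn := B.hn
  have htp : 0 < B.t⁻¹ := inv_pos.2 B.t0
  obtain ⟨c1, hc1pos, hc1one, hfam⟩ := B.exists_families
  obtain ⟨C, hC⟩ : ∃ C : ℝ, C = max B.Cσ c1⁻¹ := ⟨_, rfl⟩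
  have hCσ : B.Cσ ≤ C := by rw [hC]; exact le_max_left _ _
  have hCc : c1⁻¹ ≤ C := by rw [hC]; exact le_max_right _ _
  refine ⟨C, B.Cσ0.trans hCσ, ?_⟩
  intro e j hj hqn Λ
  obtain ⟨θ, hθ⟩ := B.v_det_box μ hμ e j hj
  have hfrob := fun h => B.frob' e (q := ℓ ^ e) rfl h
  have hq1 : 1 ≤ ℓ ^ e := by omega
  have h1 : 2 * j ≤ j * δ := by rw [mul_comm]; exact Nat.mul_le_mul_left _ B.hδ
  have h2 : 2 * (ℓ ^ e - 1) ≤ n * (ℓ ^ e - 1) := Nat.mul_le_mul_right _ hn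
  have hkk' : (ℓ ^ e + j) + (n * (ℓ ^ e - 1) - (ℓ ^ e + j)) = n * (ℓ ^ e - 1) := by omega
  obtain ⟨w, hw1, hw2, hw3⟩ := hfam hq1 hkk' Λ
  have hk : (ℓ ^ e + j) * δ ≤ n * (ℓ ^ e * δ - 1) := by
    have h6 : n * (ℓ ^ e * δ - 1) = n * (δ - 1) + n * (ℓ ^ e - 1) * δ := by
      generalize ℓ ^ e = q at *
      obtain ⟨r, hr⟩ : ∃ r, q = r + 1 := ⟨q - 1, by omega⟩
      obtain ⟨d, hd⟩ : ∃ d, δ = d + 1 := ⟨δ - 1, by omega⟩
      rw [hr, hd, Nat.add_sub_cancel, Nat.add_sub_cancel]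
      have : (r + 1) * (d + 1) - 1 = r * (d + 1) + d := by
        rw [add_mul, one_mul]; omega
      rw [this]; ring
    rw [h6]
    have h7 : (ℓ ^ e + j) * δ ≤ n * (ℓ ^ e - 1) * δ := by
      apply Nat.mul_le_mul_right
      omega
    omega
  have hcore := B.dual_core hq1 hk w hw1 hw2 (B.Cσ * (B.t⁻¹) ^ (ℓ ^ e)) hfrob θ
  rw [hθ] at hcore
  have hA0 : 0 ≤ (B.v (T δ B.g B.b ((ℓ ^ e + j) * δ)))⁻¹ * (B.v (T δ B.g B.b (j * δ))) ^ n :=
    mul_nonneg (inv_nonneg.2 (B.v.nonneg _)) (pow_nonneg (B.v.nonneg _) _)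
  have h3 := (mul_le_mul_of_nonneg_left hw3 hA0).trans hcore
  have h4 : (B.Cσ * (B.t⁻¹) ^ (ℓ ^ e)) ^ Fintype.card (Box n δ (ℓ ^ e) (ℓ ^ e + j)) ≤
      (C * (B.t⁻¹) ^ (ℓ ^ e)) ^ Fintype.card (Box n δ (ℓ ^ e) (ℓ ^ e + j)) := by
    apply pow_le_pow_left₀
    · exact mul_nonneg (zero_le_one.trans B.Cσ0) (pow_nonneg htp.le _)
    · exact mul_le_mul_of_nonneg_right hCσ (pow_nonneg htp.le _)
  have hc1q : 0 < c1 ^ ((ℓ ^ e) ^ (n - 1)) := pow_pos hc1pos _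
  have h5 : (B.v (T δ B.g B.b ((ℓ ^ e + j) * δ)))⁻¹ * (B.v (T δ B.g B.b (j * δ))) ^ n *
      ∏ β ∈ Om n (ℓ ^ e) (n * (ℓ ^ e - 1) - (ℓ ^ e + j)), Λ.lv β ≤
      (C * (B.t⁻¹) ^ (ℓ ^ e)) ^ Fintype.card (Box n δ (ℓ ^ e) (ℓ ^ e + j)) *
        (c1 ^ ((ℓ ^ e) ^ (n - 1)))⁻¹ := by
    rw [← div_eq_mul_inv, le_div_iff₀ hc1q]
    refine le_trans (le_of_eq ?_) (h3.trans h4)
    ring
  have h6 : (c1 ^ ((ℓ ^ e) ^ (n - 1)))⁻¹ ≤ C ^ ((ℓ ^ e) ^ (n - 1)) := by
    rw [← inv_pow]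
    exact pow_le_pow_left₀ (inv_nonneg.2 hc1pos.le) hCc _
  refine h5.trans (mul_le_mul_of_nonneg_left h6 ?_)
  exact pow_nonneg (mul_nonneg (zero_le_one.trans (B.Cσ0.trans hCσ)) (pow_nonneg htp.le _)) _

end BCtx

end AF23
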