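import Pool.Agent.AF23.B4

/-! Part B6a: the box determinant -/

namespace AF23

open MvPolynomial

variable {n δ : ℕ}

lemma v_det_submatrix {K : Type*} [Field K] (v : AbsoluteValue K ℝ) {m l : Type*} [Fintype m]
    [DecidableEq m] [Fintype l] [DecidableEq l] (M : Matrix m m K) (e1 e2 : l ≃ m) :
    v (M.submatrix e1 e2).det = v M.det := by
  have h : M.submatrix e1 e2 = (M.submatrix id (e1.symm.trans e2)).submatrix e1 e1 := by
    ext i j; simp
  rw [h, Matrix.det_submatrix_equiv_self, Matrix.det_permute']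
  rcases Int.units_eq_one_or (Equiv.Perm.sign (e1.symm.trans e2)) with h | h <;> rw [h] <;> simp

/-- exponents of degree `kδ` in the box `[0,qδ)^n` -/
abbrev Box (n δ q k : ℕ) : Type := {α : Mon n (k * δ) // ∀ i, α.1 i < q * δ}

section frobenius
variable {ℓ : ℕ} {K : Type*} [Field K] [CharP K ℓ] [Fact ℓ.Prime]

lemma pow_q_eq (e : ℕ) (g : MvPolynomial (Fin n) K) :
    g ^ (ℓ ^ e) = ∑ m ∈ g.support, monomial ((ℓ ^ e) • m) ((coeff m g) ^ (ℓ ^ e)) := by
  conv_lhs => rw [g.as_sum]
  rw [sum_pow_char_pow]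
  refine Finset.sum_congr rfl fun m _ => ?_
  rw [monomial_pow]

lemma coeff_pow_q (e : ℕ) (g : MvPolynomial (Fin n) K) (m : Fin n →₀ ℕ) :
    coeff ((ℓ ^ e) • m) (g ^ (ℓ ^ e)) = (coeff m g) ^ (ℓ ^ e) := by
  classical
  have hq : 0 < ℓ ^ e := pow_pos (Fact.out : ℓ.Prime).pos e
  rw [pow_q_eq, coeff_sum]
  simp only [coeff_monomial]
  have h1 : ∀ m', (ℓ ^ e) • m' = (ℓ ^ e) • m ↔ m' = m := by
    intro m'
    constructor
    · intro h
      ext i
      have := DFunLike.congr_fun h i
      simp only [Finsupp.smul_apply, smul_eq_mul] at this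
      exact Nat.eq_of_mul_eq_mul_left hq this
    · rintro rfl; rfl
  simp only [h1, Finset.sum_ite_eq']
  split_ifs with h
  · rfl
  · have : coeff m g = 0 := by simpa using h
    rw [this, zero_pow hq.ne']

lemma coeff_pow_q_eq_zero (e : ℕ) (g : MvPolynomial (Fin n) K) (m : Fin n →₀ ℕ)
    (hm : ∀ m', (ℓ ^ e) • m' ≠ m) : coeff m (g ^ (ℓ ^ e)) = 0 := by
  classical
  rw [pow_q_eq, coeff_sum]
  refine Finset.sum_eq_zero fun m' _ => ?_
  rw [coeff_monomial, if_neg (hm m')]

end frobenius

namespace BCtx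
variable {ℓ : ℕ} {K : Type*} [Field K] (B : BCtx n δ ℓ K)

open scoped Kronecker in
theorem v_det_box [CharP K ℓ] (μ : Fin n → (Fin n →₀ ℕ))
    (hμ : B.v (Matrix.det (Matrix.of fun i j => coeff (μ j) (B.g i))) = 1)
    (e j : ℕ) (hj : j * δ < ℓ ^ e) :
    ∃ θ : Box n δ (ℓ ^ e) (ℓ ^ e + j) → Mon n ((ℓ ^ e + j) * δ),
      B.v (Matrix.det (Matrix.of fun x α : Box n δ (ℓ ^ e) (ℓ ^ e + j) =>
        B.G.co (monomial (θ x).1 1) α.1.1)) =
      (B.v (T δ B.g B.b ((ℓ ^ e + j) * δ)))⁻¹ * (B.v (T δ B.g B.b (j * δ))) ^ n := by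
  classical
  have : Fact ℓ.Prime := ⟨B.hℓ⟩
  have hδ := B.δpos
  set q := ℓ ^ e with hq
  have hqpos : 0 < q := pow_pos B.hℓ.pos e
  have hqδ : q ≤ q * δ := Nat.le_mul_of_pos_right _ hδ
  set MM : Matrix (Fin n) (Fin n) K := Matrix.of fun i j => coeff (μ j) (B.g i) with hMM
  have hMM0 : MM.det ≠ 0 := by
    intro h; rw [h, map_zero] at hμ; exact zero_ne_one hμ
  -- the exponents `μ`
  have hμdeg : ∀ l, (μ l).degree = δ := by
    intro l
    by_contra hne
    apply hMM0
    apply Matrix.det_eq_zero_of_column_eq_zero l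
    intro i
    exact (B.G.fhom i).coeff_eq_zero hne
  have hμinj : Function.Injective μ := by
    intro l l' h
    by_contra hne
    exact hMM0 (Matrix.det_zero_of_column_eq hne (fun i => by simp [hMM, h]))
  have hsmall : ∀ (α : Mon n (j * δ)) (i : Fin n), α.1 i < q := by
    intro α i
    have h1 := Finsupp.le_degree i α.1
    rw [α.deg] at h1; omega
  -- the two embeddings
  let ιμ : Fin n × Mon n (j * δ) → Mon n ((q + j) * δ) := fun x =>
    ⟨q • μ x.1 + x.2.1, mem_Mon.2 (by
      rw [map_add, map_nsmul, hμdeg, x.2.deg, smul_eq_mul, add_mul])⟩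
  let ιc : Fin n × Mon n (j * δ) → Mon n ((q + j) * δ) := fun x =>
    ⟨x.2.1 + Finsupp.single x.1 (δ * q), mem_Mon.2 (by
      rw [map_add, Finsupp.degree_single, x.2.deg]; ring)⟩
  have hιμ : Function.Injective ιμ := by
    rintro ⟨l, α⟩ ⟨l', α'⟩ h
    have h1 : q • μ l + α.1 = q • μ l' + α'.1 := congrArg Subtype.val h
    have h2 : ∀ i, α.1 i = α'.1 i ∧ μ l i = μ l' i := by
      intro i
      have h3 := DFunLike.congr_fun h1 i
      simp only [Finsupp.add_apply, Finsupp.smul_apply, smul_eq_mul] at h3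
      have h4 := congrArg (· % q) h3
      simp only [Nat.mul_add_mod, Nat.mod_eq_of_lt (hsmall α i),
        Nat.mod_eq_of_lt (hsmall α' i)] at h4
      refine ⟨h4, ?_⟩
      rw [h4] at h3
      exact Nat.eq_of_mul_eq_mul_left hqpos (Nat.add_right_cancel h3)
    have h5 : α = α' := Subtype.ext (Finsupp.ext fun i => (h2 i).1)
    have h6 : l = l' := hμinj (Finsupp.ext fun i => (h2 i).2)
    rw [h5, h6]
  have hιc : Function.Injective ιc := by
    rintro ⟨l, α⟩ ⟨l', α'⟩ h
    have h1 : α.1 + Finsupp.single l (δ * q) = α'.1 + Finsupp.single l' (δ * q) :=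
      congrArg Subtype.val h
    have hll : l = l' := by
      by_contra hne
      have h3 := DFunLike.congr_fun h1 l
      simp only [Finsupp.add_apply, Finsupp.single_eq_same] at h3
      rw [Finsupp.single_eq_of_ne (by exact hne)] at h3
      have := hsmall α' l
      have hqδ' : q ≤ δ * q := Nat.le_mul_of_pos_left _ hδ
      omega
    subst hll
    have h5 : α = α' := Subtype.ext (add_right_cancel h1)
    rw [h5]
  -- column equivalence
  have hcbij : Function.Bijective
      (Sum.elim (fun x : Box n δ q (q + j) => x.1) ιc) := by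
    constructor
    · rintro (x | x) (y | y) h
      · simp only [Sum.elim_inl] at h
        rw [Subtype.ext h]
      · simp only [Sum.elim_inl, Sum.elim_inr] at h
        exfalso
        have h1 := x.2 y.1
        rw [h] at h1
        simp only [ιc, Finsupp.add_apply, Finsupp.single_eq_same] at h1
        rw [mul_comm δ q] at h1; omega
      · simp only [Sum.elim_inl, Sum.elim_inr] at h
        exfalso
        have h1 := y.2 x.1
        rw [← h] at h1
        simp only [ιc, Finsupp.add_apply, Finsupp.single_eq_same] at h1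
        rw [mul_comm δ q] at h1; omega
      · simp only [Sum.elim_inr] at h
        rw [hιc h]
    · intro α
      by_cases hα : ∀ i, α.1 i < q * δ
      · exact ⟨Sum.inl ⟨α, hα⟩, rfl⟩
      · push Not at hα
        obtain ⟨l, hl⟩ := hα
        have hle : Finsupp.single l (δ * q) ≤ α.1 := by
          rw [Finsupp.single_le_iff, mul_comm]; exact hl
        have hd : (α.1 - Finsupp.single l (δ * q)).degree = j * δ := by
          have h1 := congrArg Finsupp.degree (tsub_add_cancel_of_le hle)
          rw [map_add, Finsupp.degree_single, α.deg] at h1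
          have h2 : (q + j) * δ = j * δ + δ * q := by ring
          omega
        refine ⟨Sum.inr (l, ⟨_, mem_Mon.2 hd⟩), ?_⟩
        exact Subtype.ext (tsub_add_cancel_of_le hle)
  let c : Box n δ q (q + j) ⊕ (Fin n × Mon n (j * δ)) ≃ Mon n ((q + j) * δ) :=
    Equiv.ofBijective _ hcbij
  -- row equivalence
  have hcard : Fintype.card (Box n δ q (q + j)) =
      Fintype.card {κ : Mon n ((q + j) * δ) // κ ∉ Set.range ιμ} := by
    have h1 := Fintype.card_congr c
    rw [Fintype.card_sum] at h1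
    have h2 : Fintype.card {κ : Mon n ((q + j) * δ) // κ ∉ Set.range ιμ} =
        Fintype.card (Mon n ((q + j) * δ)) - Fintype.card {κ // κ ∈ Set.range ιμ} :=
      Fintype.card_subtype_compl _
    have h3 : Fintype.card {κ // κ ∈ Set.range ιμ} = Fintype.card (Fin n × Mon n (j * δ)) :=
      (Fintype.card_congr (Equiv.ofInjective ιμ hιμ)).symm
    rw [h3] at h2
    omega
  let θ' := Fintype.equivOfCardEq hcard
  have hrbij : Function.Bijective
      (Sum.elim (fun x : Box n δ q (q + j) => (θ' x).1) ιμ) := by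
    constructor
    · rintro (x | x) (y | y) h
      · simp only [Sum.elim_inl] at h
        rw [θ'.injective (Subtype.ext h)]
      · simp only [Sum.elim_inl, Sum.elim_inr] at h
        exact absurd ⟨y, h.symm⟩ (θ' x).2
      · simp only [Sum.elim_inl, Sum.elim_inr] at h
        exact absurd ⟨x, h⟩ (θ' y).2
      · simp only [Sum.elim_inr] at h
        rw [hιμ h]
    · intro κ
      by_cases hκ : κ ∈ Set.range ιμ
      · obtain ⟨x, hx⟩ := hκ
        exact ⟨Sum.inr x, hx⟩
      · exact ⟨Sum.inl (θ'.symm ⟨κ, hκ⟩), by simp⟩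
  let r : Box n δ q (q + j) ⊕ (Fin n × Mon n (j * δ)) ≃ Mon n ((q + j) * δ) :=
    Equiv.ofBijective _ hrbij
  -- the family
  let w : Box n δ q (q + j) ⊕ (Fin n × Mon n (j * δ)) → MvPolynomial (Fin n) K :=
    Sum.elim (fun x => monomial (θ' x).1.1 1) (fun x => B.g x.1 ^ q * monomial x.2.1 1)
  have hwhom : ∀ a, (w a).IsHomogeneous ((q + j) * δ) := by
    rintro (x | x)
    · exact isHomogeneous_monomial _ (θ' x).1.deg
    · have h1 := ((B.G.fhom x.1).pow q).mul (isHomogeneous_monomial (1 : K) x.2.deg)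
      have h2 : δ * q + j * δ = (q + j) * δ := by ring
      rw [h2] at h1
      exact h1
  -- expansions
  have hexp : ∀ a (α : Mon n ((q + j) * δ)), B.G.co (w a) α.1 =
      ∑ κ : Mon n ((q + j) * δ), coeff κ.1 (w a) * B.Xm ((q + j) * δ) κ α := by
    intro a α
    have h1 : w a = ∑ κ : Mon n ((q + j) * δ), coeff κ.1 (w a) • monomial κ.1 (1 : K) := by
      ext κ
      rw [coeff_sum]
      simp only [coeff_smul, coeff_monomial, smul_eq_mul]
      by_cases hκ : κ.degree = (q + j) * δ
      · rw [Finset.sum_eq_single (⟨κ, mem_Mon.2 hκ⟩ : Mon n ((q + j) * δ))]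
        · simp
        · intro κ' _ hne
          rw [if_neg, mul_zero]
          intro h; exact hne (Subtype.ext h)
        · simp
      · rw [(hwhom a).coeff_eq_zero hκ]
        symm
        refine Finset.sum_eq_zero fun κ' _ => ?_
        rw [if_neg, mul_zero]
        intro h; exact hκ (h ▸ κ'.deg)
    conv_lhs => rw [h1]
    rw [B.G.co_sum]
    refine Finset.sum_congr rfl fun κ _ => ?_
    rw [B.G.co_smul]; rfl
  set A : Matrix _ _ K := Matrix.of fun a a' => coeff (r a').1 (w a) with hA
  set Full : Matrix _ _ K := Matrix.of fun a a' => B.G.co (w a) (c a').1 with hFull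
  have hprod : Full = A * (B.Xm ((q + j) * δ)).submatrix r c := by
    ext a a'
    rw [Matrix.mul_apply, hFull, Matrix.of_apply, hexp]
    rw [← Equiv.sum_comp r]
    rfl
  -- block structure of `Full`
  have hF21 : Full.toBlocks₂₁ = 0 := by
    ext x y
    show B.G.co (B.g x.1 ^ q * monomial x.2.1 1) y.1.1 = 0
    rw [B.G.co_pow_mul hδ, if_neg]
    have := y.2 x.1
    rw [mul_comm δ q]; omega
  have hF22 : Full.toBlocks₂₂ = (1 : Matrix (Fin n) (Fin n) K) ⊗ₖ B.Xm (j * δ) := by
    ext ⟨l, α⟩ ⟨l', α'⟩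
    rw [Matrix.kronecker_apply]
    show B.G.co (B.g l ^ q * monomial α.1 1) (α'.1 + Finsupp.single l' (δ * q)) = _
    rw [B.G.co_pow_mul hδ]
    by_cases hll : l = l'
    · subst hll
      rw [if_pos (by simp), Matrix.one_apply_eq, one_mul, add_tsub_cancel_right]
      rfl
    · rw [if_neg, Matrix.one_apply_ne hll, zero_mul]
      rw [Finsupp.add_apply, Finsupp.single_eq_of_ne (by exact hll)]
      have h1 := hsmall α' l
      have hqδ' : q ≤ δ * q := Nat.le_mul_of_pos_left _ hδ
      omega
  have hA12 : A.toBlocks₁₂ = 0 := by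
    ext x y
    show coeff (ιμ y).1 (monomial (θ' x).1.1 (1 : K)) = 0
    rw [coeff_monomial, if_neg]
    intro h
    exact (θ' x).2 ⟨y, Subtype.ext h.symm⟩
  have hA11 : A.toBlocks₁₁ = 1 := by
    ext x y
    show coeff (θ' y).1.1 (monomial (θ' x).1.1 (1 : K)) = _
    rw [coeff_monomial, Matrix.one_apply]
    by_cases hxy : x = y
    · rw [hxy, if_pos rfl, if_pos rfl]
    · rw [if_neg hxy, if_neg]
      intro h
      exact hxy (θ'.injective (Subtype.ext (Subtype.ext h)))
  have hA22 : A.toBlocks₂₂ = (MM.map (iterateFrobenius K ℓ e)) ⊗ₖ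
      (1 : Matrix (Mon n (j * δ)) (Mon n (j * δ)) K) := by
    ext ⟨l, α⟩ ⟨l', α'⟩
    rw [Matrix.kronecker_apply]
    show coeff (q • μ l' + α'.1) (B.g l ^ q * monomial α.1 1) = _
    rw [coeff_mul_monomial', Matrix.map_apply, iterateFrobenius_def]
    by_cases hαα : α = α'
    · subst hαα
      rw [if_pos (le_add_of_nonneg_left zero_le), Matrix.one_apply_eq, mul_one, mul_one,
        add_tsub_cancel_right]
      exact coeff_pow_q e (B.g l) (μ l')
    · rw [Matrix.one_apply_ne hαα, mul_zero]
      split_ifs with hle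
      · rw [mul_one]
        apply coeff_pow_q_eq_zero
        intro m' hm'
        change q • m' = _ at hm'
        apply hαα
        apply Subtype.ext
        ext i
        have h1 := DFunLike.congr_fun hm' i
        have h2 := hle i
        simp only [Finsupp.smul_apply, smul_eq_mul, Finsupp.tsub_apply, Finsupp.add_apply] at h1 h2
        have h3 : q * m' i + α.1 i = q * μ l' i + α'.1 i := by omega
        have h4 := congrArg (· % q) h3
        simp only [Nat.mul_add_mod, Nat.mod_eq_of_lt (hsmall α i),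
          Nat.mod_eq_of_lt (hsmall α' i)] at h4
        exact h4
      · rfl
  have hFdet : Full.det = Full.toBlocks₁₁.det * (B.Xm (j * δ)).det ^ n := by
    have h1 : Full = Matrix.fromBlocks Full.toBlocks₁₁ Full.toBlocks₁₂ 0
        Full.toBlocks₂₂ := by
      rw [← hF21, Matrix.fromBlocks_toBlocks]
    rw [h1, Matrix.det_fromBlocks_zero₂₁, Matrix.toBlocks_fromBlocks₁₁, hF22,
      Matrix.det_kronecker, Matrix.det_one, one_pow, one_mul, Fintype.card_fin]
  have hAdet : B.v A.det = 1 := by
    have h1 : A = Matrix.fromBlocks A.toBlocks₁₁ 0 A.toBlocks₂₁ A.toBlocks₂₂ := by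
      rw [← hA12, Matrix.fromBlocks_toBlocks]
    rw [h1, Matrix.det_fromBlocks_zero₁₂, hA11, hA22, Matrix.det_one, one_mul,
      Matrix.det_kronecker, Matrix.det_one, one_pow, mul_one, map_pow]
    have h2 : (MM.map (iterateFrobenius K ℓ e)).det = iterateFrobenius K ℓ e MM.det :=
      ((iterateFrobenius K ℓ e).map_det MM).symm
    rw [h2, iterateFrobenius_def, map_pow, hμ, one_pow, one_pow]
  refine ⟨fun x => (θ' x).1, ?_⟩
  have h11 : Full.toBlocks₁₁ = Matrix.of fun x α : Box n δ q (q + j) =>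
      B.G.co (monomial (θ' x).1.1 1) α.1.1 := by
    ext x y; rfl
  rw [← h11]
  have h2 := congrArg (fun M => B.v (Matrix.det M)) hprod
  simp only [Matrix.det_mul, map_mul, hAdet, one_mul] at h2
  rw [v_det_submatrix, hFdet, map_mul, map_pow, B.v_det_Xm, B.v_det_Xm] at h2
  have hT : B.v (T δ B.g B.b (j * δ)) ≠ 0 := B.v.ne_zero_iff.2 (B.T_ne _)
  rw [← h2, inv_pow, mul_assoc, inv_mul_cancel₀ (pow_ne_zero _ hT), mul_one]

end BCtx

end AF23
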