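import Pool.Agent.AF23.B5
import Pool.Agent.AF23.B6a

/-! Part B6b: level matrices -/

namespace AF23

open MvPolynomial

variable {n δ : ℕ}

/-- determinant of a matrix triangular with respect to a function with zero off-diagonal ties -/
lemma det_of_weak_tri {K : Type*} [Field K] {m : Type*} [Fintype m] [DecidableEq m]
    (M : Matrix m m K) (b : m → ℕ) (h : ∀ i j, i ≠ j → b j ≤ b i → M i j = 0) :
    M.det = ∏ i, M i i := by
  classical
  let e := Fintype.equivFin m
  let ord : m → ℕ ×ₗ Fin (Fintype.card m) := fun i => toLex (b i, e i)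
  have hinj : Function.Injective ord := by
    intro i j hij
    have h1 : (b i, e i) = (b j, e j) := hij
    exact e.injective (congrArg Prod.snd h1)
  let _ : LinearOrder m := LinearOrder.lift' ord hinj
  have hM : M.IsUpperTriangular := by
    intro i j hij
    have h1 : ord j < ord i := hij
    rw [Prod.Lex.toLex_lt_toLex] at h1
    apply h i j
    · rintro rfl; exact lt_irrefl _ hij
    · rcases h1 with h1 | h1
      · exact h1.le
      · exact h1.1.le
  exact Matrix.det_of_isUpperTriangular hM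

lemma surj_of_inj {K R V : Type*} [Field K] [AddCommGroup V] [Module K V] [Fintype R]
    (Φ : V →ₗ[K] (R → K)) (h : ∀ c : R → K, (∀ v, ∑ r, c r * Φ v r = 0) → c = 0) :
    Function.Surjective Φ := by
  classical
  rw [← LinearMap.range_eq_top]
  by_contra hne
  obtain ⟨φ, hφ0, hφ⟩ := Submodule.exists_le_ker_of_lt_top _ (lt_top_iff_ne_top.2 hne)
  have h1 := h (fun r => φ (Pi.single r 1)) (by
    intro v
    have h2 : φ (Φ v) = 0 := hφ ⟨v, rfl⟩
    rw [← h2]
    have h4 : Φ v = ∑ r, (Φ v r) • (Pi.single r 1 : R → K) := by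
      funext r
      rw [Finset.sum_apply, Finset.sum_eq_single r]
      · simp
      · intro r' _ hne
        simp [Pi.single_eq_of_ne (Ne.symm hne)]
      · simp
    conv_rhs => rw [h4]
    rw [map_sum]
    refine Finset.sum_congr rfl fun r _ => ?_
    rw [map_smul, smul_eq_mul, mul_comm])
  apply hφ0
  apply LinearMap.pi_ext'
  intro r
  apply LinearMap.ext_ring
  exact congrFun h1 r

/-- remainders of degree `j` -/
abbrev RR (n δ j : ℕ) : Type := {ν' : Mon n j // ∀ i, ν'.1 i < δ}

namespace BCtx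
variable {ℓ : ℕ} {K : Type*} [Field K] (B : BCtx n δ ℓ K)

lemma exists_scale' (v : AbsoluteValue K ℝ) (h : MvPolynomial (Fin n) K) :
    ∃ c : K, c ≠ 0 ∧ v c ≤ 1 ∧ IntP v (c • h) := by
  obtain ⟨c, hc0, hc⟩ := exists_scale v h
  by_cases h1 : v c ≤ 1
  · exact ⟨c, hc0, h1, hc⟩
  · push Not at h1
    refine ⟨1, one_ne_zero, by simp, ?_⟩
    rw [one_smul]
    intro e
    have h2 := hc e
    rw [coeff_smul, smul_eq_mul, map_mul] at h2
    by_contra hcon
    push Not at hcon
    have : 1 < v c * v (coeff e h) := one_lt_mul_of_lt_of_le h1 hcon.le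
    linarith

/-- elements of the ideal have zero coordinates in the box -/
lemma co_eq_zero_of_mem {z : MvPolynomial (Fin n) K} (hz : z ∈ Ideal.span (Set.range B.g))
    (ν : Fin n →₀ ℕ) (hν : ∀ i, ν i < δ) : B.G.co z ν = 0 := by
  have key1 : ∀ i (w : MvPolynomial (Fin n) K), B.G.co (B.g i * w) ν = 0 := by
    intro i w
    have h1 := B.G.co_pow_mul B.δpos i 1 w ν
    rw [pow_one, mul_one, if_neg (not_le.2 (hν i))] at h1
    exact h1
  rw [Ideal.span, Submodule.mem_span_range_iff_exists_fun] at hz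
  obtain ⟨c, rfl⟩ := hz
  rw [B.G.co_sum]
  refine Finset.sum_eq_zero fun i _ => ?_
  rw [smul_eq_mul, mul_comm]; exact key1 i _

/-- the pairing with forms of complementary degree -/
noncomputable def pairMap (j : ℕ) :
    homogeneousSubmodule (Fin n) K (n * (δ - 1) - j) →ₗ[K] (RR n δ j → K) where
  toFun w r := B.G.co (B.b r.1.1 * w.1) (top n δ)
  map_add' w w' := by
    funext r
    simp only [Submodule.coe_add, mul_add, B.G.co_add, Pi.add_apply]
  map_smul' a w := by
    funext r
    simp only [Submodule.coe_smul, mul_smul_comm, B.G.co_smul, RingHom.id_apply,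
      Pi.smul_apply, smul_eq_mul]

/-- dual family -/
lemma exists_dual : ∃ (bs : (Fin n →₀ ℕ) → MvPolynomial (Fin n) K) (c : K), c ≠ 0 ∧ B.v c ≤ 1 ∧
    ∀ ν : Fin n →₀ ℕ, (∀ i, ν i < δ) →
      (bs ν).IsHomogeneous (n * (δ - 1) - ν.degree) ∧ IntP B.v (bs ν) ∧
      ∀ ν' : Fin n →₀ ℕ, (∀ i, ν' i < δ) → ν'.degree = ν.degree →
        B.G.co (B.b ν' * bs ν) (top n δ) = if ν' = ν then c else 0 := by
  classical
  have hδ := B.δpos
  -- existence for one `ν`, without integrality
  have step : ∀ ν : Fin n →₀ ℕ, (∀ i, ν i < δ) → ∃ w : MvPolynomial (Fin n) K,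
      w.IsHomogeneous (n * (δ - 1) - ν.degree) ∧
      ∀ ν' : Fin n →₀ ℕ, (∀ i, ν' i < δ) → ν'.degree = ν.degree →
        B.G.co (B.b ν' * w) (top n δ) = if ν' = ν then 1 else 0 := by
    intro ν hν
    have hνle : ν.degree ≤ n * (δ - 1) := by
      rw [Finsupp.degree_eq_sum]
      calc ∑ i, ν i ≤ ∑ _i : Fin n, (δ - 1) :=
            Finset.sum_le_sum fun i _ => Nat.le_sub_one_of_lt (hν i)
        _ = n * (δ - 1) := by simp
    have hsurj : Function.Surjective (B.pairMap ν.degree) := by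
      apply surj_of_inj
      intro c hc0
      have hmem : (∑ r : RR n δ ν.degree, c r • B.b r.1.1) ∈ Ideal.span (Set.range B.g) := by
        refine B.dual _ hνle _ ?_ ?_
        · refine IsHomogeneous.sum _ _ _ fun r _ => ?_
          rw [smul_eq_C_mul]
          have h1 := (isHomogeneous_C (Fin n) (c r)).mul (B.G.bhom r.1.1 r.2)
          rw [zero_add, r.1.deg] at h1
          exact h1
        · intro u hu
          have h1 := hc0 ⟨u, hu⟩
          rw [Finset.sum_mul, B.G.co_sum, ← h1]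
          refine Finset.sum_congr rfl fun r _ => ?_
          rw [smul_mul_assoc, B.G.co_smul]; rfl
      funext r
      have h3 := B.co_eq_zero_of_mem hmem r.1.1 r.2
      rw [B.G.co_sum, Finset.sum_eq_single r] at h3
      · rw [B.G.co_smul, ← Ev_of_lt (δ := δ) (f := B.g) (b := B.b) r.2, B.G.co_Ev_self,
          mul_one] at h3
        exact h3
      · intro r' _ hne
        rw [B.G.co_smul, ← Ev_of_lt (δ := δ) (f := B.g) (b := B.b) r'.2, B.G.co_Ev, if_neg,
          mul_zero]
        intro h; exact hne (Subtype.ext (Subtype.ext h))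
      · simp
    obtain ⟨w, hw⟩ := hsurj (fun r => if r.1.1 = ν then 1 else 0)
    refine ⟨w.1, w.2, fun ν' hν' hd => ?_⟩
    exact congrFun hw (⟨⟨ν', mem_Mon.2 hd⟩, hν'⟩ : RR n δ ν.degree)
  -- choose everything and scale uniformly
  choose! w hw1 hw2 using step
  choose cc hcc0 hcc1 hcc using fun ν : Fin n →₀ ℕ => exists_scale' B.v (w ν)
  let all : Finset (Fin n →₀ ℕ) := (Finset.univ : Finset (Fin n → Fin δ)).image
    (fun τ => Finsupp.equivFunOnFinite.symm fun i => ((τ i : Fin δ) : ℕ))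
  have hall : ∀ ν : Fin n →₀ ℕ, (∀ i, ν i < δ) → ν ∈ all := by
    intro ν hν
    rw [Finset.mem_image]
    exact ⟨fun i => ⟨ν i, hν i⟩, Finset.mem_univ _, by ext i; rfl⟩
  refine ⟨fun ν => (∏ μ ∈ all, cc μ) • w ν, ∏ μ ∈ all, cc μ,
    Finset.prod_ne_zero_iff.2 fun μ _ => hcc0 μ, ?_, fun ν hν => ⟨?_, ?_, ?_⟩⟩
  · rw [map_prod]
    exact Finset.prod_le_one (fun _ _ => B.v.nonneg _) fun μ _ => hcc1 μ
  · show ((∏ μ ∈ all, cc μ) • w ν).IsHomogeneous _
    rw [smul_eq_C_mul]
    have := (isHomogeneous_C (Fin n) (∏ μ ∈ all, cc μ)).mul (hw1 ν hν)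
    rwa [zero_add] at this
  · show IntP B.v ((∏ μ ∈ all, cc μ) • w ν)
    rw [← Finset.mul_prod_erase all cc (hall ν hν), mul_comm, mul_smul]
    refine (hcc ν).smul ?_
    rw [map_prod]
    exact Finset.prod_le_one (fun _ _ => B.v.nonneg _) fun μ _ => hcc1 μ
  · intro ν' hν' hd
    show B.G.co (B.b ν' * ((∏ μ ∈ all, cc μ) • w ν)) (top n δ) = _
    rw [mul_smul_comm, B.G.co_smul, hw2 ν hν ν' hν' hd]
    split_ifs <;> simp

end BCtx

end AF23
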