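import Pool.Agent.AF23.B6b

/-! Part B6c: pairing matrices of the levels -/

namespace AF23

open MvPolynomial

variable {n δ : ℕ}

/-- the exponent `(a,…,a)` -/
noncomputable def cst (n a : ℕ) : Fin n →₀ ℕ := Finsupp.equivFunOnFinite.symm fun _ : Fin n => a

@[simp] lemma cst_apply (a : ℕ) (i : Fin n) : cst n a i = a := rfl

lemma degree_cst (a : ℕ) : (cst n a).degree = n * a := by
  rw [Finsupp.degree_eq_sum]; simp

lemma erase_cst (i0 : Fin n) (a : ℕ) : (cst n a).erase i0 = BCtx.cE i0 a := rfl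

lemma top_mul (hδ : 0 < δ) {q : ℕ} (hq : 1 ≤ q) :
    top n (q * δ) = top n δ + δ • cst n (q - 1) := by
  ext i
  simp only [top, Finsupp.add_apply, Finsupp.smul_apply, Finsupp.equivFunOnFinite_symm_apply_apply,
    smul_eq_mul, cst_apply]
  obtain ⟨r, rfl⟩ : ∃ r, q = r + 1 := ⟨q - 1, by omega⟩
  rw [Nat.add_sub_cancel, add_mul, one_mul, mul_comm δ r]
  omega

lemma Box.div_le (hδ : 0 < δ) {q k : ℕ} (α : Box n δ q k) : divF δ α.1.1 ≤ cst n (q - 1) := by
  intro i
  show α.1.1 i / δ ≤ q - 1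
  have h1 := α.2 i
  have h2 : α.1.1 i / δ < q := (Nat.div_lt_iff_lt_mul hδ).2 h1
  omega

lemma degree_modF_le (hδ : 0 < δ) (α : Fin n →₀ ℕ) : (modF δ α).degree ≤ n * (δ - 1) := by
  rw [Finsupp.degree_eq_sum]
  calc ∑ i, modF δ α i ≤ ∑ _i : Fin n, (δ - 1) :=
        Finset.sum_le_sum fun i _ => Nat.le_sub_one_of_lt (modF_lt hδ α i)
    _ = n * (δ - 1) := by simp

namespace BCtx
variable {ℓ : ℕ} {K : Type*} [Field K] (B : BCtx n δ ℓ K)

lemma hom_prod_pow (β : Fin n →₀ ℕ) : (∏ i, B.g i ^ β i).IsHomogeneous (δ * β.degree) := by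
  rw [Finsupp.degree_eq_sum, Finset.mul_sum]
  exact IsHomogeneous.prod _ _ _ fun i _ => (B.G.fhom i).pow _

lemma IntP_prod_pow (β : Fin n →₀ ℕ) : IntP B.v (∏ i, B.g i ^ β i) :=
  IntP.prod B.na _ fun i _ => (B.gint i).pow B.na _

lemma level_gen {q k : ℕ} (hq : 1 ≤ q) (bs : (Fin n →₀ ℕ) → MvPolynomial (Fin n) K) (c : K)
    (hc1 : B.v c ≤ 1)
    (hbs : ∀ ν : Fin n →₀ ℕ, (∀ i, ν i < δ) →
      (bs ν).IsHomogeneous (n * (δ - 1) - ν.degree) ∧ IntP B.v (bs ν) ∧
      ∀ ν' : Fin n →₀ ℕ, (∀ i, ν' i < δ) → ν'.degree = ν.degree →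
        B.G.co (B.b ν' * bs ν) (top n δ) = if ν' = ν then c else 0) (γ : Fin n →₀ ℕ) :
    ∃ W : {α : Box n δ q k // key δ B.i0 α.1.1 = toLex γ} → MvPolynomial (Fin n) K,
      (∀ α, (W α).IsHomogeneous (n * (q * δ - 1) - k * δ)) ∧ (∀ α, IntP B.v (W α)) ∧
      (∀ α, B.Fil (toLex (cE B.i0 (q - 1) - γ)) (W α)) ∧
      (B.v c) ^ (δ ^ (n - 1)) ≤ B.v (Matrix.det (Matrix.of fun α α' :
        {α : Box n δ q k // key δ B.i0 α.1.1 = toLex γ} =>
          B.G.co (Ev δ B.g B.b α.1.1.1 * W α') (top n (q * δ)))) := by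
  classical
  have hδ := B.δpos
  have hdivle : ∀ α : Box n δ q k, divF δ α.1.1 ≤ cst n (q - 1) := fun α => α.div_le hδ
  set co' : Box n δ q k → (Fin n →₀ ℕ) := fun α => cst n (q - 1) - divF δ α.1.1 with hco'
  have hadd : ∀ α : Box n δ q k, divF δ α.1.1 + co' α = cst n (q - 1) := fun α =>
    add_tsub_cancel_of_le (hdivle α)
  have her : ∀ α : {α : Box n δ q k // key δ B.i0 α.1.1 = toLex γ},
      (divF δ α.1.1.1).erase B.i0 = γ := fun α => α.2
  have her2 : ∀ α : {α : Box n δ q k // key δ B.i0 α.1.1 = toLex γ},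
      (co' α.1).erase B.i0 = cE B.i0 (q - 1) - γ := by
    intro α
    have h1 := congrArg (Finsupp.erase B.i0) (hadd α.1)
    rw [Finsupp.erase_add, her α, erase_cst] at h1
    rw [← h1, add_tsub_cancel_left]
  refine ⟨fun α => (∏ i, B.g i ^ (co' α.1) i) * bs (modF δ α.1.1.1), ?_, ?_, ?_, ?_⟩
  · intro α
    have h1 := (B.hom_prod_pow (co' α.1)).mul ((hbs _ (modF_lt hδ α.1.1.1)).1)
    have h2 : δ * (co' α.1).degree + (n * (δ - 1) - (modF δ α.1.1.1).degree) =
        n * (q * δ - 1) - k * δ := by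
      have h3 := congrArg Finsupp.degree (hadd α.1)
      rw [map_add, degree_cst] at h3
      have h4 := degree_eq (δ := δ) α.1.1.1
      rw [α.1.1.deg] at h4
      have h5 := degree_modF_le hδ α.1.1.1
      have h6 : n * (q * δ - 1) = n * (δ - 1) + δ * (n * (q - 1)) := by
        obtain ⟨r, rfl⟩ : ∃ r, q = r + 1 := ⟨q - 1, by omega⟩
        obtain ⟨d, rfl⟩ : ∃ d, δ = d + 1 := ⟨δ - 1, by omega⟩
        rw [Nat.add_sub_cancel, Nat.add_sub_cancel]
        have : (r + 1) * (d + 1) - 1 = r * (d + 1) + d := by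
          rw [add_mul, one_mul]; omega
        rw [this]; ring
      rw [h6, ← h3, mul_add]
      omega
    rw [h2] at h1
    exact h1
  · intro α
    exact (B.IntP_prod_pow _).mul B.na ((hbs _ (modF_lt hδ α.1.1.1)).2.1)
  · intro α
    have h1 := B.Fil_prod_mul (co' α.1) (B.Fil_zero (bs (modF δ α.1.1.1)))
    rw [zero_add, her2 α] at h1
    exact h1
  · -- entries
    have entry : ∀ α α' : {α : Box n δ q k // key δ B.i0 α.1.1 = toLex γ},
        B.G.co (Ev δ B.g B.b α.1.1.1 * ((∏ i, B.g i ^ (co' α'.1) i) * bs (modF δ α'.1.1.1)))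
          (top n (q * δ)) =
        if δ • (divF δ α.1.1.1 + co' α'.1) ≤ top n (q * δ) then
          B.G.co (B.b (modF δ α.1.1.1) * bs (modF δ α'.1.1.1))
            (top n (q * δ) - δ • (divF δ α.1.1.1 + co' α'.1)) else 0 := by
      intro α α'
      rw [← B.G.co_prod_mul hδ]
      congr 1
      simp only [Ev, Finsupp.add_apply, pow_add, Finset.prod_mul_distrib]
      ring
    have hdiveq : ∀ α α' : {α : Box n δ q k // key δ B.i0 α.1.1 = toLex γ},
        divF δ α.1.1.1 B.i0 = divF δ α'.1.1.1 B.i0 → divF δ α.1.1.1 = divF δ α'.1.1.1 := by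
      intro α α' h
      rw [← Finsupp.single_add_erase B.i0 (divF δ α.1.1.1),
        ← Finsupp.single_add_erase B.i0 (divF δ α'.1.1.1), her α, her α', h]
    have hE0 : ∀ α α' : {α : Box n δ q k // key δ B.i0 α.1.1 = toLex γ},
        divF δ α.1.1.1 = divF δ α'.1.1.1 →
        B.G.co (Ev δ B.g B.b α.1.1.1 * ((∏ i, B.g i ^ (co' α'.1) i) * bs (modF δ α'.1.1.1)))
          (top n (q * δ)) = if modF δ α.1.1.1 = modF δ α'.1.1.1 then c else 0 := by
      intro α α' h
      have hdeg : (modF δ α.1.1.1).degree = (modF δ α'.1.1.1).degree := by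
        have h4 := degree_eq (δ := δ) α.1.1.1
        have h5 := degree_eq (δ := δ) α'.1.1.1
        rw [α.1.1.deg, h] at h4
        rw [α'.1.1.deg] at h5
        omega
      rw [entry, h, hadd, top_mul hδ hq, if_pos (le_add_of_nonneg_left zero_le),
        add_tsub_cancel_right]
      exact (hbs _ (modF_lt hδ α'.1.1.1)).2.2 _ (modF_lt hδ α.1.1.1) hdeg
    have hdet : Matrix.det (Matrix.of fun α α' :
        {α : Box n δ q k // key δ B.i0 α.1.1 = toLex γ} =>
          B.G.co (Ev δ B.g B.b α.1.1.1 * ((∏ i, B.g i ^ (co' α'.1) i) *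
            bs (modF δ α'.1.1.1))) (top n (q * δ))) =
        ∏ _α : {α : Box n δ q k // key δ B.i0 α.1.1 = toLex γ}, c := by
      rw [det_of_weak_tri _ (fun α => divF δ α.1.1.1 B.i0)]
      · refine Finset.prod_congr rfl fun α _ => ?_
        rw [Matrix.of_apply, hE0 α α rfl, if_pos rfl]
      · intro α α' hne hle
        rw [Matrix.of_apply]
        rcases Nat.eq_or_lt_of_le hle with heq | hlt
        · rw [hE0 α α' (hdiveq α α' heq.symm), if_neg]
          intro hm
          apply hne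
          apply Subtype.ext
          apply Subtype.ext
          apply Subtype.ext
          rw [← modF_add_divF (δ := δ) α.1.1.1, ← modF_add_divF (δ := δ) α'.1.1.1, hm,
            hdiveq α α' heq.symm]
        · rw [entry, if_neg]
          intro hcon
          have h1 := hcon B.i0
          have h2 := DFunLike.congr_fun (hadd α'.1) B.i0
          rw [Finsupp.add_apply, cst_apply] at h2
          have h3 : (δ • (divF δ α.1.1.1 + co' α'.1) : Fin n →₀ ℕ) B.i0 =
              δ * (divF δ α.1.1.1 B.i0 + co' α'.1 B.i0) := rfl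
          have h4 : top n (q * δ) B.i0 = q * δ - 1 := rfl
          rw [h3, h4] at h1
          have h5 : q ≤ divF δ α.1.1.1 B.i0 + co' α'.1 B.i0 := by omega
          have h6 : δ * q ≤ δ * (divF δ α.1.1.1 B.i0 + co' α'.1 B.i0) :=
            Nat.mul_le_mul_left _ h5
          have h7 : 0 < q * δ := Nat.mul_pos hq hδ
          rw [mul_comm δ q] at h6
          omega
    rw [hdet, Finset.prod_const, Finset.card_univ, map_pow]
    apply pow_le_pow_of_le_one (B.v.nonneg _) hc1
    refine le_trans ?_ (B.card_level_le (k := k) γ)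
    exact Fintype.card_le_of_injective
      (fun α : {α : Box n δ q k // key δ B.i0 α.1.1 = toLex γ} =>
        (⟨α.1.1, α.2⟩ : {α : Mon n (k * δ) // key δ B.i0 α.1 = toLex γ}))
      (fun α α' h => by
        have h1 := congrArg Subtype.val h
        exact Subtype.ext (Subtype.ext h1))

lemma level_good [Infinite K] {q k k' : ℕ} (hq : 1 ≤ q) (hk : k + k' = n * (q - 1))
    (u : MvPolynomial (Fin n) K) (hu : u.IsHomogeneous (n * (δ - 1))) (huI : IntP B.v u)
    (Λ : B.Tri k') (β : Mon n k') (hβ1 : ∀ i, n ≤ β.1 i) (hβ2 : ∀ i, β.1 i + n ≤ q)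
    (γ : Fin n →₀ ℕ) (hγ : γ = cE B.i0 (q - 1) - β.1.erase B.i0) :
    ∃ W : {α : Box n δ q k // key δ B.i0 α.1.1 = toLex γ} → MvPolynomial (Fin n) K,
      (∀ α, (W α).IsHomogeneous (n * (q * δ - 1) - k * δ)) ∧ (∀ α, IntP B.v (W α)) ∧
      (∀ α, B.Fil (toLex (cE B.i0 (q - 1) - γ)) (W α)) ∧
      (B.v B.V.det) ^ 2 * (∏ p, B.v (B.wt u p)) * Λ.lv β ≤ B.v (Matrix.det (Matrix.of fun α α' :
        {α : Box n δ q k // key δ B.i0 α.1.1 = toLex γ} =>
          B.G.co (Ev δ B.g B.b α.1.1.1 * W α') (top n (q * δ)))) := by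
  classical
  have hδ := B.δpos
  have hn := B.npos
  set γ' := β.1.erase B.i0 with hγ'
  have hγ'0 : γ' B.i0 = 0 := by simp [hγ']
  have hle : γ' ≤ cE B.i0 (q - 1) := by
    intro i
    by_cases hi : i = B.i0
    · rw [hi, hγ'0]; exact Nat.zero_le _
    · have h2 : cE B.i0 (q - 1) i = q - 1 := by simp [cE, Finsupp.erase_ne hi]
      rw [h2, hγ', Finsupp.erase_ne hi]
      have := hβ2 i; omega
  have hsum : γ + γ' = cE B.i0 (q - 1) := by rw [hγ]; exact tsub_add_cancel_of_le hle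
  have hγ'2 : cE B.i0 (q - 1) - γ = γ' := by rw [← hsum, add_tsub_cancel_left]
  have hγ0 : γ B.i0 = 0 := by
    have := DFunLike.congr_fun hsum B.i0
    rw [Finsupp.add_apply] at this
    have h2 : cE B.i0 (q - 1) B.i0 = 0 := by simp [cE]
    omega
  have hγ'deg : β.1 B.i0 + γ'.degree = k' := by
    have h1 := congrArg Finsupp.degree (Finsupp.single_add_erase B.i0 β.1)
    rw [map_add, Finsupp.degree_single, β.deg] at h1
    exact h1
  have hγdeg : γ.degree + (q - 1) = k + β.1 B.i0 := by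
    have h1 := congrArg Finsupp.degree hsum
    rw [map_add, B.degree_cE] at h1
    have h2 : (n - 1) * (q - 1) + (q - 1) = n * (q - 1) := by
      obtain ⟨m, rfl⟩ : ∃ m, n = m + 1 := ⟨n - 1, by omega⟩
      rw [Nat.add_sub_cancel]; ring
    omega
  have hfull' : γ'.degree + n ≤ k' + 1 := by
    have := hβ1 B.i0; omega
  have hfull : γ.degree + n ≤ k + 1 := by
    have := hβ2 B.i0; omega
  let e' := levelEquiv hδ B.i0 γ' hγ'0 k' hfull'
  let e0 := levelEquiv hδ B.i0 γ hγ0 k hfull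
  -- all elements of the level are in the box
  have hbox : ∀ ν : Z0 n δ, ∀ i, (e0 ν).1.1 i < q * δ := by
    intro ν i
    have h1 : (e0 ν).1.1 = lvl B.i0 γ k ν := rfl
    have h2 : divF δ (lvl B.i0 γ k ν) i ≤ q - 1 := by
      rw [divF_lvl hδ, Finsupp.add_apply]
      by_cases hi : i = B.i0
      · rw [hi, hγ0, zero_add, Finsupp.single_eq_same]
        omega
      · rw [Finsupp.single_eq_of_ne hi, add_zero]
        have h3 : γ i ≤ cE B.i0 (q - 1) i := by
          rw [← hsum, Finsupp.add_apply]; exact Nat.le_add_right _ _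
        have h2 : cE B.i0 (q - 1) i = q - 1 := by simp [cE, Finsupp.erase_ne hi]
        omega
    rw [h1]
    rw [divF_apply] at h2
    have h4 : lvl B.i0 γ k ν i / δ < q := by omega
    exact (Nat.div_lt_iff_lt_mul hδ).1 h4
  let e : Z0 n δ ≃ {α : Box n δ q k // key δ B.i0 α.1.1 = toLex γ} :=
    { toFun := fun ν => ⟨⟨(e0 ν).1, hbox ν⟩, (e0 ν).2⟩
      invFun := fun α => e0.symm ⟨α.1.1, α.2⟩
      left_inv := fun ν => by simp
      right_inv := fun α => by
        apply Subtype.ext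
        apply Subtype.ext
        show (e0 (e0.symm ⟨α.1.1, α.2⟩)).1 = α.1.1
        rw [Equiv.apply_symm_apply] }
  refine ⟨fun α => u * Λ.h (e' (e.symm α)).1, ?_, ?_, ?_, ?_⟩
  · intro α
    have h1 := hu.mul (Λ.hom (e' (e.symm α)).1)
    have h2 : n * (δ - 1) + k' * δ = n * (q * δ - 1) - k * δ := by
      have h6 : n * (q * δ - 1) = n * (δ - 1) + n * (q - 1) * δ := by
        obtain ⟨r, rfl⟩ : ∃ r, q = r + 1 := ⟨q - 1, by omega⟩
        obtain ⟨d, rfl⟩ : ∃ d, δ = d + 1 := ⟨δ - 1, by omega⟩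
        rw [Nat.add_sub_cancel, Nat.add_sub_cancel]
        have : (r + 1) * (d + 1) - 1 = r * (d + 1) + d := by
          rw [add_mul, one_mul]; omega
        rw [this]; ring
      rw [h6, ← hk, add_mul]
      omega
    rw [h2] at h1
    exact h1
  · intro α
    exact huI.mul B.na (Λ.int _)
  · intro α
    have h1 := B.Fil_mul (B.Fil_zero u) (Λ.fil (e' (e.symm α)).1)
    rw [zero_add, (e' (e.symm α)).2] at h1
    rw [hγ'2]
    exact h1
  · set M : Matrix _ _ K := Matrix.of fun α α' :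
        {α : Box n δ q k // key δ B.i0 α.1.1 = toLex γ} =>
          B.G.co (Ev δ B.g B.b α.1.1.1 * (u * Λ.h (e' (e.symm α')).1)) (top n (q * δ)) with hM
    have hMe : M.det = (M.submatrix e e).det := (Matrix.det_submatrix_equiv_self e M).symm
    set L : Matrix (Z0 n δ) (Z0 n δ) K :=
      Matrix.of fun ν ν' => B.G.co (Λ.h (e' ν).1) (e' ν').1.1 with hL
    have hLlv : Λ.lv β = B.v L.det := by
      have e1 := Matrix.det_submatrix_equiv_self e' (Matrix.of fun α α' :
        {α : Mon n (k' * δ) // key δ B.i0 α.1 = toLex (β.1.erase B.i0)} =>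
        B.G.co (Λ.h α.1) α'.1.1)
      have e2 : Λ.lv β = B.v (Matrix.det (Matrix.of fun α α' :
        {α : Mon n (k' * δ) // key δ B.i0 α.1 = toLex (β.1.erase B.i0)} =>
        B.G.co (Λ.h α.1) α'.1.1)) := rfl
      rw [e2, ← e1]
      rfl
    have hprod : M.submatrix e e = B.V * (Matrix.diagonal (B.wt u) * (L * B.V).transpose) := by
      ext ν ν'
      rw [Matrix.submatrix_apply, hM, Matrix.of_apply, Equiv.symm_apply_apply, Matrix.mul_apply]
      simp only [Matrix.diagonal_mul, Matrix.transpose_apply]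
      have hEν : Ev δ B.g B.b (e ν).1.1.1 = Ev δ B.g B.b (lvl B.i0 γ k ν) := rfl
      have hkν : key δ B.i0 (lvl B.i0 γ k ν) = toLex γ := key_lvl hδ B.i0 γ hγ0 k ν
      have hkν' : key δ B.i0 (e' ν').1.1 = toLex γ' := (e' ν').2
      rw [hEν, mul_left_comm]
      have hF : B.Fil (toLex (cE B.i0 (q - 1)))
          (Ev δ B.g B.b (lvl B.i0 γ k ν) * Λ.h (e' ν').1) := by
        have h1 := B.Fil_mul (B.Fil_Ev (lvl B.i0 γ k ν)) (Λ.fil (e' ν').1)
        rw [hkν, hkν', ← toLex_add, hsum] at h1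
        exact h1
      have hhom : (Ev δ B.g B.b (lvl B.i0 γ k ν) * Λ.h (e' ν').1).IsHomogeneous
          (n * (q - 1) * δ) := by
        have h1 := (B.G.isHomogeneous_Ev hδ (lvl B.i0 γ k ν)).mul (Λ.hom (e' ν').1)
        have h2 : (lvl B.i0 γ k ν).degree = k * δ := (e0 ν).1.deg
        rw [h2, ← add_mul, hk] at h1
        exact h1
      have h3 := B.co_topE u (cE B.i0 (q - 1)) (by simp [cE]) (n * (q - 1)) (by
        rw [B.degree_cE]
        have h4 : (n - 1) * (q - 1) + (q - 1) = n * (q - 1) := by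
          obtain ⟨m, rfl⟩ : ∃ m, n = m + 1 := ⟨n - 1, by omega⟩
          rw [Nat.add_sub_cancel]; ring
        have := hβ1 B.i0
        have := hβ2 B.i0
        omega) _ hhom hF
      rw [B.topE_cE hq] at h3
      rw [h3]
      refine Finset.sum_congr rfl fun p _ => ?_
      have h4 : B.LC (toLex (cE B.i0 (q - 1))) (B.x p)
          (Ev δ B.g B.b (lvl B.i0 γ k ν) * Λ.h (e' ν').1) =
          B.V ν p * (L * B.V) ν' p := by
        have hf1 : B.Fil (toLex γ) (Ev δ B.g B.b (lvl B.i0 γ k ν)) := by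
          rw [← hkν]; exact B.Fil_Ev _
        have hf2 : B.Fil (toLex γ') (Λ.h (e' ν').1) := by
          have h6 := Λ.fil (e' ν').1
          rw [hkν'] at h6
          exact h6
        have h5 := B.LC_mul p hf1 hf2
        rw [← toLex_add, hsum] at h5
        rw [h5, LC_Ev, if_pos hkν, modF_lvl, B.LC_hom (Λ.hom _) γ' hγ'0 hfull' p,
          Matrix.mul_apply]
        rfl
      rw [h4]; ring
    rw [hMe, hprod, Matrix.det_mul, Matrix.det_mul, Matrix.det_transpose, Matrix.det_mul,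
      Matrix.det_diagonal, map_mul, map_mul, map_mul, map_prod, ← hLlv]
    apply le_of_eq
    ring

end BCtx

end AF23
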