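import Pool.Agent.AF23.B7b

/-! Part B7: the numerical contradiction -/

namespace AF23

open MvPolynomial Filter Topology

variable {n δ ℓ : ℕ}

/-- the final algebra -/
lemma numeric_alg (m : ℕ) (hm : 1 ≤ m) (δ' p r τ : ℝ) (hτ : 0 < τ) (hτ1 : τ ≤ 1) (hp : 0 < p)
    (hδ : 0 < δ') (hr : δ' ^ m * p ≤ r)
    (h : r * (1 + τ) ^ (m + 1) / (m + 1).factorial - ((m + 1 : ℕ) : ℝ) * (r * τ ^ (m + 1) / (m + 1).factorial)
      + r * (m - τ) ^ (m + 1) / (m + 1).factorial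
      - ((m - τ) ^ m / m.factorial - (1 + τ) ^ m / m.factorial + ((m + 1 : ℕ) : ℝ) * (τ ^ m / m.factorial))
        * (δ' ^ m * ((m - τ) * p)) / ((m + 1 : ℕ) : ℝ) ≤
      (((1 + τ) * δ') ^ m / m.factorial - ((m + 1 : ℕ) : ℝ) * ((τ * δ') ^ m / m.factorial)) * p) : False := by
  have hf : (0 : ℝ) < m.factorial := by positivity
  have hf1 : ((m + 1).factorial : ℝ) = (m + 1) * m.factorial := by
    rw [Nat.factorial_succ]; push_cast; ring
  have hm0 : (0 : ℝ) < m + 1 := by positivity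
  have hm1 : (1 : ℝ) ≤ m := by exact_mod_cast hm
  have hN : 0 < δ' ^ m := by positivity
  have hbr : 0 ≤ (1 + τ) ^ (m + 1) - (m + 1) * τ ^ (m + 1) + (m - τ) ^ (m + 1) := by
    have h1 : 1 + (m + 1) * τ ≤ (1 + τ) ^ (m + 1) := by
      have := one_add_mul_le_pow (a := τ) (by linarith) (m + 1)
      push_cast at this; exact this
    have h2 : τ ^ (m + 1) ≤ τ := by
      calc τ ^ (m + 1) ≤ τ ^ 1 := pow_le_pow_of_le_one hτ.le hτ1 (by omega)
        _ = τ := pow_one _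
    have h3 : 0 ≤ (m - τ : ℝ) ^ (m + 1) := pow_nonneg (by linarith) _
    have h4 : (m + 1) * τ ^ (m + 1) ≤ (m + 1) * τ := mul_le_mul_of_nonneg_left h2 hm0.le
    linarith
  have hmul : δ' ^ m * p * ((1 + τ) ^ (m + 1) - (m + 1) * τ ^ (m + 1) + (m - τ) ^ (m + 1)) ≤
      r * ((1 + τ) ^ (m + 1) - (m + 1) * τ ^ (m + 1) + (m - τ) ^ (m + 1)) :=
    mul_le_mul_of_nonneg_right hr hbr
  rw [hf1, mul_pow, mul_pow] at h
  push_cast at h
  have e1 : r * (1 + τ) ^ (m + 1) / ((m + 1) * (m.factorial : ℝ)) - ((m : ℝ) + 1) * (r * τ ^ (m + 1) / ((m + 1) * m.factorial))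
      + r * (m - τ) ^ (m + 1) / ((m + 1) * m.factorial)
      - ((m - τ) ^ m / m.factorial - (1 + τ) ^ m / m.factorial + ((m : ℝ) + 1) * (τ ^ m / m.factorial))
        * (δ' ^ m * ((m - τ) * p)) / ((m : ℝ) + 1) =
      (r * ((1 + τ) ^ (m + 1) - (m + 1) * τ ^ (m + 1) + (m - τ) ^ (m + 1)) -
        δ' ^ m * p * (m - τ) * ((m - τ) ^ m - (1 + τ) ^ m + (m + 1) * τ ^ m)) / ((m + 1) * m.factorial) := by
    field_simp
  have e2 : ((1 + τ) ^ m * δ' ^ m / (m.factorial : ℝ) - ((m : ℝ) + 1) * (τ ^ m * δ' ^ m / m.factorial)) * p =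
      (δ' ^ m * p * (m + 1) * ((1 + τ) ^ m - (m + 1) * τ ^ m)) / ((m + 1) * m.factorial) := by
    field_simp
  rw [e1, e2, div_le_div_iff_of_pos_right (by positivity)] at h
  have h5 : δ' ^ m * p * ((1 + τ) ^ (m + 1) - (m + 1) * τ ^ (m + 1) + (m - τ) ^ (m + 1)) -
        δ' ^ m * p * (m - τ) * ((m - τ) ^ m - (1 + τ) ^ m + (m + 1) * τ ^ m) ≤
        δ' ^ m * p * (m + 1) * ((1 + τ) ^ m - (m + 1) * τ ^ m) := by linarith
  have h6 : δ' ^ m * p * ((1 + τ) ^ (m + 1) - (m + 1) * τ ^ (m + 1) + (m - τ) ^ (m + 1)) -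
        δ' ^ m * p * (m - τ) * ((m - τ) ^ m - (1 + τ) ^ m + (m + 1) * τ ^ m) -
        δ' ^ m * p * (m + 1) * ((1 + τ) ^ m - (m + 1) * τ ^ m) = δ' ^ m * p * ((m + 1) * τ ^ m) := by
    ring
  have h7 : 0 < δ' ^ m * p * ((m + 1) * τ ^ m) := by positivity
  linarith

/-- division of the inequality by `q^(m+1)` -/
lemma numeric_aux (P1 P2 P3 S C1 C2 C3 C4 C5 C6 O b a pp c q : ℝ) (m : ℕ) (hq : 0 < q)
    (hd : P1 - ((m + 1 : ℕ) : ℝ) * P2 + S ≤ (C5 - ((m + 1 : ℕ) : ℝ) * C6) * pp + c * q ^ m)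
    (hS : P3 - (C1 - O) * b / ((m + 1 : ℕ) : ℝ) - ((m + 1 : ℕ) : ℝ) * (C1 - C4) * a ≤ S)
    (h3 : (C1 - O) * b / ((m + 1 : ℕ) : ℝ) ≤ (C1 - C2 + ((m + 1 : ℕ) : ℝ) * C3) * b / ((m + 1 : ℕ) : ℝ)) :
    P1 / q ^ (m + 1) - ((m + 1 : ℕ) : ℝ) * (P2 / q ^ (m + 1)) + P3 / q ^ (m + 1)
      - (C1 / q ^ m - C2 / q ^ m + ((m + 1 : ℕ) : ℝ) * (C3 / q ^ m)) * (b / q) / ((m + 1 : ℕ) : ℝ)
      - ((m + 1 : ℕ) : ℝ) * (C1 / q ^ m - C4 / q ^ m) * (a / q) ≤
      (C5 / q ^ m - ((m + 1 : ℕ) : ℝ) * (C6 / q ^ m)) * (pp / q) + c / q := by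
  have h4 : P1 - ((m + 1 : ℕ) : ℝ) * P2 + P3 - (C1 - C2 + ((m + 1 : ℕ) : ℝ) * C3) * b / ((m + 1 : ℕ) : ℝ)
      - ((m + 1 : ℕ) : ℝ) * (C1 - C4) * a ≤
      (C5 - ((m + 1 : ℕ) : ℝ) * C6) * pp + c * q ^ m := by linarith
  have h5 := div_le_div_of_nonneg_right h4 (by positivity : 0 ≤ q ^ (m + 1))
  have hq0 : q ≠ 0 := hq.ne'
  have hm0 : ((m + 1 : ℕ) : ℝ) ≠ 0 := by positivity
  generalize ((m + 1 : ℕ) : ℝ) = M at *
  refine le_trans (le_of_eq ?_) (h5.trans (le_of_eq ?_))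
  · rw [pow_succ]; field_simp
  · rw [pow_succ]; field_simp

/-- B7: the numerical contradiction. -/
theorem numeric (hn : 2 ≤ n) (hδ : 2 ≤ δ) (hℓ : ℓ.Prime)
    (P : ℕ → ℝ) (r p c : ℝ) (hp : 0 < p) (hc : 0 ≤ c) (hr : (δ : ℝ) ^ (n - 1) * p ≤ r)
    (hdiff : ∀ k, n ≤ k → ∑ i ∈ Finset.range (n + 1), (-1 : ℝ) ^ i * (n.choose i) * P (k - i) = r)
    (L : ∀ k, Mon n k → ℝ) (hsum : ∀ k, ∑ β, L k β = P k)
    (hbd : ∀ k (β : Mon n k), L k β ≤ (δ : ℝ) ^ (n - 1) * (k * p + c))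
    (hcyc : ∀ k (β : Mon n k), (∀ i, n ≤ β.1 i) → ∀ γ : Fin n → Mon n k,
      (∀ i, (γ i).1 = BCtx.rot i β.1) → ∑ i, L k (γ i) ≤ (δ : ℝ) ^ (n - 1) * (k * p) + c)
    (hdual : ∀ e j : ℕ, j * δ < ℓ ^ e → 2 * n ≤ ℓ ^ e →
      P (ℓ ^ e + j) - n * P j +
        ∑ β ∈ (Finset.univ : Finset (Mon n (n * (ℓ ^ e - 1) - (ℓ ^ e + j)))).filter
          (fun β => ∀ i, n ≤ β.1 i ∧ β.1 i + n ≤ ℓ ^ e),
          L (n * (ℓ ^ e - 1) - (ℓ ^ e + j)) β ≤
      (Fintype.card {α : Mon n ((ℓ ^ e + j) * δ) // ∀ i, α.1 i < ℓ ^ e * δ} : ℝ) *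
        ((ℓ : ℝ) ^ e * p + c) + c * ((ℓ : ℝ) ^ e) ^ (n - 1)) : False := by
  classical
  obtain ⟨m, rfl⟩ : ∃ m, n = m + 1 := ⟨n - 1, by omega⟩
  rw [Nat.add_sub_cancel] at *
  have hδ0 : (0 : ℝ) < δ := by exact_mod_cast (by omega : 0 < δ)
  set N : ℝ := (δ : ℝ) ^ m with hN
  set q : ℕ → ℝ := fun e => ((ℓ ^ e : ℕ) : ℝ) with hq
  set τ : ℝ := 1 / (2 * δ) with hτ
  set jj : ℕ → ℕ := fun e => ℓ ^ e / (2 * δ) with hjj
  set kp : ℕ → ℕ := fun e => (m + 1) * (ℓ ^ e - 1) - (ℓ ^ e + jj e) with hkp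
  set KK : ℕ → ℕ := fun e => (ℓ ^ e + jj e) - (m + 1) * m with hKK
  have hqN : Tendsto (fun e => ℓ ^ e) atTop atTop := tendsto_pow_atTop_atTop_of_one_lt hℓ.one_lt
  have hqt : Tendsto q atTop atTop := tendsto_natCast_atTop_atTop.comp hqN
  have hqpos : ∀ e, 0 < q e := fun e => by
    simp only [hq]; exact_mod_cast pow_pos hℓ.pos e
  have hq1 : Tendsto (fun e => q e / q e) atTop (𝓝 1) := by
    refine tendsto_const_nhds.congr fun e => ?_
    rw [div_self (hqpos e).ne']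
  have hcz : ∀ x : ℝ, Tendsto (fun e => x / q e) atTop (𝓝 0) := fun x => hqt.const_div_atTop _
  have hjt : Tendsto (fun e => (jj e : ℝ) / q e) atTop (𝓝 τ) := by
    have h1 : Tendsto (fun x : ℕ => ((x / (2 * δ) : ℕ) : ℝ) / x) atTop (𝓝 τ) := by
      have h2 := (tendsto_nat_floor_mul_div_atTop (R := ℝ) (a := τ) (by positivity)).comp
        (tendsto_natCast_atTop_atTop (R := ℝ))
      refine h2.congr fun x => ?_
      simp only [Function.comp]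
      congr 2
      rw [hτ, one_div, mul_comm, ← div_eq_mul_inv]
      have := Nat.floor_div_natCast (K := ℝ) (x : ℝ) (2 * δ)
      push_cast at this
      rw [this, Nat.floor_natCast]
    exact h1.comp hqN
  have hjle : ∀ e, 2 * δ * jj e ≤ ℓ ^ e := fun e => Nat.mul_div_le _ _
  have hj4 : ∀ e, 4 * jj e ≤ ℓ ^ e := fun e =>
    le_trans (Nat.mul_le_mul_right _ (by omega)) (hjle e)
  have hjlarge : ∀ Y, ∀ᶠ e in atTop, Y ≤ jj e := by
    intro Y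
    filter_upwards [hqN.eventually_ge_atTop (Y * (2 * δ))] with e he
    exact (Nat.le_div_iff_mul_le (by omega)).2 he
  have hkt : Tendsto (fun e => ((ℓ ^ e + jj e : ℕ) : ℝ) / q e) atTop (𝓝 (1 + τ)) := by
    refine (hq1.add hjt).congr fun e => ?_
    rw [← add_div]; simp [hq]
  have hm1 : 1 ≤ m := by omega
  have hkpe : ∀ᶠ e in atTop, ((kp e : ℕ) : ℝ) = (m + 1) * (q e - 1) - (q e + jj e) ∧
      4 * (m + 1) ≤ ℓ ^ e ∧ m + 1 ≤ kp e := by
    filter_upwards [hqN.eventually_ge_atTop (4 * (m + 1) * (m + 1) + 4)] with e he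
    have h1 := hj4 e
    have h2 : 2 * (ℓ ^ e - 1) ≤ (m + 1) * (ℓ ^ e - 1) := Nat.mul_le_mul_right _ (by omega)
    have h5 : 1 ≤ (m + 1) * (m + 1) := Nat.one_le_iff_ne_zero.2 (by positivity)
    have h6 : m + 1 ≤ (m + 1) * (m + 1) := Nat.le_mul_of_pos_left _ (by omega)
    have h7 : 4 * (m + 1) + 4 ≤ ℓ ^ e := by
      refine le_trans ?_ he
      rw [mul_assoc]; omega
    have h3 : ℓ ^ e + jj e ≤ (m + 1) * (ℓ ^ e - 1) := le_trans (by omega) h2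
    refine ⟨?_, by omega, ?_⟩
    · simp only [hkp]
      rw [Nat.cast_sub h3]
      push_cast [Nat.cast_sub (by omega : 1 ≤ ℓ ^ e)]
      simp [hq]
    · simp only [hkp]
      omega
  have hkpt : Tendsto (fun e => ((kp e : ℕ) : ℝ) / q e) atTop (𝓝 (m - τ)) := by
    have h1 : Tendsto (fun e => ((m : ℝ) + 1) * (q e / q e - 1 / q e) - (q e / q e + jj e / q e)) atTop
        (𝓝 ((m + 1) * (1 - 0) - (1 + τ))) :=
      ((hq1.sub (hcz 1)).const_mul _).sub (hq1.add hjt)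
    have e1 : ((m : ℝ) + 1) * (1 - 0) - (1 + τ) = m - τ := by ring
    rw [e1] at h1
    refine h1.congr' ?_
    filter_upwards [hkpe] with e he
    rw [he.1]; ring
  have hkpt' : Tendsto (fun e => ((kp e - (m + 1) : ℕ) : ℝ) / q e) atTop (𝓝 (m - τ)) := by
    have h1 := hkpt.sub (hcz ((m + 1 : ℕ) : ℝ))
    rw [sub_zero] at h1
    refine h1.congr' ?_
    filter_upwards [hkpe] with e he
    rw [Nat.cast_sub he.2.2]; ring
  have hKKe : ∀ᶠ e in atTop, ((KK e : ℕ) : ℝ) = (q e + jj e) - (m + 1) * m ∧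
      (((KK e - (ℓ ^ e - 2 * (m + 1) + 1) : ℕ) : ℝ) = jj e - (m + 1) * m + 2 * (m + 1) - 1) ∧
      ℓ ^ e - 2 * (m + 1) + 1 ≤ KK e ∧ kp e + KK e = (m + 1) * (ℓ ^ e - (m + 1)) := by
    filter_upwards [hqN.eventually_ge_atTop (4 * (m + 1) * (m + 1) + 4),
      hjlarge ((m + 1) * m + 1)] with e he hj
    have h5 : 1 ≤ (m + 1) * (m + 1) := Nat.one_le_iff_ne_zero.2 (by positivity)
    have h6 : m + 1 ≤ (m + 1) * (m + 1) := Nat.le_mul_of_pos_left _ (by omega)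
    have h7 : 2 * (m + 1) ≤ ℓ ^ e := by nlinarith
    have h8 : (m + 1) * m ≤ ℓ ^ e + jj e := by omega
    have h9 : ℓ ^ e - 2 * (m + 1) + 1 ≤ KK e := by simp only [hKK]; omega
    refine ⟨?_, ?_, h9, ?_⟩
    · simp only [hKK]
      rw [Nat.cast_sub h8]
      simp only [hq]; push_cast; ring
    · rw [Nat.cast_sub h9]
      simp only [hKK]
      rw [Nat.cast_sub h8]
      push_cast [Nat.cast_sub h7]
      ring
    · have h1 := hj4 e
      have h2 : 2 * (ℓ ^ e - 1) ≤ (m + 1) * (ℓ ^ e - 1) := Nat.mul_le_mul_right _ (by omega)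
      have h3 : ℓ ^ e + jj e ≤ (m + 1) * (ℓ ^ e - 1) := le_trans (by omega) h2
      have h10 : (m + 1) * (ℓ ^ e - 1) = (m + 1) * (ℓ ^ e - (m + 1)) + (m + 1) * m := by
        rw [← mul_add]; congr 1; omega
      simp only [hkp, hKK]
      omega
  have hKKt : Tendsto (fun e => ((KK e : ℕ) : ℝ) / q e) atTop (𝓝 (1 + τ)) := by
    have h1 := (hq1.add hjt).sub (hcz (((m : ℝ) + 1) * m))
    rw [sub_zero] at h1
    refine h1.congr' ?_
    filter_upwards [hKKe] with e he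
    rw [he.1]; ring
  have hKKt' : Tendsto (fun e => ((KK e - (ℓ ^ e - 2 * (m + 1) + 1) : ℕ) : ℝ) / q e) atTop (𝓝 τ) := by
    have h1 := hjt.sub (hcz (((m : ℝ) + 1) * m - 2 * (m + 1) + 1))
    rw [sub_zero] at h1
    refine h1.congr' ?_
    filter_upwards [hKKe] with e he
    rw [he.2.1]; ring
  have hδt : Tendsto (fun e => (((ℓ ^ e + jj e) * δ : ℕ) : ℝ) / q e) atTop (𝓝 ((1 + τ) * δ)) := by
    refine (hkt.mul_const (δ : ℝ)).congr fun e => ?_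
    push_cast; ring
  have hδt' : Tendsto (fun e => ((jj e * δ : ℕ) : ℝ) / q e) atTop (𝓝 (τ * δ)) := by
    refine (hjt.mul_const (δ : ℝ)).congr fun e => ?_
    push_cast; ring
  have hc1 := tendsto_card (n := m + 1) (by omega) kp q _ hqt hkpt
  have hc2 := tendsto_card (n := m + 1) (by omega) KK q _ hqt hKKt
  have hc3 := tendsto_card (n := m + 1) (by omega) (fun e => KK e - (ℓ ^ e - 2 * (m + 1) + 1)) q _ hqt hKKt'
  have hc4 := tendsto_card (n := m + 1) (by omega) (fun e => kp e - (m + 1)) q _ hqt hkpt'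
  have hc5 := tendsto_card (n := m + 1) (by omega) (fun e => (ℓ ^ e + jj e) * δ) q _ hqt hδt
  have hc6 := tendsto_card (n := m + 1) (by omega) (fun e => jj e * δ) q _ hqt hδt'
  simp only [Nat.add_sub_cancel] at hc1 hc2 hc3 hc4 hc5 hc6
  have hP1 := tendsto_P P r hdiff (fun e => ℓ ^ e + jj e) q _ hqt hkt
  have hP2 := tendsto_P P r hdiff jj q _ hqt hjt
  have hP3 := tendsto_P P r hdiff kp q _ hqt hkpt
  have hb : Tendsto (fun e => (N * ((kp e : ℝ) * p) + c) / q e) atTop (𝓝 (N * ((m - τ) * p))) := by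
    have h1 := ((hkpt.mul_const p).const_mul N).add (hcz c)
    rw [add_zero] at h1
    refine h1.congr fun e => ?_
    ring
  have ha : Tendsto (fun e => (N * ((kp e : ℝ) * p + c)) / q e) atTop (𝓝 (N * ((m - τ) * p))) := by
    have h1 := ((hkpt.mul_const p).add (hcz c)).const_mul N
    rw [add_zero] at h1
    refine h1.congr fun e => ?_
    ring
  have hp' : Tendsto (fun e => (q e * p + c) / q e) atTop (𝓝 p) := by
    have h1 := (hq1.mul_const p).add (hcz c)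
    rw [add_zero, one_mul] at h1
    refine h1.congr fun e => ?_
    ring
  have hN0 : 0 ≤ N := by positivity
  -- the inequality for large `e`
  have hineq : ∀ᶠ e in atTop,
      P (ℓ ^ e + jj e) / q e ^ (m + 1) - ((m + 1 : ℕ) : ℝ) * (P (jj e) / q e ^ (m + 1))
      + P (kp e) / q e ^ (m + 1)
      - ((Fintype.card (Mon (m + 1) (kp e)) : ℝ) / q e ^ m - (Fintype.card (Mon (m + 1) (KK e)) : ℝ) / q e ^ m
        + ((m + 1 : ℕ) : ℝ) * ((Fintype.card (Mon (m + 1) (KK e - (ℓ ^ e - 2 * (m + 1) + 1))) : ℝ) / q e ^ m))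
        * ((N * ((kp e : ℝ) * p) + c) / q e) / ((m + 1 : ℕ) : ℝ)
      - ((m + 1 : ℕ) : ℝ) * ((Fintype.card (Mon (m + 1) (kp e)) : ℝ) / q e ^ m
        - (Fintype.card (Mon (m + 1) (kp e - (m + 1))) : ℝ) / q e ^ m) * ((N * ((kp e : ℝ) * p + c)) / q e) ≤
      ((Fintype.card (Mon (m + 1) ((ℓ ^ e + jj e) * δ)) : ℝ) / q e ^ m
        - ((m + 1 : ℕ) : ℝ) * ((Fintype.card (Mon (m + 1) (jj e * δ)) : ℝ) / q e ^ m)) * ((q e * p + c) / q e)
        + c / q e := by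
    filter_upwards [hkpe, hKKe] with e he hK
    have hqe := hqpos e
    have hjd : jj e * δ < ℓ ^ e := by
      have h1 := hjle e
      have h2 : 0 < ℓ ^ e := pow_pos hℓ.pos e
      nlinarith
    have h2n : 2 * (m + 1) ≤ ℓ ^ e := by omega
    have hd := hdual e (jj e) hjd h2n
    have hS := sum_Om_ge (n := m + 1) (by omega) (ℓ ^ e) (kp e) he.2.2 (L (kp e))
      (N * ((kp e : ℝ) * p + c)) (N * ((kp e : ℝ) * p) + c) (P (kp e)) (by positivity)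
      (fun β => hbd (kp e) β) (by positivity) (hsum (kp e)) (fun β hβ γ hγ => hcyc (kp e) β hβ γ hγ)
    have hO := card_Om (n := m + 1) (ℓ ^ e) (kp e) (KK e) h2n hK.2.2.2 hK.2.2.1
    have hA := card_lt_eq (n := m + 1) ((ℓ ^ e + jj e) * δ) (ℓ ^ e * δ)
      (Nat.mul_le_mul_right _ (by omega)) (by
        have h2 : 0 < ℓ ^ e := pow_pos hℓ.pos e
        have : jj e < ℓ ^ e := by have := hj4 e; omega
        nlinarith)
    have hsub : (ℓ ^ e + jj e) * δ - ℓ ^ e * δ = jj e * δ := by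
      rw [add_mul, Nat.add_sub_cancel_left]
    rw [hsub] at hA
    rw [Fintype.card_subtype, hA] at hd
    have hqq : (ℓ : ℝ) ^ e = q e := by simp [hq]
    rw [hqq] at hd
    have hm10 : (0 : ℝ) < ((m + 1 : ℕ) : ℝ) := by positivity
    have hb0 : 0 ≤ (N * ((kp e : ℝ) * p) + c) := by positivity
    have h3 : ((Fintype.card (Mon (m + 1) (kp e)) : ℝ) -
        (Finset.univ.filter (fun β : Mon (m + 1) (kp e) => ∀ i, m + 1 ≤ β.1 i ∧ β.1 i + (m + 1) ≤ ℓ ^ e)).card)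
        * (N * ((kp e : ℝ) * p) + c) / ((m + 1 : ℕ) : ℝ) ≤
        ((Fintype.card (Mon (m + 1) (kp e)) : ℝ) - (Fintype.card (Mon (m + 1) (KK e)) : ℝ)
        + ((m + 1 : ℕ) : ℝ) * (Fintype.card (Mon (m + 1) (KK e - (ℓ ^ e - 2 * (m + 1) + 1))) : ℝ))
        * (N * ((kp e : ℝ) * p) + c) / ((m + 1 : ℕ) : ℝ) := by
      refine div_le_div_of_nonneg_right (mul_le_mul_of_nonneg_right ?_ hb0) hm10.le
      linarith
    have hq0 : 0 < q e ^ (m + 1) := by positivity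
    have hd' : P (ℓ ^ e + jj e) - ((m + 1 : ℕ) : ℝ) * P (jj e) +
        ∑ β ∈ (Finset.univ : Finset (Mon (m + 1) (kp e))).filter
          (fun β => ∀ i, m + 1 ≤ β.1 i ∧ β.1 i + (m + 1) ≤ ℓ ^ e), L (kp e) β ≤
        ((Fintype.card (Mon (m + 1) ((ℓ ^ e + jj e) * δ)) : ℝ)
        - ((m + 1 : ℕ) : ℝ) * (Fintype.card (Mon (m + 1) (jj e * δ)) : ℝ)) * (q e * p + c)
        + c * q e ^ m := hd
    exact numeric_aux _ _ _ _ _ _ _ _ _ _ _ _ _ _ _ _ m hqe (hd') hS h3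
  have hlim := le_of_tendsto_of_tendsto
    ((((hP1.sub (hP2.const_mul ((m + 1 : ℕ) : ℝ))).add hP3).sub
      ((((hc1.sub hc2).add (hc3.const_mul ((m + 1 : ℕ) : ℝ))).mul hb).div_const ((m + 1 : ℕ) : ℝ))).sub
      (((hc1.sub hc4).const_mul ((m + 1 : ℕ) : ℝ)).mul ha))
    (((hc5.sub (hc6.const_mul ((m + 1 : ℕ) : ℝ))).mul hp').add (hcz c)) hineq
  rw [sub_self, mul_zero, zero_mul, sub_zero, add_zero] at hlim
  have hτ0 : 0 < τ := by positivity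
  have hτ1 : τ ≤ 1 := by
    rw [hτ, div_le_one (by positivity)]
    have : (2 : ℝ) ≤ δ := by exact_mod_cast hδ
    linarith
  exact numeric_alg m hm1 δ p r τ hτ0 hτ1 hp hδ0 hr hlim

end AF23
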