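import Pool.Agent.AF23.BDefs

/-! Part B7: counting and asymptotics -/

namespace AF23

open MvPolynomial Filter Topology

variable {n δ ℓ : ℕ}

lemma card_Mon (hn : 1 ≤ n) (D : ℕ) : Fintype.card (Mon n D) = (D + n - 1).choose (n - 1) := by
  rw [Fintype.card_coe, Finset.card_finsuppAntidiag_nat_eq_choose, Finset.card_univ,
    Fintype.card_fin]
  have : n + D - 1 = D + (n - 1) := by omega
  have h2 : D + n - 1 = D + (n - 1) := by omega
  rw [this, h2, Nat.choose_symm_add]

/-- binomial coefficients: asymptotics -/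
lemma tendsto_choose (j : ℕ) (k : ℕ → ℕ) (q : ℕ → ℝ) (a : ℝ) (hq : Tendsto q atTop atTop)
    (hk : Tendsto (fun e => (k e : ℝ) / q e) atTop (𝓝 a)) :
    Tendsto (fun e => ((k e).choose j : ℝ) / q e ^ j) atTop (𝓝 (a ^ j / j.factorial)) := by
  induction j with
  | zero => simp
  | succ j ih =>
    have h1 : Tendsto (fun e => ((k e : ℝ) - j) / q e) atTop (𝓝 a) := by
      have : Tendsto (fun e => (j : ℝ) / q e) atTop (𝓝 0) := hq.const_div_atTop _
      simpa [sub_div] using hk.sub this
    have h2 := (ih.mul h1).div_const ((j : ℝ) + 1)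
    have e1 : a ^ j / (j.factorial : ℝ) * a / ((j : ℝ) + 1) = a ^ (j + 1) / ((j + 1).factorial : ℝ) := by
      rw [Nat.factorial_succ]; push_cast; field_simp; ring
    rw [← e1]
    refine h2.congr' ?_
    filter_upwards [hq.eventually_gt_atTop 0] with e he
    have h3 : ((k e).choose (j + 1) : ℝ) * (j + 1) = (k e).choose j * ((k e : ℝ) - j) := by
      rcases le_or_gt j (k e) with h | h
      · have := Nat.choose_succ_right_eq (k e) j
        have h4 : (((k e).choose (j + 1) * (j + 1) : ℕ) : ℝ) = (((k e).choose j * (k e - j) : ℕ) : ℝ) := by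
          rw [this]
        push_cast [Nat.cast_sub h] at h4
        exact h4
      · rw [Nat.choose_eq_zero_of_lt h, Nat.choose_eq_zero_of_lt (by omega)]; simp
    have hj : ((j : ℝ) + 1) ≠ 0 := by positivity
    field_simp
    rw [← h3, pow_succ]; ring

lemma tendsto_card (hn : 1 ≤ n) (k : ℕ → ℕ) (q : ℕ → ℝ) (a : ℝ) (hq : Tendsto q atTop atTop)
    (hk : Tendsto (fun e => (k e : ℝ) / q e) atTop (𝓝 a)) :
    Tendsto (fun e => (Fintype.card (Mon n (k e)) : ℝ) / q e ^ (n - 1)) atTop
      (𝓝 (a ^ (n - 1) / (n - 1).factorial)) := by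
  simp only [card_Mon hn]
  refine tendsto_choose (n - 1) (fun e => k e + n - 1) q a hq ?_
  have h1 : Tendsto (fun e => ((n - 1 : ℕ) : ℝ) / q e) atTop (𝓝 0) := hq.const_div_atTop _
  have h2 := hk.add h1
  rw [add_zero] at h2
  refine h2.congr fun e => ?_
  rw [← add_div]
  congr 1
  rw [Nat.add_sub_assoc hn]
  push_cast; ring

/-- Newton series -/
lemma newton (P : ℕ → ℝ) (r : ℝ)
    (hdiff : ∀ k, n ≤ k → ∑ i ∈ Finset.range (n + 1), (-1 : ℝ) ^ i * (n.choose i) * P (k - i) = r)
    (k : ℕ) :
    P k = ∑ j ∈ Finset.range (n + 1), (k.choose j : ℝ) * ((fwdDiff 1)^[j] P 0) := by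
  have hn : ∀ y, (fwdDiff 1)^[n] P y = r := by
    intro y
    rw [fwdDiff_iter_eq_sum_shift, ← hdiff (y + n) (by omega), ← Finset.sum_range_reflect]
    refine Finset.sum_congr rfl fun i hi => ?_
    rw [Finset.mem_range] at hi
    have h1 : n + 1 - 1 - i = n - i := by omega
    rw [h1]
    have h2 : n - (n - i) = i := by omega
    rw [h2, Nat.choose_symm (by omega : i ≤ n)]
    have h3 : y + (n - i) • 1 = y + n - i := by simp; omega
    rw [h3, zsmul_eq_mul]
    push_cast; ring
  have hn1 : ∀ j, n < j → (fwdDiff 1)^[j] P 0 = 0 := by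
    intro j hj
    obtain ⟨m, rfl⟩ := Nat.exists_eq_add_of_lt hj
    have h1 : (fwdDiff 1)^[n] P = fun _ => r := funext hn
    have : n + m + 1 = (m + 1) + n := by ring
    rw [this, Function.iterate_add_apply, h1, Function.iterate_succ_apply, fwdDiff_const]
    clear this
    induction m with
    | zero => simp
    | succ m ih =>
      rw [Function.iterate_succ_apply, fwdDiff_const]
      exact ih (by omega)
  have h := shift_eq_sum_fwdDiff_iter 1 P k 0
  rw [zero_add, smul_eq_mul, mul_one] at h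
  rw [h]
  rcases le_total k n with hk | hk
  · rw [eq_comm]
    rw [← Finset.sum_subset (Finset.range_mono (by omega : k + 1 ≤ n + 1))]
    · refine Finset.sum_congr rfl fun j _ => ?_
      rw [nsmul_eq_mul]
    · intro j _ hj
      rw [Nat.choose_eq_zero_of_lt (by simpa using hj)]; simp
  · rw [← Finset.sum_subset (Finset.range_mono (by omega : n + 1 ≤ k + 1))]
    · refine Finset.sum_congr rfl fun j _ => ?_
      rw [nsmul_eq_mul]
    · intro j _ hj
      rw [hn1 j (by simpa using hj)]; simp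

lemma fwdDiff_top (P : ℕ → ℝ) (r : ℝ)
    (hdiff : ∀ k, n ≤ k → ∑ i ∈ Finset.range (n + 1), (-1 : ℝ) ^ i * (n.choose i) * P (k - i) = r) :
    (fwdDiff 1)^[n] P 0 = r := by
  rw [fwdDiff_iter_eq_sum_shift, ← hdiff n le_rfl, ← Finset.sum_range_reflect]
  refine Finset.sum_congr rfl fun i hi => ?_
  rw [Finset.mem_range] at hi
  have h1 : n + 1 - 1 - i = n - i := by omega
  rw [h1]
  have h2 : n - (n - i) = i := by omega
  rw [h2, Nat.choose_symm (by omega : i ≤ n)]
  have h3 : 0 + (n - i) • 1 = n - i := by simp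
  rw [h3, zsmul_eq_mul]
  push_cast; ring

lemma tendsto_P (P : ℕ → ℝ) (r : ℝ)
    (hdiff : ∀ k, n ≤ k → ∑ i ∈ Finset.range (n + 1), (-1 : ℝ) ^ i * (n.choose i) * P (k - i) = r)
    (k : ℕ → ℕ) (q : ℕ → ℝ) (a : ℝ) (hq : Tendsto q atTop atTop)
    (hk : Tendsto (fun e => (k e : ℝ) / q e) atTop (𝓝 a)) :
    Tendsto (fun e => P (k e) / q e ^ n) atTop (𝓝 (r * a ^ n / n.factorial)) := by
  have h1 : ∀ j ∈ Finset.range (n + 1), Tendsto
      (fun e => ((k e).choose j : ℝ) / q e ^ n * ((fwdDiff 1)^[j] P 0)) atTop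
      (𝓝 (if j = n then r * a ^ n / n.factorial else 0)) := by
    intro j hj
    rw [Finset.mem_range] at hj
    split_ifs with h
    · subst h
      rw [fwdDiff_top P r hdiff]
      have := (tendsto_choose j k q a hq hk).mul_const r
      convert this using 2
      ring
    · have h2 := tendsto_choose j k q a hq hk
      have h3 : Tendsto (fun e => (1 : ℝ) / q e ^ (n - j)) atTop (𝓝 0) :=
        ((tendsto_pow_atTop (by omega)).comp hq).const_div_atTop _
      have h4 := (h2.mul h3).mul_const ((fwdDiff 1)^[j] P 0)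
      rw [mul_zero, zero_mul] at h4
      refine h4.congr' ?_
      filter_upwards [hq.eventually_gt_atTop 0] with e he
      have : q e ^ n = q e ^ j * q e ^ (n - j) := by rw [← pow_add]; congr 1; omega
      rw [this]
      field_simp
  have h2 := tendsto_finsetSum _ h1
  rw [Finset.sum_ite_eq' ] at h2
  simp only [Finset.mem_range, Nat.lt_succ_self, if_true] at h2
  refine h2.congr fun e => ?_
  rw [newton P r hdiff (k e), Finset.sum_div]
  refine Finset.sum_congr rfl fun j _ => ?_
  ring

end AF23
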