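import Pool.Agent.AF23.B7a

/-! Part B7: counting exponents -/

namespace AF23

open MvPolynomial Filter Topology

variable {n δ ℓ : ℕ}

/-- subtracting `M` from the coordinate `i` -/
noncomputable def subEquiv (n D M : ℕ) (i : Fin n) (h : M ≤ D) :
    {α : Mon n D // M ≤ α.1 i} ≃ Mon n (D - M) where
  toFun α := ⟨α.1.1 - Finsupp.single i M, by
    have h1 : Finsupp.single i M ≤ α.1.1 := Finsupp.single_le_iff.2 α.2
    have h2 := α.1.deg
    rw [← tsub_add_cancel_of_le h1, map_add, Finsupp.degree_single] at h2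
    rw [mem_Mon]; omega⟩
  invFun β := ⟨⟨β.1 + Finsupp.single i M, by
    rw [mem_Mon, map_add, Finsupp.degree_single, β.deg]; omega⟩, by
    simp⟩
  left_inv α := by
    have h1 : Finsupp.single i M ≤ α.1.1 := Finsupp.single_le_iff.2 α.2
    ext1; ext1
    exact tsub_add_cancel_of_le h1
  right_inv β := by
    ext1
    exact add_tsub_cancel_right _ _

lemma card_ge (D M : ℕ) (i : Fin n) (h : M ≤ D) :
    (Finset.univ.filter (fun α : Mon n D => M ≤ α.1 i)).card = Fintype.card (Mon n (D - M)) := by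
  rw [← Fintype.card_congr (subEquiv n D M i h), Fintype.card_subtype]

/-- union bound -/
lemma card_lt_ge (D M : ℕ) (h : M ≤ D) :
    (Fintype.card (Mon n D) : ℝ) - n * Fintype.card (Mon n (D - M)) ≤
      (Finset.univ.filter (fun α : Mon n D => ∀ i, α.1 i < M)).card := by
  classical
  have h1 : (Finset.univ : Finset (Mon n D)) ⊆ (Finset.univ.filter (fun α : Mon n D => ∀ i, α.1 i < M)) ∪
      Finset.univ.biUnion (fun i : Fin n => Finset.univ.filter (fun α : Mon n D => M ≤ α.1 i)) := by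
    intro α _
    by_cases hα : ∀ i, α.1 i < M
    · simp [hα]
    · push Not at hα
      obtain ⟨i, hi⟩ := hα
      simp only [Finset.mem_union, Finset.mem_biUnion, Finset.mem_univ, Finset.mem_filter, true_and]
      exact Or.inr ⟨i, hi⟩
  have h2 := (Finset.card_le_card h1).trans (Finset.card_union_le _ _)
  have h3 := Finset.card_biUnion_le (s := (Finset.univ : Finset (Fin n)))
    (t := fun i : Fin n => Finset.univ.filter (fun α : Mon n D => M ≤ α.1 i))
  simp only [card_ge D M _ h, Finset.sum_const, Finset.card_univ, Fintype.card_fin, smul_eq_mul] at h3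
  have h4 : Fintype.card (Mon n D) ≤ (Finset.univ.filter (fun α : Mon n D => ∀ i, α.1 i < M)).card +
      n * Fintype.card (Mon n (D - M)) := by
    rw [← Finset.card_univ]; exact h2.trans (Nat.add_le_add_left h3 _)
  have h5 : (Fintype.card (Mon n D) : ℝ) ≤ (Finset.univ.filter (fun α : Mon n D => ∀ i, α.1 i < M)).card +
      n * Fintype.card (Mon n (D - M)) := by exact_mod_cast h4
  linarith

/-- exact count when at most one coordinate can be large -/
lemma card_lt_eq (D M : ℕ) (h : M ≤ D) (h2 : D < 2 * M) :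
    ((Finset.univ.filter (fun α : Mon n D => ∀ i, α.1 i < M)).card : ℝ) =
    (Fintype.card (Mon n D) : ℝ) - n * Fintype.card (Mon n (D - M)) := by
  classical
  have h1 : (Finset.univ : Finset (Mon n D)) = (Finset.univ.filter (fun α : Mon n D => ∀ i, α.1 i < M)) ∪
      Finset.univ.biUnion (fun i : Fin n => Finset.univ.filter (fun α : Mon n D => M ≤ α.1 i)) := by
    ext α
    simp only [Finset.mem_univ, Finset.mem_union, Finset.mem_filter, true_and, Finset.mem_biUnion,
      true_iff]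
    by_cases hα : ∀ i, α.1 i < M
    · exact Or.inl hα
    · push Not at hα; exact Or.inr hα
  have hd : Disjoint (Finset.univ.filter (fun α : Mon n D => ∀ i, α.1 i < M))
      (Finset.univ.biUnion (fun i : Fin n => Finset.univ.filter (fun α : Mon n D => M ≤ α.1 i))) := by
    rw [Finset.disjoint_left]
    intro α hα hβ
    simp only [Finset.mem_filter, Finset.mem_univ, true_and, Finset.mem_biUnion] at hα hβ
    obtain ⟨i, hi⟩ := hβ
    exact absurd (hα i) (by omega)
  have h3 := Finset.card_biUnion (s := (Finset.univ : Finset (Fin n)))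
    (t := fun i : Fin n => Finset.univ.filter (fun α : Mon n D => M ≤ α.1 i)) (by
      intro i _ j _ hij
      simp only [Function.onFun]
      rw [Finset.disjoint_left]
      intro α hα hβ
      simp only [Finset.mem_filter, Finset.mem_univ, true_and] at hα hβ
      have h5 : α.1 i + α.1 j ≤ D := by
        have h6 := α.deg
        rw [Finsupp.degree_eq_sum] at h6
        have h7 : ∑ x ∈ ({i, j} : Finset (Fin n)), α.1 x ≤ ∑ x, α.1 x :=
          Finset.sum_le_sum_of_subset (Finset.subset_univ _)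
        rw [Finset.sum_pair hij] at h7
        omega
      omega)
  simp only [card_ge D M _ h, Finset.sum_const, Finset.card_univ, Fintype.card_fin, smul_eq_mul] at h3
  have h4 : Fintype.card (Mon n D) = (Finset.univ.filter (fun α : Mon n D => ∀ i, α.1 i < M)).card +
      n * Fintype.card (Mon n (D - M)) := by
    rw [← h3, ← Finset.card_union_of_disjoint hd, ← h1, Finset.card_univ]
  rw [h4]; push_cast; ring

/-- the reflection `α_i ↦ A - α_i` preserves `Mon` -/
lemma refl_mem {A k K : ℕ} (hk : k + K = n * A) (α : Mon n K) (h : ∀ i, α.1 i ≤ A) :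
    (Finsupp.equivFunOnFinite.symm fun i => A - α.1 i : Fin n →₀ ℕ) ∈
      Finset.finsuppAntidiag (Finset.univ : Finset (Fin n)) k := by
  rw [mem_Mon, Finsupp.degree_eq_sum]
  have h1 : ∑ i, (A - α.1 i) + ∑ i, α.1 i = n * A := by
    rw [← Finset.sum_add_distrib]
    rw [Finset.sum_congr rfl (g := fun _ => A)]
    · simp
    · intro i _; have := h i; omega
  have h2 := α.deg
  rw [Finsupp.degree_eq_sum] at h2
  simp only [Finsupp.equivFunOnFinite_symm_apply_apply]
  omega

/-- the reflection `β_i = A - β'_i` : lower bound for the number of `β` with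
`n ≤ β_i ≤ q - n`. -/
lemma card_Om (q k K : ℕ) (hq : 2 * n ≤ q) (hk : k + K = n * (q - n)) (hK : q - 2 * n + 1 ≤ K) :
    (Fintype.card (Mon n K) : ℝ) - n * Fintype.card (Mon n (K - (q - 2 * n + 1))) ≤
    (Finset.univ.filter (fun β : Mon n k => ∀ i, n ≤ β.1 i ∧ β.1 i + n ≤ q)).card := by
  refine (card_lt_ge K (q - 2 * n + 1) hK).trans ?_
  norm_cast
  refine le_of_eq ?_
  refine Finset.card_bij'
    (fun α hα => ⟨Finsupp.equivFunOnFinite.symm fun i => q - n - α.1 i,
      refl_mem hk α fun i => ?_⟩)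
    (fun β hβ => ⟨Finsupp.equivFunOnFinite.symm fun i => q - n - β.1 i,
      refl_mem (by omega) β fun i => ?_⟩) ?_ ?_ ?_ ?_
  · simp only [Finset.mem_filter, Finset.mem_univ, true_and] at hα
    have := hα i; omega
  · simp only [Finset.mem_filter, Finset.mem_univ, true_and] at hβ
    have := hβ i; omega
  · intro α hα
    simp only [Finset.mem_filter, Finset.mem_univ, true_and] at hα ⊢
    intro i
    have := hα i
    simp only [Finsupp.equivFunOnFinite_symm_apply_apply]
    omega
  · intro α hα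
    simp only [Finset.mem_filter, Finset.mem_univ, true_and] at hα ⊢
    intro i
    have := hα i
    simp only [Finsupp.equivFunOnFinite_symm_apply_apply]
    omega
  · intro α hα
    simp only [Finset.mem_filter, Finset.mem_univ, true_and] at hα
    ext i
    have := hα i
    simp only [Finsupp.equivFunOnFinite_symm_apply_apply]
    omega
  · intro α hα
    simp only [Finset.mem_filter, Finset.mem_univ, true_and] at hα
    ext i
    have := hα i
    simp only [Finsupp.equivFunOnFinite_symm_apply_apply]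
    omega

/-! ### rotations -/

lemma rot_mem [NeZero n] {k : ℕ} (i : Fin n) (β : Mon n k) :
    BCtx.rot i β.1 ∈ Finset.finsuppAntidiag (Finset.univ : Finset (Fin n)) k := by
  rw [mem_Mon, Finsupp.degree_eq_sum]
  have h2 := β.deg
  rw [Finsupp.degree_eq_sum] at h2
  exact (Equiv.sum_comp (Equiv.addRight i) (fun j => β.1 j)).trans h2

/-- rotation as a permutation -/
noncomputable def rotM [NeZero n] (k : ℕ) (i : Fin n) : Mon n k ≃ Mon n k where
  toFun β := ⟨BCtx.rot i β.1, rot_mem i β⟩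
  invFun β := ⟨BCtx.rot (-i) β.1, rot_mem (-i) β⟩
  left_inv β := by ext j; simp [BCtx.rot]
  right_inv β := by ext j; simp [BCtx.rot]

lemma rotM_apply [NeZero n] (k : ℕ) (i : Fin n) (β : Mon n k) (j : Fin n) :
    (rotM k i β).1 j = β.1 (j + i) := by simp [rotM, BCtx.rot]

/-- averaging over rotations -/
lemma sum_rot_le [NeZero n] (k : ℕ) (L : Mon n k → ℝ) (b : ℝ) (A : Finset (Mon n k))
    (hA : ∀ i β, β ∈ A ↔ rotM k i β ∈ A)
    (hL : ∀ β ∈ A, ∑ i, L (rotM k i β) ≤ b) :
    (n : ℝ) * ∑ β ∈ A, L β ≤ A.card * b := by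
  have h1 : ∀ i : Fin n, ∑ β ∈ A, L (rotM k i β) = ∑ β ∈ A, L β := by
    intro i
    exact Finset.sum_equiv (rotM k i) (hA i) (fun _ _ => rfl)
  calc (n : ℝ) * ∑ β ∈ A, L β = ∑ i : Fin n, ∑ β ∈ A, L (rotM k i β) := by simp [h1]
    _ = ∑ β ∈ A, ∑ i : Fin n, L (rotM k i β) := Finset.sum_comm
    _ ≤ ∑ β ∈ A, b := Finset.sum_le_sum hL
    _ = A.card * b := by simp

/-- number of exponents with a small coordinate -/
lemma card_small (k : ℕ) (h : n ≤ k) :
    ((Finset.univ.filter (fun β : Mon n k => ¬ ∀ i, n ≤ β.1 i)).card : ℝ) ≤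
      n * ((Fintype.card (Mon n k) : ℝ) - Fintype.card (Mon n (k - n))) := by
  classical
  have h1 : (Finset.univ.filter (fun β : Mon n k => ¬ ∀ i, n ≤ β.1 i)) ⊆
      Finset.univ.biUnion (fun i : Fin n => Finset.univ.filter (fun β : Mon n k => ¬ n ≤ β.1 i)) := by
    intro β hβ
    simp only [Finset.mem_filter, Finset.mem_univ, true_and, not_forall] at hβ
    obtain ⟨i, hi⟩ := hβ
    simp only [Finset.mem_biUnion, Finset.mem_univ, Finset.mem_filter, true_and]
    exact ⟨i, hi⟩
  have h2 := (Finset.card_le_card h1).trans Finset.card_biUnion_le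
  have h3 : ∀ i : Fin n, ((Finset.univ.filter (fun β : Mon n k => ¬ n ≤ β.1 i)).card : ℝ) =
      (Fintype.card (Mon n k) : ℝ) - Fintype.card (Mon n (k - n)) := by
    intro i
    rw [← card_ge k n i h, eq_sub_iff_add_eq, add_comm]
    norm_cast
    rw [Finset.card_filter_add_card_filter_not, Finset.card_univ]
  calc ((Finset.univ.filter (fun β : Mon n k => ¬ ∀ i, n ≤ β.1 i)).card : ℝ) ≤
      ((∑ i : Fin n, (Finset.univ.filter (fun β : Mon n k => ¬ n ≤ β.1 i)).card : ℕ) : ℝ) := by
        exact_mod_cast h2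
    _ = _ := by push_cast; rw [Finset.sum_congr rfl (fun i _ => h3 i)]; simp; ring

/-- lower bound for the sum over `Ω` -/
lemma sum_Om_ge (hn : 1 ≤ n) (q k : ℕ) (h : n ≤ k) (L : Mon n k → ℝ) (a b p : ℝ) (hb0 : 0 ≤ b)
    (ha : ∀ β, L β ≤ a) (ha0 : 0 ≤ a)
    (hP : ∑ β, L β = p)
    (hcyc : ∀ β : Mon n k, (∀ i, n ≤ β.1 i) → ∀ γ : Fin n → Mon n k,
      (∀ i, (γ i).1 = BCtx.rot i β.1) → ∑ i, L (γ i) ≤ b) :
    p - ((Fintype.card (Mon n k) : ℝ) -
      (Finset.univ.filter (fun β : Mon n k => ∀ i, n ≤ β.1 i ∧ β.1 i + n ≤ q)).card) * b / n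
      - n * ((Fintype.card (Mon n k) : ℝ) - Fintype.card (Mon n (k - n))) * a ≤
    ∑ β ∈ Finset.univ.filter (fun β : Mon n k => ∀ i, n ≤ β.1 i ∧ β.1 i + n ≤ q), L β := by
  classical
  have : NeZero n := ⟨by omega⟩
  set Om := Finset.univ.filter (fun β : Mon n k => ∀ i, n ≤ β.1 i ∧ β.1 i + n ≤ q) with hOm
  set A := Finset.univ.filter (fun β : Mon n k => (∀ i, n ≤ β.1 i) ∧ ¬ ∀ i, β.1 i + n ≤ q) with hA
  set B := Finset.univ.filter (fun β : Mon n k => ¬ ∀ i, n ≤ β.1 i) with hB
  have hsum : ∑ β, L β = ∑ β ∈ Om, L β + ∑ β ∈ A, L β + ∑ β ∈ B, L β := by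
    rw [hOm, hA, hB, Finset.sum_filter, Finset.sum_filter, Finset.sum_filter,
      ← Finset.sum_add_distrib, ← Finset.sum_add_distrib]
    refine Finset.sum_congr rfl fun β _ => ?_
    by_cases h1 : ∀ i, n ≤ β.1 i
    · by_cases h2 : ∀ i, β.1 i + n ≤ q
      · simp [h1, h2]
      · have h3 : ¬ ∀ i, n ≤ β.1 i ∧ β.1 i + n ≤ q := fun hh => h2 fun i => (hh i).2
        rw [if_neg h3, if_pos ⟨h1, h2⟩, if_neg (not_not.2 h1)]; ring
    · have h3 : ¬ ∀ i, n ≤ β.1 i ∧ β.1 i + n ≤ q := fun hh => h1 fun i => (hh i).1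
      simp only [h3, if_false, h1]
      simp
  have hcard : (Fintype.card (Mon n k) : ℝ) = Om.card + A.card + B.card := by
    have : ∑ β : Mon n k, (1 : ℝ) = ∑ β ∈ Om, (1 : ℝ) + ∑ β ∈ A, (1 : ℝ) + ∑ β ∈ B, (1 : ℝ) := by
      rw [hOm, hA, hB, Finset.sum_filter, Finset.sum_filter, Finset.sum_filter,
        ← Finset.sum_add_distrib, ← Finset.sum_add_distrib]
      refine Finset.sum_congr rfl fun β _ => ?_
      by_cases h1 : ∀ i, n ≤ β.1 i
      · by_cases h2 : ∀ i, β.1 i + n ≤ q
        · simp [h1, h2]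
        · have h3 : ¬ ∀ i, n ≤ β.1 i ∧ β.1 i + n ≤ q := fun hh => h2 fun i => (hh i).2
          rw [if_neg h3, if_pos ⟨h1, h2⟩, if_neg (not_not.2 h1)]; ring
      · have h3 : ¬ ∀ i, n ≤ β.1 i ∧ β.1 i + n ≤ q := fun hh => h1 fun i => (hh i).1
        simp only [h3, if_false, h1]
        simp
    simpa using this
  have hAsum : (n : ℝ) * ∑ β ∈ A, L β ≤ A.card * b := by
    refine sum_rot_le k L b A (fun i β => ?_) (fun β hβ => ?_)
    · simp only [hA, Finset.mem_filter, Finset.mem_univ, true_and, rotM_apply]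
      have e1 : ∀ Q : ℕ → Prop, (∀ j, Q (β.1 (j + i))) ↔ ∀ j, Q (β.1 j) := fun Q =>
        (Equiv.addRight i).forall_congr_left.trans (by simp) |>.symm.symm
      rw [e1 (fun x => n ≤ x), e1 (fun x => x + n ≤ q)]
    · simp only [hA, Finset.mem_filter, Finset.mem_univ, true_and] at hβ
      exact hcyc β hβ.1 (fun i => rotM k i β) (fun i => rfl)
  have hBsum : ∑ β ∈ B, L β ≤ B.card * a := by
    calc ∑ β ∈ B, L β ≤ ∑ β ∈ B, a := Finset.sum_le_sum fun β _ => ha β
      _ = B.card * a := by simp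
  have hBc := card_small (n := n) k h
  rw [← hB] at hBc
  have hn0 : (0 : ℝ) < n := by exact_mod_cast hn
  have h5 : ∑ β ∈ A, L β ≤ ((Fintype.card (Mon n k) : ℝ) - Om.card) * b / n := by
    rw [le_div_iff₀ hn0, mul_comm]
    refine hAsum.trans (mul_le_mul_of_nonneg_right ?_ hb0)
    rw [hcard]
    have : (0 : ℝ) ≤ B.card := by positivity
    linarith
  have h6 : ∑ β ∈ B, L β ≤ n * ((Fintype.card (Mon n k) : ℝ) - Fintype.card (Mon n (k - n))) * a :=
    hBsum.trans (mul_le_mul_of_nonneg_right hBc ha0)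
  rw [← hP, hsum]
  linarith

end AF23
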