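import Pool.Agent.AF23.Basic

/-! Part B: definitions -/

namespace AF23

open MvPolynomial

variable {n δ : ℕ}

/-- remainders `ν ∈ [0,δ)^n` with `δ ∣ |ν|` -/
abbrev Z0 (n δ : ℕ) : Type := {ν : Fin n → Fin δ // δ ∣ ∑ i, (ν i : ℕ)}

/-- as an exponent -/
noncomputable def Z0.e (ν : Z0 n δ) : Fin n →₀ ℕ :=
  Finsupp.equivFunOnFinite.symm fun i => ((ν.1 i : Fin δ) : ℕ)

/-- the level of an exponent: quotient by `δ`, ignoring the coordinate `i0` -/
noncomputable def key (δ : ℕ) (i0 : Fin n) (α : Fin n →₀ ℕ) : Lex (Fin n →₀ ℕ) :=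
  toLex ((divF δ α).erase i0)

/-- the level `(k,…,k)` -/
noncomputable def ctr (i0 : Fin n) (k : ℕ) : Lex (Fin n →₀ ℕ) :=
  toLex ((Finsupp.equivFunOnFinite.symm fun _ : Fin n => k).erase i0)

/-- polynomial with coefficients in the unit ball -/
def IntP {K : Type*} [Field K] (v : AbsoluteValue K ℝ) (h : MvPolynomial (Fin n) K) : Prop :=
  ∀ e, v (coeff e h) ≤ 1

/-- the data of part B -/
structure BCtx (n δ ℓ : ℕ) (K : Type*) [Field K] where
  hn : 2 ≤ n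
  hδ : 2 ≤ δ
  hℓ : ℓ.Prime
  v : AbsoluteValue K ℝ
  na : IsNonarchimedean v
  g : Fin n → MvPolynomial (Fin n) K
  m : (Fin n →₀ ℕ) → (Fin n →₀ ℕ)
  G : Good δ g (fun ν => monomial (m ν) 1)
  gint : ∀ i, IntP v (g i)
  i0 : Fin n
  /-- points of an unramified fibre -/
  x : Z0 n δ → Fin n → K
  hx : ∀ m i, eval (x m) (g i) = if i = i0 then 1 else 0
  hV : Matrix.det (Matrix.of fun (ν μ : Z0 n δ) => eval (x μ) (monomial (m ν.e) (1 : K))) ≠ 0
  t : ℝ
  t0 : 0 < t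
  t1 : t < 1
  Cσ : ℝ
  Cσ0 : 1 ≤ Cσ
  /-- the Frobenius bound -/
  frob : ∀ (e : ℕ) (h : MvPolynomial (Fin n) K), h.IsHomogeneous (n * (ℓ ^ e * δ - 1)) →
    IntP v h → v (G.co h (top n (ℓ ^ e * δ))) ≤ Cσ * (t⁻¹) ^ (ℓ ^ e)
  /-- duality -/
  dual : ∀ j ≤ n * (δ - 1), ∀ c : MvPolynomial (Fin n) K, c.IsHomogeneous j →
    (∀ u : MvPolynomial (Fin n) K, u.IsHomogeneous (n * (δ - 1) - j) →
      G.co (c * u) (top n δ) = 0) → c ∈ Ideal.span (Set.range g)

namespace BCtx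

variable {ℓ : ℕ} {K : Type*} [Field K] (B : BCtx n δ ℓ K)

/-- the good family -/
noncomputable abbrev b : (Fin n →₀ ℕ) → MvPolynomial (Fin n) K := fun ν => monomial (B.m ν) 1

/-- filtration by levels -/
def Fil (κ : Lex (Fin n →₀ ℕ)) (h : MvPolynomial (Fin n) K) : Prop :=
  ∀ α, B.G.co h α ≠ 0 → κ ≤ key δ B.i0 α

/-- leading coefficient at level `κ`, evaluated at the point `y` -/
noncomputable def LC (κ : Lex (Fin n →₀ ℕ)) (y : Fin n → K) :
    MvPolynomial (Fin n) K →ₗ[K] K :=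
  B.G.basis.constr K fun α => if key δ B.i0 α = κ then eval y (B.b (modF δ α)) else 0

/-- triangular integral families in degree `k δ` -/
structure Tri (k : ℕ) where
  h : Mon n (k * δ) → MvPolynomial (Fin n) K
  hom : ∀ α, (h α).IsHomogeneous (k * δ)
  int : ∀ α, IntP B.v (h α)
  tri : ∀ α α' : Mon n (k * δ), key δ B.i0 α'.1 < key δ B.i0 α.1 → B.G.co (h α) α'.1 = 0
  det : B.v (Matrix.det (Matrix.of fun α α' : Mon n (k * δ) => B.G.co (h α) α'.1)) =
    (B.v (T δ B.g B.b (k * δ)))⁻¹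

/-- the block determinant of a triangular family at the level of `β` -/
noncomputable def Tri.lv {B : BCtx n δ ℓ K} {k : ℕ} (Λ : B.Tri k) (β : Mon n k) : ℝ :=
  B.v (Matrix.det (Matrix.of fun α α' :
    {α : Mon n (k * δ) // key δ B.i0 α.1 = toLex (β.1.erase B.i0)} => B.G.co (Λ.h α.1) α'.1.1))

/-- rotation of exponents -/
noncomputable def rot (i : Fin n) (β : Fin n →₀ ℕ) : Fin n →₀ ℕ :=
  Finsupp.equivFunOnFinite.symm fun j => β (j + i)

end BCtx

end AF23
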