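import Pool.Agent.AF23.BDefs

/-! Part B: filtration by levels, leading coefficients -/

namespace AF23

open MvPolynomial

variable {n δ : ℕ}

lemma key_add {i0 : Fin n} (hδ : 0 < δ) (α β : Fin n →₀ ℕ) :
    key δ i0 (α + δ • β) = key δ i0 α + toLex (β.erase i0) := by
  simp only [key, divF_add_smul hδ, Finsupp.erase_add, toLex_add]

lemma key_of_lt {i0 : Fin n} {ν : Fin n →₀ ℕ} (h : ∀ i, ν i < δ) : key δ i0 ν = 0 := by
  simp [key, divF_eq_zero h]

lemma zero_le_lex (κ : Lex (Fin n →₀ ℕ)) : (0 : Lex (Fin n →₀ ℕ)) ≤ κ := by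
  have h : (0 : Fin n →₀ ℕ) ≤ ofLex κ := zero_le
  exact Finsupp.toLex_monotone h

namespace BCtx

variable {ℓ : ℕ} {K : Type*} [Field K] (B : BCtx n δ ℓ K)

lemma δpos (B : BCtx n δ ℓ K) : 0 < δ := lt_of_lt_of_le (by norm_num) B.hδ

lemma Fil_zero (h : MvPolynomial (Fin n) K) : B.Fil 0 h := fun _ _ => zero_le_lex _

lemma Fil_mono {κ κ' : Lex (Fin n →₀ ℕ)} (hle : κ ≤ κ') {h : MvPolynomial (Fin n) K}
    (hh : B.Fil κ' h) : B.Fil κ h := fun α hα => hle.trans (hh α hα)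

lemma Fil_add {κ : Lex (Fin n →₀ ℕ)} {h h' : MvPolynomial (Fin n) K}
    (hh : B.Fil κ h) (hh' : B.Fil κ h') : B.Fil κ (h + h') := by
  intro α hα
  rw [B.G.co_add] at hα
  by_cases h1 : B.G.co h α = 0
  · by_cases h2 : B.G.co h' α = 0
    · simp [h1, h2] at hα
    · exact hh' α h2
  · exact hh α h1

lemma Fil_smul {κ : Lex (Fin n →₀ ℕ)} (c : K) {h : MvPolynomial (Fin n) K}
    (hh : B.Fil κ h) : B.Fil κ (c • h) := by
  intro α hα
  rw [B.G.co_smul] at hα
  exact hh α (right_ne_zero_of_mul hα)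

lemma Fil_of_zero {κ : Lex (Fin n →₀ ℕ)} : B.Fil κ 0 := by
  intro α hα; exact absurd (B.G.co_zero α) hα

lemma Fil_sum {ι : Type*} {κ : Lex (Fin n →₀ ℕ)} (s : Finset ι)
    (h : ι → MvPolynomial (Fin n) K) (hh : ∀ i ∈ s, B.Fil κ (h i)) :
    B.Fil κ (∑ i ∈ s, h i) := by
  classical
  induction s using Finset.induction_on with
  | empty => simpa using B.Fil_of_zero
  | insert a s ha ih =>
    rw [Finset.sum_insert ha]
    exact B.Fil_add (hh a (Finset.mem_insert_self _ _))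
      (ih fun i hi => hh i (Finset.mem_insert_of_mem hi))

lemma Fil_Ev (α : Fin n →₀ ℕ) : B.Fil (key δ B.i0 α) (Ev δ B.g B.b α) := by
  intro γ hγ
  rw [B.G.co_Ev] at hγ
  split_ifs at hγ with h
  · rw [h]
  · exact absurd rfl hγ

lemma Fil_prod_mul {κ : Lex (Fin n →₀ ℕ)} (β : Fin n →₀ ℕ) {h : MvPolynomial (Fin n) K}
    (hh : B.Fil κ h) : B.Fil (κ + toLex (β.erase B.i0)) ((∏ i, B.g i ^ β i) * h) := by
  intro α hα
  rw [B.G.co_prod_mul B.δpos] at hα
  split_ifs at hα with hle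
  · have h1 : α = (α - δ • β) + δ • β := (tsub_add_cancel_of_le hle).symm
    have h2 := hh _ hα
    rw [h1, key_add B.δpos]
    exact add_le_add_left h2 _
  · exact absurd rfl hα

lemma Ev_mul_Ev (α α' : Fin n →₀ ℕ) :
    Ev δ B.g B.b α * Ev δ B.g B.b α' =
      (∏ i, B.g i ^ (divF δ α + divF δ α') i) * (B.b (modF δ α) * B.b (modF δ α')) := by
  simp only [Ev, Finsupp.add_apply, pow_add, Finset.prod_mul_distrib]
  ring

lemma Fil_Ev_mul (α α' : Fin n →₀ ℕ) :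
    B.Fil (key δ B.i0 α + key δ B.i0 α') (Ev δ B.g B.b α * Ev δ B.g B.b α') := by
  rw [B.Ev_mul_Ev]
  have := B.Fil_prod_mul (divF δ α + divF δ α')
    (B.Fil_zero (B.b (modF δ α) * B.b (modF δ α')))
  rw [zero_add, Finsupp.erase_add, toLex_add] at this
  exact this

lemma Fil_mul {κ κ' : Lex (Fin n →₀ ℕ)} {h h' : MvPolynomial (Fin n) K}
    (hh : B.Fil κ h) (hh' : B.Fil κ' h') : B.Fil (κ + κ') (h * h') := by
  rw [B.G.sum_co h, B.G.sum_co h', Finset.sum_mul_sum]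
  refine B.Fil_sum _ _ fun α hα => B.Fil_sum _ _ fun α' hα' => ?_
  rw [smul_mul_smul_comm]
  apply B.Fil_smul
  refine B.Fil_mono (add_le_add ?_ ?_) (B.Fil_Ev_mul α α')
  · exact hh α (Finsupp.mem_support_iff.1 hα)
  · exact hh' α' (Finsupp.mem_support_iff.1 hα')

lemma Fil_pow {κ : Lex (Fin n →₀ ℕ)} {h : MvPolynomial (Fin n) K}
    (hh : B.Fil κ h) (a : ℕ) : B.Fil (a • κ) (h ^ a) := by
  induction a with
  | zero => simpa using B.Fil_zero _
  | succ a ih => rw [succ_nsmul, pow_succ]; exact B.Fil_mul ih hh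

/-! leading coefficients -/

lemma LC_Ev (κ : Lex (Fin n →₀ ℕ)) (y : Fin n → K) (α : Fin n →₀ ℕ) :
    B.LC κ y (Ev δ B.g B.b α) =
      if key δ B.i0 α = κ then eval y (B.b (modF δ α)) else 0 := by
  rw [LC, ← B.G.basis_apply, Module.Basis.constr_basis]

lemma LC_eq_sum (κ : Lex (Fin n →₀ ℕ)) (y : Fin n → K) (h : MvPolynomial (Fin n) K) :
    B.LC κ y h = ∑ α ∈ (B.G.basis.repr h).support,
      B.G.co h α * (if key δ B.i0 α = κ then eval y (B.b (modF δ α)) else 0) := by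
  conv_lhs => rw [B.G.sum_co h]
  rw [map_sum]
  refine Finset.sum_congr rfl fun α _ => ?_
  rw [map_smul, LC_Ev, smul_eq_mul]

lemma LC_of_lt {κ κ' : Lex (Fin n →₀ ℕ)} (hlt : κ < κ') (y : Fin n → K)
    {h : MvPolynomial (Fin n) K} (hh : B.Fil κ' h) : B.LC κ y h = 0 := by
  rw [LC_eq_sum]
  refine Finset.sum_eq_zero fun α hα => ?_
  rw [if_neg, mul_zero]
  intro h1
  have := hh α (Finsupp.mem_support_iff.1 hα)
  rw [h1] at this
  exact absurd hlt (not_lt.2 this)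

lemma LC_prod_mul (κ : Lex (Fin n →₀ ℕ)) (β : Fin n →₀ ℕ) (y : Fin n → K)
    (h : MvPolynomial (Fin n) K) :
    B.LC (κ + toLex (β.erase B.i0)) y ((∏ i, B.g i ^ β i) * h) = B.LC κ y h := by
  conv_lhs => rw [B.G.sum_co h]
  rw [B.LC_eq_sum κ y h, Finset.mul_sum, map_sum]
  refine Finset.sum_congr rfl fun α _ => ?_
  rw [mul_smul_comm, map_smul, ← Ev_add B.δpos, LC_Ev, key_add B.δpos, modF_add_smul, smul_eq_mul]
  congr 1
  simp only [add_left_inj]

/-- at level zero the leading coefficient is the value -/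
lemma LC_zero (p : Z0 n δ) (h : MvPolynomial (Fin n) K) :
    B.LC 0 (B.x p) h = eval (B.x p) h := by
  conv_rhs => rw [B.G.sum_co h]
  rw [LC_eq_sum, map_sum]
  refine Finset.sum_congr rfl fun α _ => ?_
  rw [smul_eval]
  congr 1
  rw [Ev, eval_mul, eval_prod]
  simp only [eval_pow, B.hx]
  split_ifs with hk
  · have h0 : ∀ i, i ≠ B.i0 → divF δ α i = 0 := by
      intro i hi
      have : ((divF δ α).erase B.i0) i = 0 := by
        have h2 : (divF δ α).erase B.i0 = 0 := hk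
        rw [h2]; rfl
      rwa [Finsupp.erase_ne hi] at this
    rw [Finset.prod_eq_one, mul_one]
    intro i _
    by_cases hi : i = B.i0
    · simp [hi]
    · simp [hi, h0 i hi]
  · have : ∃ i, i ≠ B.i0 ∧ divF δ α i ≠ 0 := by
      by_contra hcon
      push Not at hcon
      apply hk
      have : (divF δ α).erase B.i0 = 0 := by
        ext i
        by_cases hi : i = B.i0
        · simp [hi]
        · rw [Finsupp.erase_ne hi]; exact hcon i hi
      rw [key, this]; rfl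
    obtain ⟨i, hi, hi2⟩ := this
    rw [Finset.prod_eq_zero (Finset.mem_univ i), mul_zero]
    rw [if_neg hi, zero_pow hi2]

lemma LC_mul {κ κ' : Lex (Fin n →₀ ℕ)} {h h' : MvPolynomial (Fin n) K} (p : Z0 n δ)
    (hh : B.Fil κ h) (hh' : B.Fil κ' h') :
    B.LC (κ + κ') (B.x p) (h * h') = B.LC κ (B.x p) h * B.LC κ' (B.x p) h' := by
  conv_lhs => rw [B.G.sum_co h, B.G.sum_co h', Finset.sum_mul_sum]
  rw [B.LC_eq_sum κ _ h, B.LC_eq_sum κ' _ h', Finset.sum_mul_sum, map_sum]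
  refine Finset.sum_congr rfl fun α hα => ?_
  rw [map_sum]
  refine Finset.sum_congr rfl fun α' hα' => ?_
  rw [smul_mul_smul_comm, map_smul, smul_eq_mul]
  have h1 : κ ≤ key δ B.i0 α := hh α (Finsupp.mem_support_iff.1 hα)
  have h2 : κ' ≤ key δ B.i0 α' := hh' α' (Finsupp.mem_support_iff.1 hα')
  by_cases e1 : key δ B.i0 α = κ
  · by_cases e2 : key δ B.i0 α' = κ'
    · rw [if_pos e1, if_pos e2]
      have h3 : κ + κ' = 0 + toLex ((divF δ α + divF δ α').erase B.i0) := by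
        rw [zero_add, Finsupp.erase_add, toLex_add, ← e1, ← e2]; rfl
      rw [h3, B.Ev_mul_Ev, LC_prod_mul, LC_zero, eval_mul]
      ring
    · rw [if_neg e2, mul_zero, mul_zero]
      rw [B.LC_of_lt (add_lt_add_of_le_of_lt h1 (lt_of_le_of_ne h2 (Ne.symm e2))) _
        (B.Fil_Ev_mul α α'), mul_zero]
  · rw [if_neg e1, mul_zero, zero_mul]
    rw [B.LC_of_lt (add_lt_add_of_lt_of_le (lt_of_le_of_ne h1 (Ne.symm e1)) h2) _
      (B.Fil_Ev_mul α α'), mul_zero]

lemma LC_pow {κ : Lex (Fin n →₀ ℕ)} {h : MvPolynomial (Fin n) K} (p : Z0 n δ)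
    (hh : B.Fil κ h) (a : ℕ) :
    B.LC (a • κ) (B.x p) (h ^ a) = (B.LC κ (B.x p) h) ^ a := by
  induction a with
  | zero => simp [LC_zero]
  | succ a ih => rw [succ_nsmul, pow_succ, pow_succ, B.LC_mul p (B.Fil_pow hh a) hh, ih]

end BCtx

end AF23
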