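import Pool.Agent.AF23.BFil

/-! Part B: integrality lemmas, indexing of levels -/

namespace AF23

open MvPolynomial

variable {n δ : ℕ}

section integrality
variable {K : Type*} [Field K] {v : AbsoluteValue K ℝ}

lemma v_sum_le (hv : IsNonarchimedean v) {ι : Type*} (s : Finset ι) (f : ι → K) {c : ℝ}
    (hc : 0 ≤ c) (h : ∀ i ∈ s, v (f i) ≤ c) : v (∑ i ∈ s, f i) ≤ c := by
  classical
  induction s using Finset.induction_on with
  | empty => simpa using hc
  | insert a s ha ih =>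
    rw [Finset.sum_insert ha]
    refine (hv _ _).trans (max_le (h a (Finset.mem_insert_self _ _))
      (ih fun i hi => h i (Finset.mem_insert_of_mem hi)))

lemma IntP.mul (hv : IsNonarchimedean v) {h h' : MvPolynomial (Fin n) K}
    (H : IntP v h) (H' : IntP v h') : IntP v (h * h') := by
  classical
  intro e
  rw [coeff_mul]
  refine v_sum_le hv _ _ zero_le_one fun p _ => ?_
  rw [map_mul]
  exact mul_le_one₀ (H _) (v.nonneg _) (H' _)

lemma IntP.add (hv : IsNonarchimedean v) {h h' : MvPolynomial (Fin n) K}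
    (H : IntP v h) (H' : IntP v h') : IntP v (h + h') := by
  intro e
  rw [coeff_add]
  exact (hv _ _).trans (max_le (H _) (H' _))

lemma IntP_C {c : K} (hc : v c ≤ 1) : IntP v (MvPolynomial.C c : MvPolynomial (Fin n) K) := by
  classical
  intro e
  rw [coeff_C]
  split_ifs
  · exact hc
  · simp

lemma IntP_one : IntP v (1 : MvPolynomial (Fin n) K) := by
  have : IntP v (MvPolynomial.C 1 : MvPolynomial (Fin n) K) := IntP_C (by simp)
  simpa using this

lemma IntP_zero : IntP v (0 : MvPolynomial (Fin n) K) := by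
  intro e; simp

lemma IntP_monomial (e : Fin n →₀ ℕ) {c : K} (hc : v c ≤ 1) :
    IntP v (monomial e c : MvPolynomial (Fin n) K) := by
  classical
  intro e'
  rw [coeff_monomial]
  split_ifs
  · exact hc
  · simp

lemma IntP_X (i : Fin n) : IntP v (X i : MvPolynomial (Fin n) K) :=
  IntP_monomial _ (by simp)

lemma IntP.pow (hv : IsNonarchimedean v) {h : MvPolynomial (Fin n) K}
    (H : IntP v h) (a : ℕ) : IntP v (h ^ a) := by
  induction a with
  | zero => simpa using IntP_one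
  | succ a ih => rw [pow_succ]; exact ih.mul hv H

lemma IntP.prod (hv : IsNonarchimedean v) {ι : Type*} (s : Finset ι)
    {h : ι → MvPolynomial (Fin n) K} (H : ∀ i ∈ s, IntP v (h i)) : IntP v (∏ i ∈ s, h i) := by
  classical
  induction s using Finset.induction_on with
  | empty => simpa using IntP_one
  | insert a s ha ih =>
    rw [Finset.prod_insert ha]
    exact (H a (Finset.mem_insert_self _ _)).mul hv
      (ih fun i hi => H i (Finset.mem_insert_of_mem hi))

lemma IntP.sum (hv : IsNonarchimedean v) {ι : Type*} (s : Finset ι)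
    {h : ι → MvPolynomial (Fin n) K} (H : ∀ i ∈ s, IntP v (h i)) : IntP v (∑ i ∈ s, h i) := by
  classical
  induction s using Finset.induction_on with
  | empty => simpa using IntP_zero
  | insert a s ha ih =>
    rw [Finset.sum_insert ha]
    exact (H a (Finset.mem_insert_self _ _)).add hv
      (ih fun i hi => H i (Finset.mem_insert_of_mem hi))

lemma IntP.C_mul (hv : IsNonarchimedean v) {h : MvPolynomial (Fin n) K}
    (H : IntP v h) {c : K} (hc : v c ≤ 1) : IntP v (MvPolynomial.C c * h) :=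
  (IntP_C hc).mul hv H

lemma IntP.smul {h : MvPolynomial (Fin n) K}
    (H : IntP v h) {c : K} (hc : v c ≤ 1) : IntP v (c • h) := by
  intro e
  rw [coeff_smul, smul_eq_mul, map_mul]
  exact mul_le_one₀ hc (v.nonneg _) (H _)

/-- a determinant is bounded by one of its terms -/
lemma v_det_le_perm (hv : IsNonarchimedean v) {ι : Type*} [Fintype ι] [DecidableEq ι]
    (M : Matrix ι ι K) : ∃ σ : Equiv.Perm ι, v M.det ≤ ∏ i, v (M (σ i) i) := by
  classical
  obtain ⟨σ, _, hσ⟩ := Finset.exists_max_image (Finset.univ : Finset (Equiv.Perm ι))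
    (fun σ => ∏ i, v (M (σ i) i)) ⟨1, Finset.mem_univ _⟩
  refine ⟨σ, ?_⟩
  rw [Matrix.det_apply]
  refine v_sum_le hv _ _ (Finset.prod_nonneg fun i _ => v.nonneg _) fun τ _ => ?_
  have h1 : v (Equiv.Perm.sign τ • ∏ i, M (τ i) i) = ∏ i, v (M (τ i) i) := by
    rcases Int.units_eq_one_or (Equiv.Perm.sign τ) with h | h <;> rw [h] <;> simp [map_prod]
  rw [h1]
  exact hσ τ (Finset.mem_univ _)

lemma v_det_le (hv : IsNonarchimedean v) {ι : Type*} [Fintype ι] [DecidableEq ι]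
    (M : Matrix ι ι K) {c : ℝ} (hc : ∀ i j, v (M i j) ≤ c) :
    v M.det ≤ c ^ Fintype.card ι := by
  obtain ⟨σ, hσ⟩ := v_det_le_perm hv M
  refine hσ.trans ?_
  calc ∏ i, v (M (σ i) i) ≤ ∏ _i : ι, c :=
        Finset.prod_le_prod (fun i _ => v.nonneg _) fun i _ => hc _ _
    _ = c ^ Fintype.card ι := by simp

end integrality

/-! ### remainders with `δ ∣ |ν|` and levels -/

lemma Z0.e_apply (ν : Z0 n δ) (i : Fin n) : ν.e i = (ν.1 i : ℕ) := rfl

lemma Z0.e_lt (ν : Z0 n δ) (i : Fin n) : ν.e i < δ := (ν.1 i).2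

lemma Z0.degree (ν : Z0 n δ) : ν.e.degree = ∑ i, (ν.1 i : ℕ) := by
  rw [Finsupp.degree_eq_sum]; rfl

lemma Z0.dvd (ν : Z0 n δ) : δ ∣ ν.e.degree := by rw [ν.degree]; exact ν.2

/-- `|ν|/δ` -/
noncomputable def Z0.w (ν : Z0 n δ) : ℕ := ν.e.degree / δ

lemma Z0.δ_mul_w (ν : Z0 n δ) : δ * ν.w = ν.e.degree := Nat.mul_div_cancel' ν.dvd

lemma Z0.w_lt (hn : 0 < n) (ν : Z0 n δ) : ν.w < n := by
  have hδ : 0 < δ := lt_of_le_of_lt (Nat.zero_le _) (ν.e_lt ⟨0, hn⟩)
  have h1 : ν.e.degree < n * δ := by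
    rw [ν.degree]
    calc ∑ i, (ν.1 i : ℕ) < ∑ _i : Fin n, δ := by
          apply Finset.sum_lt_sum_of_nonempty
          · exact ⟨⟨0, hn⟩, Finset.mem_univ _⟩
          · intro i _; exact (ν.1 i).2
      _ = n * δ := by simp
  rw [← ν.δ_mul_w, mul_comm] at h1
  exact lt_of_mul_lt_mul_right h1 (Nat.zero_le _)

lemma Z0.e_injective : Function.Injective (Z0.e : Z0 n δ → _) := by
  intro ν μ h
  apply Subtype.ext
  funext i
  apply Fin.ext
  exact DFunLike.congr_fun h i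

/-- the class-0 remainder of an exponent of degree divisible by `δ` -/
lemma exists_Z0 (hδ : 0 < δ) (α : Fin n →₀ ℕ) (h : δ ∣ α.degree) :
    ∃ ν : Z0 n δ, ν.e = modF δ α := by
  have h1 : δ ∣ (modF δ α).degree := by
    rw [degree_eq (δ := δ) α] at h
    exact (Nat.dvd_add_left (Dvd.intro _ rfl)).1 h
  rw [Finsupp.degree_eq_sum] at h1
  exact ⟨⟨fun i => ⟨modF δ α i, modF_lt hδ α i⟩, h1⟩, by ext i; rfl⟩

/-- the exponent of level `γ`, remainder `ν`, degree `kδ` -/
noncomputable def lvl (i0 : Fin n) (γ : Fin n →₀ ℕ) (k : ℕ) (ν : Z0 n δ) : Fin n →₀ ℕ :=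
  ν.e + δ • (γ + Finsupp.single i0 (k - γ.degree - ν.w))

lemma modF_lvl (i0 : Fin n) (γ : Fin n →₀ ℕ) (k : ℕ) (ν : Z0 n δ) :
    modF δ (lvl i0 γ k ν) = ν.e := by
  rw [lvl, modF_add_smul, modF_eq_self ν.e_lt]

lemma divF_lvl (hδ : 0 < δ) (i0 : Fin n) (γ : Fin n →₀ ℕ) (k : ℕ) (ν : Z0 n δ) :
    divF δ (lvl i0 γ k ν) = γ + Finsupp.single i0 (k - γ.degree - ν.w) := by
  rw [lvl, divF_add_smul hδ, divF_eq_zero ν.e_lt, zero_add]

lemma degree_lvl (i0 : Fin n) (γ : Fin n →₀ ℕ) {k : ℕ} (ν : Z0 n δ)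
    (hk : γ.degree + ν.w ≤ k) : (lvl i0 γ k ν).degree = k * δ := by
  have h1 : (lvl i0 γ k ν).degree = ν.e.degree + δ * (γ.degree + (k - γ.degree - ν.w)) := by
    rw [lvl, map_add, map_nsmul, map_add, Finsupp.degree_single, smul_eq_mul]
  rw [h1, ← ν.δ_mul_w, ← mul_add, mul_comm]
  congr 1
  omega

lemma key_lvl (hδ : 0 < δ) (i0 : Fin n) (γ : Fin n →₀ ℕ) (hγ : γ i0 = 0) (k : ℕ) (ν : Z0 n δ) :
    key δ i0 (lvl i0 γ k ν) = toLex γ := by
  rw [key, divF_lvl hδ, Finsupp.erase_add, Finsupp.erase_single, add_zero]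
  congr 1
  rw [Finsupp.erase_of_notMem_support]
  simp [hγ]

lemma eq_lvl (hδ : 0 < δ) (i0 : Fin n) (γ : Fin n →₀ ℕ) (k : ℕ)
    (α : Fin n →₀ ℕ) (hα : α.degree = k * δ) (hk : key δ i0 α = toLex γ) (ν : Z0 n δ)
    (hν : ν.e = modF δ α) : α = lvl i0 γ k ν ∧ γ.degree + ν.w ≤ k := by
  have h0 : (divF δ α).erase i0 = γ := hk
  have h1 : divF δ α = γ + Finsupp.single i0 (divF δ α i0) := by
    rw [← h0, add_comm]; exact (Finsupp.single_add_erase i0 _).symm
  have h2 := degree_eq (δ := δ) α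
  rw [hα, ← hν, ← ν.δ_mul_w, h1, map_add, Finsupp.degree_single, ← mul_add, mul_comm] at h2
  have h3 : k = ν.w + (γ.degree + divF δ α i0) := Nat.eq_of_mul_eq_mul_left hδ h2
  have h4 : k - γ.degree - ν.w = divF δ α i0 := by omega
  refine ⟨?_, by omega⟩
  rw [lvl, h4, ← h1, hν, modF_add_divF]

/-- indexing of a full level -/
noncomputable def levelEquiv (hδ : 0 < δ) (i0 : Fin n) (γ : Fin n →₀ ℕ) (hγ : γ i0 = 0)
    (k : ℕ) (hk : γ.degree + n ≤ k + 1) :
    Z0 n δ ≃ {α : Mon n (k * δ) // key δ i0 α.1 = toLex γ} where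
  toFun ν := ⟨⟨lvl i0 γ k ν, mem_Mon.2 (degree_lvl i0 γ ν (by
    have := ν.w_lt (lt_of_le_of_lt (Nat.zero_le _) i0.2); omega))⟩, key_lvl hδ i0 γ hγ k ν⟩
  invFun α := Classical.choose (exists_Z0 hδ α.1.1 (by rw [α.1.deg]; exact Dvd.intro_left _ rfl))
  left_inv ν := by
    apply Z0.e_injective
    have h1 : γ.degree + ν.w ≤ k := by
      have := ν.w_lt (lt_of_le_of_lt (Nat.zero_le _) i0.2); omega
    have hs := Classical.choose_spec (exists_Z0 hδ (lvl i0 γ k ν)
      (by rw [degree_lvl i0 γ ν h1]; exact Dvd.intro_left _ rfl))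
    exact hs.trans (modF_lvl i0 γ k ν)
  right_inv α := by
    apply Subtype.ext
    apply Subtype.ext
    have hs := Classical.choose_spec
      (exists_Z0 hδ α.1.1 (by rw [α.1.deg]; exact Dvd.intro_left _ rfl))
    exact ((eq_lvl hδ i0 γ k α.1.1 α.1.deg α.2 _ hs).1).symm

end AF23
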