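import Pool.Agent.AF23.Defs

/-! Basic lemmas on exponents, `E_α` and coordinates. -/

namespace AF23

open MvPolynomial

variable {n δ : ℕ}

@[simp] lemma modF_apply (α : Fin n →₀ ℕ) (i : Fin n) : modF δ α i = α i % δ := rfl
@[simp] lemma divF_apply (α : Fin n →₀ ℕ) (i : Fin n) : divF δ α i = α i / δ := rfl

lemma modF_add_divF (α : Fin n →₀ ℕ) : modF δ α + δ • divF δ α = α := by
  ext i; simp [Nat.mod_add_div]

lemma modF_lt (hδ : 0 < δ) (α : Fin n →₀ ℕ) (i : Fin n) : modF δ α i < δ := Nat.mod_lt _ hδ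

lemma modF_add_smul (α β : Fin n →₀ ℕ) : modF δ (α + δ • β) = modF δ α := by
  ext i; simp

lemma divF_add_smul (hδ : 0 < δ) (α β : Fin n →₀ ℕ) : divF δ (α + δ • β) = divF δ α + β := by
  ext i; simp [Nat.add_mul_div_left _ _ hδ]

lemma modF_eq_self {ν : Fin n →₀ ℕ} (h : ∀ i, ν i < δ) : modF δ ν = ν := by
  ext i; simp [Nat.mod_eq_of_lt (h i)]

lemma divF_eq_zero {ν : Fin n →₀ ℕ} (h : ∀ i, ν i < δ) : divF δ ν = 0 := by
  ext i; simp [Nat.div_eq_of_lt (h i)]

lemma degree_eq (α : Fin n →₀ ℕ) : α.degree = (modF δ α).degree + δ * (divF δ α).degree := by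
  conv_lhs => rw [← modF_add_divF (δ := δ) α]
  simp

lemma mem_Mon {D : ℕ} {α : Fin n →₀ ℕ} :
    α ∈ Finset.finsuppAntidiag (Finset.univ : Finset (Fin n)) D ↔ α.degree = D := by
  simp [Finset.mem_finsuppAntidiag, Finsupp.degree_eq_sum]

lemma Mon.deg {D : ℕ} (α : Mon n D) : α.1.degree = D := mem_Mon.1 α.2

section field
variable {K : Type*} [Field K] {f : Fin n → MvPolynomial (Fin n) K}
  {b : (Fin n →₀ ℕ) → MvPolynomial (Fin n) K}

lemma Ev_add (hδ : 0 < δ) (α β : Fin n →₀ ℕ) :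
    Ev δ f b (α + δ • β) = (∏ i, f i ^ β i) * Ev δ f b α := by
  simp only [Ev, modF_add_smul, divF_add_smul hδ, Finsupp.add_apply, pow_add,
    Finset.prod_mul_distrib]
  ring

lemma Ev_of_lt {ν : Fin n →₀ ℕ} (h : ∀ i, ν i < δ) : Ev δ f b ν = b ν := by
  simp [Ev, modF_eq_self h, divF_eq_zero h]

lemma Ev_isHomogeneous (hδ : 0 < δ) (hf : IsTuple δ f)
    (hb : ∀ ν : Fin n →₀ ℕ, (∀ i, ν i < δ) → (b ν).IsHomogeneous ν.degree) (α : Fin n →₀ ℕ) :
    (Ev δ f b α).IsHomogeneous α.degree := by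
  rw [degree_eq (δ := δ) α]
  refine (hb _ (modF_lt hδ α)).mul ?_
  rw [Finsupp.degree_eq_sum, Finset.mul_sum]
  refine IsHomogeneous.prod _ _ _ fun i _ => ?_
  exact (hf i).pow _

namespace Good

lemma basis_apply (G : Good δ f b) (α : Fin n →₀ ℕ) : G.basis α = Ev δ f b α := by
  simp [Good.basis]

lemma co_eq (G : Good δ f b) (h : MvPolynomial (Fin n) K) (α : Fin n →₀ ℕ) :
    G.co h α = G.basis.repr h α := rfl

/-- coordinate as a linear functional -/
noncomputable def coL (G : Good δ f b) (α : Fin n →₀ ℕ) : MvPolynomial (Fin n) K →ₗ[K] K :=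
  G.basis.coord α

@[simp] lemma coL_apply (G : Good δ f b) (α : Fin n →₀ ℕ) (h : MvPolynomial (Fin n) K) :
    G.coL α h = G.co h α := rfl

lemma co_add (G : Good δ f b) (g h : MvPolynomial (Fin n) K) (α : Fin n →₀ ℕ) :
    G.co (g + h) α = G.co g α + G.co h α := by simp [co_eq]

lemma co_sub (G : Good δ f b) (g h : MvPolynomial (Fin n) K) (α : Fin n →₀ ℕ) :
    G.co (g - h) α = G.co g α - G.co h α := by simp [co_eq]

lemma co_zero (G : Good δ f b) (α : Fin n →₀ ℕ) : G.co 0 α = 0 := by simp [co_eq]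

lemma co_smul (G : Good δ f b) (c : K) (h : MvPolynomial (Fin n) K) (α : Fin n →₀ ℕ) :
    G.co (c • h) α = c * G.co h α := by simp [co_eq]

lemma co_C_mul (G : Good δ f b) (c : K) (h : MvPolynomial (Fin n) K) (α : Fin n →₀ ℕ) :
    G.co (MvPolynomial.C c * h) α = c * G.co h α := by
  rw [← MvPolynomial.smul_eq_C_mul, co_smul]

lemma co_sum {ι : Type*} (G : Good δ f b) (s : Finset ι) (g : ι → MvPolynomial (Fin n) K)
    (α : Fin n →₀ ℕ) : G.co (∑ i ∈ s, g i) α = ∑ i ∈ s, G.co (g i) α := by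
  simp [co_eq, map_sum, Finsupp.finsetSum_apply]

lemma co_Ev (G : Good δ f b) (α β : Fin n →₀ ℕ) :
    G.co (Ev δ f b α) β = if α = β then 1 else 0 := by
  rw [co_eq, ← G.basis_apply, Module.Basis.repr_self, Finsupp.single_apply]

lemma co_Ev_self (G : Good δ f b) (α : Fin n →₀ ℕ) : G.co (Ev δ f b α) α = 1 := by
  rw [co_Ev, if_pos rfl]

/-- expansion -/
lemma sum_co (G : Good δ f b) (h : MvPolynomial (Fin n) K) :
    h = ∑ α ∈ (G.basis.repr h).support, G.co h α • Ev δ f b α := by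
  have := G.basis.linearCombination_repr h
  rw [Finsupp.linearCombination_apply, Finsupp.sum] at this
  conv_lhs => rw [← this]
  refine Finset.sum_congr rfl fun α _ => ?_
  rw [G.basis_apply]; rfl

lemma ext_co (G : Good δ f b) {g h : MvPolynomial (Fin n) K}
    (H : ∀ α, G.co g α = G.co h α) : g = h :=
  G.basis.repr.injective (Finsupp.ext H)

/-- shift property -/
lemma co_prod_mul (G : Good δ f b) (hδ : 0 < δ) (β : Fin n →₀ ℕ)
    (h : MvPolynomial (Fin n) K) (α : Fin n →₀ ℕ) :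
    G.co ((∏ i, f i ^ β i) * h) α = if δ • β ≤ α then G.co h (α - δ • β) else 0 := by
  classical
  conv_lhs => rw [G.sum_co h]
  rw [Finset.mul_sum, co_sum]
  simp only [mul_smul_comm, co_smul]
  simp only [← Ev_add hδ, co_Ev]
  split_ifs with hle
  · by_cases hm : α - δ • β ∈ (G.basis.repr h).support
    · rw [Finset.sum_eq_single_of_mem _ hm]
      · rw [if_pos (tsub_add_cancel_of_le hle), mul_one]
      · intro γ _ hγ
        rw [if_neg, mul_zero]
        intro h1; apply hγ; rw [← h1]; simp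
    · have h0 : G.co h (α - δ • β) = 0 := by
        rw [co_eq]; exact Finsupp.notMem_support_iff.1 hm
      rw [h0]
      refine Finset.sum_eq_zero fun γ hγ => ?_
      rw [if_neg, mul_zero]
      intro h1; apply hm; rw [← h1]; simpa using hγ
  · refine Finset.sum_eq_zero fun γ _ => ?_
    rw [if_neg, mul_zero]
    intro h1; apply hle; rw [← h1]; exact le_add_of_nonneg_left zero_le

lemma co_prod_mul_add (G : Good δ f b) (hδ : 0 < δ) (β : Fin n →₀ ℕ)
    (h : MvPolynomial (Fin n) K) (α : Fin n →₀ ℕ) :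
    G.co ((∏ i, f i ^ β i) * h) (α + δ • β) = G.co h α := by
  rw [co_prod_mul G hδ, if_pos (le_add_of_nonneg_left zero_le)]; simp

lemma co_pow_mul (G : Good δ f b) (hδ : 0 < δ) (i : Fin n) (a : ℕ)
    (h : MvPolynomial (Fin n) K) (α : Fin n →₀ ℕ) :
    G.co (f i ^ a * h) α = if δ * a ≤ α i then G.co h (α - Finsupp.single i (δ * a)) else 0 := by
  classical
  have h1 : (∏ j, f j ^ (Finsupp.single i a) j) = f i ^ a := by
    rw [Finset.prod_eq_single i]
    · simp
    · intro j _ hj; simp [hj.symm]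
    · simp
  have h2 : δ • (Finsupp.single i a : Fin n →₀ ℕ) = Finsupp.single i (δ * a) := by
    simp [Finsupp.smul_single]
  rw [← h1, co_prod_mul G hδ, h2]
  congr 1
  apply propext
  constructor
  · intro hle; simpa using hle i
  · intro hle; rwa [Finsupp.single_le_iff]

lemma isHomogeneous_Ev (G : Good δ f b) (hδ : 0 < δ) (α : Fin n →₀ ℕ) :
    (Ev δ f b α).IsHomogeneous α.degree := Ev_isHomogeneous hδ G.fhom G.bhom α

/-- the homogeneous component in terms of coordinates -/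
lemma co_homogeneousComponent (G : Good δ f b) (hδ : 0 < δ) (D : ℕ)
    (h : MvPolynomial (Fin n) K) (α : Fin n →₀ ℕ) :
    G.co (homogeneousComponent D h) α = if α.degree = D then G.co h α else 0 := by
  classical
  conv_lhs => rw [G.sum_co h]
  rw [map_sum, co_sum]
  have h1 : ∀ γ ∈ (G.basis.repr h).support,
      G.co (homogeneousComponent D (G.co h γ • Ev δ f b γ)) α =
      if γ.degree = D then G.co h γ * (if γ = α then 1 else 0) else 0 := by
    intro γ _
    rw [map_smul, homogeneousComponent_of_mem (G.isHomogeneous_Ev hδ γ), co_smul]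
    by_cases hD : D = γ.degree
    · rw [if_pos hD, if_pos hD.symm, co_Ev]
    · rw [if_neg hD, if_neg (Ne.symm hD), co_zero, mul_zero]
  rw [Finset.sum_congr rfl h1]
  by_cases hm : α ∈ (G.basis.repr h).support
  · rw [Finset.sum_eq_single_of_mem _ hm]
    · simp
    · intro γ _ hγ; simp [hγ]
  · have h0 : G.co h α = 0 := by rw [co_eq]; exact Finsupp.notMem_support_iff.1 hm
    rw [h0]
    simp only [ite_self]
    refine Finset.sum_eq_zero fun γ hγ => ?_
    by_cases h2 : γ = α
    · exact absurd (h2 ▸ hγ) hm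
    · simp [h2]

lemma co_eq_zero_of_degree (G : Good δ f b) (hδ : 0 < δ) {D : ℕ}
    {h : MvPolynomial (Fin n) K} (hh : h.IsHomogeneous D) {α : Fin n →₀ ℕ}
    (hα : α.degree ≠ D) : G.co h α = 0 := by
  have := G.co_homogeneousComponent hδ D h α
  rw [homogeneousComponent_of_mem hh, if_pos rfl, if_neg hα] at this
  exact this

/-- expansion of a homogeneous element -/
lemma sum_co_hom (G : Good δ f b) (hδ : 0 < δ) {D : ℕ}
    {h : MvPolynomial (Fin n) K} (hh : h.IsHomogeneous D) :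
    h = ∑ α : Mon n D, G.co h α.1 • Ev δ f b α.1 := by
  classical
  apply G.ext_co
  intro β
  rw [co_sum]
  simp only [co_smul, co_Ev]
  by_cases hβ : β.degree = D
  · rw [Finset.sum_eq_single (⟨β, mem_Mon.2 hβ⟩ : Mon n D)]
    · simp
    · intro γ _ hγ
      rw [if_neg, mul_zero]
      intro h1; exact hγ (Subtype.ext h1)
    · simp
  · rw [G.co_eq_zero_of_degree hδ hh hβ]
    symm
    refine Finset.sum_eq_zero fun γ _ => ?_
    rw [if_neg, mul_zero]
    intro h1; exact hβ (h1 ▸ γ.deg)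

end Good

end field

end AF23
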