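import Mathlib

/-! Part C, step 2: commutative algebra (Krull height one, Jacobson). -/

namespace AF23

/-- in a Noetherian domain, a nonzero prime inside a prime of height `≤ 1` is equal to it -/
theorem eq_of_height_le_one {R : Type*} [CommRing R] [IsDomain R] (p r : Ideal R)
    [p.IsPrime] [r.IsPrime] (hp : p.height ≤ 1) (hr : r ≠ ⊥) (hrp : r ≤ p) : r = p := by
  by_contra hne
  have hlt : r < p := lt_of_le_of_ne hrp hne
  have h1 := Ideal.height_add_one_le_of_lt_of_isPrime hlt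
  have h2 := Ideal.height_add_one_le_of_lt_of_isPrime (bot_lt_iff_ne_bot.2 hr)
  rw [Ideal.height_bot] at h2
  have h3 : (1 : ℕ∞) + 1 ≤ 1 := by
    calc (1 : ℕ∞) + 1 ≤ r.height + 1 := by
          gcongr
          simpa using h2
      _ ≤ p.height := h1
      _ ≤ 1 := hp
  norm_num at h3

theorem exists_mul_pow_mem {R : Type*} [CommRing R] [IsDomain R] [IsNoetherianRing R] {a : R}
    (p : Ideal R) (hp : p ∈ (Ideal.span {a}).minimalPrimes) (x : R) (hx : x ≠ 0) :
    ∃ s, s ∉ p ∧ ∃ k : ℕ, s * a ^ k ∈ Ideal.span {x} := by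
  have := hp.isPrime
  have hap : a ∈ p := hp.le (Ideal.mem_span_singleton_self a)
  have hht : p.height ≤ 1 := Ideal.height_le_one_of_isPrincipal_of_mem_minimalPrimes _ p hp
  by_contra hcon
  push Not at hcon
  have hdis : Disjoint ((Ideal.span {x} : Ideal R) : Set R)
      ((p.primeCompl ⊔ Submonoid.powers a : Submonoid R) : Set R) := by
    rw [Set.disjoint_left]
    intro y hy hy2
    obtain ⟨s, hs, t, ht, rfl⟩ := Submonoid.mem_sup.1 hy2
    obtain ⟨k, rfl⟩ := ht
    exact hcon s hs k hy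
  obtain ⟨r, hr, hxr, hrd⟩ := Ideal.exists_le_prime_disjoint _ _ hdis
  have hrp : r ≤ p := by
    intro y hy
    by_contra hyp
    exact Set.disjoint_left.1 hrd hy (Submonoid.mem_sup_left (show y ∈ p.primeCompl from hyp))
  have har : a ∉ r := by
    intro har
    exact Set.disjoint_left.1 hrd har (Submonoid.mem_sup_right (Submonoid.mem_powers a))
  have hrb : r ≠ ⊥ := by
    rintro rfl
    exact hx (by simpa using hxr (Ideal.mem_span_singleton_self x))
  have := eq_of_height_le_one p r hht hrb hrp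
  exact har (this ▸ hap)

instance isJacobsonRing_int : IsJacobsonRing ℤ := by
  rw [isJacobsonRing_iff_prime_eq]
  intro P hP
  by_cases h : P = ⊥
  · subst h
    rw [eq_bot_iff]
    intro x hx
    rw [Ideal.mem_bot]
    by_contra hx0
    obtain ⟨q, hq, hqp⟩ := Nat.exists_infinite_primes (x.natAbs + 1)
    have hq' : Prime (q : ℤ) := Nat.prime_iff_prime_int.1 hqp
    have hmax : (Ideal.span {(q : ℤ)}).IsMaximal :=
      PrincipalIdealRing.isMaximal_of_irreducible hq'.irreducible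
    have hmem : x ∈ Ideal.span {(q : ℤ)} := by
      have := (Ideal.mem_jacobson_iff (I := (⊥ : Ideal ℤ)) (x := x)).1 hx
      rw [Ideal.jacobson, Submodule.mem_sInf] at hx
      exact hx _ ⟨bot_le, hmax⟩
    rw [Ideal.mem_span_singleton] at hmem
    have h1 : q ∣ x.natAbs := Int.natCast_dvd.1 hmem
    have h2 := Nat.le_of_dvd (Int.natAbs_pos.2 hx0) h1
    omega
  · have hmax : P.IsMaximal := hP.isMaximal h
    exact Ideal.jacobson_eq_self_of_isMaximal (H := hmax)

/-- a field which is finitely generated as a ring has positive characteristic -/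
theorem charP_of_finiteType (k : Type*) [CommRing k] (hk : IsField k) [Algebra ℤ k]
    [Algebra.FiniteType ℤ k] :
    ∃ ℓ : ℕ, ℓ.Prime ∧ (ℓ : k) = 0 := by
  let _ : Field k := hk.toField
  have hfin := finite_of_finite_type_of_isJacobsonRing ℤ k
  obtain ⟨ℓ, hℓ⟩ := CharP.exists k
  rcases CharP.char_is_prime_or_zero k ℓ with h | h
  · exact ⟨ℓ, h, CharP.cast_eq_zero _ _⟩
  · exfalso
    subst h
    have : CharZero k := CharP.charP_to_charZero k
    have hint : Algebra.IsIntegral ℤ k := Algebra.IsIntegral.of_finite ℤ k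
    have hinj : Function.Injective (algebraMap ℤ k) := by
      intro a b hab
      simpa using hab
    have hF : IsField ℤ := isField_of_isIntegral_of_isField hinj (Field.toIsField k)
    obtain ⟨y, hy⟩ := hF.mul_inv_cancel (show (2 : ℤ) ≠ 0 by norm_num)
    omega

/-- f.g. domain of characteristic `0`: maximal ideals of residue characteristic prime to `M`. -/
theorem exists_maximal_char {D : Type*} [CommRing D] [Algebra.FiniteType ℤ D] (P : Ideal D)
    [P.IsPrime] (M : ℕ) (hM : (M : D) ∉ P) :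
    ∃ (N : Ideal D) (ℓ : ℕ), N.IsMaximal ∧ P ≤ N ∧ ℓ.Prime ∧ (ℓ : D) ∈ N ∧ ¬ ℓ ∣ M := by
  have hJ : IsJacobsonRing D := isJacobsonRing_of_finiteType (A := ℤ)
  have hP : P.jacobson = P := (isJacobsonRing_iff_prime_eq.1 hJ) P inferInstance
  rw [← hP, Ideal.jacobson, Submodule.mem_sInf] at hM
  push Not at hM
  obtain ⟨N, ⟨hPN, hN⟩, hMN⟩ := hM
  have hF : IsField (D ⧸ N) := (Ideal.Quotient.maximal_ideal_iff_isField_quotient N).1 hN
  have hft : Algebra.FiniteType ℤ (D ⧸ N) := Algebra.FiniteType.of_surjective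
    (Ideal.Quotient.mkₐ ℤ N) (Ideal.Quotient.mkₐ_surjective ℤ N)
  obtain ⟨ℓ, hℓ, hc⟩ := charP_of_finiteType (D ⧸ N) hF
  refine ⟨N, ℓ, hN, hPN, hℓ, ?_, ?_⟩
  · rw [← Ideal.Quotient.eq_zero_iff_mem, map_natCast]
    exact hc
  · rintro ⟨c, rfl⟩
    apply hMN
    rw [← Ideal.Quotient.eq_zero_iff_mem, map_natCast, Nat.cast_mul, hc, zero_mul]

/-- Step 2 summary: reduction of a finitely generated domain of characteristic zero. -/
theorem exists_quotient {D : Type*} [CommRing D] [IsDomain D] [Algebra.FiniteType ℤ D]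
    (P : Ideal D) [P.IsPrime] (hP : ∀ m : ℕ, m ≠ 0 → (m : D) ∉ P) (δ : ℕ) (hδ : δ ≠ 0)
    (a b : D) (ha : a ∈ P) (ha0 : a ≠ 0) (hb0 : b ≠ 0) :
    ∃ (Q : Ideal D) (ℓ : ℕ), Q.IsPrime ∧ ℓ.Prime ∧ ¬ ℓ ∣ δ ∧ (ℓ : D) ∈ Q ∧ a ∉ Q ∧ b ∉ Q ∧
      ∃ N : Ideal D, N.IsMaximal ∧ Q ≤ N ∧ a ∈ N := by
  classical
  have hNoeth : IsNoetherianRing D := Algebra.FiniteType.isNoetherianRing ℤ D
  have hab : a * b ≠ 0 := mul_ne_zero ha0 hb0
  have hfin : (Ideal.span {a * b}).minimalPrimes.Finite :=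
    Ideal.finite_minimalPrimes_of_isNoetherianRing D _
  -- the characteristic attached to a minimal prime
  let c : Ideal D → ℕ := fun r => if ringChar (D ⧸ r) = 0 then 1 else ringChar (D ⧸ r)
  have hc0 : ∀ r, c r ≠ 0 := by
    intro r
    simp only [c]
    split_ifs with h
    · exact one_ne_zero
    · exact h
  let M : ℕ := δ * ∏ r ∈ hfin.toFinset, c r
  have hM0 : M ≠ 0 := mul_ne_zero hδ (Finset.prod_ne_zero_iff.2 fun r _ => hc0 r)
  obtain ⟨N, ℓ, hN, hPN, hℓ, hℓN, hℓM⟩ := exists_maximal_char P M (hP M hM0)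
  have hspan : Ideal.span {(ℓ : D)} ≤ N := by
    rw [Ideal.span_le]
    intro x hx
    rw [Set.mem_singleton_iff.1 hx]
    exact hℓN
  obtain ⟨Q, hQ, hQN⟩ := Ideal.exists_minimalPrimes_le hspan
  have hQp := hQ.isPrime
  have hℓQ : (ℓ : D) ∈ Q := hQ.le (Ideal.mem_span_singleton_self _)
  have hht : Q.height ≤ 1 := Ideal.height_le_one_of_isPrincipal_of_mem_minimalPrimes _ Q hQ
  have habQ : a * b ∉ Q := by
    intro hmem
    have hs : Ideal.span {a * b} ≤ Q := by
      rw [Ideal.span_le]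
      intro x hx
      rw [Set.mem_singleton_iff.1 hx]
      exact hmem
    obtain ⟨r, hr, hrQ⟩ := Ideal.exists_minimalPrimes_le hs
    have hrp := hr.isPrime
    have hrb : r ≠ ⊥ := by
      rintro rfl
      exact hab (by simpa using hr.le (Ideal.mem_span_singleton_self (a * b)))
    have hrQ' : r = Q := eq_of_height_le_one Q r hht hrb hrQ
    have hℓr : (ℓ : D) ∈ r := hrQ' ▸ hℓQ
    have hchar : ringChar (D ⧸ r) = ℓ := by
      have h1 : ((ℓ : ℕ) : D ⧸ r) = 0 := by
        rw [← map_natCast (Ideal.Quotient.mk r)]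
        exact Ideal.Quotient.eq_zero_iff_mem.2 hℓr
      have h2 : ringChar (D ⧸ r) ∣ ℓ := ringChar.dvd h1
      rcases (Nat.dvd_prime hℓ).1 h2 with h3 | h3
      · exfalso
        have h4 : ((1 : ℕ) : D ⧸ r) = 0 := by
          rw [← h3]
          exact ringChar.Nat.cast_ringChar
        rw [Nat.cast_one] at h4
        exact one_ne_zero h4
      · exact h3
    apply hℓM
    have h5 : c r = ℓ := by
      simp only [c, hchar]
      rw [if_neg hℓ.ne_zero]
    have h6 : c r ∣ ∏ r ∈ hfin.toFinset, c r :=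
      Finset.dvd_prod_of_mem c (hfin.mem_toFinset.2 hr)
    rw [h5] at h6
    exact h6.trans (Dvd.intro_left δ rfl)
  refine ⟨Q, ℓ, hQp, hℓ, ?_, hℓQ, ?_, ?_, N, hN, hQN, hPN ha⟩
  · intro h
    exact hℓM (h.trans (Dvd.intro _ rfl))
  · intro h
    exact habQ (Q.mul_mem_right b h)
  · intro h
    exact habQ (Q.mul_mem_left a h)

end AF23
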