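import Pool.Agent.AF23.C1
import Pool.Agent.AF23.C2

/-! Part C, step 3: a rank one place of a Noetherian domain centred at a nonunit. -/

namespace AF23

theorem exists_place {R : Type*} [CommRing R] [IsDomain R] [IsNoetherianRing R]
    {K' : Type*} [Field K'] [Algebra R K'] (hinj : Function.Injective (algebraMap R K'))
    (halg : Algebra.IsAlgebraic R K')
    (a : R) (ha0 : a ≠ 0) (ha : ¬ IsUnit a) :
    ∃ v : AbsoluteValue K' ℝ, IsNonarchimedean v ∧ (∀ x : R, v (algebraMap R K' x) ≤ 1) ∧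
      v (algebraMap R K' a) < 1 := by
  obtain ⟨m, hm, ham⟩ := exists_max_ideal_of_mem_nonunits ha
  have hspan : Ideal.span {a} ≤ m := by
    rw [Ideal.span_le]
    intro x hx
    rw [Set.mem_singleton_iff.1 hx]
    exact ham
  obtain ⟨p, hp, -⟩ := Ideal.exists_minimalPrimes_le hspan
  have hpp := hp.isPrime
  have hap : a ∈ p := hp.le (Ideal.mem_span_singleton_self a)
  have hne : ∀ s : R, s ∉ p → algebraMap R K' s ≠ 0 := by
    intro s hs h
    apply hs
    have : s = 0 := hinj (by rw [h, map_zero])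
    rw [this]
    exact p.zero_mem
  -- the localisation of `R` at `p` inside `K'`
  let A : Subring K' :=
    { carrier := {y | ∃ x s : R, s ∉ p ∧ y * algebraMap R K' s = algebraMap R K' x}
      mul_mem' := by
        rintro y z ⟨x, s, hs, h⟩ ⟨x', s', hs', h'⟩
        refine ⟨x * x', s * s', ?_, ?_⟩
        · intro hmem
          rcases hpp.mem_or_mem hmem with h1 | h1
          · exact hs h1
          · exact hs' h1
        · rw [map_mul, map_mul, ← h, ← h']; ring
      one_mem' := ⟨1, 1, fun h => hpp.ne_top (p.eq_top_iff_one.2 h), by simp⟩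
      add_mem' := by
        rintro y z ⟨x, s, hs, h⟩ ⟨x', s', hs', h'⟩
        refine ⟨x * s' + x' * s, s * s', ?_, ?_⟩
        · intro hmem
          rcases hpp.mem_or_mem hmem with h1 | h1
          · exact hs h1
          · exact hs' h1
        · rw [map_mul, map_add, map_mul, map_mul, ← h, ← h']; ring
      zero_mem' := ⟨0, 1, fun h => hpp.ne_top (p.eq_top_iff_one.2 h), by simp⟩
      neg_mem' := by
        rintro y ⟨x, s, hs, h⟩
        exact ⟨-x, s, hs, by rw [map_neg, ← h]; ring⟩ }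
  have hRA : ∀ x : R, algebraMap R K' x ∈ A := fun x =>
    ⟨x, 1, fun h => hpp.ne_top (p.eq_top_iff_one.2 h), by simp⟩
  have hinvA : ∀ s : R, s ∉ p → (algebraMap R K' s)⁻¹ ∈ A := fun s hs =>
    ⟨1, s, hs, by rw [map_one]; exact inv_mul_cancel₀ (hne s hs)⟩
  let aA : A := ⟨algebraMap R K' a, hRA a⟩
  have hI : Ideal.span {aA} ≠ ⊤ := by
    intro h
    rw [Ideal.eq_top_iff_one, Ideal.mem_span_singleton] at h
    obtain ⟨⟨y, x, s, hs, hy⟩, h1⟩ := h
    have h2 : (1 : K') = algebraMap R K' a * y := congrArg Subtype.val h1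
    have h3 : algebraMap R K' s = algebraMap R K' (a * x) := by
      rw [map_mul, ← hy, ← mul_assoc, ← h2, one_mul]
    have h4 : s = a * x := hinj h3
    exact hs (h4 ▸ p.mul_mem_right x hap)
  obtain ⟨V₀, hV, hVI⟩ := Ideal.image_subset_nonunits_valuationSubring _ hI
  have haV : algebraMap R K' a ∈ V₀.nonunits :=
    hVI ⟨aA, Ideal.mem_span_singleton_self aA, rfl⟩
  have hRV : ∀ x : R, algebraMap R K' x ∈ V₀ := fun x => hV (hRA x)
  have hinvV : ∀ s : R, s ∉ p → (algebraMap R K' s)⁻¹ ∈ V₀ := fun s hs => hV (hinvA s hs)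
  have hint : ∀ x : K', IsIntegral R x → x ∈ V₀ := by
    intro x hx
    have h1 : x ∈ V₀.valuation.integer := by
      obtain ⟨f, hf, hfx⟩ := hx
      let g : R →+* V₀ := (algebraMap R K').codRestrict V₀.toSubring hRV
      have hx' : IsIntegral V₀ x := by
        refine ⟨f.map g, hf.map g, ?_⟩
        rw [Polynomial.eval₂_map]
        exact hfx
      have hO : V₀.valuation.Integers V₀ := by
        refine ⟨Subtype.val_injective, fun r => V₀.valuation_le_one r, ?_⟩
        intro r hr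
        exact ⟨⟨r, (V₀.valuation_le_one_iff r).1 hr⟩, rfl⟩
      exact hO.mem_of_integral hx'
    exact (V₀.valuation_le_one_iff x).1 h1
  refine (exists_absoluteValue V₀ (algebraMap R K' a)
    (fun h => ha0 (hinj (by rw [h, map_zero]))) haV ?_).imp fun v hv =>
      ⟨hv.1, fun x => hv.2.1 _ (hRV x), hv.2.2⟩
  intro x
  obtain ⟨c, hc0, hc⟩ := (halg.isAlgebraic x).exists_integral_multiple
  obtain ⟨s, hs, k, hk⟩ := exists_mul_pow_mem p hp c hc0
  obtain ⟨r, hr⟩ := Ideal.mem_span_singleton.1 hk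
  refine ⟨k, ?_⟩
  have h1 : algebraMap R K' a ^ k * x
      = (c • x) * (algebraMap R K' r * (algebraMap R K' s)⁻¹) := by
    have h2 : algebraMap R K' s * algebraMap R K' a ^ k
        = algebraMap R K' c * algebraMap R K' r := by
      rw [← map_pow, ← map_mul, ← map_mul, hr]
    have hs0 := hne s hs
    rw [Algebra.smul_def]
    field_simp
    linear_combination x * h2
  rw [h1]
  exact V₀.mul_mem _ _ (hint _ hc) (V₀.mul_mem _ _ (hRV r) (hinvV s hs))

/-- Combined statement used in Part C. -/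
theorem exists_reduction {D : Type} [CommRing D] [IsDomain D] [Algebra.FiniteType ℤ D]
    (P : Ideal D) [P.IsPrime] (hP : ∀ m : ℕ, m ≠ 0 → (m : D) ∉ P) (δ : ℕ) (hδ : δ ≠ 0)
    (a b : D) (ha : a ∈ P) (ha0 : a ≠ 0) (hb0 : b ≠ 0) :
    ∃ (ℓ : ℕ) (_ : Fact ℓ.Prime) (K' : Type) (_ : Field K') (_ : IsAlgClosed K')
      (_ : CharP K' ℓ) (v : AbsoluteValue K' ℝ) (φ : D →+* K'),
      ¬ ℓ ∣ δ ∧ IsNonarchimedean v ∧ (∀ x, v (φ x) ≤ 1) ∧ φ a ≠ 0 ∧ v (φ a) < 1 ∧ φ b ≠ 0 := by
  obtain ⟨Q, ℓ, hQ, hℓ, hℓδ, hℓQ, haQ, hbQ, N, hN, hQN, haN⟩ :=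
    exists_quotient P hP δ hδ a b ha ha0 hb0
  have hNoeth : IsNoetherianRing D := Algebra.FiniteType.isNoetherianRing ℤ D
  have hdom : IsDomain (D ⧸ Q) := Ideal.Quotient.isDomain Q
  let F := FractionRing (D ⧸ Q)
  let K' := AlgebraicClosure F
  have hinj : Function.Injective (algebraMap (D ⧸ Q) K') := by
    rw [IsScalarTower.algebraMap_eq (D ⧸ Q) F K']
    exact (algebraMap F K').injective.comp (IsFractionRing.injective (D ⧸ Q) F)
  have halg : Algebra.IsAlgebraic (D ⧸ Q) K' :=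
    (IsFractionRing.comap_isAlgebraic_iff (A := D ⧸ Q) (K := F) (C := K')).2 inferInstance
  have ha1 : Ideal.Quotient.mk Q a ≠ 0 := by
    rw [Ne, Ideal.Quotient.eq_zero_iff_mem]; exact haQ
  have hb1 : Ideal.Quotient.mk Q b ≠ 0 := by
    rw [Ne, Ideal.Quotient.eq_zero_iff_mem]; exact hbQ
  have hau : ¬ IsUnit (Ideal.Quotient.mk Q a) := by
    intro hu
    have h1 : Ideal.Quotient.factor hQN (Ideal.Quotient.mk Q a) = 0 := by
      rw [Ideal.Quotient.factor_mk]
      exact Ideal.Quotient.eq_zero_iff_mem.2 haN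
    have h2 : IsUnit (Ideal.Quotient.factor hQN (Ideal.Quotient.mk Q a)) := hu.map _
    rw [h1] at h2
    have : Nontrivial (D ⧸ N) := Ideal.Quotient.nontrivial_iff.2 hN.ne_top
    exact not_isUnit_zero h2
  obtain ⟨v, hv1, hv2, hv3⟩ := exists_place hinj halg _ ha1 hau
  have hchar : CharP K' ℓ := by
    have h0 : ((ℓ : ℕ) : K') = 0 := by
      rw [← map_natCast (algebraMap (D ⧸ Q) K'), ← map_natCast (Ideal.Quotient.mk Q),
        Ideal.Quotient.eq_zero_iff_mem.2 hℓQ, map_zero]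
    have h1 : ringChar K' ∣ ℓ := ringChar.dvd h0
    rcases (Nat.dvd_prime hℓ).1 h1 with h3 | h3
    · exfalso
      exact CharP.ringChar_ne_one h3
    · exact h3 ▸ ringChar.charP K'
  refine ⟨ℓ, ⟨hℓ⟩, K', inferInstance, inferInstance, hchar, v,
    (algebraMap (D ⧸ Q) K').comp (Ideal.Quotient.mk Q), hℓδ, hv1, fun x => hv2 _, ?_, hv3, ?_⟩
  · rw [RingHom.comp_apply]
    intro h
    exact ha1 (hinj (by rw [h, map_zero]))
  · rw [RingHom.comp_apply]
    intro h
    exact hb1 (hinj (by rw [h, map_zero]))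

end AF23
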