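import Pool.Agent.AF23.Defs
import Pool.Agent.AF23.C3

/-! Part C, step 4: base change of the data `T`, `jac`, functionals. -/

namespace AF23

open MvPolynomial

variable {n : ℕ}

/-- ring version of `Ev` for a family of monomials -/
noncomputable def EvRc {R : Type*} [CommRing R] (δ : ℕ) (f : Fin n → MvPolynomial (Fin n) R)
    (m : (Fin n →₀ ℕ) → (Fin n →₀ ℕ)) (α : Fin n →₀ ℕ) : MvPolynomial (Fin n) R :=
  monomial (m (modF δ α)) 1 * ∏ i, f i ^ (divF δ α i)

/-- ring version of `T` for a family of monomials -/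
noncomputable def TRc {R : Type*} [CommRing R] (δ : ℕ) (f : Fin n → MvPolynomial (Fin n) R)
    (m : (Fin n →₀ ℕ) → (Fin n →₀ ℕ)) (D : ℕ) : R :=
  Matrix.det (Matrix.of fun α β : Mon n D => coeff β.1 (EvRc δ f m α.1))

theorem T_map {R : Type*} [CommRing R] {K : Type*} [Field K] (ψ : R →+* K) (δ : ℕ)
    (f : Fin n → MvPolynomial (Fin n) R) (m : (Fin n →₀ ℕ) → (Fin n →₀ ℕ)) (D : ℕ) :
    T δ (fun i => map ψ (f i)) (fun ν => monomial (m ν) 1) D = ψ (TRc δ f m D) := by
  unfold T TRc
  rw [RingHom.map_det]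
  congr 1
  ext α β
  simp only [Matrix.of_apply, RingHom.mapMatrix_apply, Matrix.map_apply]
  rw [← coeff_map]
  congr 1
  simp [Ev, EvRc, map_monomial]

/-- ring version of the Jacobian determinant -/
noncomputable def jacRc {R : Type*} [CommRing R] (f : Fin n → MvPolynomial (Fin n) R) :
    MvPolynomial (Fin n) R :=
  Matrix.det (Matrix.of fun i j => pderiv j (f i))

theorem jac_map {R : Type*} [CommRing R] {K : Type*} [Field K] (ψ : R →+* K)
    (f : Fin n → MvPolynomial (Fin n) R) :
    jac (fun i => map ψ (f i)) = map ψ (jacRc f) := by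
  unfold jac jacRc
  rw [RingHom.map_det]
  congr 1
  ext i j : 1
  simp only [Matrix.of_apply, RingHom.mapMatrix_apply, Matrix.map_apply]
  rw [pderiv_map]

/-- the linear functional with prescribed values on monomials -/
noncomputable def Lc {R : Type*} [CommRing R] (c : (Fin n →₀ ℕ) → R) :
    MvPolynomial (Fin n) R →ₗ[R] R :=
  (basisMonomials (Fin n) R).constr R c

theorem Lc_monomial {R : Type*} [CommRing R] (c : (Fin n →₀ ℕ) → R) (m : Fin n →₀ ℕ) (t : R) :
    Lc c (monomial m t) = t * c m := by
  have h : (monomial m t : MvPolynomial (Fin n) R) = t • basisMonomials (Fin n) R m := by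
    rw [coe_basisMonomials, smul_monomial, smul_eq_mul, mul_one]
  rw [h, map_smul, Lc, Module.Basis.constr_basis, smul_eq_mul]

theorem Lc_map {R S : Type*} [CommRing R] [CommRing S] (ψ : R →+* S) (c : (Fin n →₀ ℕ) → R)
    (p : MvPolynomial (Fin n) R) :
    Lc (fun m => ψ (c m)) (map ψ p) = ψ (Lc c p) := by
  induction p using MvPolynomial.induction_on' with
  | monomial u a => rw [map_monomial, Lc_monomial, Lc_monomial, map_mul]
  | add p q hp hq => rw [map_add, map_add, map_add, map_add, hp, hq]

theorem degree_of_mem_support {R : Type*} [CommRing R] {p : MvPolynomial (Fin n) R} {s : ℕ}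
    (hp : p.IsHomogeneous s) {m : Fin n →₀ ℕ} (hm : m ∈ p.support) : m.degree = s := by
  by_contra hne
  exact mem_support_iff.1 hm (hp.coeff_eq_zero hne)

/-- degree `s` part of a functional -/
theorem Lc_eq_of_homogeneous {K : Type*} [Field K] (F : MvPolynomial (Fin n) K →ₗ[K] K) (s : ℕ)
    (p : MvPolynomial (Fin n) K) (hp : p.IsHomogeneous s) :
    Lc (fun m => if m.degree = s then F (monomial m 1) else 0) p = F p := by
  rw [p.as_sum, map_sum, map_sum]
  refine Finset.sum_congr rfl fun m hm => ?_
  have hdeg : m.degree = s := degree_of_mem_support hp hm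
  rw [Lc_monomial, if_pos hdeg]
  have h2 : (monomial m (coeff m p) : MvPolynomial (Fin n) K) = coeff m p • monomial m 1 := by
    rw [smul_monomial, smul_eq_mul, mul_one]
  rw [h2, map_smul, smul_eq_mul]

theorem Lc_eq_zero_of_homogeneous {K : Type*} [Field K] (c : (Fin n →₀ ℕ) → K) (s t : ℕ)
    (hst : t ≠ s) (p : MvPolynomial (Fin n) K) (hp : p.IsHomogeneous t) :
    Lc (fun m => if m.degree = s then c m else 0) p = 0 := by
  rw [p.as_sum, map_sum]
  refine Finset.sum_eq_zero fun m hm => ?_
  have hdeg : m.degree = t := degree_of_mem_support hp hm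
  rw [Lc_monomial, if_neg (by rw [hdeg]; exact hst), mul_zero]

end AF23
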