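import Pool.Agent.AF23.Defs
import Pool.Agent.AF23.C3
import Pool.Agent.AF23.C4

/-! # Part C : the core inequality in residue characteristic `0`,
deduced from the core inequality in characteristic `ℓ`. -/

namespace AF23

open MvPolynomial

variable {n : ℕ}

/-- the statements of parts A and B used in part C, for fields in `Type` -/
structure CHyp (n δ : ℕ) : Prop where
  exists_good : ∀ {K : Type} [Field K] [IsAlgClosed K] (f : Fin n → MvPolynomial (Fin n) K),
    IsTuple δ f → NoZero f →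
    ∃ m : (Fin n →₀ ℕ) → (Fin n →₀ ℕ), Good δ f (fun ν => monomial (m ν) 1)
  good_of_T : ∀ {K : Type} [Field K] (f : Fin n → MvPolynomial (Fin n) K)
    (b : (Fin n →₀ ℕ) → MvPolynomial (Fin n) K), IsTuple δ f →
    (∀ ν : Fin n →₀ ℕ, (∀ i, ν i < δ) → (b ν).IsHomogeneous ν.degree) →
    (∀ D ≤ n * δ, T δ f b D ≠ 0) → Good δ f b
  T_ne : ∀ {K : Type} [Field K] {f : Fin n → MvPolynomial (Fin n) K}
    {b : (Fin n →₀ ℕ) → MvPolynomial (Fin n) K}, Good δ f b → ∀ D, T δ f b D ≠ 0
  noZero : ∀ {K : Type} [Field K] {f : Fin n → MvPolynomial (Fin n) K}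
    {b : (Fin n →₀ ℕ) → MvPolynomial (Fin n) K}, Good δ f b → NoZero f
  res_eq : ∀ {K : Type} [Field K] {f : Fin n → MvPolynomial (Fin n) K}
    {b : (Fin n →₀ ℕ) → MvPolynomial (Fin n) K}, Good δ f b → Res δ f = ResAt δ f b n
  coreL : ∀ {ℓ : ℕ} [Fact ℓ.Prime], ¬ ℓ ∣ δ →
    ∀ {K : Type} [Field K] [IsAlgClosed K] [CharP K ℓ]
    (v : AbsoluteValue K ℝ), IsNonarchimedean v →
    ∀ (g : Fin n → MvPolynomial (Fin n) K), IsTuple δ g → NoZero g →
    (∀ i m, v (coeff m (g i)) ≤ 1) →
    ∀ (μ : Fin n → (Fin n →₀ ℕ)), v (Matrix.det (Matrix.of fun i j => coeff (μ j) (g i))) = 1 →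
    ∀ (F : MvPolynomial (Fin n) K →ₗ[K] K), (∀ i h, F (g i * h) = 0) →
    (∀ m : Fin n →₀ ℕ, m.degree = n * (δ - 1) → v (F (monomial m 1)) ≤ 1) →
    F (jac g) ≠ 0 → v (F (jac g)) < 1 →
    v (F (jac g)) ^ (δ ^ (n - 1)) < v (Res δ g)

theorem zprod_mul {ι L : Type*} [Field L] (s : Finset ι) (x : ι → L) (e : ι → ℤ)
    (hx : ∀ i ∈ s, x i ≠ 0) :
    (∏ i ∈ s, x i ^ e i) * ∏ i ∈ s, x i ^ (-e i).toNat = ∏ i ∈ s, x i ^ (e i).toNat := by
  rw [← Finset.prod_mul_distrib]
  refine Finset.prod_congr rfl fun i hi => ?_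
  rw [← zpow_natCast (x i) ((-e i).toNat), ← zpow_natCast (x i) ((e i).toNat), ← zpow_add₀ (hx i hi)]
  congr 1
  omega

theorem jac_isHomogeneous_C {K : Type*} [Field K] {δ : ℕ} {g : Fin n → MvPolynomial (Fin n) K}
    (hg : IsTuple δ g) : (jac g).IsHomogeneous (n * (δ - 1)) := by
  unfold jac
  rw [Matrix.det_apply]
  refine IsHomogeneous.sum _ _ _ fun σ _ => ?_
  have h1 : (∏ i, Matrix.of (fun i j => pderiv j (g i)) (σ i) i).IsHomogeneous
      (∑ _i : Fin n, (δ - 1)) := by
    refine IsHomogeneous.prod _ _ _ fun i _ => ?_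
    exact (hg (σ i)).pderiv
  rw [Finset.sum_const, Finset.card_univ, Fintype.card_fin, smul_eq_mul] at h1
  rcases Int.units_eq_one_or (Equiv.Perm.sign σ) with h | h
  · rw [h, one_smul]; exact h1
  · rw [h, Units.neg_smul, one_smul]; exact h1.neg

section
variable {δ : ℕ}

theorem core0_of (H : CHyp n δ) (hδ : 2 ≤ δ) {K : Type} [Field K] [IsAlgClosed K]
    [CharZero K]
    (O : ValuationSubring K) (hO : ∀ m : ℕ, m ≠ 0 → (m : K)⁻¹ ∈ O)
    (g : Fin n → MvPolynomial (Fin n) K) (hg : IsTuple δ g) (hg0 : NoZero g)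
    (hint : ∀ i m, coeff m (g i) ∈ O)
    (μ : Fin n → (Fin n →₀ ℕ))
    (hμ0 : Matrix.det (Matrix.of fun i j => coeff (μ j) (g i)) ≠ 0)
    (hμ : (Matrix.det (Matrix.of fun i j => coeff (μ j) (g i)))⁻¹ ∈ O)
    (F : MvPolynomial (Fin n) K →ₗ[K] K) (hF : ∀ i h, F (g i * h) = 0)
    (hFint : ∀ m : Fin n →₀ ℕ, m.degree = n * (δ - 1) → F (monomial m 1) ∈ O)
    (hτ0 : F (jac g) ≠ 0) (hτ1 : F (jac g) ∈ O.nonunits) :
    F (jac g) ^ (δ ^ (n - 1)) / Res δ g ∈ O.nonunits := by
  classical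
  by_contra hcon
  rw [ValuationSubring.mem_nonunits_iff_or, not_or, not_not] at hcon
  obtain ⟨hx0, hxinv⟩ := hcon
  obtain ⟨m, G⟩ := H.exists_good g hg hg0
  -- abbreviations
  set τ : K := F (jac g) with hτdef
  set N : ℕ := δ ^ (n - 1) with hN
  set s : ℕ := n * (δ - 1) with hs
  set Δ : K := Matrix.det (Matrix.of fun i j => coeff (μ j) (g i)) with hΔ
  have hR0 : Res δ g ≠ 0 := by
    intro h; rw [h, div_zero] at hx0; exact hx0 rfl
  have hτN : τ ^ N ≠ 0 := pow_ne_zero _ hτ0
  have hϑ : Res δ g = (τ ^ N / Res δ g)⁻¹ * τ ^ N := by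
    rw [inv_div]; field_simp
  set ϑ : K := (τ ^ N / Res δ g)⁻¹ with hϑdef
  -- the finitely generated ring `D`
  let Sset : Set K := ((⋃ i, ((g i).coeffs : Set K)) ∪
    Set.range (fun m : Mon n s => F (monomial m.1 1))) ∪ {Δ⁻¹, ϑ}
  have hSfin : Sset.Finite :=
    ((Set.finite_iUnion fun i => Finset.finite_toSet _).union (Set.finite_range _)).union
      (Set.toFinite _)
  let D : Subalgebra ℤ K := Algebra.adjoin ℤ Sset
  have hDft : Algebra.FiniteType ℤ D := Algebra.FiniteType.adjoin_of_finite hSfin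
  have hDO : D ≤ subalgebraOfSubring O.toSubring := by
    refine Algebra.adjoin_le ?_
    rintro x ((hx | ⟨m', rfl⟩) | (rfl | rfl))
    · obtain ⟨i, hi⟩ := Set.mem_iUnion.1 hx
      obtain ⟨m', -, rfl⟩ := mem_coeffs_iff.1 (Finset.mem_coe.1 hi)
      exact hint i m'
    · refine hFint m'.1 ?_
      have h2 := m'.2
      rw [Finset.mem_finsuppAntidiag] at h2
      rw [Finsupp.degree_eq_sum]
      exact h2.1
    · exact hμ
    · exact hxinv
  have hSD : ∀ x ∈ Sset, x ∈ D := fun x hx => Algebra.subset_adjoin hx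
  let ι : D →+* K := algebraMap D K
  have hι : ∀ x : D, ι x = (x : K) := fun x => rfl
  have hιinj : Function.Injective ι := Subtype.val_injective
  let j : D →+* O :=
    { toFun := fun x => ⟨x.1, hDO x.2⟩
      map_one' := rfl
      map_mul' := fun _ _ => rfl
      map_zero' := rfl
      map_add' := fun _ _ => rfl }
  let P : Ideal D := Ideal.comap j (IsLocalRing.maximalIdeal O)
  have hPp : P.IsPrime := Ideal.comap_isPrime _ _
  have hPmem : ∀ x : D, x ∈ P ↔ (x : K) ∈ O.nonunits := by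
    intro x
    rw [Ideal.mem_comap]
    exact (ValuationSubring.coe_mem_nonunits_iff (A := O) (a := j x)).symm
  have hP : ∀ m : ℕ, m ≠ 0 → (m : D) ∉ P := by
    intro m hm h
    rw [hPmem, ValuationSubring.mem_nonunits_iff_or] at h
    have e1 : (((m : D)) : K) = (m : K) := by push_cast; rfl
    rw [e1] at h
    rcases h with h | h
    · exact hm (by exact_mod_cast h)
    · exact h (hO m hm)
  -- data over `D`
  have hgD : ∀ i, ∃ p : MvPolynomial (Fin n) D, map ι p = g i := by
    intro i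
    have h1 : g i ∈ Set.range (MvPolynomial.map (σ := Fin n) ι) := by
      rw [mem_range_map_iff_coeffs_subset]
      intro x hx
      have hx' : x ∈ D := hSD x (Or.inl (Or.inl (Set.mem_iUnion.2 ⟨i, hx⟩)))
      exact ⟨⟨x, hx'⟩, rfl⟩
    exact h1
  choose gD hgD using hgD
  have hgfun : (fun i => map ι (gD i)) = g := funext hgD
  have hmonD : ∀ m : Fin n →₀ ℕ, m.degree = s → F (monomial m 1) ∈ D := by
    intro m hm
    refine hSD _ (Or.inl (Or.inr ⟨⟨m, ?_⟩, rfl⟩))
    rw [Finset.mem_finsuppAntidiag]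
    rw [Finsupp.degree_eq_sum] at hm
    exact ⟨hm, Finset.subset_univ _⟩
  let c : (Fin n →₀ ℕ) → D := fun m => if h : m.degree = s then ⟨F (monomial m 1), hmonD m h⟩ else 0
  have hc : (fun m => ι (c m)) = fun m => if m.degree = s then F (monomial m 1) else 0 := by
    funext m
    by_cases h : m.degree = s
    · simp only [c, dif_pos h, if_pos h]; rfl
    · simp only [c, dif_neg h, if_neg h]; exact map_zero ι
  let a : D := Lc c (jacRc gD)
  have ha : ι a = τ := by
    rw [← Lc_map ι c (jacRc gD), ← jac_map ι gD, hgfun, hc,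
      Lc_eq_of_homogeneous F s (jac g) (jac_isHomogeneous_C hg)]
  have haP : a ∈ P := by
    rw [hPmem, ← hι, ha]; exact hτ1
  have ha0 : a ≠ 0 := by
    intro h; apply hτ0; rw [← ha, h, map_zero]
  let bb : D := ∏ k ∈ Finset.range (n * δ + 1), TRc δ gD m k
  have hTι : ∀ k, ι (TRc δ gD m k) = T δ g (fun ν => monomial (m ν) 1) k := by
    intro k
    rw [← T_map ι δ gD m k, hgfun]
  have hb0 : bb ≠ 0 := by
    rw [Finset.prod_ne_zero_iff]
    intro k _ h
    apply H.T_ne G k
    rw [← hTι, h, map_zero]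
  obtain ⟨ℓ, hℓ, K', fK', cK', pK', v, φ, hℓδ, hv, hvφ, hφa, hφa1, hφb⟩ :=
    exists_reduction P hP δ (by omega) a bb haP ha0 hb0
  -- the reduced tuple
  let g' : Fin n → MvPolynomial (Fin n) K' := fun i => map φ (gD i)
  have hg' : IsTuple δ g' := by
    intro i
    have h1 : (gD i).IsHomogeneous δ := by
      apply IsHomogeneous.of_map hιinj
      rw [hgD i]; exact hg i
    exact h1.map φ
  have hT' : ∀ k, T δ g' (fun ν => monomial (m ν) 1) k = φ (TRc δ gD m k) := fun k =>
    T_map φ δ gD m k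
  have hT'ne : ∀ k ≤ n * δ, φ (TRc δ gD m k) ≠ 0 := by
    intro k hk h
    apply hφb
    rw [map_prod]
    exact Finset.prod_eq_zero (Finset.mem_range.2 (by omega)) h
  have G' : Good δ g' (fun ν => monomial (m ν) 1) := by
    refine H.good_of_T g' _ hg' ?_ ?_
    · intro ν hν
      have h1 := G.bhom ν hν
      have h2 : (m ν).degree = ν.degree := by
        apply degree_of_mem_support h1
        rw [mem_support_iff, coeff_monomial, if_pos rfl]
        exact one_ne_zero
      exact isHomogeneous_monomial _ h2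
    · intro k hk
      rw [hT']
      exact hT'ne k hk
  have hg'0 : NoZero g' := H.noZero G'
  let F' : MvPolynomial (Fin n) K' →ₗ[K'] K' := Lc fun m => φ (c m)
  have hF'map : ∀ p : MvPolynomial (Fin n) D, F' (map φ p) = φ (Lc c p) := fun p => Lc_map φ c p
  have hF'0 : ∀ i h, F' (g' i * h) = 0 := by
    intro i h
    induction h using MvPolynomial.induction_on' with
    | monomial u t =>
      have h1 : (monomial u t : MvPolynomial (Fin n) K') = t • map φ (monomial u 1) := by
        rw [map_monomial, map_one, smul_monomial, smul_eq_mul, mul_one]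
      rw [h1, mul_smul_comm, map_smul]
      have h2 : Lc c (gD i * monomial u 1) = 0 := by
        apply hιinj
        rw [map_zero, ← Lc_map ι c, hc, map_mul, hgD i, map_monomial, map_one]
        have h3 : (g i * monomial u 1).IsHomogeneous (δ + u.degree) :=
          (hg i).mul (isHomogeneous_monomial _ rfl)
        by_cases h4 : δ + u.degree = s
        · rw [h4] at h3
          rw [Lc_eq_of_homogeneous F s _ h3, hF]
        · exact Lc_eq_zero_of_homogeneous (fun m => F (monomial m 1)) s _ h4 _ h3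
      have h5 : F' (g' i * map φ (monomial u 1)) = 0 := by
        have h6 : g' i * map φ (monomial u 1) = map φ (gD i * monomial u 1) := by
          rw [map_mul]
        rw [h6, hF'map, h2, map_zero]
      rw [h5, smul_zero]
    | add p q hp hq => rw [mul_add, map_add, hp, hq, add_zero]
  have hint' : ∀ i m, v (coeff m (g' i)) ≤ 1 := by
    intro i m
    show v (coeff m (map φ (gD i))) ≤ 1
    rw [coeff_map]
    exact hvφ _
  have hjac' : F' (jac g') = φ a := by
    show F' (jac fun i => map φ (gD i)) = φ a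
    rw [jac_map φ gD, hF'map]
  -- the minor
  let ΔD : D := Matrix.det (Matrix.of fun i j => coeff (μ j) (gD i))
  have hΔι : ι ΔD = Δ := by
    rw [hΔ, RingHom.map_det]
    congr 1
    ext i j
    simp only [Matrix.of_apply, RingHom.mapMatrix_apply, Matrix.map_apply]
    rw [← coeff_map, hgD i]
  have hΔφ : φ ΔD = Matrix.det (Matrix.of fun i j => coeff (μ j) (g' i)) := by
    rw [RingHom.map_det]
    congr 1
  let w : D := ⟨Δ⁻¹, hSD _ (Or.inr (Or.inl rfl))⟩
  have hw : ΔD * w = 1 := by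
    apply hιinj
    rw [map_mul, hΔι, map_one]
    show Δ * Δ⁻¹ = 1
    exact mul_inv_cancel₀ hμ0
  have hvΔ : v (Matrix.det (Matrix.of fun i j => coeff (μ j) (g' i))) = 1 := by
    rw [← hΔφ]
    have h1 : v (φ ΔD) * v (φ w) = 1 := by
      rw [← map_mul v, ← map_mul φ, hw, map_one, map_one]
    have h2 := hvφ ΔD
    have h3 := hvφ w
    have h4 : 0 ≤ v (φ w) := v.nonneg _
    have h5 : 0 ≤ v (φ ΔD) := v.nonneg _
    nlinarith
  have hF'int : ∀ m : Fin n →₀ ℕ, m.degree = n * (δ - 1) → v (F' (monomial m 1)) ≤ 1 := by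
    intro m _
    show v (Lc (fun m => φ (c m)) (monomial m 1)) ≤ 1
    rw [Lc_monomial, one_mul]
    exact hvφ _
  have hcore := H.coreL hℓδ v hv g' hg' hg'0 hint' μ hvΔ F' hF'0 hF'int
    (by rw [hjac']; exact hφa) (by rw [hjac']; exact hφa1)
  rw [hjac'] at hcore
  -- the resultant
  let e : ℕ → ℤ := fun i => (-1 : ℤ) ^ i * (n.choose i : ℤ)
  let A : D := ∏ i ∈ Finset.range (n + 1), TRc δ gD m ((n - i) * δ) ^ (e i).toNat
  let B : D := ∏ i ∈ Finset.range (n + 1), TRc δ gD m ((n - i) * δ) ^ (-e i).toNat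
  let ϑD : D := ⟨ϑ, hSD _ (Or.inr (Or.inr rfl))⟩
  have hAB : A = ϑD * a ^ N * B := by
    apply hιinj
    have h1 := zprod_mul (Finset.range (n + 1))
      (fun i => T δ g (fun ν => monomial (m ν) 1) ((n - i) * δ)) e (fun i _ => H.T_ne G _)
    have h2 : (∏ i ∈ Finset.range (n + 1),
        (T δ g (fun ν => monomial (m ν) 1) ((n - i) * δ)) ^ e i) = Res δ g := by
      rw [H.res_eq G]; rfl
    rw [h2, hϑ] at h1
    have h3 : ι A = ∏ i ∈ Finset.range (n + 1),
        (T δ g (fun ν => monomial (m ν) 1) ((n - i) * δ)) ^ (e i).toNat := by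
      rw [map_prod]
      refine Finset.prod_congr rfl fun i _ => ?_
      rw [map_pow, hTι]
    have h4 : ι B = ∏ i ∈ Finset.range (n + 1),
        (T δ g (fun ν => monomial (m ν) 1) ((n - i) * δ)) ^ (-e i).toNat := by
      rw [map_prod]
      refine Finset.prod_congr rfl fun i _ => ?_
      rw [map_pow, hTι]
    rw [h3, ← h1, map_mul, map_mul, map_pow, ha, h4]
    rfl
  have hres' : Res δ g' * φ B = φ A := by
    have h1 := zprod_mul (Finset.range (n + 1))
      (fun i => T δ g' (fun ν => monomial (m ν) 1) ((n - i) * δ)) e (fun i _ => H.T_ne G' _)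
    have h2 : (∏ i ∈ Finset.range (n + 1),
        (T δ g' (fun ν => monomial (m ν) 1) ((n - i) * δ)) ^ e i) = Res δ g' := by
      rw [H.res_eq G']; rfl
    rw [h2] at h1
    have h3 : φ A = ∏ i ∈ Finset.range (n + 1),
        (T δ g' (fun ν => monomial (m ν) 1) ((n - i) * δ)) ^ (e i).toNat := by
      rw [map_prod]
      refine Finset.prod_congr rfl fun i _ => ?_
      rw [map_pow, hT']
    have h4 : φ B = ∏ i ∈ Finset.range (n + 1),
        (T δ g' (fun ν => monomial (m ν) 1) ((n - i) * δ)) ^ (-e i).toNat := by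
      rw [map_prod]
      refine Finset.prod_congr rfl fun i _ => ?_
      rw [map_pow, hT']
    rw [h3, h4]
    exact h1
  have hφB : φ B ≠ 0 := by
    rw [map_prod, Finset.prod_ne_zero_iff]
    intro i _
    rw [map_pow]
    refine pow_ne_zero _ (hT'ne _ (Nat.mul_le_mul_right _ (Nat.sub_le _ _)))
  have hfin : Res δ g' = φ ϑD * φ a ^ N := by
    apply mul_right_cancel₀ hφB
    rw [hres', hAB, map_mul, map_mul, map_pow]
  rw [hfin, map_mul, map_pow] at hcore
  have h1 := hvφ ϑD
  have h2 : 0 ≤ v (φ a) ^ N := pow_nonneg (v.nonneg _) _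
  have h3 : v (φ ϑD) * v (φ a) ^ N ≤ v (φ a) ^ N := mul_le_of_le_one_left h2 h1
  exact absurd hcore (not_lt.2 h3)

end

end AF23
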