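import Mathlib

/-! Part C, step 1: a rank one absolute value from a valuation subring `V₀` and a nonunit `a`
all of whose inverse powers exhaust the field. -/

namespace AF23

open ValuationSubring

/-- the rank one coarsening -/
noncomputable def coarsen {K : Type*} [Field K] (V₀ : ValuationSubring K) (a : K)
    (ha : V₀.valuation a ≤ 1) : ValuationSubring K where
  carrier := {x | ∀ n : ℕ, V₀.valuation a * V₀.valuation x ^ n ≤ 1}
  mul_mem' := by
    intro x y hx hy n
    rw [map_mul, mul_pow]
    rcases le_total (V₀.valuation x) (V₀.valuation y) with h | h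
    · calc V₀.valuation a * (V₀.valuation x ^ n * V₀.valuation y ^ n)
          ≤ V₀.valuation a * (V₀.valuation y ^ n * V₀.valuation y ^ n) := by gcongr
        _ = V₀.valuation a * V₀.valuation y ^ (n + n) := by rw [pow_add]
        _ ≤ 1 := hy _
    · calc V₀.valuation a * (V₀.valuation x ^ n * V₀.valuation y ^ n)
          ≤ V₀.valuation a * (V₀.valuation x ^ n * V₀.valuation x ^ n) := by gcongr
        _ = V₀.valuation a * V₀.valuation x ^ (n + n) := by rw [pow_add]
        _ ≤ 1 := hx _
  one_mem' := by
    intro n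
    simpa using ha
  add_mem' := by
    intro x y hx hy n
    rcases le_total (V₀.valuation x) (V₀.valuation y) with h | h
    · have h2 : V₀.valuation (x + y) ≤ V₀.valuation y :=
        (V₀.valuation.map_add x y).trans (max_le h le_rfl)
      exact (mul_le_mul_right (pow_le_pow_left₀ zero_le h2 n) _).trans (hy n)
    · have h2 : V₀.valuation (x + y) ≤ V₀.valuation x :=
        (V₀.valuation.map_add x y).trans (max_le le_rfl h)
      exact (mul_le_mul_right (pow_le_pow_left₀ zero_le h2 n) _).trans (hx n)
  zero_mem' := by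
    intro n
    rcases Nat.eq_zero_or_pos n with h | h
    · subst h; simpa using ha
    · simp [zero_pow h.ne']
  neg_mem' := by
    intro x hx n
    simpa [Valuation.map_neg] using hx n
  mem_or_inv_mem' := by
    intro x
    have key : ∀ y : K, V₀.valuation y ≤ 1 → ∀ n : ℕ, V₀.valuation a * V₀.valuation y ^ n ≤ 1 := by
      intro y hy n
      exact mul_le_one' ha (pow_le_one' hy n)
    rcases V₀.mem_or_inv_mem x with h | h
    · exact Or.inl (key x ((V₀.valuation_le_one_iff x).2 h))
    · exact Or.inr (key _ ((V₀.valuation_le_one_iff _).2 h))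

theorem mem_coarsen {K : Type*} [Field K] (V₀ : ValuationSubring K) (a : K)
    (ha : V₀.valuation a ≤ 1) (x : K) :
    x ∈ coarsen V₀ a ha ↔ ∀ n : ℕ, V₀.valuation a * V₀.valuation x ^ n ≤ 1 := Iff.rfl

theorem exists_absoluteValue {K : Type*} [Field K] (V₀ : ValuationSubring K) (a : K)
    (ha0 : a ≠ 0) (ha : a ∈ V₀.nonunits) (harch : ∀ x : K, ∃ k : ℕ, a ^ k * x ∈ V₀) :
    ∃ v : AbsoluteValue K ℝ, IsNonarchimedean v ∧ (∀ x ∈ V₀, v x ≤ 1) ∧ v a < 1 := by
  have ha1 : V₀.valuation a < 1 := V₀.mem_nonunits_iff.1 ha
  set V := coarsen V₀ a ha1.le with hV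
  have hle : ∀ x ∈ V₀, x ∈ V := by
    intro x hx n
    exact mul_le_one' ha1.le (pow_le_one' ((V₀.valuation_le_one_iff x).2 hx) n)
  have hva0 : V₀.valuation a ≠ 0 := (Valuation.ne_zero_iff _).2 ha0
  have hainv : a⁻¹ ∉ V := by
    intro h
    have h2 := h 2
    rw [map_inv₀] at h2
    have h3 : V₀.valuation a * (V₀.valuation a)⁻¹ ^ 2 = (V₀.valuation a)⁻¹ := by
      field_simp
    rw [h3] at h2
    exact absurd (one_lt_inv₀ (zero_lt_iff.2 hva0) |>.2 ha1) (not_lt.2 h2)
  have harch' : MulArchimedean V.ValueGroup := by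
    refine ⟨fun x y hy => ?_⟩
    obtain ⟨s, rfl⟩ := V.valuation_surjective x
    obtain ⟨t, rfl⟩ := V.valuation_surjective y
    have ht : t ∉ V := fun h => absurd hy (not_lt.2 ((V.valuation_le_one_iff t).2 h))
    rw [hV, mem_coarsen] at ht
    push Not at ht
    obtain ⟨n, hn⟩ := ht
    obtain ⟨k, hk⟩ := harch s
    refine ⟨n * k, ?_⟩
    have ht0 : t ≠ 0 := by
      rintro rfl
      rw [map_zero] at hy
      exact absurd hy (not_lt.2 zero_le)
    have hvt0 : V₀.valuation t ≠ 0 := (Valuation.ne_zero_iff _).2 ht0
    have h1 : V₀.valuation a ^ k * V₀.valuation s ≤ 1 := by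
      rw [← map_pow, ← map_mul]
      exact (V₀.valuation_le_one_iff _).2 hk
    have h2 : V₀.valuation (s / t ^ (n * k)) ≤ 1 := by
      rw [map_div₀, map_pow]
      rw [div_le_one₀ (zero_lt_iff.2 (pow_ne_zero _ hvt0))]
      have h3 : 1 ≤ (V₀.valuation a * V₀.valuation t ^ n) ^ k := one_le_pow_of_one_le' hn.le k
      rw [mul_pow, ← pow_mul] at h3
      have hak : V₀.valuation a ^ k ≠ 0 := pow_ne_zero _ hva0
      have h4 : V₀.valuation a ^ k * V₀.valuation s
          ≤ V₀.valuation a ^ k * V₀.valuation t ^ (n * k) := h1.trans h3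
      exact le_of_mul_le_mul_left h4 (zero_lt_iff.2 hak)
    have h3 : s / t ^ (n * k) ∈ V := hle _ ((V₀.valuation_le_one_iff _).1 h2)
    have h4 := (V.valuation_le_one_iff _).2 h3
    rw [map_div₀, map_pow, div_le_one₀ (zero_lt_iff.2 (pow_ne_zero _
      ((Valuation.ne_zero_iff _).2 ht0)))] at h4
    exact h4
  have hVa : V.valuation a < 1 := by
    rw [← V.mem_nonunits_iff, V.mem_nonunits_iff_or]
    exact Or.inr hainv
  have hnt : V.valuation.IsNontrivial := ⟨⟨a, (Valuation.ne_zero_iff _).2 ha0, hVa.ne⟩⟩
  have hR : Nonempty V.valuation.RankOne := by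
    rw [Valuation.nonempty_rankOne_iff_mulArchimedean]
    exact MulArchimedean.comap MonoidWithZeroHom.ValueGroup₀.embedding.toMonoidHom
      MonoidWithZeroHom.ValueGroup₀.embedding_strictMono
  obtain ⟨R⟩ := hR
  let f := Valuation.RankOne.hom V.valuation
  have hf : StrictMono f := Valuation.RankOne.strictMono V.valuation
  let w : K → ℝ := fun x => ((f (V.valuation.restrict x) : NNReal) : ℝ)
  have hmono : ∀ x y : K, V.valuation x ≤ V.valuation y → w x ≤ w y := by
    intro x y h
    have : V.valuation.restrict x ≤ V.valuation.restrict y := by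
      simpa using h
    exact NNReal.coe_le_coe.2 (hf.monotone this)
  have hlt : ∀ x y : K, V.valuation x < V.valuation y → w x < w y := by
    intro x y h
    have : V.valuation.restrict x < V.valuation.restrict y := by
      simpa using h
    exact NNReal.coe_lt_coe.2 (hf this)
  have hw1 : w 1 = 1 := by simp [w]
  have hw0 : w 0 = 0 := by simp [w]
  refine ⟨{ toFun := w, map_mul' := ?_, nonneg' := ?_, eq_zero' := ?_, add_le' := ?_ }, ?_, ?_, ?_⟩
  · intro x y
    simp [w]
  · intro x
    exact NNReal.coe_nonneg _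
  · intro x
    constructor
    · intro h
      by_contra hx
      have h0 : V.valuation 0 < V.valuation x := by
        rw [map_zero]
        exact zero_lt_iff.2 ((Valuation.ne_zero_iff _).2 hx)
      have := hlt _ _ h0
      rw [hw0, h] at this
      exact lt_irrefl _ this
    · rintro rfl
      exact hw0
  · intro x y
    have h0 : ∀ z, 0 ≤ w z := fun z => NNReal.coe_nonneg _
    rcases le_total (V.valuation x) (V.valuation y) with h | h
    · have := hmono (x + y) y ((V.valuation.map_add x y).trans (max_le h le_rfl))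
      linarith [h0 x]
    · have := hmono (x + y) x ((V.valuation.map_add x y).trans (max_le le_rfl h))
      linarith [h0 y]
  · intro x y
    show w (x + y) ≤ max (w x) (w y)
    rcases le_total (V.valuation x) (V.valuation y) with h | h
    · exact (hmono (x + y) y ((V.valuation.map_add x y).trans (max_le h le_rfl))).trans
        (le_max_right _ _)
    · exact (hmono (x + y) x ((V.valuation.map_add x y).trans (max_le le_rfl h))).trans
        (le_max_left _ _)
  · intro x hx
    show w x ≤ 1
    rw [← hw1]
    apply hmono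
    rw [map_one]
    exact (V.valuation_le_one_iff x).2 (hle x hx)
  · show w a < 1
    rw [← hw1]
    apply hlt
    rw [map_one]
    exact hVa

end AF23
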