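import Pool.Agent.AF23.A2
import Pool.Agent.AF23.B1
import Pool.Agent.AF23.B2
import Pool.Agent.AF23.B6
import Pool.Agent.AF23.B7

/-! Part B: the core inequality in positive characteristic -/

namespace AF23

open MvPolynomial

variable {n δ ℓ : ℕ}

namespace BCtx
variable {K : Type*} [Field K] (B : BCtx n δ ℓ K)

theorem contra [IsAlgClosed K] [CharP K ℓ] (μ : Fin n → (Fin n →₀ ℕ))
    (hμ : B.v (Matrix.det (Matrix.of fun i j => coeff (μ j) (B.g i))) = 1)
    (hR : B.v (Res δ B.g) ≤ B.t ^ (δ ^ (n - 1))) : False := by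
  have hn := B.hn
  have hδ := B.hδ
  have hn1 : 1 ≤ n := by omega
  have hδ1 : 1 ≤ δ := by omega
  have ht0 := B.t0
  have ht1 : 1 < B.t⁻¹ := (one_lt_inv₀ B.t0).2 B.t1
  have htp : 0 < B.t⁻¹ := zero_lt_one.trans ht1
  have hinf : Infinite K := inferInstance
  obtain ⟨C5, hC5, h5⟩ := B.lv_bounds
  obtain ⟨C6, hC6, h6⟩ := B.dual_ineq μ hμ
  have hTpos : ∀ D, 0 < B.v (T δ B.g B.b D) := fun D => B.v.pos (B.T_ne D)
  have hRpos : 0 < B.v (Res δ B.g) := B.v.pos (B.G.res_ne hn1 hδ1)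
  obtain ⟨Λ⟩ : Nonempty (∀ k, B.Tri k) := ⟨fun k => (B.exists_tri k).some⟩
  set p : ℝ := Real.log B.t⁻¹ with hp
  set c : ℝ := max (Real.log C5) (Real.log C6) with hc
  have hc5 : Real.log C5 ≤ c := le_max_left _ _
  have hc6 : Real.log C6 ≤ c := le_max_right _ _
  have hC5p : 0 < C5 := zero_lt_one.trans_le hC5
  have hC6p : 0 < C6 := zero_lt_one.trans_le hC6
  have hN0 : (0 : ℝ) ≤ (δ : ℝ) ^ (n - 1) := by positivity
  have hlogpow : ∀ a : ℕ, Real.log ((B.t⁻¹) ^ a) = a * p := fun a => by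
    rw [Real.log_pow]
  refine numeric hn hδ B.hℓ (fun k => Real.log ((B.v (T δ B.g B.b (k * δ)))⁻¹))
    (Real.log ((B.v (Res δ B.g))⁻¹)) p c (Real.log_pos ht1)
    ((Real.log_nonneg hC5).trans hc5) ?_ ?_ (fun k β => Real.log ((Λ k).lv β)) ?_ ?_ ?_ ?_
  · have h1 : (B.t⁻¹) ^ (δ ^ (n - 1)) ≤ (B.v (Res δ B.g))⁻¹ := by
      rw [inv_pow]
      exact inv_anti₀ hRpos hR
    have h2 := Real.log_le_log (pow_pos htp _) h1
    rw [hlogpow] at h2
    push_cast at h2
    exact h2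
  · intro k hk
    have h1 := B.G.resAt_eq hn1 hδ1 k hk
    rw [← h1, ResAt, map_prod, ← Finset.prod_inv_distrib, Real.log_prod]
    · refine Finset.sum_congr rfl fun i _ => ?_
      rw [map_zpow₀, ← inv_zpow, Real.log_zpow]
      push_cast
      rfl
    · intro i _
      exact inv_ne_zero (B.v.ne_zero_iff.2 (zpow_ne_zero _ (B.T_ne _)))
  · intro k
    rw [← Real.log_prod]
    · rw [(Λ k).prod_lv]
    · intro β _
      exact ((Λ k).lv_pos β).ne'
  · intro k β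
    have h1 := (h5 k (Λ k)).2.1 β
    have h2 := Real.log_le_log ((Λ k).lv_pos β) h1
    rw [Real.log_pow, Real.log_mul hC5p.ne' (pow_pos htp _).ne', hlogpow] at h2
    push_cast at h2
    refine h2.trans (mul_le_mul_of_nonneg_left ?_ hN0)
    linarith
  · intro k β hβ γ hγ
    have h1 := (h5 k (Λ k)).2.2 β hβ γ hγ
    have h2 := Real.log_le_log (Finset.prod_pos fun i _ => (Λ k).lv_pos (γ i)) h1
    rw [Real.log_prod (fun i _ => ((Λ k).lv_pos (γ i)).ne'),
      Real.log_mul hC5p.ne' (pow_pos htp _).ne', hlogpow] at h2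
    push_cast at h2
    refine h2.trans ?_
    have h3 : (δ : ℝ) ^ (n - 1) * k * p = (δ : ℝ) ^ (n - 1) * (k * p) := by ring
    rw [h3]
    linarith
  · intro e j hj hq
    have h1 := h6 e j hj hq (Λ _)
    have hprodpos : 0 < ∏ β ∈ (Finset.univ : Finset (Mon n (n * (ℓ ^ e - 1) -
        (ℓ ^ e + j)))).filter (fun β => ∀ i, n ≤ β.1 i ∧ β.1 i + n ≤ ℓ ^ e),
        (Λ (n * (ℓ ^ e - 1) - (ℓ ^ e + j))).lv β :=
      Finset.prod_pos fun β _ => (Λ _).lv_pos β
    have hA : 0 < (B.v (T δ B.g B.b ((ℓ ^ e + j) * δ)))⁻¹ := inv_pos.2 (hTpos _)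
    have hB : 0 < (B.v (T δ B.g B.b (j * δ))) ^ n := pow_pos (hTpos _) _
    have h2 := Real.log_le_log (mul_pos (mul_pos hA hB) hprodpos) h1
    rw [Real.log_mul (mul_pos hA hB).ne' hprodpos.ne', Real.log_mul hA.ne' hB.ne',
      Real.log_prod (fun β _ => ((Λ _).lv_pos β).ne'), Real.log_pow,
      Real.log_mul (pow_pos (mul_pos hC6p (pow_pos htp _)) _).ne' (pow_pos hC6p _).ne',
      Real.log_pow, Real.log_pow, Real.log_mul hC6p.ne' (pow_pos htp _).ne', hlogpow] at h2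
    push_cast at h2
    have h3 : Real.log ((B.v (T δ B.g B.b (j * δ)))⁻¹) =
        - Real.log (B.v (T δ B.g B.b (j * δ))) := Real.log_inv _
    have h4 : (Fintype.card {α : Mon n ((ℓ ^ e + j) * δ) // ∀ i, α.1 i < ℓ ^ e * δ} : ℝ) *
        (Real.log C6 + (ℓ : ℝ) ^ e * p) ≤
        (Fintype.card {α : Mon n ((ℓ ^ e + j) * δ) // ∀ i, α.1 i < ℓ ^ e * δ} : ℝ) *
        ((ℓ : ℝ) ^ e * p + c) := by
      apply mul_le_mul_of_nonneg_left _ (Nat.cast_nonneg _)
      linarith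
    have h5' : ((ℓ : ℝ) ^ e) ^ (n - 1) * Real.log C6 ≤ c * ((ℓ : ℝ) ^ e) ^ (n - 1) := by
      rw [mul_comm]
      apply mul_le_mul_of_nonneg_right hc6
      positivity
    show Real.log ((B.v (T δ B.g B.b ((ℓ ^ e + j) * δ)))⁻¹) -
      n * Real.log ((B.v (T δ B.g B.b (j * δ)))⁻¹) + _ ≤ _
    rw [h3]
    linarith

end BCtx

lemma jac_lin_B {K : Type*} [Field K] (C : Matrix (Fin n) (Fin n) K)
    (f : Fin n → MvPolynomial (Fin n) K) : jac (lin C f) = C.det • jac f := by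
  have h1 : (Matrix.of fun i j => pderiv j (lin C f i)) =
      (C.map (MvPolynomial.C (σ := Fin n))) * (Matrix.of fun i j => pderiv j (f i)) := by
    ext1 i j
    simp only [Matrix.of_apply, Matrix.mul_apply, Matrix.map_apply, lin, map_sum]
    refine Finset.sum_congr rfl fun l _ => ?_
    rw [pderiv_C_mul]
  rw [jac, h1, Matrix.det_mul, jac, smul_eq_C_mul, RingHom.map_det]; rfl

theorem coreL (hn : 2 ≤ n) (hδ : 2 ≤ δ) {ℓ : ℕ} [Fact ℓ.Prime] (hℓ : ¬ ℓ ∣ δ)
    {K : Type*} [Field K] [IsAlgClosed K] [CharP K ℓ]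
    (v : AbsoluteValue K ℝ) (hv : IsNonarchimedean v)
    (g : Fin n → MvPolynomial (Fin n) K) (hg : IsTuple δ g) (hg0 : NoZero g)
    (hint : ∀ i m, v (coeff m (g i)) ≤ 1)
    (μ : Fin n → (Fin n →₀ ℕ)) (hμ : v (Matrix.det (Matrix.of fun i j => coeff (μ j) (g i))) = 1)
    (F : MvPolynomial (Fin n) K →ₗ[K] K) (hF : ∀ i h, F (g i * h) = 0)
    (hFint : ∀ m : Fin n →₀ ℕ, m.degree = n * (δ - 1) → v (F (monomial m 1)) ≤ 1)
    (hτ0 : F (jac g) ≠ 0) (hτ1 : v (F (jac g)) < 1) :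
    v (F (jac g)) ^ (δ ^ (n - 1)) < v (Res δ g) := by
  by_contra hcon
  push Not at hcon
  have hn1 : 1 ≤ n := by omega
  have hδ1 : 1 ≤ δ := by omega
  have hδK : (δ : K) ≠ 0 := by
    intro h
    exact hℓ ((CharP.cast_eq_zero_iff K ℓ δ).1 h)
  obtain ⟨m, G0⟩ := exists_good hn1 hδ1 g hg hg0
  have hJ : jac g ≠ 0 := by
    intro h; rw [h, map_zero] at hτ0; exact hτ0 rfl
  obtain ⟨C, hC1, hC2, x, hx, hV⟩ := exists_points hn hδ v hv hδK g m G0 hJ ⟨0, hn1⟩
  have hC0 : C.det ≠ 0 := by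
    intro h; rw [h, map_zero] at hC2; exact zero_ne_one hC2
  have G := good_lin G0 C hC0
  have hgint : ∀ i, IntP v (lin C g i) := by
    intro i
    exact IntP.sum hv _ fun j _ => IntP.C_mul hv (fun e => hint j e) (hC1 i j)
  have hF' : ∀ i h, F (lin C g i * h) = 0 := by
    intro i h
    rw [lin, Finset.sum_mul, map_sum]
    refine Finset.sum_eq_zero fun j _ => ?_
    rw [mul_assoc, ← smul_eq_C_mul, map_smul, hF, smul_zero]
  have hjac : v (F (jac (lin C g))) = v (F (jac g)) := by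
    rw [jac_lin_B, map_smul, smul_eq_mul, map_mul, hC2, one_mul]
  have hτ0' : F (jac (lin C g)) ≠ 0 := by
    rw [jac_lin_B, map_smul, smul_eq_mul]
    exact mul_ne_zero hC0 hτ0
  obtain ⟨Cσ, hCσ, hfrob⟩ := frob_bound hn hδ hℓ v hv (lin C g) m G hgint F hF' hFint hτ0'
  rw [hjac] at hfrob
  let B : BCtx n δ ℓ K :=
    { hn := hn
      hδ := hδ
      hℓ := Fact.out
      v := v
      na := hv
      g := lin C g
      m := m
      G := G
      gint := hgint
      i0 := ⟨0, hn1⟩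
      x := x
      hx := hx
      hV := hV
      t := v (F (jac g))
      t0 := v.pos hτ0
      t1 := hτ1
      Cσ := Cσ
      Cσ0 := hCσ
      frob := hfrob
      dual := fun j hj c hc h => G.duality hn1 hδ1 j hj c hc h }
  refine B.contra μ ?_ ?_
  · show v (Matrix.det (Matrix.of fun i j => coeff (μ j) (lin C g i))) = 1
    have h1 : (Matrix.of fun i j => coeff (μ j) (lin C g i)) =
        C * (Matrix.of fun i j => coeff (μ j) (g i)) := by
      ext i j
      rw [Matrix.mul_apply, Matrix.of_apply, lin, coeff_sum]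
      refine Finset.sum_congr rfl fun l _ => ?_
      rw [coeff_C_mul]; rfl
    rw [h1, Matrix.det_mul, map_mul, hC2, hμ, one_mul]
  · show v (Res δ (lin C g)) ≤ v (F (jac g)) ^ (δ ^ (n - 1))
    rw [res_lin hn1 hδ1 G0 C hC0, map_mul, map_pow, hC2, one_pow, one_mul]
    exact hcon

end AF23
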