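import Pool.Agent.AF23.C
import Pool.Agent.AF23.CoreL

/-! Part C: the core inequality in residue characteristic `0` -/

namespace AF23

open MvPolynomial

variable {n δ : ℕ}

theorem chyp (hn : 2 ≤ n) (hδ : 2 ≤ δ) : CHyp n δ where
  exists_good f hf h0 := exists_good (by omega) (by omega) f hf h0
  good_of_T f b hf hb hT := good_of_T (by omega) (by omega) f b hf hb hT
  T_ne G D := G.T_ne (by omega) D
  noZero G := G.noZero (by omega) (by omega)
  res_eq G := G.res_eq (by omega) (by omega)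
  coreL := by
    intro ℓ _ hℓ K _ _ _ v hv g hg hg0 hint μ hμ F hF hFint hτ0 hτ1
    exact coreL hn hδ hℓ v hv g hg hg0 hint μ hμ F hF hFint hτ0 hτ1

theorem core0 (hn : 2 ≤ n) (hδ : 2 ≤ δ) {K : Type} [Field K] [IsAlgClosed K] [CharZero K]
    (O : ValuationSubring K) (hO : ∀ m : ℕ, m ≠ 0 → (m : K)⁻¹ ∈ O)
    (g : Fin n → MvPolynomial (Fin n) K) (hg : IsTuple δ g) (hg0 : NoZero g)
    (hint : ∀ i m, coeff m (g i) ∈ O)
    (μ : Fin n → (Fin n →₀ ℕ))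
    (hμ0 : Matrix.det (Matrix.of fun i j => coeff (μ j) (g i)) ≠ 0)
    (hμ : (Matrix.det (Matrix.of fun i j => coeff (μ j) (g i)))⁻¹ ∈ O)
    (F : MvPolynomial (Fin n) K →ₗ[K] K) (hF : ∀ i h, F (g i * h) = 0)
    (hFint : ∀ m : Fin n →₀ ℕ, m.degree = n * (δ - 1) → F (monomial m 1) ∈ O)
    (hτ0 : F (jac g) ≠ 0) (hτ1 : F (jac g) ∈ O.nonunits) :
    F (jac g) ^ (δ ^ (n - 1)) / Res δ g ∈ O.nonunits :=
  core0_of (chyp hn hδ) hδ O hO g hg hg0 hint μ hμ0 hμ F hF hFint hτ0 hτ1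

end AF23
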