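import Pool.Agent.AF23.Basic
import Pool.Agent.AF23.A1
import Pool.Agent.AF23.A2

/-! Part D, first file: the determinants `T_D` over commutative rings, good reduction,
the socle functional of a good family. -/

namespace AF23

open MvPolynomial

variable {n δ : ℕ}

section ring
variable {A B : Type*} [CommRing A] [CommRing B]

/-- the elements `E_α` over a commutative ring -/
noncomputable def EvR (δ : ℕ) (f : Fin n → MvPolynomial (Fin n) A)
    (b : (Fin n →₀ ℕ) → MvPolynomial (Fin n) A) (α : Fin n →₀ ℕ) : MvPolynomial (Fin n) A :=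
  b (modF δ α) * ∏ i, f i ^ (divF δ α i)

/-- the matrix of the `E_α`, `|α| = D` -/
noncomputable def EM (δ : ℕ) (f : Fin n → MvPolynomial (Fin n) A)
    (b : (Fin n →₀ ℕ) → MvPolynomial (Fin n) A) (D : ℕ) : Matrix (Mon n D) (Mon n D) A :=
  Matrix.of fun α β : Mon n D => coeff β.1 (EvR δ f b α.1)

/-- its determinant -/
noncomputable def TR (δ : ℕ) (f : Fin n → MvPolynomial (Fin n) A)
    (b : (Fin n →₀ ℕ) → MvPolynomial (Fin n) A) (D : ℕ) : A := (EM δ f b D).det

/-- the Jacobian over a ring -/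
noncomputable def jacR (f : Fin n → MvPolynomial (Fin n) A) : MvPolynomial (Fin n) A :=
  Matrix.det (Matrix.of fun i j => pderiv j (f i))

/-- numerator of the coordinate `γ` of `h` -/
noncomputable def NR (δ : ℕ) (f : Fin n → MvPolynomial (Fin n) A)
    (b : (Fin n →₀ ℕ) → MvPolynomial (Fin n) A) {D : ℕ} (h : MvPolynomial (Fin n) A)
    (γ : Mon n D) : A := ∑ β : Mon n D, coeff β.1 h * (EM δ f b D).adjugate β γ

lemma EvR_map (φ : A →+* B) (f : Fin n → MvPolynomial (Fin n) A)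
    (b : (Fin n →₀ ℕ) → MvPolynomial (Fin n) A) (α : Fin n →₀ ℕ) :
    EvR δ (fun i => map φ (f i)) (fun ν => map φ (b ν)) α = map φ (EvR δ f b α) := by
  simp [EvR, map_mul, map_prod]

lemma EM_map (φ : A →+* B) (f : Fin n → MvPolynomial (Fin n) A)
    (b : (Fin n →₀ ℕ) → MvPolynomial (Fin n) A) (D : ℕ) :
    EM δ (fun i => map φ (f i)) (fun ν => map φ (b ν)) D = (EM δ f b D).map φ := by
  ext α β
  simp [EM, EvR_map, coeff_map]

lemma TR_map (φ : A →+* B) (f : Fin n → MvPolynomial (Fin n) A)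
    (b : (Fin n →₀ ℕ) → MvPolynomial (Fin n) A) (D : ℕ) :
    TR δ (fun i => map φ (f i)) (fun ν => map φ (b ν)) D = φ (TR δ f b D) := by
  rw [TR, EM_map, TR, RingHom.map_det]; rfl

lemma NR_map (φ : A →+* B) (f : Fin n → MvPolynomial (Fin n) A)
    (b : (Fin n →₀ ℕ) → MvPolynomial (Fin n) A) {D : ℕ} (h : MvPolynomial (Fin n) A)
    (γ : Mon n D) :
    NR δ (fun i => map φ (f i)) (fun ν => map φ (b ν)) (map φ h) γ = φ (NR δ f b h γ) := by
  rw [NR, EM_map, NR, map_sum]
  refine Finset.sum_congr rfl fun β _ => ?_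
  rw [map_mul, coeff_map]
  congr 1
  have := RingHom.map_adjugate φ (EM δ f b D)
  rw [RingHom.mapMatrix_apply, RingHom.mapMatrix_apply] at this
  rw [← this]; rfl

lemma jacR_map (φ : A →+* B) (f : Fin n → MvPolynomial (Fin n) A) :
    jacR (fun i => map φ (f i)) = map φ (jacR f) := by
  rw [jacR, jacR, RingHom.map_det]
  congr 1
  ext1 i j
  simp [pderiv_map]

lemma jacR_isHomogeneous (f : Fin n → MvPolynomial (Fin n) A) (hf : ∀ i, (f i).IsHomogeneous δ) :
    (jacR f).IsHomogeneous (n * (δ - 1)) := by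
  rw [jacR, Matrix.det_apply]
  refine IsHomogeneous.sum _ _ _ fun σ _ => ?_
  have h1 : (∏ i, (Matrix.of fun i j => pderiv j (f i)) (σ i) i).IsHomogeneous (n * (δ - 1)) := by
    have h2 := IsHomogeneous.prod (Finset.univ : Finset (Fin n))
      (fun i => (Matrix.of fun i j => pderiv j (f i)) (σ i) i) (fun _ => δ - 1)
      (fun i _ => by
        simpa using (hf (σ i)).pderiv (i := i))
    simpa using h2
  rcases Int.units_eq_one_or (Equiv.Perm.sign σ) with h | h
  · rw [h, one_smul]; exact h1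
  · rw [h, Units.neg_smul, one_smul]; exact h1.neg

end ring

section field
variable {K : Type*} [Field K]

lemma EvR_eq (f : Fin n → MvPolynomial (Fin n) K) (b : (Fin n →₀ ℕ) → MvPolynomial (Fin n) K)
    (α : Fin n →₀ ℕ) : EvR δ f b α = Ev δ f b α := rfl

lemma TR_eq (f : Fin n → MvPolynomial (Fin n) K) (b : (Fin n →₀ ℕ) → MvPolynomial (Fin n) K)
    (D : ℕ) : TR δ f b D = T δ f b D := rfl

lemma jacR_eq (f : Fin n → MvPolynomial (Fin n) K) : jacR f = jac f := rfl

lemma jac_isHomogeneous {f : Fin n → MvPolynomial (Fin n) K} (hf : IsTuple δ f) :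
    (jac f).IsHomogeneous (n * (δ - 1)) := jacR_isHomogeneous f hf

/-- coordinates by Cramer's rule -/
lemma Good.co_mul_T (hδ : 0 < δ) {f : Fin n → MvPolynomial (Fin n) K}
    {b : (Fin n →₀ ℕ) → MvPolynomial (Fin n) K} (G : Good δ f b) {D : ℕ}
    {h : MvPolynomial (Fin n) K} (hh : h.IsHomogeneous D) (γ : Mon n D) :
    G.co h γ.1 * T δ f b D = NR δ f b h γ := by
  have h1 : ∀ β : Mon n D, coeff β.1 h = ∑ α : Mon n D, G.co h α.1 * EM δ f b D α β := by
    intro β
    conv_lhs => rw [G.sum_co_hom hδ hh]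
    rw [coeff_sum]
    refine Finset.sum_congr rfl fun α _ => ?_
    rw [coeff_smul, smul_eq_mul]; rfl
  rw [NR]
  simp only [h1, Finset.sum_mul]
  rw [Finset.sum_comm]
  have h2 : ∀ α : Mon n D, ∑ β : Mon n D, G.co h α.1 * EM δ f b D α β *
      (EM δ f b D).adjugate β γ = G.co h α.1 * (if α = γ then T δ f b D else 0) := by
    intro α
    simp only [mul_assoc]
    rw [← Finset.mul_sum]
    congr 1
    have h3 := congrFun (congrFun (Matrix.mul_adjugate (EM δ f b D)) α) γ
    rw [Matrix.mul_apply] at h3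
    rw [h3, Matrix.smul_apply, Matrix.one_apply, smul_eq_mul]
    split_ifs
    · rw [mul_one]; rfl
    · rw [mul_zero]
  rw [Finset.sum_congr rfl fun α _ => h2 α]
  simp

lemma top_degree : (top n δ).degree = n * (δ - 1) := by
  rw [Finsupp.degree_eq_sum]; simp [top]

/-- the socle exponent as an element of `Mon` -/
noncomputable def topM (n δ : ℕ) : Mon n (n * (δ - 1)) := ⟨top n δ, mem_Mon.2 top_degree⟩

lemma Good.co_top_mul (hδ : 1 ≤ δ) {f : Fin n → MvPolynomial (Fin n) K}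
    {b : (Fin n →₀ ℕ) → MvPolynomial (Fin n) K} (G : Good δ f b) (i : Fin n)
    (h : MvPolynomial (Fin n) K) : G.co (f i * h) (top n δ) = 0 := by
  have := G.co_pow_mul hδ i 1 h (top n δ)
  rw [pow_one] at this
  rw [this, if_neg]
  simp [top]; omega

lemma Good.eq_top_of_divF {α : Fin n →₀ ℕ} (hδ : 1 ≤ δ) (hα : α.degree = n * (δ - 1))
    (h : ∀ i, divF δ α i = 0) : α = top n δ := by
  have h1 : ∀ i, α i ≤ δ - 1 := by
    intro i
    have := h i
    rw [divF_apply] at this
    have := (Nat.div_eq_zero_iff.1 this)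
    omega
  have h2 : ∑ i, α i = ∑ _i : Fin n, (δ - 1) := by
    rw [← Finsupp.degree_eq_sum, hα]; simp
  ext i
  have h3 := (Finset.sum_eq_sum_iff_of_le (s := Finset.univ) (f := fun i => α i)
    (g := fun _ => δ - 1) (fun i _ => h1 i)).1 h2 i (Finset.mem_univ i)
  simpa [top] using h3

/-- uniqueness of the socle functional -/
lemma Good.functional_eq (hδ : 1 ≤ δ) {f : Fin n → MvPolynomial (Fin n) K}
    {b : (Fin n →₀ ℕ) → MvPolynomial (Fin n) K} (G : Good δ f b)
    (F : MvPolynomial (Fin n) K →ₗ[K] K) (hF : ∀ i h, F (f i * h) = 0)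
    {h : MvPolynomial (Fin n) K} (hh : h.IsHomogeneous (n * (δ - 1))) :
    F h = G.co h (top n δ) * F (Ev δ f b (top n δ)) := by
  conv_lhs => rw [G.sum_co_hom hδ hh]
  rw [map_sum, Finset.sum_eq_single (topM n δ)]
  · simp [topM]
  · intro α _ hα
    rw [map_smul]
    by_cases h1 : ∀ i, divF δ α.1 i = 0
    · exact absurd (Subtype.ext (Good.eq_top_of_divF hδ α.deg h1)) hα
    · push Not at h1
      obtain ⟨i, hi⟩ := h1
      have h2 : Ev δ f b α.1 = f i * (f i ^ (divF δ α.1 i - 1) *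
          (∏ j ∈ Finset.univ.erase i, f j ^ (divF δ α.1 j)) * b (modF δ α.1)) := by
        rw [Ev, ← Finset.mul_prod_erase Finset.univ _ (Finset.mem_univ i)]
        have h3 : f i ^ (divF δ α.1 i) = f i * f i ^ (divF δ α.1 i - 1) := by
          rw [← pow_succ']; congr 1; omega
        rw [h3]; ring
      rw [h2, hF, smul_zero]
  · intro h1; exact absurd (Finset.mem_univ _) h1

lemma Good.functional_mul (hδ : 1 ≤ δ) {f : Fin n → MvPolynomial (Fin n) K}
    {b : (Fin n →₀ ℕ) → MvPolynomial (Fin n) K} (G : Good δ f b)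
    (F : MvPolynomial (Fin n) K →ₗ[K] K) (hF : ∀ i h, F (f i * h) = 0)
    {h : MvPolynomial (Fin n) K} (hh : h.IsHomogeneous (n * (δ - 1))) :
    F h * G.co (jac f) (top n δ) = F (jac f) * G.co h (top n δ) := by
  rw [G.functional_eq hδ F hF hh, G.functional_eq hδ F hF (jac_isHomogeneous G.fhom)]
  ring

end field

section reduction
variable {A K k : Type*} [CommRing A] [Field K] [Field k]

/-- degree of the monomials of a good family -/
lemma Good.mon_degree {K : Type*} [Field K] {f : Fin n → MvPolynomial (Fin n) K}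
    {m : (Fin n →₀ ℕ) → (Fin n →₀ ℕ)} (G : Good δ f (fun ν => monomial (m ν) 1))
    {ν : Fin n →₀ ℕ} (hν : ∀ i, ν i < δ) : (m ν).degree = ν.degree := by
  have h1 := G.bhom ν hν
  have h2 := h1 (d := m ν) (by simp)
  rw [← h2]
  simp [Finsupp.weight_apply, Finsupp.degree_eq_sum, Finsupp.sum_fintype]

lemma map_mon (φ : A →+* K) (m : (Fin n →₀ ℕ) → (Fin n →₀ ℕ)) :
    (fun ν => map φ (monomial (m ν) (1 : A))) = fun ν => monomial (m ν) (1 : K) := by
  funext ν; rw [map_monomial, map_one]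

/-- goodness from nonvanishing determinants in a ring mapping to the field -/
lemma good_of_TR (hn : 1 ≤ n) (hδ : 1 ≤ δ) (ι : A →+* K)
    (g : Fin n → MvPolynomial (Fin n) A) (hg : ∀ i, (g i).IsHomogeneous δ)
    (m : (Fin n →₀ ℕ) → (Fin n →₀ ℕ))
    (hm : ∀ ν : Fin n →₀ ℕ, (∀ i, ν i < δ) → (m ν).degree = ν.degree)
    (hT : ∀ D ≤ n * δ, ι (TR δ g (fun ν => monomial (m ν) 1) D) ≠ 0) :
    Good δ (fun i => map ι (g i)) (fun ν => monomial (m ν) 1) := by
  refine good_of_T hn hδ _ _ (fun i => (hg i).map ι) (fun ν hν => ?_) (fun D hD => ?_)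
  · rw [← hm ν hν]; exact isHomogeneous_monomial _ rfl
  · rw [← TR_eq, ← map_mon ι m, TR_map]
    exact hT D hD

/-- good reduction -/
theorem good_reduction (hn : 1 ≤ n) (hδ : 1 ≤ δ) (ι : A →+* K) (π : A →+* k)
    (hπ : ∀ a, π a ≠ 0 → IsUnit a)
    (g : Fin n → MvPolynomial (Fin n) A) (hg : ∀ i, (g i).IsHomogeneous δ)
    (m : (Fin n →₀ ℕ) → (Fin n →₀ ℕ))
    (G : Good δ (fun i => map π (g i)) (fun ν => monomial (m ν) 1)) :
    Good δ (fun i => map ι (g i)) (fun ν => monomial (m ν) 1) ∧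
    ∃ r : Aˣ, ι r = Res δ (fun i => map ι (g i)) ∧ π r = Res δ (fun i => map π (g i)) := by
  have hu : ∀ D, IsUnit (TR δ g (fun ν => monomial (m ν) 1) D) := by
    intro D
    apply hπ
    rw [← TR_map, map_mon, TR_eq]
    exact G.T_ne hδ D
  have G' : Good δ (fun i => map ι (g i)) (fun ν => monomial (m ν) 1) :=
    good_of_TR hn hδ ι g hg m (fun ν hν => G.mon_degree hν) (fun D _ => ((hu D).map ι).ne_zero)
  refine ⟨G', ?_⟩
  choose u hu' using hu
  refine ⟨∏ i ∈ Finset.range (n + 1), (u ((n - i) * δ)) ^ ((-1 : ℤ) ^ i * (n.choose i : ℤ)), ?_, ?_⟩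
  · rw [G'.res_eq hn hδ, ResAt]
    have h1 : ∀ w : Aˣ, ι w = ((Units.map (ι : A →* K) w : Kˣ) : K) := fun w => rfl
    rw [h1, map_prod, Units.coe_prod]
    refine Finset.prod_congr rfl fun i _ => ?_
    rw [map_zpow, Units.val_zpow_eq_zpow_val, ← h1, hu', ← TR_map, map_mon, TR_eq]
  · rw [G.res_eq hn hδ, ResAt]
    have h1 : ∀ w : Aˣ, π w = ((Units.map (π : A →* k) w : kˣ) : k) := fun w => rfl
    rw [h1, map_prod, Units.coe_prod]
    refine Finset.prod_congr rfl fun i _ => ?_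
    rw [map_zpow, Units.val_zpow_eq_zpow_val, ← h1, hu', ← TR_map, map_mon, TR_eq]

end reduction

end AF23
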