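import Pool.Agent.AF23.D1

/-! Part D, second file: valuation subrings, selection of minors, normalisation. -/

namespace AF23

open MvPolynomial

variable {n δ : ℕ}

/-- the residue field of a valuation subring of an algebraically closed field is
algebraically closed -/
theorem isAlgClosed_residueField {K : Type*} [Field K] [IsAlgClosed K] (O : ValuationSubring K) :
    IsAlgClosed (IsLocalRing.ResidueField O) := by
  refine IsAlgClosed.of_exists_root _ fun p hp hirr => ?_
  have hl : p ∈ Polynomial.lifts (IsLocalRing.residue O) := by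
    rw [Polynomial.mem_lifts]
    exact Polynomial.map_surjective _ (IsLocalRing.residue_surjective) p
  obtain ⟨q, hq, hdeg, hmon⟩ := Polynomial.lifts_and_natDegree_eq_and_monic hl hp
  have hqd : 0 < q.natDegree := by rw [hdeg]; exact hirr.natDegree_pos
  obtain ⟨x, hx⟩ := IsAlgClosed.exists_root (q.map (algebraMap O K)) (by
    rw [Polynomial.degree_map_eq_of_injective (IsFractionRing.injective O K)]
    exact (Polynomial.natDegree_pos_iff_degree_pos.1 hqd).ne')
  have hint : IsIntegral O x := ⟨q, hmon, by rwa [Polynomial.IsRoot.def, Polynomial.eval_map] at hx⟩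
  obtain ⟨y, hy⟩ := (IsIntegrallyClosed.isIntegral_iff (R := O) (K := K)).1 hint
  refine ⟨IsLocalRing.residue O y, ?_⟩
  rw [← hq, Polynomial.eval_map, Polynomial.eval₂_hom]
  have : q.eval y = 0 := by
    apply IsFractionRing.injective O K
    rw [map_zero, ← Polynomial.eval₂_hom, ← Polynomial.eval_map, hy]
    exact hx
  rw [this, map_zero]

/-- domination -/
theorem exists_valuationSubring_prime {K : Type*} [Field K] (A : Subring K) (P : Ideal A)
    [P.IsPrime] : ∃ V : ValuationSubring K, A ≤ V.toSubring ∧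
      ∀ a : A, (a : K) ∈ V.nonunits ↔ a ∈ P := by
  obtain ⟨V, hV⟩ := (LocalSubring.ofPrime A P).exists_le_valuationSubring
  obtain ⟨h1, h2⟩ := hV
  have hle := LocalSubring.le_ofPrime A P
  have key : ∀ a : A, a ∈ P ↔ ¬ IsUnit (Subring.inclusion hle a) := by
    intro a
    have h3 := IsLocalization.AtPrime.isUnit_to_map_iff (LocalSubring.ofPrime A P).toSubring P a
    have h4 : algebraMap A (LocalSubring.ofPrime A P).toSubring a = Subring.inclusion hle a := rfl
    rw [← h4, h3]
    simp [Ideal.primeCompl]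
  refine ⟨V, hle.trans h1, fun a => ?_⟩
  rw [key a]
  have h5 : IsUnit (Subring.inclusion hle a) ↔
      IsUnit (Subring.inclusion h1 (Subring.inclusion hle a)) :=
    ⟨fun h => h.map _, fun h => h2.1 _ h⟩
  rw [h5, ValuationSubring.mem_nonunits_iff_exists_mem_maximalIdeal]
  constructor
  · rintro ⟨ha, hb⟩
    exact (IsLocalRing.mem_maximalIdeal _).1 hb
  · intro h
    exact ⟨(hle.trans h1) a.2, (IsLocalRing.mem_maximalIdeal _).2 h⟩

/-- localisation at a prime, with two maps to fields having the same kernel -/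
theorem exists_place_D.{u, v, w, x} {𝒜 : Type u} {K : Type v} {k₁ : Type w} {k₂ : Type x}
    [CommRing 𝒜] [Field K] [Field k₁] [Field k₂]
    (i : 𝒜 →+* K) (hi : Function.Injective i) (ψ₁ : 𝒜 →+* k₁) (ψ₂ : 𝒜 →+* k₂)
    (h : ∀ a, ψ₁ a = 0 ↔ ψ₂ a = 0) :
    ∃ (A : Type u) (_ : CommRing A) (c : 𝒜 →+* A) (ι : A →+* K) (π₁ : A →+* k₁) (π₂ : A →+* k₂),
      Function.Injective ι ∧ ι.comp c = i ∧ π₁.comp c = ψ₁ ∧ π₂.comp c = ψ₂ ∧
      (∀ a, π₁ a ≠ 0 → IsUnit a) ∧ (∀ a, π₂ a ≠ 0 → IsUnit a) ∧
      (∀ a, ∃ x y : 𝒜, ψ₁ y ≠ 0 ∧ ι a * i y = i x) := by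
  have hker : RingHom.ker ψ₁ = RingHom.ker ψ₂ := by ext a; simp [RingHom.mem_ker, h]
  have : (RingHom.ker ψ₁).IsPrime := RingHom.ker_isPrime ψ₁
  let P := RingHom.ker ψ₁
  let A := Localization.AtPrime P
  have hP : ∀ y : P.primeCompl, ψ₁ y ≠ 0 := fun y hy => y.2 (RingHom.mem_ker.2 hy)
  have hP2 : ∀ y : P.primeCompl, ψ₂ y ≠ 0 := fun y hy => hP y ((h _).2 hy)
  have hPi : ∀ y : P.primeCompl, i y ≠ 0 := by
    intro y hy
    have : (y : 𝒜) = 0 := hi (by rw [hy, map_zero])
    exact hP y (by rw [this, map_zero])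
  refine ⟨A, inferInstance, algebraMap 𝒜 A,
    IsLocalization.lift (M := P.primeCompl) (g := i) (fun y => (hPi y).isUnit),
    IsLocalization.lift (M := P.primeCompl) (g := ψ₁) (fun y => (hP y).isUnit),
    IsLocalization.lift (M := P.primeCompl) (g := ψ₂) (fun y => (hP2 y).isUnit), ?_, ?_, ?_, ?_,
    ?_, ?_, ?_⟩
  · rw [injective_iff_map_eq_zero]
    intro a ha
    obtain ⟨x, y, rfl⟩ := IsLocalization.exists_mk'_eq P.primeCompl a
    rw [IsLocalization.lift_mk'] at ha
    have : i x = 0 := by simpa using ha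
    have : x = 0 := hi (by rw [this, map_zero])
    rw [this, IsLocalization.mk'_zero]
  · ext x; simp
  · ext x; simp
  · ext x; simp
  · intro a ha
    obtain ⟨x, y, rfl⟩ := IsLocalization.exists_mk'_eq P.primeCompl a
    have hx : x ∈ P.primeCompl := by
      intro hx
      apply ha
      rw [IsLocalization.lift_mk', RingHom.mem_ker.1 hx, zero_mul]
    rw [IsLocalization.AtPrime.isUnit_mk'_iff (R := 𝒜) A P]
    exact hx
  · intro a ha
    obtain ⟨x, y, rfl⟩ := IsLocalization.exists_mk'_eq P.primeCompl a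
    have hx : x ∈ P.primeCompl := by
      intro hx
      apply ha
      rw [IsLocalization.lift_mk', (h x).1 (RingHom.mem_ker.1 hx), zero_mul]
    rw [IsLocalization.AtPrime.isUnit_mk'_iff (R := 𝒜) A P]
    exact hx
  · intro a
    obtain ⟨x, y, rfl⟩ := IsLocalization.exists_mk'_eq P.primeCompl a
    refine ⟨x, y, hP y, ?_⟩
    have hh : ∀ y : P.primeCompl, IsUnit (i y) := fun y => (hPi y).isUnit
    have h1 := (IsLocalization.lift_mk'_spec (S := A) (M := P.primeCompl) (g := i) (hg := hh) x
      _ y).1 rfl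
    rw [mul_comm]
    exact h1.symm

/-- selection of a nonsingular square submatrix -/
theorem select {k R I : Type*} [Field k] [Fintype I] [DecidableEq I] (v : R → I → k)
    (h : ∀ c : I → k, (∀ r, ∑ i, v r i * c i = 0) → c = 0) :
    ∃ e : I → R, (Matrix.of fun i j => v (e i) j).det ≠ 0 := by
  have hspan : Submodule.span k (Set.range v) = ⊤ := by
    by_contra hne
    obtain ⟨φ, hφ0, hφ⟩ := Submodule.exists_le_ker_of_lt_top _ (lt_top_iff_ne_top.2 hne)
    apply hφ0
    have hc := h (fun i => φ (Pi.single i 1)) (fun r => by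
      have h1 : φ (v r) = 0 := hφ (Submodule.subset_span ⟨r, rfl⟩)
      have h2 : v r = ∑ i, v r i • (Pi.single i 1 : I → k) := by
        ext j; simp [Finset.sum_apply, Pi.single_apply]
      rw [h2, map_sum] at h1
      simpa using h1)
    refine LinearMap.pi_ext' fun i => ?_
    ext
    simpa using congrFun hc i
  obtain ⟨κ, a, _, hsp, hli⟩ := exists_linearIndependent' k v
  rw [hspan] at hsp
  let b : Module.Basis κ k (I → k) := Module.Basis.mk hli hsp.ge
  let e : κ ≃ I := b.indexEquiv (Pi.basisFun k I)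
  refine ⟨fun i => a (e.symm i), ?_⟩
  have h3 : LinearIndependent k (fun i => v (a (e.symm i))) := hli.comp _ e.symm.injective
  have h4 : IsUnit (Matrix.of fun i j => v (a (e.symm i)) j) :=
    Matrix.linearIndependent_rows_iff_isUnit.1 h3
  exact ((Matrix.isUnit_iff_isUnit_det _).1 h4).ne_zero

section normalize
variable {K : Type*} [Field K]

lemma coeff_lin (C : Matrix (Fin n) (Fin n) K) (f : Fin n → MvPolynomial (Fin n) K) (i : Fin n)
    (κ : Fin n →₀ ℕ) : coeff κ (lin C f i) = (C.mulVec fun j => coeff κ (f j)) i := by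
  simp [lin, coeff_sum, coeff_C_mul, Matrix.mulVec, dotProduct]

lemma lin_isTuple {f : Fin n → MvPolynomial (Fin n) K} (hf : IsTuple δ f)
    (C : Matrix (Fin n) (Fin n) K) : IsTuple δ (lin C f) := by
  intro i
  refine IsHomogeneous.sum _ _ _ fun j _ => ?_
  simpa using (isHomogeneous_C (Fin n) (C i j)).mul (hf j)

/-- normalisation of a linearly independent tuple with respect to a valuation ring -/
theorem normalize [Nonempty (Mon n δ)] (O : ValuationSubring K)
    (f : Fin n → MvPolynomial (Fin n) K) (hf : IsTuple δ f)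
    (hli : LinearIndependent K f) :
    ∃ (μ : Fin n → Mon n δ) (C : Matrix (Fin n) (Fin n) K), C.det ≠ 0 ∧
      (∀ i κ, coeff κ (lin C f i) ∈ O) ∧
      ∀ i j, coeff (μ j).1 (lin C f i) = if i = j then 1 else 0 := by
  classical
  let M : (Fin n → Mon n δ) → Matrix (Fin n) (Fin n) K := fun μ =>
    Matrix.of fun i j => coeff (μ j).1 (f i)
  obtain ⟨μ, hμ⟩ := Finite.exists_max (fun μ => O.valuation (M μ).det)
  obtain ⟨e, he⟩ := select (R := Mon n δ) (I := Fin n) (k := K) (fun κ i => coeff κ.1 (f i))
    (fun c hc => by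
      have h1 : ∑ i, c i • f i = 0 := by
        ext κ
        rw [coeff_sum, coeff_zero]
        by_cases hκ : κ.degree = δ
        · have := hc ⟨κ, mem_Mon.2 hκ⟩
          simpa [mul_comm] using this
        · refine Finset.sum_eq_zero fun i _ => ?_
          rw [coeff_smul, (hf i).coeff_eq_zero, smul_zero]
          rw [Finsupp.degree_eq_sum] at hκ
          simpa [Finsupp.degree_eq_sum] using hκ
      funext i
      exact Fintype.linearIndependent_iff.1 hli c h1 i)
  have hdet : (M μ).det ≠ 0 := by
    intro h0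
    have h1 := hμ e
    rw [h0, map_zero, le_zero_iff, map_eq_zero] at h1
    apply he
    rw [← Matrix.det_transpose]
    exact h1
  have hunit : IsUnit (M μ).det := isUnit_iff_ne_zero.2 hdet
  refine ⟨μ, (M μ)⁻¹, ?_, ?_, ?_⟩
  · exact (Matrix.isUnit_nonsing_inv_det _ hunit).ne_zero
  · intro i κ
    by_cases hκ : κ.degree = δ
    · have h1 := Matrix.det_smul_inv_mulVec_eq_cramer (M μ) (fun j => coeff κ (f j)) hunit
      have h2 := congrFun h1 i
      rw [Pi.smul_apply, smul_eq_mul, Matrix.cramer_apply] at h2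
      have h3 : (M μ).updateCol i (fun j => coeff κ (f j)) =
          M (Function.update μ i ⟨κ, mem_Mon.2 hκ⟩) := by
        ext a b
        by_cases hb : b = i
        · subst hb; simp [M]
        · simp [M, Matrix.updateCol_ne hb, Function.update_of_ne hb]
      rw [h3] at h2
      rw [coeff_lin, ← ValuationSubring.valuation_le_one_iff]
      have h4 := hμ (Function.update μ i ⟨κ, mem_Mon.2 hκ⟩)
      rw [← h2, map_mul] at h4
      have h5 : O.valuation (M μ).det ≠ 0 := (map_ne_zero _).2 hdet
      have h6 : O.valuation (M μ).det * O.valuation (((M μ)⁻¹).mulVec (fun j => coeff κ (f j)) i) ≤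
          O.valuation (M μ).det * 1 := by rw [mul_one]; exact h4
      exact (mul_le_mul_iff_right₀ (zero_lt_iff.2 h5)).1 h6
    · rw [(lin_isTuple hf _ i).coeff_eq_zero]
      · exact O.zero_mem
      · exact hκ
  · intro i j
    rw [coeff_lin]
    have h1 : (fun l => coeff (μ j).1 (f l)) = (M μ).col j := rfl
    rw [h1, ← Matrix.mulVec_single_one, Matrix.mulVec_mulVec, Matrix.nonsing_inv_mul _ hunit,
      Matrix.one_mulVec, Pi.single_apply]

/-- the members of a tuple with a good family are linearly independent -/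
theorem Good.linearIndependent (hδ : 1 ≤ δ) {f : Fin n → MvPolynomial (Fin n) K}
    {b : (Fin n →₀ ℕ) → MvPolynomial (Fin n) K} (G : Good δ f b) : LinearIndependent K f := by
  classical
  have h0 : (b 0).IsHomogeneous 0 := by
    have := G.bhom 0 (fun i => by simp; omega)
    simpa using this
  obtain ⟨c, hc⟩ : ∃ c : K, b 0 = C c := ⟨coeff 0 (b 0), by
    rw [← MvPolynomial.totalDegree_eq_zero_iff_eq_C]; exact h0.totalDegree_le.antisymm bot_le⟩
  have h1 : ∀ i, Ev δ f b (δ • Finsupp.single i 1) = c • f i := by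
    intro i
    have h2 := Ev_add (f := f) (b := b) (δ := δ) hδ 0 (Finsupp.single i 1)
    rw [zero_add] at h2
    rw [h2, Ev_of_lt (by intro j; simp; omega), hc, Finset.prod_eq_single i]
    · simp [smul_eq_C_mul, mul_comm]
    · intro j _ hj; simp [hj.symm]
    · simp
  have h3 : LinearIndependent K (fun i : Fin n => c • f i) := by
    have h4 := G.li.comp (fun i : Fin n => δ • Finsupp.single i 1) (fun i j hij => by
      have := DFunLike.congr_fun hij i
      by_contra hne
      simp [Ne.symm hne] at this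
      omega)
    convert h4 using 1
    funext i; exact (h1 i).symm
  have hc0 : n = 0 ∨ c ≠ 0 := by
    rcases Nat.eq_zero_or_pos n with hn | hn
    · exact Or.inl hn
    · right
      rintro rfl
      have := h3.ne_zero ⟨0, hn⟩
      simp at this
  rcases hc0 with rfl | hc0
  · exact linearIndependent_empty_type
  · have := h3.units_smul (fun _ => (Units.mk0 c hc0)⁻¹)
    convert this using 1
    funext i
    simp [Units.smul_def, smul_smul, inv_mul_cancel₀ hc0]

end normalize

end AF23
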