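import Pool.Agent.AF23.D2

/-! Part D, third file: functionals given by their values on monomials, descent of a normalised
tuple to a small ring, the dichotomy. -/

namespace AF23

open MvPolynomial

variable {n δ s : ℕ}

section ring
variable {A B : Type*} [CommRing A] [CommRing B]

/-- the functional with values `w α` on the monomials of degree `s`, and `0` in other degrees -/
noncomputable def funOf (w : Mon n s → A) : MvPolynomial (Fin n) A →ₗ[A] A where
  toFun h := ∑ α : Mon n s, coeff α.1 h * w α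
  map_add' x y := by simp [add_mul, Finset.sum_add_distrib]
  map_smul' c x := by simp [Finset.mul_sum, mul_assoc]

lemma funOf_apply (w : Mon n s → A) (h : MvPolynomial (Fin n) A) :
    funOf w h = ∑ α : Mon n s, coeff α.1 h * w α := rfl

lemma funOf_map (φ : A →+* B) (w : Mon n s → A) (h : MvPolynomial (Fin n) A) :
    funOf (fun α => φ (w α)) (map φ h) = φ (funOf w h) := by
  simp [funOf_apply, coeff_map, map_sum]

lemma funOf_monomial (w : Mon n s → A) (α : Mon n s) (a : A) :
    funOf w (monomial α.1 a) = a * w α := by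
  classical
  rw [funOf_apply, Finset.sum_eq_single α]
  · simp
  · intro β _ hβ
    rw [coeff_monomial, if_neg (fun h => hβ (Subtype.ext h.symm)), zero_mul]
  · intro h; exact absurd (Finset.mem_univ _) h

lemma funOf_of_degree_ne (w : Mon n s → A) {D : ℕ} {h : MvPolynomial (Fin n) A}
    (hh : h.IsHomogeneous D) (hD : D ≠ s) : funOf w h = 0 := by
  rw [funOf_apply]
  refine Finset.sum_eq_zero fun α _ => ?_
  rw [hh.coeff_eq_zero, zero_mul]
  rw [α.deg]; exact hD.symm

/-- the polynomial with given coefficients in degree `s` -/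
noncomputable def polyOf (x : Mon n s → A) : MvPolynomial (Fin n) A :=
  ∑ κ : Mon n s, monomial κ.1 (x κ)

lemma polyOf_isHomogeneous (x : Mon n s → A) : (polyOf x).IsHomogeneous s :=
  IsHomogeneous.sum _ _ _ fun κ _ => isHomogeneous_monomial _ κ.deg

lemma coeff_polyOf (x : Mon n s → A) (κ : Mon n s) : coeff κ.1 (polyOf x) = x κ := by
  classical
  rw [polyOf, coeff_sum, Finset.sum_eq_single κ]
  · simp
  · intro β _ hβ
    rw [coeff_monomial, if_neg (fun h => hβ (Subtype.ext h))]
  · intro h; exact absurd (Finset.mem_univ _) h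

lemma polyOf_coeff {h : MvPolynomial (Fin n) A} (hh : h.IsHomogeneous s) :
    polyOf (fun κ : Mon n s => coeff κ.1 h) = h := by
  ext κ
  by_cases hκ : κ.degree = s
  · exact coeff_polyOf (fun κ : Mon n s => coeff κ.1 h) ⟨κ, mem_Mon.2 hκ⟩
  · rw [(polyOf_isHomogeneous _).coeff_eq_zero hκ, hh.coeff_eq_zero hκ]

lemma map_polyOf (φ : A →+* B) (x : Mon n s → A) :
    map φ (polyOf x) = polyOf (fun κ => φ (x κ)) := by
  simp [polyOf, map_sum, map_monomial]

/-- a functional given by its values on monomials coincides with any functional with the same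
values, in degree `s` -/
lemma funOf_eq (F : MvPolynomial (Fin n) A →ₗ[A] A) {h : MvPolynomial (Fin n) A}
    (hh : h.IsHomogeneous s) : funOf (fun α : Mon n s => F (monomial α.1 1)) h = F h := by
  conv_rhs => rw [← polyOf_coeff hh]
  rw [funOf_apply, polyOf, map_sum]
  refine Finset.sum_congr rfl fun α _ => ?_
  have : monomial α.1 (coeff α.1 h) = coeff α.1 h • monomial α.1 (1 : A) := by
    rw [smul_monomial, smul_eq_mul, mul_one]
  rw [this, map_smul, smul_eq_mul]

/-- the functional kills the ideal of `g` -/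
def Kills (w : Mon n s → A) (g : Fin n → MvPolynomial (Fin n) A) : Prop :=
  ∀ i h, funOf w (g i * h) = 0

lemma kills_of_monomial (w : Mon n s → A) (g : Fin n → MvPolynomial (Fin n) A)
    (H : ∀ i β, funOf w (g i * monomial β 1) = 0) : Kills w g := by
  intro i h
  rw [MvPolynomial.as_sum h, Finset.mul_sum, map_sum]
  refine Finset.sum_eq_zero fun β _ => ?_
  have : monomial β (coeff β h) = coeff β h • monomial β (1 : A) := by
    rw [smul_monomial, smul_eq_mul, mul_one]
  rw [this, mul_smul_comm, map_smul, H, smul_zero]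

lemma Kills.map (φ : A →+* B) {w : Mon n s → A} {g : Fin n → MvPolynomial (Fin n) A}
    (H : Kills w g) : Kills (fun α => φ (w α)) (fun i => MvPolynomial.map φ (g i)) := by
  refine kills_of_monomial _ _ fun i β => ?_
  have : MvPolynomial.map φ (g i) * monomial β 1 = MvPolynomial.map φ (g i * monomial β 1) := by
    rw [map_mul, map_monomial, map_one φ]
  rw [this, funOf_map, H, map_zero]

lemma Kills.of_map (φ : A →+* B) (hφ : Function.Injective φ) {w : Mon n s → A}
    {g : Fin n → MvPolynomial (Fin n) A}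
    (H : Kills (fun α => φ (w α)) (fun i => MvPolynomial.map φ (g i))) : Kills w g := by
  intro i h
  apply hφ
  rw [← funOf_map, map_mul, H, map_zero]

lemma kills_of_functional (F : MvPolynomial (Fin n) A →ₗ[A] A)
    {g : Fin n → MvPolynomial (Fin n) A} (hg : ∀ i, (g i).IsHomogeneous δ)
    (hF : ∀ i h, F (g i * h) = 0) : Kills (fun α : Mon n s => F (monomial α.1 1)) g := by
  refine kills_of_monomial _ _ fun i β => ?_
  have h1 : (g i * monomial β 1).IsHomogeneous (δ + β.degree) :=
    (hg i).mul (isHomogeneous_monomial _ rfl)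
  by_cases h2 : δ + β.degree = s
  · rw [h2] at h1
    rw [funOf_eq F h1, hF]
  · exact funOf_of_degree_ne _ h1 h2

/-- sum of exponents -/
noncomputable def addM (hδs : δ ≤ s) (κ' : Mon n (s - δ)) (κ : Mon n δ) : Mon n s :=
  ⟨κ.1 + κ'.1, mem_Mon.2 (by rw [map_add, κ.deg, κ'.deg]; omega)⟩

/-- rows of the linear system -/
noncomputable def rowv (hδs : δ ≤ s) (w : Mon n s → A) (μ : Fin n → Mon n δ) :
    (Mon n (s - δ) ⊕ Fin n) → Mon n δ → A
  | .inl κ' => fun κ => w (addM hδs κ' κ)
  | .inr j => fun κ => if κ = μ j then 1 else 0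

lemma sum_rowv_inl (hδs : δ ≤ s) (w : Mon n s → A) (μ : Fin n → Mon n δ) (κ' : Mon n (s - δ))
    {c : MvPolynomial (Fin n) A} (hc : c.IsHomogeneous δ) :
    ∑ κ, rowv hδs w μ (.inl κ') κ * coeff κ.1 c = funOf w (c * monomial κ'.1 1) := by
  conv_rhs => rw [← polyOf_coeff hc, polyOf, Finset.sum_mul, map_sum]
  refine Finset.sum_congr rfl fun κ _ => ?_
  rw [monomial_mul, mul_one]
  have := funOf_monomial w (addM hδs κ' κ) (coeff κ.1 c)
  rw [show (addM hδs κ' κ).1 = κ.1 + κ'.1 from rfl] at this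
  rw [this, mul_comm]; rfl

lemma sum_rowv_inr (hδs : δ ≤ s) (w : Mon n s → A) (μ : Fin n → Mon n δ) (j : Fin n)
    (c : MvPolynomial (Fin n) A) :
    ∑ κ, rowv hδs w μ (.inr j) κ * coeff κ.1 c = coeff (μ j).1 c := by
  simp [rowv]

lemma rowv_map (hδs : δ ≤ s) (φ : A →+* B) (w : Mon n s → A) (μ : Fin n → Mon n δ)
    (r : Mon n (s - δ) ⊕ Fin n) (κ : Mon n δ) :
    rowv hδs (fun α => φ (w α)) μ r κ = φ (rowv hδs w μ r κ) := by
  rcases r with κ' | j
  · rfl
  · simp only [rowv]; split_ifs <;> simp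

end ring

/-- the selected square system -/
noncomputable def sysM {A : Type*} [CommRing A] (hδs : δ ≤ s) (w : Mon n s → A)
    (μ : Fin n → Mon n δ) (e : Mon n δ → Mon n (s - δ) ⊕ Fin n) : Matrix (Mon n δ) (Mon n δ) A :=
  Matrix.of fun a κ => rowv hδs w μ (e a) κ

/-- right hand side of the selected system -/
noncomputable def sysR (A : Type*) [CommRing A]
    (e : Mon n δ → Mon n (s - δ) ⊕ Fin n) (i : Fin n) (a : Mon n δ) : A :=
  match e a with
  | .inl _ => 0
  | .inr j => if i = j then 1 else 0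

lemma system_unique {A L : Type*} [CommRing A] [Field L] (hδs : δ ≤ s) (w : Mon n s → A)
    (μ : Fin n → Mon n δ) (e : Mon n δ → Mon n (s - δ) ⊕ Fin n)
    (hunit : IsUnit (sysM hδs w μ e).det) (φ : A →+* L) (g : Fin n → MvPolynomial (Fin n) L)
    (hg : ∀ i, (g i).IsHomogeneous δ) (hμ : ∀ i j, coeff (μ j).1 (g i) = if i = j then 1 else 0)
    (hw : Kills (fun α => φ (w α)) g) (i : Fin n) :
    map φ (polyOf ((sysM hδs w μ e)⁻¹.mulVec (sysR A e i))) = g i := by
  classical
  have hMmap : (sysM hδs w μ e).map φ = sysM hδs (fun α => φ (w α)) μ e := by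
    ext a κ
    simp [sysM, rowv_map]
  have hMx : (sysM hδs w μ e).mulVec ((sysM hδs w μ e)⁻¹.mulVec (sysR A e i)) = sysR A e i := by
    rw [Matrix.mulVec_mulVec, Matrix.mul_nonsing_inv _ hunit, Matrix.one_mulVec]
  set x := (sysM hδs w μ e)⁻¹.mulVec (sysR A e i) with hx
  rw [map_polyOf, ← polyOf_coeff (hg i)]
  congr 1
  have h1 : IsUnit ((sysM hδs w μ e).map φ) := by
    rw [Matrix.isUnit_iff_isUnit_det]
    have := hunit.map φ
    rwa [RingHom.map_det] at this
  apply Matrix.mulVec_injective_of_isUnit h1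
  funext a
  have h2 : ((sysM hδs w μ e).map φ).mulVec (fun κ => φ (x κ)) a = φ (sysR A e i a) := by
    rw [← congrFun hMx a]
    simp [Matrix.mulVec, dotProduct, map_sum]
  rw [h2, hMmap]
  have h3 : (sysM hδs (fun α => φ (w α)) μ e).mulVec
      (fun κ : Mon n δ => coeff κ.1 (g i)) a =
      ∑ κ, rowv hδs (fun α => φ (w α)) μ (e a) κ * coeff κ.1 (g i) := rfl
  rw [h3]
  rcases hea : e a with κ' | j
  · rw [sum_rowv_inl hδs _ μ κ' (hg i), hw]
    simp [sysR, hea]
  · rw [sum_rowv_inr, hμ]
    simp only [sysR, hea]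
    split_ifs <;> simp

/-- descent of a normalised tuple to a small ring -/
theorem descend_tuple (hδs : δ ≤ s) {A K k : Type*} [CommRing A] [Field K] [Field k]
    (ι : A →+* K) (π : A →+* k) (hπ : ∀ a, π a ≠ 0 → IsUnit a)
    (w : Mon n s → A) (μ : Fin n → Mon n δ)
    (gK : Fin n → MvPolynomial (Fin n) K) (hgK : ∀ i, (gK i).IsHomogeneous δ)
    (hKμ : ∀ i j, coeff (μ j).1 (gK i) = if i = j then 1 else 0)
    (hKw : Kills (fun α => ι (w α)) gK)
    (gk : Fin n → MvPolynomial (Fin n) k) (hgk : ∀ i, (gk i).IsHomogeneous δ)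
    (hkμ : ∀ i j, coeff (μ j).1 (gk i) = if i = j then 1 else 0)
    (hkw : Kills (fun α => π (w α)) gk)
    (hker : ∀ c : MvPolynomial (Fin n) k, c.IsHomogeneous δ →
      (∀ κ' : Mon n (s - δ), funOf (fun α => π (w α)) (c * monomial κ'.1 1) = 0) →
      (∀ j, coeff (μ j).1 c = 0) → c = 0) :
    ∃ gA : Fin n → MvPolynomial (Fin n) A, (∀ i, (gA i).IsHomogeneous δ) ∧
      (∀ i, map ι (gA i) = gK i) ∧ (∀ i, map π (gA i) = gk i) := by
  classical
  obtain ⟨e, he⟩ := select (rowv hδs (fun α => π (w α)) μ) (fun c hc => by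
    have h1 := hker (polyOf c) (polyOf_isHomogeneous c) (fun κ' => by
      rw [← sum_rowv_inl hδs _ μ κ' (polyOf_isHomogeneous c)]
      simpa only [coeff_polyOf] using hc (.inl κ')) (fun j => by
      rw [← sum_rowv_inr hδs (fun α => π (w α)) μ j]
      simpa only [coeff_polyOf] using hc (.inr j))
    funext κ
    rw [← coeff_polyOf c κ, h1]; simp)
  have hunit : IsUnit (sysM hδs w μ e).det := by
    apply hπ
    rw [RingHom.map_det, RingHom.mapMatrix_apply]
    have hMmap : (sysM hδs w μ e).map π = sysM hδs (fun α => π (w α)) μ e := by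
      ext a κ
      simp [sysM, rowv_map]
    rw [hMmap]
    exact he
  exact ⟨fun i => polyOf ((sysM hδs w μ e)⁻¹.mulVec (sysR A e i)),
    fun i => polyOf_isHomogeneous _,
    system_unique hδs w μ e hunit ι gK hgK hKμ hKw,
    system_unique hδs w μ e hunit π gk hgk hkμ hkw⟩

end AF23
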