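import Pool.Agent.AF23.D3
import Pool.Agent.AF23.Core0

/-! Part D, fourth file: the dichotomy for valuation rings containing the coefficients of the
associated form. -/

namespace AF23

open MvPolynomial

variable {n δ s : ℕ}

lemma nonempty_Mon (hn : 1 ≤ n) (D : ℕ) : Nonempty (Mon n D) :=
  ⟨⟨Finsupp.single ⟨0, hn⟩ D, mem_Mon.2 (by simp)⟩⟩

lemma jac_lin {K : Type*} [Field K] (C : Matrix (Fin n) (Fin n) K)
    (f : Fin n → MvPolynomial (Fin n) K) : jac (lin C f) = C.det • jac f := by
  have h1 : (Matrix.of fun i j => pderiv j (lin C f i)) =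
      (C.map (MvPolynomial.C (σ := Fin n))) * (Matrix.of fun i j => pderiv j (f i)) := by
    ext1 i j
    simp only [Matrix.of_apply, Matrix.mul_apply, Matrix.map_apply, lin, map_sum]
    refine Finset.sum_congr rfl fun l _ => ?_
    rw [pderiv_C_mul]
  rw [jac, h1, Matrix.det_mul, jac, smul_eq_C_mul, RingHom.map_det]; rfl

section kernel
variable {k : Type*} [Field k]

/-- members of degree `δ` of the ideal of a tuple -/
lemma mem_span_tuple {g : Fin n → MvPolynomial (Fin n) k} (hg : ∀ i, (g i).IsHomogeneous δ)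
    {c : MvPolynomial (Fin n) k} (hc : c.IsHomogeneous δ) (hmem : c ∈ Ideal.span (Set.range g)) :
    ∃ a : Fin n → k, c = ∑ i, a i • g i := by
  obtain ⟨h, hh⟩ := (Ideal.mem_span_range_iff_exists_fun).1 hmem
  refine ⟨fun i => coeff 0 (h i), ?_⟩
  have h1 : c = ∑ i, homogeneousComponent δ (h i * g i) := by
    rw [← map_sum, hh, homogeneousComponent_of_mem hc, if_pos rfl]
  rw [h1]
  refine Finset.sum_congr rfl fun i _ => ?_
  have h2 : h i * g i = ∑ j ∈ Finset.range ((h i).totalDegree + 1),
      homogeneousComponent j (h i) * g i := by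
    rw [← Finset.sum_mul, sum_homogeneousComponent]
  rw [h2, map_sum, Finset.sum_eq_single 0]
  · have h3 : (homogeneousComponent 0 (h i) * g i).IsHomogeneous δ := by
      have := (homogeneousComponent_isHomogeneous 0 (h i)).mul (hg i)
      simpa using this
    rw [homogeneousComponent_of_mem h3, if_pos rfl, homogeneousComponent_zero, smul_eq_C_mul]
  · intro j _ hj
    have h3 := (homogeneousComponent_isHomogeneous j (h i)).mul (hg i)
    rw [homogeneousComponent_of_mem h3, if_neg]
    omega
  · intro h0; simp at h0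

/-- the catalecticant kernel of a nondegenerate functional -/
lemma kernel_trivial [IsAlgClosed k] (hn : 1 ≤ n) (hδ : 1 ≤ δ) (hδs : δ ≤ n * (δ - 1))
    (w : Mon n (n * (δ - 1)) → k) (g : Fin n → MvPolynomial (Fin n) k) (hg : IsTuple δ g)
    (h0 : NoZero g) (μ : Fin n → Mon n δ)
    (hμ : ∀ i j, coeff (μ j).1 (g i) = if i = j then 1 else 0)
    (hw : Kills w g) (hJ : funOf w (jac g) ≠ 0)
    (c : MvPolynomial (Fin n) k) (hc : c.IsHomogeneous δ)
    (hcw : ∀ κ' : Mon n (n * (δ - 1) - δ), funOf w (c * monomial κ'.1 1) = 0)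
    (hcμ : ∀ j, coeff (μ j).1 c = 0) : c = 0 := by
  obtain ⟨m, G⟩ := exists_good hn hδ g hg h0
  have hmem : c ∈ Ideal.span (Set.range g) := by
    refine G.duality hn hδ δ hδs c hc fun u hu => ?_
    have h1 : funOf w (c * u) = 0 := by
      rw [← polyOf_coeff hu, polyOf, Finset.mul_sum, map_sum]
      refine Finset.sum_eq_zero fun κ' _ => ?_
      have : monomial κ'.1 (coeff κ'.1 u) = coeff κ'.1 u • monomial κ'.1 (1 : k) := by
        rw [smul_monomial, smul_eq_mul, mul_one]
      rw [this, mul_smul_comm, map_smul, hcw, smul_zero]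
    have hcu : (c * u).IsHomogeneous (n * (δ - 1)) := by
      have := hc.mul hu
      rwa [Nat.add_sub_cancel' hδs] at this
    have h2 := G.functional_mul hδ (funOf w) hw hcu
    rw [h1, zero_mul] at h2
    exact (mul_eq_zero.1 h2.symm).resolve_left hJ
  obtain ⟨a, ha⟩ := mem_span_tuple hg hc hmem
  have h3 : ∀ j, a j = 0 := by
    intro j
    have := hcμ j
    rw [ha, coeff_sum] at this
    simpa [hμ] using this
  rw [ha]; simp [h3]

end kernel

theorem dichotomy (hn : 2 ≤ n) (hδ : 2 ≤ δ) {K : Type} [Field K] [IsAlgClosed K] [CharZero K]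
    (O : ValuationSubring K) (hO : ∀ m : ℕ, m ≠ 0 → (m : K)⁻¹ ∈ O)
    (f : Fin n → MvPolynomial (Fin n) K) (hf : IsTuple δ f) (h0 : NoZero f)
    (F : MvPolynomial (Fin n) K →ₗ[K] K) (hF : ∀ i h, F (f i * h) = 0) (hJ : F (jac f) = 1)
    (wO : Mon n (n * (δ - 1)) → O) (hwO : ∀ α, (wO α : K) = F (monomial α.1 1)) :
    (Res δ f)⁻¹ ∈ O ∧ (Res δ f ∈ O → ∃ (μ : Fin n → Mon n δ) (C : Matrix (Fin n) (Fin n) K)
      (gO : Fin n → MvPolynomial (Fin n) O), C.det ≠ 0 ∧ (∀ i, (gO i).IsHomogeneous δ) ∧
      (∀ i, map (algebraMap O K) (gO i) = lin C f i) ∧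
      (∀ i j, coeff (μ j).1 (gO i) = if i = j then 1 else 0) ∧
      NoZero (fun i => map (IsLocalRing.residue O) (gO i)) ∧
      funOf (fun α => IsLocalRing.residue O (wO α))
        (jac (fun i => map (IsLocalRing.residue O) (gO i))) ≠ 0) := by
  classical
  have hn1 : 1 ≤ n := by omega
  have hδ1 : 1 ≤ δ := by omega
  have := nonempty_Mon hn1 δ
  have := nonempty_Mon hn1 (n * (δ - 1))
  set N := δ ^ (n - 1) with hN
  have hN0 : N ≠ 0 := pow_ne_zero _ (by omega)
  obtain ⟨m₀, G⟩ := exists_good hn1 hδ1 f hf h0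
  obtain ⟨μ, C, hC, hint, hnorm⟩ := normalize O f hf (G.linearIndependent hδ1)
  have Gg := good_lin G C hC
  have hres := res_lin hn1 hδ1 G C hC
  have hResf : Res δ f ≠ 0 := G.res_ne hn1 hδ1
  have hResg : Res δ (lin C f) ≠ 0 := Gg.res_ne hn1 hδ1
  have hg := lin_isTuple hf C
  have hjl := jac_lin C f
  -- the functional kills the tuple
  have hFg : ∀ i h, F (lin C f i * h) = 0 := by
    intro i h
    rw [lin, Finset.sum_mul, map_sum]
    refine Finset.sum_eq_zero fun j _ => ?_
    rw [mul_assoc, ← smul_eq_C_mul, map_smul, hF, smul_zero]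
  -- largest coefficient
  obtain ⟨αm, hαm⟩ := Finite.exists_max (fun α : Mon n (n * (δ - 1)) =>
    O.valuation (F (monomial α.1 1)))
  set α₀ : K := F (monomial αm.1 1) with hα₀
  have hα₀0 : α₀ ≠ 0 := by
    intro h1
    have h2 : ∀ α : Mon n (n * (δ - 1)), F (monomial α.1 1) = 0 := by
      intro α
      have := hαm α
      rw [h1, map_zero, le_zero_iff, map_eq_zero] at this
      exact this
    have h3 := funOf_eq F (jac_isHomogeneous hf)
    rw [hJ, funOf_apply] at h3
    simp [h2] at h3
  have hα₀O : α₀ ∈ O := by rw [hα₀, ← hwO]; exact (wO αm).2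
  set F' : MvPolynomial (Fin n) K →ₗ[K] K := α₀⁻¹ • F with hF'
  have hF'O : ∀ α : Mon n (n * (δ - 1)), F' (monomial α.1 1) ∈ O := by
    intro α
    rw [← ValuationSubring.valuation_le_one_iff, hF', LinearMap.smul_apply, smul_eq_mul, map_mul,
      map_inv₀]
    have h5 : O.valuation α₀ ≠ 0 := (map_ne_zero _).2 hα₀0
    have h6 := hαm α
    calc (O.valuation α₀)⁻¹ * O.valuation (F (monomial α.1 1))
        ≤ (O.valuation α₀)⁻¹ * O.valuation α₀ := mul_le_mul_right h6 _
      _ = 1 := inv_mul_cancel₀ h5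
  set w' : Mon n (n * (δ - 1)) → O := fun α => ⟨F' (monomial α.1 1), hF'O α⟩ with hw'
  set gO : Fin n → MvPolynomial (Fin n) O := fun i =>
    polyOf (fun κ : Mon n δ => (⟨coeff κ.1 (lin C f i), hint i κ.1⟩ : O)) with hgO
  have hgOmap : ∀ i, map (algebraMap O K) (gO i) = lin C f i := by
    intro i
    rw [hgO]
    simp only
    rw [map_polyOf]
    exact polyOf_coeff (hg i)
  have hgOhom : ∀ i, (gO i).IsHomogeneous δ := fun i => polyOf_isHomogeneous _
  have hgOμ : ∀ i j, coeff (μ j).1 (gO i) = if i = j then 1 else 0 := by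
    intro i j
    rw [hgO]
    simp only
    rw [coeff_polyOf]
    apply Subtype.ext
    simp only [hnorm]
    split_ifs <;> rfl
  -- the value of the functional at the Jacobian
  set τO : O := funOf w' (jacR gO) with hτO
  have hτ1 : (τO : K) = F' (jac (lin C f)) := by
    have h1 := funOf_map (algebraMap O K) w' (jacR gO)
    rw [← jacR_map] at h1
    have h2 : (fun i => map (algebraMap O K) (gO i)) = lin C f := funext hgOmap
    rw [h2, jacR_eq] at h1
    have h3 := funOf_eq F' (jac_isHomogeneous hg)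
    rw [← h3]
    exact h1.symm
  have hτ2 : C.det = α₀ * τO := by
    rw [hτ1, hjl, map_smul, hF', LinearMap.smul_apply, hJ, smul_eq_mul, smul_eq_mul, mul_one,
      mul_comm, mul_assoc, inv_mul_cancel₀ hα₀0, mul_one]
  have hτ0 : (τO : K) ≠ 0 := by
    intro h1; rw [h1, mul_zero] at hτ2; exact hC hτ2
  -- inverse resultant
  have hR : (Res δ f)⁻¹ = α₀ ^ N * ((τO : K) ^ N / Res δ (lin C f)) := by
    rw [hres, hτ2, mul_pow, ← hN]
    have h1 : α₀ ^ N ≠ 0 := pow_ne_zero _ hα₀0
    have h2 : (τO : K) ^ N ≠ 0 := pow_ne_zero _ hτ0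
    field_simp
  have hone : (1 : K) ∉ O.nonunits := by
    rw [ValuationSubring.mem_nonunits_iff, map_one]; exact lt_irrefl _
  have hnu : ∀ x y : K, x ∈ O → y ∈ O.nonunits → x * y ∈ O.nonunits := by
    intro x y hx hy
    rw [ValuationSubring.mem_nonunits_iff, map_mul] at *
    have := (ValuationSubring.valuation_le_one_iff O x).2 hx
    exact (mul_le_mul' this le_rfl).trans_lt (by rw [one_mul]; exact hy)
  have hcontra : (Res δ f)⁻¹ ∈ O.nonunits → Res δ f ∈ O → False := by
    intro h1 h2
    have := hnu _ _ h2 h1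
    rw [mul_inv_cancel₀ hResf] at this
    exact hone this
  by_cases hcase : (τO : K) ∈ O.nonunits
  · have hdet1 : Matrix.det (Matrix.of fun i j => coeff (μ j).1 (lin C f i)) = 1 := by
      have h2 : (Matrix.of fun i j => coeff (μ j).1 (lin C f i)) = 1 := by
        ext i j
        rw [Matrix.of_apply, hnorm, Matrix.one_apply]
      rw [h2, Matrix.det_one]
    have h1 : F' (jac (lin C f)) ^ (δ ^ (n - 1)) / Res δ (lin C f) ∈ O.nonunits :=
      core0 (hn := hn) (hδ := hδ) (O := O) (hO := hO) (g := lin C f) (hg := hg)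
        (hg0 := Gg.noZero hn1 hδ1) (hint := hint) (μ := fun j => (μ j).1)
        (hμ0 := by rw [hdet1]; exact one_ne_zero)
        (hμ := by rw [hdet1, inv_one]; exact O.one_mem) (F := F')
        (hF := fun i h => by rw [hF', LinearMap.smul_apply, hFg, smul_zero])
        (hFint := fun m hm => hF'O ⟨m, mem_Mon.2 hm⟩)
        (hτ0 := by rw [← hτ1]; exact hτ0) (hτ1 := by rw [← hτ1]; exact hcase)
    rw [← hτ1] at h1
    have h2 : (Res δ f)⁻¹ ∈ O.nonunits := by
      rw [hR]; exact hnu _ _ (O.toSubring.pow_mem hα₀O N) h1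
    exact ⟨O.nonunits_subset h2, fun h3 => (hcontra h2 h3).elim⟩
  · -- good reduction
    have := isAlgClosed_residueField O
    have hτres : IsLocalRing.residue O τO ≠ 0 := by
      intro h1
      apply hcase
      rw [ValuationSubring.coe_mem_nonunits_iff, ← IsLocalRing.residue_eq_zero_iff]
      exact h1
    have hδk : (δ : IsLocalRing.ResidueField O) ≠ 0 := by
      have h1 := hO δ (by omega)
      have h2 : (δ : O) * ⟨(δ : K)⁻¹, h1⟩ = 1 := by
        apply Subtype.ext
        have : (δ : K) ≠ 0 := by exact_mod_cast (by omega : δ ≠ 0)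
        simp [mul_inv_cancel₀ this]
      have h3 := congrArg (IsLocalRing.residue O) h2
      rw [map_mul, map_one, map_natCast] at h3
      exact left_ne_zero_of_mul_eq_one h3
    have hkO : Kills w' gO := by
      refine Kills.of_map (algebraMap O K) (IsFractionRing.injective O K) ?_
      have h2 : (fun i => map (algebraMap O K) (gO i)) = lin C f := funext hgOmap
      rw [h2]
      refine kills_of_functional F' hg fun i h => ?_
      rw [hF', LinearMap.smul_apply, hFg, smul_zero]
    have hkk := hkO.map (IsLocalRing.residue O)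
    have hJk : funOf (fun α => IsLocalRing.residue O (w' α))
        (jac fun i => map (IsLocalRing.residue O) (gO i)) = IsLocalRing.residue O τO := by
      rw [← jacR_eq, jacR_map, funOf_map]
    have hNZ : NoZero (fun i => map (IsLocalRing.residue O) (gO i)) := by
      refine noZero_of_functional hn1 hδ1 hδk _ (fun i => (hgOhom i).map _) _ hkk ?_
      rw [hJk]; exact hτres
    obtain ⟨m, Gk⟩ := exists_good hn1 hδ1 _ (fun i => (hgOhom i).map (IsLocalRing.residue O)) hNZ
    obtain ⟨_, r, hr1, _⟩ := good_reduction hn1 hδ1 (algebraMap O K) (IsLocalRing.residue O)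
      (fun a ha => by
        by_contra h1
        apply ha
        rw [IsLocalRing.residue_eq_zero_iff]
        exact (IsLocalRing.mem_maximalIdeal _).2 h1) gO hgOhom m Gk
    have h2 : (fun i => map (algebraMap O K) (gO i)) = lin C f := funext hgOmap
    rw [h2] at hr1
    have hrinv : (Res δ (lin C f))⁻¹ ∈ O := by
      have h3 : (Res δ (lin C f))⁻¹ = ((↑r⁻¹ : O) : K) := by
        rw [← hr1]
        have h4 : ((r : O) : K) * ((↑r⁻¹ : O) : K) = 1 := by
          exact congrArg Subtype.val (Units.mul_inv r)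
        exact inv_eq_of_mul_eq_one_right h4
      rw [h3]; exact (↑r⁻¹ : O).2
    have h5 : (τO : K) ^ N / Res δ (lin C f) ∈ O := by
      rw [div_eq_mul_inv]
      exact O.mul_mem _ _ (O.toSubring.pow_mem τO.2 N) hrinv
    refine ⟨?_, fun hRO => ?_⟩
    · rw [hR]
      exact O.mul_mem _ _ (O.toSubring.pow_mem hα₀O N) h5
    · refine ⟨μ, C, gO, hC, hgOhom, hgOmap, hgOμ, hNZ, ?_⟩
      have hα₀nu : α₀ ∉ O.nonunits := by
        intro h6
        apply fun h => hcontra h hRO
        rw [hR, mul_comm]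
        refine hnu _ _ h5 ?_
        obtain ⟨N', hN'⟩ := Nat.exists_eq_succ_of_ne_zero hN0
        rw [hN', pow_succ]
        exact hnu _ _ (O.toSubring.pow_mem hα₀O N') h6
      have hα₀r : IsLocalRing.residue O ⟨α₀, hα₀O⟩ ≠ 0 := by
        intro h1
        apply hα₀nu
        have := (ValuationSubring.coe_mem_nonunits_iff (A := O) (a := ⟨α₀, hα₀O⟩)).2
          ((IsLocalRing.residue_eq_zero_iff _).1 h1)
        exact this
      have h7 : ∀ α, wO α = ⟨α₀, hα₀O⟩ * w' α := by
        intro α
        apply Subtype.ext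
        rw [hwO]
        change _ = α₀ * F' (monomial α.1 1)
        rw [hF', LinearMap.smul_apply, smul_eq_mul, ← mul_assoc, mul_inv_cancel₀ hα₀0, one_mul]
      have h8 : funOf (fun α => IsLocalRing.residue O (wO α))
          (jac fun i => map (IsLocalRing.residue O) (gO i)) =
          IsLocalRing.residue O ⟨α₀, hα₀O⟩ * IsLocalRing.residue O τO := by
        rw [← hJk, funOf_apply, funOf_apply, Finset.mul_sum]
        refine Finset.sum_congr rfl fun α _ => ?_
        rw [h7, map_mul]; ring
      rw [h8]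
      exact mul_ne_zero hα₀r hτres

end AF23
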