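import Pool.Agent.AF23.D4

/-! Part D, fifth file: integrality, conductor lemma, local analysis. -/

namespace AF23

open MvPolynomial

variable {n δ : ℕ}

/-- elements contained in all valuation subrings above `𝒜` are integral -/
theorem isIntegral_of_valuation {K : Type*} [Field K] (𝒜 : Subring K) (x : K)
    (h : ∀ V : ValuationSubring K, 𝒜 ≤ V.toSubring → x ∈ V) : IsIntegral 𝒜 x := by
  have h1 := iInf_valuationSubring_superset (s := (𝒜 : Set K))
  have h2 : x ∈ (⨅ V : {V : ValuationSubring K // (𝒜 : Set K) ⊆ V.toSubring}, V.1.toSubring) := by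
    rw [Subring.mem_iInf]
    exact fun V => h V.1 V.2
  rw [h1, Subring.closure_eq] at h2
  exact h2

/-- the conductor lemma -/
theorem conductor {K : Type*} [Field K] (𝒜 : Subring K) (R : K) (hint : IsIntegral 𝒜 R)
    (H : ∀ P : Ideal (Algebra.adjoin 𝒜 {R}), P.IsPrime →
      (⟨R, Algebra.self_mem_adjoin_singleton 𝒜 R⟩ : Algebra.adjoin 𝒜 {R}) ∉ P →
      ∃ s₀ : 𝒜, algebraMap 𝒜 (Algebra.adjoin 𝒜 {R}) s₀ ∉ P ∧ (s₀ : K) * R ∈ 𝒜) :
    ∃ m, 0 < m ∧ R ^ m ∈ 𝒜 := by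
  set 𝒜' := Algebra.adjoin 𝒜 {R} with h𝒜'
  set R' : 𝒜' := ⟨R, Algebra.self_mem_adjoin_singleton 𝒜 R⟩ with hR'
  let 𝔠 : Ideal 𝒜' :=
    { carrier := {x | ∀ y : 𝒜', ((x * y : 𝒜') : K) ∈ 𝒜}
      add_mem' := fun {a b} ha hb y => by
        rw [add_mul]; exact 𝒜.add_mem (ha y) (hb y)
      zero_mem' := fun y => by simp
      smul_mem' := fun c x hx y => by
        have := hx (c * y)
        rw [smul_eq_mul]
        convert this using 2
        ring }
  have hrad : R' ∈ 𝔠.radical := by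
    rw [Ideal.radical_eq_sInf, Ideal.mem_sInf]
    rintro P ⟨hP1, hP2⟩
    by_contra hRP
    obtain ⟨s₀, hs1, hs2⟩ := H P hP2 hRP
    have hpow : ∀ y ∈ 𝒜', ∃ k : ℕ, (s₀ : K) ^ k * y ∈ 𝒜 := by
      intro y hy
      induction hy using Algebra.adjoin_induction with
      | mem x hx =>
        rw [Set.mem_singleton_iff] at hx
        exact ⟨1, by rw [pow_one, hx]; exact hs2⟩
      | algebraMap r => exact ⟨0, by rw [pow_zero, one_mul]; exact r.2⟩
      | add x y _ _ hx hy =>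
        obtain ⟨k, hk⟩ := hx
        obtain ⟨l, hl⟩ := hy
        refine ⟨k + l, ?_⟩
        have : (s₀ : K) ^ (k + l) * (x + y) =
            (s₀ : K) ^ l * ((s₀ : K) ^ k * x) + (s₀ : K) ^ k * ((s₀ : K) ^ l * y) := by ring
        rw [this]
        exact 𝒜.add_mem (𝒜.mul_mem (𝒜.pow_mem s₀.2 l) hk) (𝒜.mul_mem (𝒜.pow_mem s₀.2 k) hl)
      | mul x y _ _ hx hy =>
        obtain ⟨k, hk⟩ := hx
        obtain ⟨l, hl⟩ := hy
        refine ⟨k + l, ?_⟩
        have : (s₀ : K) ^ (k + l) * (x * y) =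
            ((s₀ : K) ^ k * x) * ((s₀ : K) ^ l * y) := by ring
        rw [this]
        exact 𝒜.mul_mem hk hl
    obtain ⟨S, hS⟩ := hint.fg_adjoin_singleton
    have hSmem : ∀ y ∈ S, y ∈ 𝒜' := by
      intro y hy
      have : y ∈ Subalgebra.toSubmodule (Algebra.adjoin 𝒜 {R}) := by
        rw [← hS]; exact Submodule.subset_span hy
      exact this
    have hex : ∃ k : ℕ, ∀ y ∈ S, (s₀ : K) ^ k * y ∈ 𝒜 := by
      classical
      choose! k hk using hpow
      refine ⟨∑ y ∈ S, k y, fun y hy => ?_⟩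
      rw [← Finset.add_sum_erase S k hy, pow_add, mul_comm ((s₀ : K) ^ k y), mul_assoc]
      exact 𝒜.mul_mem (𝒜.pow_mem s₀.2 _) (hk y (hSmem y hy))
    obtain ⟨k, hk⟩ := hex
    have hall : ∀ y ∈ Submodule.span 𝒜 (S : Set K), (s₀ : K) ^ k * y ∈ 𝒜 := by
      intro y hy'
      induction hy' using Submodule.span_induction with
      | mem x hx => exact hk x hx
      | zero => rw [mul_zero]; exact 𝒜.zero_mem
      | add x y _ _ hx hy =>
        rw [mul_add]
        exact 𝒜.add_mem hx hy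
      | smul a x _ hx =>
        have h1 : (s₀ : K) ^ k * (a • x) = (a : K) * ((s₀ : K) ^ k * x) := by
          rw [Subring.smul_def, smul_eq_mul]; ring
        rw [h1]
        exact 𝒜.mul_mem a.2 hx
    have hmem : (algebraMap 𝒜 𝒜' s₀) ^ k ∈ 𝔠 := by
      intro y
      have h2 : (y : K) ∈ Submodule.span 𝒜 (S : Set K) := by rw [hS]; exact y.2
      have h3 := hall y.1 h2
      rw [Subalgebra.coe_mul, Subalgebra.coe_pow]
      exact h3
    exact hs1 (hP2.mem_of_pow_mem k (hP1 hmem))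
  obtain ⟨m, hm⟩ := hrad
  refine ⟨m + 1, Nat.succ_pos m, ?_⟩
  have h1 := hm R'
  rw [← pow_succ] at h1
  simpa [hR'] using h1

section local_
variable {K : Type} [Field K] [IsAlgClosed K] [CharZero K]

/-- local analysis at a valuation ring in which the inverse resultant is a unit -/
theorem main_local (hn : 2 ≤ n) (hδ : 2 ≤ δ)
    (f : Fin n → MvPolynomial (Fin n) K) (hf : IsTuple δ f) (h0 : NoZero f)
    (F : MvPolynomial (Fin n) K →ₗ[K] K) (hF : ∀ i h, F (f i * h) = 0) (hJ : F (jac f) = 1)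
    (𝒜 : Subring K) (w : Mon n (n * (δ - 1)) → 𝒜)
    (hw : ∀ α, (w α : K) = F (monomial α.1 1))
    (O : ValuationSubring K) (hO : ∀ m : ℕ, m ≠ 0 → (m : K)⁻¹ ∈ O)
    (h𝒜 : 𝒜 ≤ O.toSubring) (hRO : Res δ f ∈ O)
    {k₂ : Type*} [Field k₂] (ψ₂ : 𝒜 →+* k₂) (hψ : ∀ a : 𝒜, ψ₂ a = 0 ↔ (a : K) ∈ O.nonunits) :
    ∃ (A : Type) (_ : CommRing A) (c : 𝒜 →+* A) (ι : A →+* K) (π₂ : A →+* k₂),
      Function.Injective ι ∧ ι.comp c = 𝒜.subtype ∧ π₂.comp c = ψ₂ ∧
      (∀ a, π₂ a ≠ 0 → IsUnit a) ∧ (∀ a, ∃ x y : 𝒜, ψ₂ y ≠ 0 ∧ ι a * y = x) ∧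
      ∃ (gA : Fin n → MvPolynomial (Fin n) A) (m : (Fin n →₀ ℕ) → (Fin n →₀ ℕ))
        (C : Matrix (Fin n) (Fin n) K), C.det ≠ 0 ∧ (∀ i, (gA i).IsHomogeneous δ) ∧
        (∀ i, map ι (gA i) = lin C f i) ∧
        Good δ (fun i => map π₂ (gA i)) (fun ν => monomial (m ν) 1) ∧
        Kills (fun α => c (w α)) gA ∧
        π₂ (funOf (fun α => c (w α)) (jacR gA)) ≠ 0 := by
  classical
  have hn1 : 1 ≤ n := by omega
  have hδ1 : 1 ≤ δ := by omega
  have hδs : δ ≤ n * (δ - 1) := by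
    have : 2 * (δ - 1) ≤ n * (δ - 1) := Nat.mul_le_mul_right _ hn
    omega
  have hwO : ∀ α, (w α : K) ∈ O := fun α => h𝒜 (w α).2
  obtain ⟨-, hdata⟩ := dichotomy hn hδ O hO f hf h0 F hF hJ (fun α => ⟨w α, hwO α⟩) hw
  obtain ⟨μ, C, gO, hC, hgO, hgOm, hgOμ, hNZ, hJk⟩ := hdata hRO
  have := isAlgClosed_residueField O
  set j : 𝒜 →+* O := Subring.inclusion h𝒜 with hj
  set ψ₁ : 𝒜 →+* IsLocalRing.ResidueField O := (IsLocalRing.residue O).comp j with hψ₁
  have hψ12 : ∀ a, ψ₂ a = 0 ↔ ψ₁ a = 0 := by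
    intro a
    rw [hψ, hψ₁, RingHom.comp_apply, IsLocalRing.residue_eq_zero_iff,
      ← ValuationSubring.coe_mem_nonunits_iff]
    rfl
  obtain ⟨A, instA, c, ι, π₂, π₁, hι, hιc, hπ₂c, hπ₁c, hu₂, hu₁, hfrac⟩ :=
    exists_place_D 𝒜.subtype (Subring.subtype_injective 𝒜) ψ₂ ψ₁ hψ12
  refine ⟨A, instA, c, ι, π₂, hι, hιc, hπ₂c, hu₂, hfrac, ?_⟩
  have hιw : ∀ α, ι (c (w α)) = F (monomial α.1 1) := by
    intro α
    rw [← RingHom.comp_apply, hιc]; exact hw α
  have hπw : ∀ α, π₁ (c (w α)) = IsLocalRing.residue O ⟨w α, hwO α⟩ := by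
    intro α
    rw [← RingHom.comp_apply, hπ₁c]; rfl
  have hgK := lin_isTuple hf C
  have hFg : ∀ i h, F (lin C f i * h) = 0 := by
    intro i h
    rw [lin, Finset.sum_mul, map_sum]
    refine Finset.sum_eq_zero fun j _ => ?_
    rw [mul_assoc, ← smul_eq_C_mul, map_smul, hF, smul_zero]
  have hKK : Kills (fun α => ι (c (w α))) (lin C f) := by
    have := kills_of_functional (s := n * (δ - 1)) F hgK hFg
    convert this using 1
    funext α; exact hιw α
  have hKμ : ∀ i j, coeff (μ j).1 (lin C f i) = if i = j then 1 else 0 := by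
    intro i j
    rw [← hgOm, coeff_map, hgOμ]
    split_ifs <;> simp
  have hkhom : ∀ i, (map (IsLocalRing.residue O) (gO i)).IsHomogeneous δ := fun i =>
    (hgO i).map _
  have hkμ : ∀ i j, coeff (μ j).1 (map (IsLocalRing.residue O) (gO i)) =
      if i = j then 1 else 0 := by
    intro i j
    rw [coeff_map, hgOμ]
    split_ifs <;> simp
  have hkills : Kills (fun α => π₁ (c (w α))) (fun i => map (IsLocalRing.residue O) (gO i)) := by
    have h1 : Kills (fun α => (⟨w α, hwO α⟩ : O)) gO := by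
      refine Kills.of_map (algebraMap O K) (IsFractionRing.injective O K) ?_
      have h2 : (fun i => map (algebraMap O K) (gO i)) = lin C f := funext hgOm
      rw [h2]
      convert hKK using 1
      funext α
      rw [hιw, ← hw]; rfl
    have h3 := h1.map (IsLocalRing.residue O)
    convert h3 using 1
    funext α; exact hπw α
  have hJk' : funOf (fun α => π₁ (c (w α)))
      (jac (fun i => map (IsLocalRing.residue O) (gO i))) ≠ 0 := by
    convert hJk using 3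
    funext α; exact hπw α
  obtain ⟨gA, hgA, hgAι, hgAπ⟩ := descend_tuple hδs ι π₁ hu₁ (fun α => c (w α)) μ
    (lin C f) hgK hKμ hKK (fun i => map (IsLocalRing.residue O) (gO i)) hkhom hkμ hkills
    (fun cc hcc hcw hcμ => kernel_trivial hn1 hδ1 hδs _ _ hkhom hNZ μ hkμ hkills hJk' cc hcc hcw hcμ)
  have hgAπ' : (fun i => map π₁ (gA i)) = fun i => map (IsLocalRing.residue O) (gO i) :=
    funext hgAπ
  obtain ⟨m, Gk⟩ := exists_good hn1 hδ1 _ hkhom hNZ
  have hTu : ∀ D, IsUnit (TR δ gA (fun ν => monomial (m ν) 1) D) := by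
    intro D
    apply hu₁
    rw [← TR_map, map_mon, TR_eq, hgAπ']
    exact Gk.T_ne hδ1 D
  refine ⟨gA, m, C, hC, hgA, hgAι, ?_, ?_, ?_⟩
  · exact good_of_TR hn1 hδ1 π₂ gA hgA m (fun ν hν => Gk.mon_degree hν)
      (fun D _ => ((hTu D).map π₂).ne_zero)
  · refine Kills.of_map ι hι ?_
    have h2 : (fun i => map ι (gA i)) = lin C f := funext hgAι
    rw [h2]; exact hKK
  · have h1 : IsUnit (funOf (fun α => c (w α)) (jacR gA)) := by
      apply hu₁
      rw [← funOf_map, ← jacR_map, hgAπ', jacR_eq]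
      exact hJk'
    exact (h1.map π₂).ne_zero

end local_

end AF23
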