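import Pool.Agent.AF23.D5

/-! Part D, sixth file: the generic tuple and specialisation, and the descent theorem. -/

namespace AF23

open MvPolynomial

variable {n δ : ℕ}

/-- numerators of the socle functional -/
lemma Good.functional_NR {L : Type*} [Field L] (hδ : 1 ≤ δ) {g : Fin n → MvPolynomial (Fin n) L}
    {b : (Fin n →₀ ℕ) → MvPolynomial (Fin n) L} (G : Good δ g b)
    (F : MvPolynomial (Fin n) L →ₗ[L] L) (hF : ∀ i h, F (g i * h) = 0)
    {h : MvPolynomial (Fin n) L} (hh : h.IsHomogeneous (n * (δ - 1))) :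
    F h * NR δ g b (jac g) (topM n δ) = F (jac g) * NR δ g b h (topM n δ) := by
  rw [← G.co_mul_T hδ (jac_isHomogeneous G.fhom) (topM n δ), ← G.co_mul_T hδ hh (topM n δ),
    ← mul_assoc, ← mul_assoc]
  congr 1
  exact G.functional_mul hδ F hF hh

lemma Good.NR_jac_ne {L : Type*} [Field L] (hδ : 1 ≤ δ) {g : Fin n → MvPolynomial (Fin n) L}
    {b : (Fin n →₀ ℕ) → MvPolynomial (Fin n) L} (G : Good δ g b)
    (F : MvPolynomial (Fin n) L →ₗ[L] L) (hF : ∀ i h, F (g i * h) = 0) (hJ : F (jac g) ≠ 0) :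
    NR δ g b (jac g) (topM n δ) ≠ 0 := by
  rw [← G.co_mul_T hδ (jac_isHomogeneous G.fhom) (topM n δ)]
  refine mul_ne_zero ?_ (G.T_ne hδ _)
  intro h
  apply hJ
  rw [G.functional_eq hδ F hF (jac_isHomogeneous G.fhom)]
  rw [show G.co (jac g) (top n δ) = 0 from h, zero_mul]

section generic

/-- coefficients of the generic tuple -/
abbrev BB (n δ : ℕ) : Type := MvPolynomial (Fin n × Mon n δ) ℂ

/-- algebraically closed field containing the generic coefficients -/
abbrev KK (n δ : ℕ) : Type := AlgebraicClosure (FractionRing (BB n δ))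

/-- inclusion of the coefficient ring -/
noncomputable def iota (n δ : ℕ) : BB n δ →+* KK n δ :=
  (algebraMap (FractionRing (BB n δ)) (KK n δ)).comp (algebraMap (BB n δ) (FractionRing (BB n δ)))

lemma iota_injective : Function.Injective (iota n δ) :=
  (algebraMap (FractionRing (BB n δ)) (KK n δ)).injective.comp
    (IsFractionRing.injective (BB n δ) (FractionRing (BB n δ)))

/-- inclusion of the constants -/
noncomputable def kap (n δ : ℕ) : ℂ →+* KK n δ := (iota n δ).comp MvPolynomial.C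

/-- the generic tuple over the coefficient ring -/
noncomputable def fgen (n δ : ℕ) : Fin n → MvPolynomial (Fin n) (BB n δ) := fun i =>
  polyOf (fun κ : Mon n δ => X (i, κ))

/-- the generic tuple over the field -/
noncomputable def fK (n δ : ℕ) : Fin n → MvPolynomial (Fin n) (KK n δ) := fun i =>
  map (iota n δ) (fgen n δ i)

/-- specialisation -/
noncomputable def ev (f : Fin n → MvPolynomial (Fin n) ℂ) : BB n δ →+* ℂ :=
  eval (fun p : Fin n × Mon n δ => coeff p.2.1 (f p.1))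

lemma map_ev {f : Fin n → MvPolynomial (Fin n) ℂ} (hf : IsTuple δ f) (i : Fin n) :
    map (ev f) (fgen n δ i) = f i := by
  rw [fgen, map_polyOf]
  simp only [ev, eval_X]
  exact polyOf_coeff (hf i)

lemma fgen_hom (i : Fin n) : (fgen n δ i).IsHomogeneous δ := polyOf_isHomogeneous _

lemma fK_tuple : IsTuple δ (fK n δ) := fun i => (fgen_hom i).map _

/-- specialisation, first form -/
theorem spec0 (hn : 1 ≤ n) (hδ : 1 ≤ δ) (f₀ : Fin n → MvPolynomial (Fin n) ℂ)
    (hf₀ : IsTuple δ f₀) (h0 : NoZero f₀) :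
    ∃ (A : Type) (_ : CommRing A) (cA : ℂ →+* A) (ι : A →+* KK n δ) (π : A →+* ℂ)
      (gA : Fin n → MvPolynomial (Fin n) A) (m : (Fin n →₀ ℕ) → (Fin n →₀ ℕ)) (r : Aˣ),
      Function.Injective ι ∧ ι.comp cA = kap n δ ∧ π.comp cA = RingHom.id ℂ ∧
      (∀ a, π a ≠ 0 → IsUnit a) ∧ (fun i => map ι (gA i)) = fK n δ ∧
      (fun i => map π (gA i)) = f₀ ∧
      Good δ (fK n δ) (fun ν => monomial (m ν) 1) ∧ Good δ f₀ (fun ν => monomial (m ν) 1) ∧
      ι r = Res δ (fK n δ) ∧ π r = Res δ f₀ := by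
  obtain ⟨A, instA, c, ι, π, π', hι, hιc, hπc, -, hu, -, -⟩ :=
    exists_place_D (iota n δ) iota_injective (ev f₀) (ev f₀) (fun _ => Iff.rfl)
  have h1 : (fun i => map ι (map c (fgen n δ i))) = fK n δ := by
    funext i
    rw [map_map, hιc]; rfl
  have h2 : (fun i => map π (map c (fgen n δ i))) = f₀ := by
    funext i
    rw [map_map, hπc, map_ev hf₀]
  obtain ⟨m, G⟩ := exists_good hn hδ f₀ hf₀ h0
  have G2 := G
  rw [← h2] at G2
  obtain ⟨G3, r, hr1, hr2⟩ := good_reduction hn hδ ι π hu (fun i => map c (fgen n δ i))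
    (fun i => (fgen_hom i).map c) m G2
  rw [h1] at G3 hr1
  rw [h2] at hr2
  refine ⟨A, instA, c.comp MvPolynomial.C, ι, π, fun i => map c (fgen n δ i), m, r, hι, ?_, ?_,
    hu, h1, h2, G3, G, hr1, hr2⟩
  · rw [← RingHom.comp_assoc, hιc]; rfl
  · rw [← RingHom.comp_assoc, hπc]
    ext z
    · simp [ev]

/-- specialisation, second form -/
theorem spec (hn : 1 ≤ n) (hδ : 1 ≤ δ) (F : MvPolynomial (Fin n) (KK n δ) →ₗ[KK n δ] KK n δ)
    (hF : ∀ i h, F (fK n δ i * h) = 0) (hJ : F (jac (fK n δ)) = 1)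
    (f₀ : Fin n → MvPolynomial (Fin n) ℂ) (ω₀ : MvPolynomial (Fin n) ℂ →ₗ[ℂ] ℂ)
    (hS : IsSocle δ f₀ ω₀) :
    ∃ (A : Type) (_ : CommRing A) (cA : ℂ →+* A) (ι : A →+* KK n δ) (π : A →+* ℂ)
      (w : Mon n (n * (δ - 1)) → A) (r : A),
      Function.Injective ι ∧ ι.comp cA = kap n δ ∧ π.comp cA = RingHom.id ℂ ∧
      (∀ α, ι (w α) = F (monomial α.1 1)) ∧ (∀ α, π (w α) = ω₀ (monomial α.1 1)) ∧
      ι r = Res δ (fK n δ) ∧ π r = Res δ f₀ := by
  obtain ⟨hf₀, h0, hω, hωJ⟩ := hS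
  obtain ⟨A, instA, cA, ι, π, gA, m, r, hι, hιc, hπc, hu, hgι, hgπ, GK, G, hr1, hr2⟩ :=
    spec0 hn hδ f₀ hf₀ h0
  have hω' : ∀ i h, ω₀ (f₀ i * h) = 0 := fun i h =>
    hω _ (Ideal.mul_mem_right _ _ (Ideal.subset_span ⟨i, rfl⟩))
  set b : (Fin n →₀ ℕ) → MvPolynomial (Fin n) A := fun ν => monomial (m ν) 1 with hb
  -- the numerators
  have hK : ∀ h, NR δ (fK n δ) (fun ν => monomial (m ν) 1) (map ι h) (topM n δ) =
      ι (NR δ gA b h (topM n δ)) := by
    intro h
    rw [← hgι, ← map_mon ι m, NR_map]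
  have hC : ∀ h, NR δ f₀ (fun ν => monomial (m ν) 1) (map π h) (topM n δ) =
      π (NR δ gA b h (topM n δ)) := by
    intro h
    rw [← hgπ, ← map_mon π m, NR_map]
  have hjK : map ι (jacR gA) = jac (fK n δ) := by rw [← jacR_map, hgι, jacR_eq]
  have hjC : map π (jacR gA) = jac f₀ := by rw [← jacR_map, hgπ, jacR_eq]
  have hne : π (NR δ gA b (jacR gA) (topM n δ)) ≠ 0 := by
    rw [← hC, hjC]
    exact G.NR_jac_ne hδ ω₀ hω' (by rw [hωJ]; exact one_ne_zero)
  obtain ⟨q, hq⟩ := hu _ hne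
  refine ⟨A, instA, cA, ι, π, fun α => NR δ gA b (monomial α.1 1) (topM n δ) * ↑q⁻¹, r, hι, hιc,
    hπc, ?_, ?_, hr1, hr2⟩
  · intro α
    have h1 := GK.functional_NR hδ F hF (h := monomial α.1 1) (isHomogeneous_monomial _ α.deg)
    have h2 : (monomial α.1 (1 : KK n δ)) = map ι (monomial α.1 1) := by
      rw [map_monomial, map_one ι]
    rw [hJ, one_mul] at h1
    rw [← hjK, hK, ← hq] at h1
    rw [map_mul]
    have h3 : NR δ (fK n δ) (fun ν => monomial (m ν) 1) (monomial α.1 1) (topM n δ) =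
        ι (NR δ gA b (monomial α.1 1) (topM n δ)) := by
      rw [h2, hK]
    rw [h3] at h1
    rw [← h1, mul_assoc, ← map_mul ι, Units.mul_inv, map_one ι, mul_one]
  · intro α
    have h1 := G.functional_NR hδ ω₀ hω' (h := monomial α.1 1) (isHomogeneous_monomial _ α.deg)
    have h2 : (monomial α.1 (1 : ℂ)) = map π (monomial α.1 1) := by
      rw [map_monomial, map_one π]
    rw [hωJ, one_mul] at h1
    rw [← hjC, hC, ← hq] at h1
    rw [map_mul]
    have h3 : NR δ f₀ (fun ν => monomial (m ν) 1) (monomial α.1 1) (topM n δ) =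
        π (NR δ gA b (monomial α.1 1) (topM n δ)) := by
      rw [h2, hC]
    rw [h3] at h1
    rw [← h1, mul_assoc, ← map_mul π, Units.mul_inv, map_one π, mul_one]

end generic

/-- the tuple of powers of the variables -/
lemma isTuple_pow : IsTuple δ (fun i : Fin n => (X i : MvPolynomial (Fin n) ℂ) ^ δ) := fun i => by
  simpa using (isHomogeneous_X ℂ i).pow δ

lemma noZero_pow (hδ : 1 ≤ δ) : NoZero (fun i : Fin n => (X i : MvPolynomial (Fin n) ℂ) ^ δ) := by
  intro x hx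
  funext i
  have := hx i
  rw [map_pow, eval_X] at this
  exact (pow_eq_zero_iff (by omega)).1 this

lemma Good.exists_functional {L : Type*} [Field L] (hδ : 1 ≤ δ)
    {g : Fin n → MvPolynomial (Fin n) L}
    {b : (Fin n →₀ ℕ) → MvPolynomial (Fin n) L} (G : Good δ g b)
    (hJ : G.co (jac g) (top n δ) ≠ 0) :
    ∃ F : MvPolynomial (Fin n) L →ₗ[L] L, (∀ i h, F (g i * h) = 0) ∧ F (jac g) = 1 := by
  refine ⟨(G.co (jac g) (top n δ))⁻¹ • G.coL (top n δ), fun i h => ?_, ?_⟩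
  · rw [LinearMap.smul_apply, Good.coL_apply, G.co_top_mul hδ, smul_zero]
  · rw [LinearMap.smul_apply, Good.coL_apply, smul_eq_mul, inv_mul_cancel₀ hJ]

theorem descent (hn : 2 ≤ n) (hδ : 2 ≤ δ) :
    ∃ (m : ℕ) (J : MvPolynomial (Mon n (n * (δ - 1))) ℂ), 0 < m ∧
      (∀ f ω, IsSocle δ f ω → evalFun J ω * Res δ f ^ m = 1) ∧
      (∀ φ : Mon n (n * (δ - 1)) → ℂ, eval φ J ≠ 0 →
        (∀ p : MvPolynomial (Mon n (n * (δ - 1))) ℂ,
          (∀ f ω, IsSocle δ f ω → evalFun p ω = 0) → eval φ p = 0) →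
        ∃ f ω, IsSocle δ f ω ∧ ∀ α : Mon n (n * (δ - 1)), ω (monomial α.1 1) = φ α) := by
  classical
  have hn1 : 1 ≤ n := by omega
  have hδ1 : 1 ≤ δ := by omega
  set N := δ ^ (n - 1) with hN
  have : CharZero (KK n δ) := charZero_of_injective_ringHom (kap n δ).injective
  obtain ⟨_, _, _, _, _, _, m₀, _, _, _, _, _, _, _, GK, -, -, -⟩ :=
    spec0 (δ := δ) hn1 hδ1 _ isTuple_pow (noZero_pow hδ1)
  have h0 : NoZero (fK n δ) := GK.noZero hn1 hδ1
  have hδK : (δ : KK n δ) ≠ 0 := by exact_mod_cast (by omega : δ ≠ 0)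
  obtain ⟨F, hF, hJ⟩ := GK.exists_functional hδ1 (GK.jac_ne hn1 hδ1 hδK)
  have hResf : Res δ (fK n δ) ≠ 0 := GK.res_ne hn1 hδ1
  -- the ring generated by the coefficients of the associated form
  set wK : Mon n (n * (δ - 1)) → KK n δ := fun α => F (monomial α.1 1) with hwK
  set Φ : MvPolynomial (Mon n (n * (δ - 1))) ℂ →+* KK n δ := eval₂Hom (kap n δ) wK with hΦ
  set 𝒜 : Subring (KK n δ) := Φ.range with h𝒜
  set w : Mon n (n * (δ - 1)) → 𝒜 := fun α => ⟨wK α, ⟨X α, by simp [hΦ]⟩⟩ with hw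
  have hww : ∀ α, (w α : KK n δ) = F (monomial α.1 1) := fun α => rfl
  have hO : ∀ V : ValuationSubring (KK n δ), 𝒜 ≤ V.toSubring → ∀ m : ℕ, m ≠ 0 →
      (m : KK n δ)⁻¹ ∈ V := by
    intro V hV m _
    apply hV
    refine ⟨C (m : ℂ)⁻¹, ?_⟩
    rw [hΦ, coe_eval₂Hom, eval₂_C, map_inv₀, map_natCast]
  set R : KK n δ := (Res δ (fK n δ))⁻¹ with hR
  have hRV : ∀ V : ValuationSubring (KK n δ), 𝒜 ≤ V.toSubring → R ∈ V := by
    intro V hV
    exact (dichotomy hn hδ V (hO V hV) (fK n δ) fK_tuple h0 F hF hJ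
      (fun α => ⟨w α, hV (w α).2⟩) (fun α => rfl)).1
  have hunit : ∀ V : ValuationSubring (KK n δ), R ∈ V → R ∉ V.nonunits → Res δ (fK n δ) ∈ V := by
    intro V h1 h2
    rw [← ValuationSubring.valuation_le_one_iff] at h1 ⊢
    rw [ValuationSubring.mem_nonunits_iff, not_lt] at h2
    have h3 := le_antisymm h1 h2
    rw [hR, map_inv₀] at h3
    rw [inv_eq_one.1 h3]
  have hint : IsIntegral 𝒜 R := isIntegral_of_valuation 𝒜 R hRV
  obtain ⟨m, hm, J, hRJ⟩ := conductor 𝒜 R hint (by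
    intro P hP hRP
    obtain ⟨V, hV1, hV2⟩ := exists_valuationSubring_prime (Algebra.adjoin 𝒜 {R}).toSubring P
    have hV𝒜 : 𝒜 ≤ V.toSubring := fun x hx => hV1 (Subalgebra.algebraMap_mem _ (⟨x, hx⟩ : 𝒜))
    have hR1 : R ∉ V.nonunits := fun h => hRP ((hV2 ⟨R, _⟩).1 h)
    have hRes := hunit V (hRV V hV𝒜) hR1
    set ψ : 𝒜 →+* IsLocalRing.ResidueField V :=
      (IsLocalRing.residue V).comp (Subring.inclusion hV𝒜) with hψ
    have hψ0 : ∀ a : 𝒜, ψ a = 0 ↔ (a : KK n δ) ∈ V.nonunits := by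
      intro a
      rw [hψ, RingHom.comp_apply, IsLocalRing.residue_eq_zero_iff,
        ← ValuationSubring.coe_mem_nonunits_iff]
      rfl
    obtain ⟨A, instA, c, ι, π, hι, hιc, hπc, hu, hfrac, gA, m', C, hC, hgA, hgι, G2, -, -⟩ :=
      main_local hn hδ (fK n δ) fK_tuple h0 F hF hJ 𝒜 w hww V (hO V hV𝒜) hV𝒜 hRes ψ hψ0
    obtain ⟨-, r, hr1, -⟩ := good_reduction hn1 hδ1 ι π hu gA hgA m' G2
    have hgι' : (fun i => map ι (gA i)) = lin C (fK n δ) := funext hgι
    rw [hgι'] at hr1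
    have hdet : ι (funOf (fun α => c (w α)) (jacR gA)) = C.det := by
      rw [← funOf_map, ← jacR_map, hgι', jacR_eq]
      have h1 : (fun α => ι (c (w α))) = fun α : Mon n (n * (δ - 1)) => F (monomial α.1 1) := by
        funext α
        rw [← RingHom.comp_apply, hιc]; rfl
      rw [h1, funOf_eq F (jac_isHomogeneous (lin_isTuple fK_tuple C)), jac_lin, map_smul, hJ,
        smul_eq_mul, mul_one]
    have hres := res_lin hn1 hδ1 GK C hC
    have hRι : R = ι (funOf (fun α => c (w α)) (jacR gA) ^ N * ↑r⁻¹) := by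
      have h2 : ι ↑r⁻¹ = (Res δ (lin C (fK n δ)))⁻¹ := by
        rw [← hr1]
        refine eq_inv_of_mul_eq_one_left ?_
        rw [← map_mul, Units.inv_mul, map_one]
      rw [map_mul, map_pow, hdet, h2, hres, hR, ← hN]
      have h3 : C.det ^ N ≠ 0 := pow_ne_zero _ hC
      field_simp
    obtain ⟨x, y, hy, hxy⟩ := hfrac (funOf (fun α => c (w α)) (jacR gA) ^ N * ↑r⁻¹)
    rw [← hRι] at hxy
    refine ⟨y, fun hyP => hy ?_, ?_⟩
    · rw [hψ0]
      exact (hV2 _).2 hyP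
    · rw [mul_comm, hxy]; exact x.2)
  refine ⟨m, J, hm, ?_, ?_⟩
  · intro f₀ ω₀ hS
    obtain ⟨A, _, cA, ι, π, wA, r, hι, hιc, hπc, hιw, hπw, hr1, hr2⟩ :=
      spec hn1 hδ1 F hF hJ f₀ ω₀ hS
    have h1 : eval₂ cA wA J * r ^ m = 1 := by
      apply hι
      rw [map_mul, map_pow, map_one, hr1, ← coe_eval₂Hom, ← RingHom.comp_apply, comp_eval₂Hom, hιc]
      have h2 : (fun α => ι (wA α)) = wK := funext hιw
      rw [h2, ← hΦ, hRJ, hR, inv_pow, inv_mul_cancel₀ (pow_ne_zero _ hResf)]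
    have h3 := congrArg π h1
    rw [map_mul, map_pow, map_one, hr2, ← coe_eval₂Hom, ← RingHom.comp_apply, comp_eval₂Hom,
      hπc] at h3
    have h4 : (fun α => π (wA α)) = fun α : Mon n (n * (δ - 1)) => ω₀ (monomial α.1 1) :=
      funext hπw
    rw [h4] at h3
    exact h3
  · intro φ hφJ hcl
    have hker : RingHom.ker Φ.rangeRestrict ≤
        RingHom.ker (eval φ : MvPolynomial (Mon n (n * (δ - 1))) ℂ →+* ℂ) := by
      intro p hp
      rw [RingHom.mem_ker] at hp ⊢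
      have hp' : Φ p = 0 := congrArg Subtype.val hp
      refine hcl p fun f₀ ω₀ hS => ?_
      obtain ⟨A, _, cA, ι, π, wA, r, hι, hιc, hπc, hιw, hπw, hr1, hr2⟩ :=
        spec hn1 hδ1 F hF hJ f₀ ω₀ hS
      have h1 : eval₂ cA wA p = 0 := by
        apply hι
        rw [map_zero, ← coe_eval₂Hom, ← RingHom.comp_apply, comp_eval₂Hom, hιc]
        have h2 : (fun α => ι (wA α)) = wK := funext hιw
        rw [h2, ← hΦ, hp']
      have h3 := congrArg π h1
      rw [map_zero, ← coe_eval₂Hom, ← RingHom.comp_apply, comp_eval₂Hom, hπc] at h3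
      have h4 : (fun α => π (wA α)) = fun α : Mon n (n * (δ - 1)) => ω₀ (monomial α.1 1) :=
        funext hπw
      rw [h4] at h3
      exact h3
    set χ : 𝒜 →+* ℂ := RingHom.liftOfSurjective Φ.rangeRestrict
      (RingHom.rangeRestrict_surjective Φ) ⟨eval φ, hker⟩ with hχ
    have hχΦ : ∀ p, χ (Φ.rangeRestrict p) = eval φ p := fun p =>
      RingHom.liftOfRightInverse_comp_apply _ _ _ _ _
    have hχw : ∀ α, χ (w α) = φ α := by
      intro α
      have h1 : w α = Φ.rangeRestrict (X α) := by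
        apply Subtype.ext
        change wK α = Φ (X α)
        simp [hΦ]
      rw [h1, hχΦ, eval_X]
    have := RingHom.ker_isPrime χ
    obtain ⟨V, hV1, hV2⟩ := exists_valuationSubring_prime 𝒜 (RingHom.ker χ)
    have hRm : R ∉ V.nonunits := by
      intro h1
      have h2 : R ^ m ∈ V.nonunits := by
        rw [ValuationSubring.mem_nonunits_iff] at h1 ⊢
        rw [map_pow]
        exact pow_lt_one₀ bot_le h1 hm.ne'
      rw [← hRJ] at h2
      have h3 := (hV2 (Φ.rangeRestrict J)).1 h2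
      rw [RingHom.mem_ker, hχΦ] at h3
      exact hφJ h3
    have hRes := hunit V (hRV V hV1) hRm
    obtain ⟨A, instA, c, ι, π, hι, hιc, hπc, hu, hfrac, gA, m', C₀, hC₀, hgA, hgι, G2, hkill, hne⟩ :=
      main_local hn hδ (fK n δ) fK_tuple h0 F hF hJ 𝒜 w hww V (hO V hV1) hV1 hRes χ
        (fun a => by rw [hV2, RingHom.mem_ker])
    have hπw : ∀ α, π (c (w α)) = φ α := by
      intro α
      rw [← RingHom.comp_apply, hπc, hχw]
    set f₁ : Fin n → MvPolynomial (Fin n) ℂ := fun i => map π (gA i) with hf₁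
    have hk1 : Kills φ f₁ := by
      have := hkill.map π
      convert this using 1
      funext α; exact (hπw α).symm
    have hc1 : funOf φ (jac f₁) ≠ 0 := by
      have h1 : funOf (fun α => π (c (w α))) (jac f₁) = π (funOf (fun α => c (w α)) (jacR gA)) := by
        rw [hf₁, ← jacR_eq, jacR_map, funOf_map]
      have h2 : (fun α => π (c (w α))) = φ := funext hπw
      rw [h2] at h1
      rw [h1]; exact hne
    set c₁ := funOf φ (jac f₁) with hc₁
    set D : Matrix (Fin n) (Fin n) ℂ :=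
      Matrix.diagonal (Function.update 1 (⟨0, hn1⟩ : Fin n) c₁⁻¹) with hD
    have hDdet : D.det = c₁⁻¹ := by
      rw [hD, Matrix.det_diagonal, Finset.prod_eq_single (⟨0, hn1⟩ : Fin n)]
      · simp
      · intro j _ hj; simp [hj]
      · simp
    have hD0 : D.det ≠ 0 := by rw [hDdet]; exact inv_ne_zero hc1
    have hkD : ∀ i h, funOf φ (lin D f₁ i * h) = 0 := by
      intro i h
      rw [lin, Finset.sum_mul, map_sum]
      refine Finset.sum_eq_zero fun j _ => ?_
      rw [mul_assoc, ← smul_eq_C_mul, map_smul, hk1, smul_zero]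
    refine ⟨lin D f₁, funOf φ, ⟨lin_isTuple G2.fhom D, (good_lin G2 D hD0).noZero hn1 hδ1, ?_, ?_⟩,
      ?_⟩
    · intro h hh
      obtain ⟨a, rfl⟩ := (Ideal.mem_span_range_iff_exists_fun).1 hh
      rw [map_sum]
      refine Finset.sum_eq_zero fun i _ => ?_
      rw [mul_comm (a i) (lin D f₁ i)]; exact hkD i _
    · rw [jac_lin, map_smul, hDdet, smul_eq_mul, ← hc₁, inv_mul_cancel₀ hc1]
    · intro α
      rw [funOf_monomial, one_mul]

end AF23
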