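import Mathlib

/-! # MP_23dcb4_ag : basic definitions

`n` variables, `S = MvPolynomial (Fin n) K`, tuples `f : Fin n → S` of forms of degree `δ`
(`δ = d - 1` in the problem).  -/

namespace AF23

open MvPolynomial

variable {n : ℕ} {K : Type*}

/-- exponents of total degree `D` -/
abbrev Mon (n D : ℕ) : Type :=
  {α : Fin n →₀ ℕ // α ∈ Finset.finsuppAntidiag (Finset.univ : Finset (Fin n)) D}

/-- coordinatewise remainder mod `δ` -/
noncomputable def modF (δ : ℕ) (α : Fin n →₀ ℕ) : Fin n →₀ ℕ := α.mapRange (· % δ) (Nat.zero_mod δ)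

/-- coordinatewise quotient by `δ` -/
noncomputable def divF (δ : ℕ) (α : Fin n →₀ ℕ) : Fin n →₀ ℕ := α.mapRange (· / δ) (Nat.zero_div δ)

section field
variable [Field K]

/-- all the forms `f i` are homogeneous of degree `δ` -/
def IsTuple (δ : ℕ) (f : Fin n → MvPolynomial (Fin n) K) : Prop := ∀ i, (f i).IsHomogeneous δ

/-- the only common zero is the origin -/
def NoZero (f : Fin n → MvPolynomial (Fin n) K) : Prop :=
  ∀ x : Fin n → K, (∀ i, eval x (f i) = 0) → x = 0

/-- Jacobian determinant -/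
noncomputable def jac (f : Fin n → MvPolynomial (Fin n) K) : MvPolynomial (Fin n) K :=
  Matrix.det (Matrix.of fun i j => pderiv j (f i))

/-- the element `E_α = b_{α mod δ} * f^{α div δ}` -/
noncomputable def Ev (δ : ℕ) (f : Fin n → MvPolynomial (Fin n) K)
    (b : (Fin n →₀ ℕ) → MvPolynomial (Fin n) K) (α : Fin n →₀ ℕ) : MvPolynomial (Fin n) K :=
  b (modF δ α) * ∏ i, f i ^ (divF δ α i)

/-- `b` is a good family for `f`: the `E_α` form a homogeneous `K`-basis of `S`
(equivalently: the `b_ν`, `ν ∈ [0,δ)^n`, form a homogeneous basis of `S` over `K[f]`,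
with `deg b_ν = |ν|`). -/
structure Good (δ : ℕ) (f : Fin n → MvPolynomial (Fin n) K)
    (b : (Fin n →₀ ℕ) → MvPolynomial (Fin n) K) : Prop where
  fhom : IsTuple δ f
  bhom : ∀ ν : Fin n →₀ ℕ, (∀ i, ν i < δ) → (b ν).IsHomogeneous ν.degree
  li : LinearIndependent K (Ev δ f b)
  sp : Submodule.span K (Set.range (Ev δ f b)) = ⊤

/-- the basis of a good family -/
noncomputable def Good.basis {δ : ℕ} {f : Fin n → MvPolynomial (Fin n) K}
    {b : (Fin n →₀ ℕ) → MvPolynomial (Fin n) K} (G : Good δ f b) :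
    Module.Basis (Fin n →₀ ℕ) K (MvPolynomial (Fin n) K) :=
  Module.Basis.mk G.li G.sp.ge

/-- coordinates with respect to the basis `E_α` -/
noncomputable def Good.co {δ : ℕ} {f : Fin n → MvPolynomial (Fin n) K}
    {b : (Fin n →₀ ℕ) → MvPolynomial (Fin n) K} (G : Good δ f b)
    (h : MvPolynomial (Fin n) K) (α : Fin n →₀ ℕ) : K := G.basis.repr h α

/-- `T_D(f;b)`: determinant of the family `E_α`, `|α| = D`, in terms of the monomials. -/
noncomputable def T (δ : ℕ) (f : Fin n → MvPolynomial (Fin n) K)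
    (b : (Fin n →₀ ℕ) → MvPolynomial (Fin n) K) (D : ℕ) : K :=
  Matrix.det (Matrix.of fun α β : Mon n D => coeff β.1 (Ev δ f b α.1))

/-- `n`-th (multiplicative) difference of `j ↦ T_{jδ}` at `k` -/
noncomputable def ResAt (δ : ℕ) (f : Fin n → MvPolynomial (Fin n) K)
    (b : (Fin n →₀ ℕ) → MvPolynomial (Fin n) K) (k : ℕ) : K :=
  ∏ i ∈ Finset.range (n + 1), (T δ f b ((k - i) * δ)) ^ ((-1 : ℤ) ^ i * (n.choose i : ℤ))

open Classical in
/-- the resultant (of a tuple possessing a good family; `0` otherwise) -/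
noncomputable def Res (δ : ℕ) (f : Fin n → MvPolynomial (Fin n) K) : K :=
  if h : ∃ b, Good δ f b then ResAt δ f h.choose n else 0

/-- exponent of the socle element: `(δ-1, …, δ-1)` -/
noncomputable def top (n δ : ℕ) : Fin n →₀ ℕ := Finsupp.equivFunOnFinite.symm fun _ => δ - 1

/-- linear combinations of a tuple: `(C f)_i = ∑_j C i j f_j` -/
noncomputable def lin (C : Matrix (Fin n) (Fin n) K) (f : Fin n → MvPolynomial (Fin n) K) :
    Fin n → MvPolynomial (Fin n) K := fun i => ∑ j, MvPolynomial.C (C i j) * f j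

/-- linear substitution `z_i ↦ ∑_j A i j z_j` -/
noncomputable def subst (A : Matrix (Fin n) (Fin n) K) :
    MvPolynomial (Fin n) K →ₐ[K] MvPolynomial (Fin n) K :=
  aeval fun i => ∑ j, MvPolynomial.C (A i j) * X j

end field

/-! ### the problem over `ℂ` -/

/-- `F` is the associated form of `f` (degrees: `f` of degree `δ = d-1`, `F` of degree
`n(d-2) = n(δ-1)`): there is a linear functional `ω` killing the ideal `(f)`, with
`ω(Jac f) = 1` and `F(e) = ω((e_1 z_1 + … + e_n z_n)^{n(δ-1)})` for all `e`. -/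
def IsAssoc (δ : ℕ) (f : Fin n → MvPolynomial (Fin n) ℂ) (F : MvPolynomial (Fin n) ℂ) : Prop :=
  ∃ ω : MvPolynomial (Fin n) ℂ →ₗ[ℂ] ℂ, (∀ h ∈ Ideal.span (Set.range f), ω h = 0) ∧
    ω (jac f) = 1 ∧
    ∀ e : Fin n → ℂ, eval e F = ω ((∑ j, C (e j) * X j) ^ (n * (δ - 1)))

/-- the image of the associated form map -/
def U (n δ : ℕ) : Set (MvPolynomial (Fin n) ℂ) :=
  {F | F.IsHomogeneous (n * (δ - 1)) ∧ ∃ f, IsTuple δ f ∧ NoZero f ∧ IsAssoc δ f F}

/-- value of a polynomial function on the space of forms of degree `s` -/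
noncomputable def evalForm {s : ℕ} (J : MvPolynomial (Mon n s) ℂ) (F : MvPolynomial (Fin n) ℂ) : ℂ :=
  eval (fun m => coeff m.1 F) J

/-- value of a polynomial function at a linear functional on forms of degree `s`
(coordinates: values at monomials) -/
noncomputable def evalFun {s : ℕ} (J : MvPolynomial (Mon n s) ℂ)
    (ω : MvPolynomial (Fin n) ℂ →ₗ[ℂ] ℂ) : ℂ :=
  eval (fun m => ω (monomial m.1 1)) J

/-- `ω` is the normalised socle functional of `f ∈ Y(ℂ)` -/
def IsSocle (δ : ℕ) (f : Fin n → MvPolynomial (Fin n) ℂ)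
    (ω : MvPolynomial (Fin n) ℂ →ₗ[ℂ] ℂ) : Prop :=
  IsTuple δ f ∧ NoZero f ∧ (∀ h ∈ Ideal.span (Set.range f), ω h = 0) ∧ ω (jac f) = 1

end AF23
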