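import Pool.Agent.AF23.Basic

/-! # Part I : from semi-invariance on a set to an `SL_n`-invariant (apolar pairing with `det ^ w`) -/

namespace AF23

open MvPolynomial

namespace Apol

section pairing
variable {σ : Type*} [Fintype σ] [DecidableEq σ]

/-- `∏ (κ i)!` -/
def fac (κ : σ →₀ ℕ) : ℕ := ∏ i, (κ i).factorial

lemma fac_pos (κ : σ →₀ ℕ) : 0 < fac κ := Finset.prod_pos fun _ _ => Nat.factorial_pos _

lemma fac_add_single (κ : σ →₀ ℕ) (i : σ) :
    fac (κ + Finsupp.single i 1) = (κ i + 1) * fac κ := by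
  unfold fac
  rw [← Finset.mul_prod_erase Finset.univ _ (Finset.mem_univ i),
    ← Finset.mul_prod_erase Finset.univ (fun j => (κ j).factorial) (Finset.mem_univ i)]
  have h1 : ∏ x ∈ Finset.univ.erase i, ((κ + Finsupp.single i 1 : σ →₀ ℕ) x).factorial =
      ∏ x ∈ Finset.univ.erase i, (κ x).factorial := by
    refine Finset.prod_congr rfl fun x hx => ?_
    have : x ≠ i := Finset.ne_of_mem_erase hx
    simp [Finsupp.single_eq_of_ne this]
  rw [h1]
  simp [Nat.factorial_succ, mul_assoc]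

/-- the apolar pairing -/
noncomputable def apol : MvPolynomial σ ℂ →ₗ[ℂ] MvPolynomial σ ℂ →ₗ[ℂ] ℂ :=
  (basisMonomials σ ℂ).constr ℂ fun κ => (fac κ : ℂ) • lcoeff ℂ κ

lemma apol_monomial (κ : σ →₀ ℕ) (Q : MvPolynomial σ ℂ) :
    apol (monomial κ 1) Q = fac κ * coeff κ Q := by
  have h := (basisMonomials σ ℂ).constr_basis ℂ (fun κ => (fac κ : ℂ) • lcoeff ℂ κ) κ
  rw [coe_basisMonomials] at h
  change ((basisMonomials σ ℂ).constr ℂ fun κ => (fac κ : ℂ) • lcoeff ℂ κ) (monomial κ 1) Q = _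
  rw [h]
  simp [lcoeff]

lemma apol_monomial' (κ : σ →₀ ℕ) (a : ℂ) (Q : MvPolynomial σ ℂ) :
    apol (monomial κ a) Q = a * (fac κ * coeff κ Q) := by
  have : (monomial κ a : MvPolynomial σ ℂ) = a • monomial κ 1 := by
    rw [smul_monomial, smul_eq_mul, mul_one]
  rw [this, map_smul, LinearMap.smul_apply, apol_monomial, smul_eq_mul]

lemma apol_eq (P Q : MvPolynomial σ ℂ) :
    apol P Q = ∑ κ ∈ P.support, coeff κ P * (fac κ * coeff κ Q) := by
  conv_lhs => rw [P.as_sum]
  rw [map_sum, LinearMap.sum_apply]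
  exact Finset.sum_congr rfl fun κ _ => apol_monomial' _ _ _

lemma apol_C (a : ℂ) (Q : MvPolynomial σ ℂ) : apol (C a) Q = a * coeff 0 Q := by
  rw [C_apply, apol_monomial']
  simp [fac]

lemma apol_X_mul (i : σ) (P Q : MvPolynomial σ ℂ) :
    apol (X i * P) Q = apol P (pderiv i Q) := by
  induction P using MvPolynomial.induction_on' with
  | monomial κ a =>
    rw [X, monomial_mul, apol_monomial', apol_monomial', one_mul, add_comm, fac_add_single,
      coeff_pderiv]
    push_cast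
    ring
  | add p q hp hq => rw [mul_add, map_add, map_add, LinearMap.add_apply, LinearMap.add_apply, hp, hq]

/-- linear substitution -/
noncomputable def ls (L : σ → σ → ℂ) : MvPolynomial σ ℂ →ₐ[ℂ] MvPolynomial σ ℂ :=
  aeval fun i => ∑ j, C (L i j) * X j

lemma ls_X (L : σ → σ → ℂ) (i : σ) : ls L (X i) = ∑ j, C (L i j) * X j := by simp [ls]

lemma coeff_zero_ls (L : σ → σ → ℂ) (Q : MvPolynomial σ ℂ) : coeff 0 (ls L Q) = coeff 0 Q := by
  have h : (constantCoeff.comp (ls L).toRingHom : MvPolynomial σ ℂ →+* ℂ) = constantCoeff := by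
    apply MvPolynomial.ringHom_ext
    · intro r
      simp [ls]
    · intro i
      simp [ls]
  have := congrArg (fun φ : MvPolynomial σ ℂ →+* ℂ => φ Q) h
  simpa [constantCoeff_eq] using this

lemma pderiv_ls (L : σ → σ → ℂ) (i : σ) (Q : MvPolynomial σ ℂ) :
    pderiv i (ls L Q) = ∑ j, C (L j i) * ls L (pderiv j Q) := by
  induction Q using MvPolynomial.induction_on with
  | C a => simp [ls]
  | add p q hp hq => simp only [map_add, hp, hq, mul_add, Finset.sum_add_distrib]
  | mul_X p k hp =>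
    rw [map_mul, Derivation.leibniz, hp]
    simp only [Derivation.leibniz, map_add, smul_eq_mul, map_mul, mul_add, Finset.sum_add_distrib]
    have h1 : pderiv i (ls L (X k)) = C (L k i) := by
      rw [ls_X, map_sum, Finset.sum_eq_single i]
      · simp
      · intro j _ hj
        rw [Derivation.leibniz]
        simp [pderiv_X_of_ne hj]
      · simp
    rw [h1]
    congr 1
    · rw [Finset.sum_eq_single k]
      · simp [mul_comm]
      · intro j _ hj
        simp [pderiv_X_of_ne (Ne.symm hj)]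
      · simp
    · rw [Finset.mul_sum]
      refine Finset.sum_congr rfl fun j _ => by ring

/-- adjointness -/
lemma apol_ls (L : σ → σ → ℂ) (P Q : MvPolynomial σ ℂ) :
    apol (ls L P) Q = apol P (ls (fun i j => L j i) Q) := by
  induction P using MvPolynomial.induction_on generalizing Q with
  | C a =>
    have : ls L (C a) = C a := by simp [ls]
    rw [this, apol_C, apol_C, coeff_zero_ls]
  | add p q hp hq => simp only [map_add, LinearMap.add_apply, hp, hq]
  | mul_X p k hp =>
    rw [map_mul, ls_X, mul_comm p (X k), apol_X_mul, pderiv_ls, mul_comm, Finset.sum_mul, map_sum,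
      map_sum, LinearMap.sum_apply]
    refine Finset.sum_congr rfl fun j _ => ?_
    rw [mul_assoc, ← MvPolynomial.smul_eq_C_mul, ← MvPolynomial.smul_eq_C_mul, map_smul, map_smul,
      LinearMap.smul_apply, apol_X_mul, hp]

lemma apol_self_ne (R : MvPolynomial σ ℤ) (hR : R ≠ 0) :
    apol (map (Int.castRingHom ℂ) R) (map (Int.castRingHom ℂ) R) ≠ 0 := by
  rw [apol_eq]
  have h1 : ∑ κ ∈ (map (Int.castRingHom ℂ) R).support,
      coeff κ (map (Int.castRingHom ℂ) R) * (fac κ * coeff κ (map (Int.castRingHom ℂ) R)) =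
      ((∑ κ ∈ R.support, coeff κ R * (fac κ * coeff κ R) : ℤ) : ℂ) := by
    rw [support_map_of_injective _ (RingHom.injective_int _)]
    push_cast
    exact Finset.sum_congr rfl fun κ _ => by simp [coeff_map]
  rw [h1]
  have h2 : 0 < ∑ κ ∈ R.support, coeff κ R * (fac κ * coeff κ R) := by
    apply Finset.sum_pos
    · intro κ hκ
      have h3 : coeff κ R ≠ 0 := mem_support_iff.1 hκ
      have h4 : (0 : ℤ) < fac κ := by exact_mod_cast fac_pos κ
      have h5 : 0 < coeff κ R * coeff κ R := mul_self_pos.2 h3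
      nlinarith [mul_pos h4 h5]
    · rwa [Finset.nonempty_iff_ne_empty, Ne, support_eq_empty]
  exact_mod_cast h2.ne'

end pairing

section main
variable {n : ℕ}

/-- the generic determinant -/
noncomputable def dX (n : ℕ) : MvPolynomial (Fin n × Fin n) ℂ :=
  (Matrix.mvPolynomialX (Fin n) (Fin n) ℂ).det

lemma dX_ne (n : ℕ) : dX n ≠ 0 := Matrix.det_mvPolynomialX_ne_zero _ _

lemma eval_dX (A : Matrix (Fin n) (Fin n) ℂ) :
    eval (fun p : Fin n × Fin n => A p.1 p.2) (dX n) = A.det := by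
  rw [dX, RingHom.map_det, Matrix.mvPolynomialX_mapMatrix_eval]

/-- left multiplication matrix -/
def lm (B : Matrix (Fin n) (Fin n) ℂ) : (Fin n × Fin n) → (Fin n × Fin n) → ℂ :=
  fun p q => if p.2 = q.2 then B p.1 q.1 else 0

lemma ls_lm_X (B : Matrix (Fin n) (Fin n) ℂ) (p : Fin n × Fin n) :
    ls (lm B) (X p) = ∑ k, C (B p.1 k) * X (k, p.2) := by
  rw [ls_X, Fintype.sum_prod_type]
  refine Finset.sum_congr rfl fun k _ => ?_
  rw [Finset.sum_eq_single p.2]
  · simp [lm]
  · intro j _ hj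
    simp [lm, Ne.symm hj]
  · simp

lemma eval_ls_lm (A B : Matrix (Fin n) (Fin n) ℂ) (P : MvPolynomial (Fin n × Fin n) ℂ) :
    eval (fun p : Fin n × Fin n => A p.1 p.2) (ls (lm B) P) =
      eval (fun p : Fin n × Fin n => (B * A) p.1 p.2) P := by
  have h : ((eval (fun p : Fin n × Fin n => A p.1 p.2)).comp (ls (lm B)).toRingHom :
      MvPolynomial (Fin n × Fin n) ℂ →+* ℂ) = eval (fun p : Fin n × Fin n => (B * A) p.1 p.2) := by
    apply MvPolynomial.ringHom_ext
    · intro r
      simp [ls]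
    · intro p
      simp only [RingHom.comp_apply, AlgHom.toRingHom_eq_coe, RingHom.coe_coe, ls_lm_X, map_sum,
        map_mul, eval_C, eval_X, Matrix.mul_apply]
  exact congrArg (fun φ : MvPolynomial (Fin n × Fin n) ℂ →+* ℂ => φ P) h

lemma lm_transpose (B : Matrix (Fin n) (Fin n) ℂ) :
    (fun i j => lm B j i) = lm B.transpose := by
  funext p q
  simp only [lm, Matrix.transpose_apply, eq_comm]

lemma funext_mat {P Q : MvPolynomial (Fin n × Fin n) ℂ}
    (h : ∀ A : Matrix (Fin n) (Fin n) ℂ, eval (fun p : Fin n × Fin n => A p.1 p.2) P =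
      eval (fun p : Fin n × Fin n => A p.1 p.2) Q) : P = Q := by
  apply MvPolynomial.funext
  intro x
  exact h (Matrix.of fun i j => x (i, j))

lemma ls_dX_pow (B : Matrix (Fin n) (Fin n) ℂ) (w : ℕ) :
    ls (lm B) (dX n ^ w) = B.det ^ w • dX n ^ w := by
  apply funext_mat
  intro A
  rw [eval_ls_lm, map_pow, eval_dX, Matrix.det_mul, smul_eval, map_pow, eval_dX, mul_pow]

/-- the functional -/
noncomputable def Lam (w : ℕ) : MvPolynomial (Fin n × Fin n) ℂ →ₗ[ℂ] ℂ :=
  (apol (dX n ^ w) (dX n ^ w))⁻¹ • apol (dX n ^ w)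

lemma apol_symm {σ : Type*} [Fintype σ] [DecidableEq σ] (P Q : MvPolynomial σ ℂ) :
    apol P Q = apol Q P := by
  induction P using MvPolynomial.induction_on' with
  | monomial κ a =>
    induction Q using MvPolynomial.induction_on' with
    | monomial κ' a' =>
      rw [apol_monomial', apol_monomial', coeff_monomial, coeff_monomial]
      by_cases h : κ = κ'
      · subst h; simp; ring
      · simp [h, Ne.symm h]
    | add p q hp hq => rw [map_add, map_add, LinearMap.add_apply, hp, hq]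
  | add p q hp hq => rw [map_add, map_add, LinearMap.add_apply, hp, hq]

lemma norm_ne (w : ℕ) : apol (dX n ^ w) (dX n ^ w) ≠ 0 := by
  have h1 : dX n ^ w = map (Int.castRingHom ℂ)
      ((Matrix.mvPolynomialX (Fin n) (Fin n) ℤ).det ^ w) := by
    rw [map_pow, RingHom.map_det, dX]
    congr 2
    ext1 i j
    simp [Matrix.mvPolynomialX_apply]
  rw [h1]
  exact apol_self_ne _ (pow_ne_zero _ (Matrix.det_mvPolynomialX_ne_zero _ _))

lemma Lam_dX (w : ℕ) : Lam w (dX n ^ w) = 1 := by
  simp only [Lam, LinearMap.smul_apply, smul_eq_mul]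
  exact inv_mul_cancel₀ (norm_ne w)

lemma Lam_ls (w : ℕ) (B : Matrix (Fin n) (Fin n) ℂ) (P : MvPolynomial (Fin n × Fin n) ℂ) :
    Lam w (ls (lm B) P) = B.det ^ w * Lam w P := by
  simp only [Lam, LinearMap.smul_apply, smul_eq_mul]
  rw [apol_symm (dX n ^ w) (ls (lm B) P), apol_ls, lm_transpose, ls_dX_pow, Matrix.det_transpose,
    map_smul, smul_eq_mul, apol_symm P]
  ring

/-- coefficient matrix of the generic substitution -/
noncomputable def av (n : ℕ) (e e' : Fin n →₀ ℕ) : MvPolynomial (Fin n × Fin n) ℂ :=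
  coeff e (∏ i, (∑ j, C (X (i, j)) * X j :
    MvPolynomial (Fin n) (MvPolynomial (Fin n × Fin n) ℂ)) ^ e' i)

lemma eval_av (A : Matrix (Fin n) (Fin n) ℂ) (e e' : Fin n →₀ ℕ) :
    eval (fun p : Fin n × Fin n => A p.1 p.2) (av n e e') =
      coeff e (subst A (monomial e' 1)) := by
  have h1 : subst A (monomial e' 1) = map (eval (fun p : Fin n × Fin n => A p.1 p.2))
      (∏ i, (∑ j, C (X (i, j)) * X j :
        MvPolynomial (Fin n) (MvPolynomial (Fin n × Fin n) ℂ)) ^ e' i) := by
    simp only [subst, aeval_monomial, map_prod, map_pow, map_sum, map_mul, map_C, map_X, eval_X,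
      map_one, one_mul]
    rw [Finsupp.prod_fintype _ _ (fun i => pow_zero _)]
  rw [av, h1, coeff_map]

lemma subst_comp (A B : Matrix (Fin n) (Fin n) ℂ) (F : MvPolynomial (Fin n) ℂ) :
    subst A (subst B F) = subst (B * A) F := by
  have h : (subst A).comp (subst B) = subst (B * A) := by
    apply MvPolynomial.algHom_ext
    intro i
    simp only [AlgHom.comp_apply, subst, aeval_X, map_sum, map_mul, algHom_C, algebraMap_eq,
      Matrix.mul_apply, Finset.sum_mul, Finset.mul_sum, mul_assoc]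
    rw [Finset.sum_comm]
  exact congrArg (fun φ : MvPolynomial (Fin n) ℂ →ₐ[ℂ] MvPolynomial (Fin n) ℂ => φ F) h

lemma subst_hom (A : Matrix (Fin n) (Fin n) ℂ) {F : MvPolynomial (Fin n) ℂ} {s : ℕ}
    (hF : F.IsHomogeneous s) : (subst A F).IsHomogeneous s := by
  have := hF.aeval (S := ℂ) (fun i => ∑ j, MvPolynomial.C (A i j) * X j) (n := 1) (fun i =>
    IsHomogeneous.sum _ _ _ fun j _ => isHomogeneous_C_mul_X _ _)
  rw [one_mul] at this
  exact this

variable {s k : ℕ}

/-- the polynomial `J₀` with generic substitution -/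
noncomputable def Qv (J₀ : MvPolynomial (Mon n s) ℂ) :
    MvPolynomial (Mon n s) (MvPolynomial (Fin n × Fin n) ℂ) :=
  eval₂ (C.comp C) (fun m : Mon n s => ∑ m' : Mon n s, C (av n m.1 m'.1) * X m') J₀

lemma Qv_hom {J₀ : MvPolynomial (Mon n s) ℂ} (h : J₀.IsHomogeneous k) :
    (Qv J₀).IsHomogeneous k := by
  have := h.eval₂ (C.comp C) (fun m : Mon n s => ∑ m' : Mon n s,
    C (av n m.1 m'.1) * X m') (n := 1) (fun r => isHomogeneous_C _ _) (fun i =>
    IsHomogeneous.sum _ _ _ fun j _ => isHomogeneous_C_mul_X _ _)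
  rw [one_mul] at this
  exact this

/-- `A ↦ J₀(F ∘ A)` -/
noncomputable def Pv (J₀ : MvPolynomial (Mon n s) ℂ) (F : MvPolynomial (Fin n) ℂ) :
    MvPolynomial (Fin n × Fin n) ℂ :=
  eval (fun m : Mon n s => C (coeff m.1 F)) (Qv J₀)

lemma expand_hom {F : MvPolynomial (Fin n) ℂ} (hF : F.IsHomogeneous s) :
    F = ∑ m : Mon n s, coeff m.1 F • monomial m.1 (1 : ℂ) := by
  ext e
  rw [coeff_sum]
  simp only [coeff_smul, coeff_monomial, smul_eq_mul, mul_ite, mul_one, mul_zero]
  by_cases he : e.degree = s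
  · rw [Finset.sum_eq_single (⟨e, mem_Mon.2 he⟩ : Mon n s)]
    · simp
    · intro γ _ hγ
      rw [if_neg]
      intro h1; exact hγ (Subtype.ext h1)
    · simp
  · have h0 : coeff e F = 0 := by
      apply hF.coeff_eq_zero
      exact he
    rw [h0]
    symm
    refine Finset.sum_eq_zero fun γ _ => ?_
    rw [if_neg]
    intro h1; exact he (h1 ▸ γ.deg)

lemma eval_Pv (J₀ : MvPolynomial (Mon n s) ℂ) {F : MvPolynomial (Fin n) ℂ}
    (hF : F.IsHomogeneous s) (A : Matrix (Fin n) (Fin n) ℂ) :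
    eval (fun p : Fin n × Fin n => A p.1 p.2) (Pv J₀ F) = evalForm J₀ (subst A F) := by
  have h : ((eval (fun p : Fin n × Fin n => A p.1 p.2)).comp
      ((eval (fun m : Mon n s => (C (coeff m.1 F) : MvPolynomial (Fin n × Fin n) ℂ))).comp
        (eval₂Hom (C.comp C) (fun m : Mon n s => ∑ m' : Mon n s,
          C (av n m.1 m'.1) * X m'))) : MvPolynomial (Mon n s) ℂ →+* ℂ) =
      eval (fun m : Mon n s => coeff m.1 (subst A F)) := by
    apply MvPolynomial.ringHom_ext
    · intro r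
      simp
    · intro m
      simp only [RingHom.comp_apply, coe_eval₂Hom, eval₂_X, map_sum, map_mul, eval_C, eval_X,
        eval_av]
      conv_rhs => rw [expand_hom hF]
      rw [map_sum, coeff_sum]
      refine Finset.sum_congr rfl fun m' _ => ?_
      rw [map_smul, coeff_smul, smul_eq_mul, mul_comm]
  exact congrArg (fun φ : MvPolynomial (Mon n s) ℂ →+* ℂ => φ J₀) h

lemma Pv_subst (J₀ : MvPolynomial (Mon n s) ℂ) {F : MvPolynomial (Fin n) ℂ}
    (hF : F.IsHomogeneous s) (B : Matrix (Fin n) (Fin n) ℂ) :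
    Pv J₀ (subst B F) = ls (lm B) (Pv J₀ F) := by
  apply funext_mat
  intro A
  rw [eval_ls_lm, eval_Pv _ hF, eval_Pv _ (subst_hom B hF), subst_comp]

/-- the averaged polynomial -/
noncomputable def Jv (w : ℕ) (J₀ : MvPolynomial (Mon n s) ℂ) : MvPolynomial (Mon n s) ℂ :=
  ∑ κ ∈ (Qv J₀).support, monomial κ (Lam w (coeff κ (Qv J₀)))

lemma Jv_hom (w : ℕ) {J₀ : MvPolynomial (Mon n s) ℂ} (h : J₀.IsHomogeneous k) :
    (Jv w J₀).IsHomogeneous k := by
  refine IsHomogeneous.sum _ _ _ fun κ hκ => ?_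
  apply isHomogeneous_monomial
  have := Qv_hom h (mem_support_iff.1 hκ)
  rw [Finsupp.weight_apply] at this
  rw [Finsupp.degree_apply]
  simpa [Finsupp.sum] using this

lemma eval_Jv (w : ℕ) (J₀ : MvPolynomial (Mon n s) ℂ) (F : MvPolynomial (Fin n) ℂ) :
    evalForm (Jv w J₀) F = Lam w (Pv J₀ F) := by
  unfold evalForm Pv Jv
  conv_rhs => rw [(Qv J₀).as_sum]
  rw [map_sum, map_sum, map_sum]
  refine Finset.sum_congr rfl fun κ _ => ?_
  rw [eval_monomial, eval_monomial]
  have h1 : (κ.prod fun m e => (C (coeff m.1 F) : MvPolynomial (Fin n × Fin n) ℂ) ^ e) =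
      C (κ.prod fun m e => (coeff m.1 F) ^ e) := by
    simp only [Finsupp.prod, map_prod, map_pow]
  rw [h1, mul_comm (coeff κ (Qv J₀)), ← smul_eq_C_mul, map_smul, smul_eq_mul, mul_comm]

end main

end Apol

open Apol

theorem exists_invariant {n s k w : ℕ} (hn : 1 ≤ n) (hks : k * s = n * w)
    (V : Set (MvPolynomial (Fin n) ℂ)) (hV : ∀ F ∈ V, F.IsHomogeneous s)
    (J₀ : MvPolynomial (Mon n s) ℂ) (hJ₀ : J₀.IsHomogeneous k)
    (hsemi : ∀ F ∈ V, ∀ A : Matrix (Fin n) (Fin n) ℂ, A.det ≠ 0 →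
      evalForm J₀ (subst A F) = A.det ^ w * evalForm J₀ F) :
    ∃ J : MvPolynomial (Mon n s) ℂ, J.IsHomogeneous k ∧
      (∀ A : Matrix (Fin n) (Fin n) ℂ, A.det = 1 → ∀ F : MvPolynomial (Fin n) ℂ,
        F.IsHomogeneous s → evalForm J (subst A F) = evalForm J F) ∧
      ∀ F ∈ V, evalForm J F = evalForm J₀ F := by
  refine ⟨Jv w J₀, Jv_hom w hJ₀, ?_, ?_⟩
  · intro A hA F hF
    rw [eval_Jv, eval_Jv, Pv_subst _ hF, Lam_ls, hA, one_pow, one_mul]
  · intro F hF
    have h1 : Pv J₀ F * dX n = (evalForm J₀ F • dX n ^ w) * dX n := by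
      apply funext_mat
      intro A
      rw [map_mul, map_mul, smul_eval, map_pow, eval_dX, eval_Pv _ (hV F hF)]
      by_cases hA : A.det = 0
      · simp [hA]
      · rw [hsemi F hF A hA]; ring
    have h2 := mul_right_cancel₀ (dX_ne n) h1
    rw [eval_Jv, h2, map_smul, Lam_dX, smul_eq_mul, mul_one]

end AF23
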