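import Pool.Agent.AF23.D6
import Pool.Agent.AF23.I

/-! Final part: the image of the associated form map -/

namespace AF23

open MvPolynomial

variable {n δ s : ℕ}

/-- multinomial coefficient -/
noncomputable def mc (α : Fin n →₀ ℕ) : ℂ := ((Nat.multinomial Finset.univ (⇑α) : ℕ) : ℂ)

lemma mc_ne (α : Fin n →₀ ℕ) : mc α ≠ 0 := Nat.cast_ne_zero.2 (Nat.multinomial_pos _ _).ne'

lemma linpow_expand (e : Fin n → ℂ) (s : ℕ) :
    (∑ j, C (e j) * X j : MvPolynomial (Fin n) ℂ) ^ s =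
      ∑ α : Mon n s, (mc α.1 * ∏ i, e i ^ α.1 i) • monomial α.1 (1 : ℂ) := by
  classical
  rw [Finset.sum_pow_eq_sum_piAntidiag]
  symm
  refine Finset.sum_bij (fun α _ => ⇑α.1) ?_ ?_ ?_ ?_
  · intro α _
    rw [Finset.mem_piAntidiag]
    refine ⟨?_, fun i _ => Finset.mem_univ i⟩
    have := α.deg
    rw [Finsupp.degree_eq_sum] at this
    exact this
  · intro α _ β _ h
    exact Subtype.ext (DFunLike.coe_injective h)
  · intro f hf
    rw [Finset.mem_piAntidiag] at hf
    refine ⟨⟨Finsupp.equivFunOnFinite.symm f, mem_Mon.2 ?_⟩, Finset.mem_univ _, rfl⟩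
    rw [Finsupp.degree_eq_sum]; exact hf.1
  · intro α _
    have h1 : (∏ i, (C (e i) * X i : MvPolynomial (Fin n) ℂ) ^ α.1 i) =
        C (∏ i, e i ^ α.1 i) * monomial α.1 1 := by
      simp only [mul_pow, Finset.prod_mul_distrib, map_prod, map_pow]
      congr 1
      rw [monomial_eq, C_1, one_mul, Finsupp.prod_fintype _ _ (fun i => pow_zero _)]
    rw [h1, mc, smul_eq_C_mul, C_mul, map_natCast, mul_assoc]

lemma eval_assoc (ω : MvPolynomial (Fin n) ℂ →ₗ[ℂ] ℂ) (e : Fin n → ℂ) (s : ℕ) :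
    ω ((∑ j, C (e j) * X j) ^ s) =
      ∑ α : Mon n s, mc α.1 * ω (monomial α.1 1) * ∏ i, e i ^ α.1 i := by
  rw [linpow_expand, map_sum]
  refine Finset.sum_congr rfl fun α _ => ?_
  rw [map_smul, smul_eq_mul]; ring

lemma eval_hom_expand {F : MvPolynomial (Fin n) ℂ} (hF : F.IsHomogeneous s) (e : Fin n → ℂ) :
    eval e F = ∑ α : Mon n s, coeff α.1 F * ∏ i, e i ^ α.1 i := by
  conv_lhs => rw [Apol.expand_hom hF]
  rw [map_sum]
  refine Finset.sum_congr rfl fun α _ => ?_
  rw [smul_eval, eval_monomial, one_mul, Finsupp.prod_fintype _ _ (fun i => pow_zero _)]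

/-- coefficients of the associated form -/
lemma assoc_iff {F : MvPolynomial (Fin n) ℂ} (hF : F.IsHomogeneous s)
    (ω : MvPolynomial (Fin n) ℂ →ₗ[ℂ] ℂ) :
    (∀ e : Fin n → ℂ, eval e F = ω ((∑ j, C (e j) * X j) ^ s)) ↔
      ∀ α : Mon n s, coeff α.1 F = mc α.1 * ω (monomial α.1 1) := by
  constructor
  · intro h
    set G : MvPolynomial (Fin n) ℂ :=
      ∑ α : Mon n s, monomial α.1 (mc α.1 * ω (monomial α.1 1)) with hG
    have h1 : F = G := by
      apply MvPolynomial.funext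
      intro e
      rw [h e, eval_assoc, hG, map_sum]
      refine Finset.sum_congr rfl fun α _ => ?_
      rw [eval_monomial, Finsupp.prod_fintype _ _ (fun i => pow_zero _)]
    intro α
    conv_lhs => rw [h1, hG]
    rw [coeff_sum, Finset.sum_eq_single α]
    · rw [coeff_monomial, if_pos rfl]
    · intro β _ hβ
      rw [coeff_monomial, if_neg]
      intro h; exact hβ (Subtype.ext h)
    · simp
  · intro h e
    rw [eval_assoc, eval_hom_expand hF]
    exact Finset.sum_congr rfl fun α _ => by rw [h α]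

lemma mem_U {F : MvPolynomial (Fin n) ℂ} : F ∈ U n δ ↔ F.IsHomogeneous (n * (δ - 1)) ∧
    ∃ f ω, IsSocle δ f ω ∧ ∀ α : Mon n (n * (δ - 1)), coeff α.1 F = mc α.1 * ω (monomial α.1 1) := by
  constructor
  · rintro ⟨hF, f, hf, h0, ω, h1, h2, h3⟩
    exact ⟨hF, f, ω, ⟨hf, h0, h1, h2⟩, (assoc_iff hF ω).1 h3⟩
  · rintro ⟨hF, f, ω, ⟨hf, h0, h1, h2⟩, h3⟩
    exact ⟨hF, f, hf, h0, ω, h1, h2, (assoc_iff hF ω).2 h3⟩

/-- rescaling of the coordinates -/
noncomputable def scal (n s : ℕ) : MvPolynomial (Mon n s) ℂ →ₐ[ℂ] MvPolynomial (Mon n s) ℂ :=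
  aeval fun α => C (mc α.1)⁻¹ * X α

lemma evalForm_scal (J : MvPolynomial (Mon n s) ℂ) (F : MvPolynomial (Fin n) ℂ) :
    evalForm (scal n s J) F = eval (fun α : Mon n s => (mc α.1)⁻¹ * coeff α.1 F) J := by
  rw [evalForm, scal]
  have h : ((eval fun α : Mon n s => coeff α.1 F).comp
      (aeval (fun α : Mon n s => C (mc α.1)⁻¹ * X α) :
        MvPolynomial (Mon n s) ℂ →ₐ[ℂ] MvPolynomial (Mon n s) ℂ).toRingHom) =
      eval (fun α : Mon n s => (mc α.1)⁻¹ * coeff α.1 F) := by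
    apply MvPolynomial.ringHom_ext
    · intro r; simp
    · intro i; simp
  exact congrArg (fun φ : MvPolynomial (Mon n s) ℂ →+* ℂ => φ J) h

lemma evalForm_scal_socle (J : MvPolynomial (Mon n s) ℂ) {F : MvPolynomial (Fin n) ℂ}
    {ω : MvPolynomial (Fin n) ℂ →ₗ[ℂ] ℂ}
    (h : ∀ α : Mon n s, coeff α.1 F = mc α.1 * ω (monomial α.1 1)) :
    evalForm (scal n s J) F = evalFun J ω := by
  rw [evalForm_scal, evalFun]
  congr 2
  funext α
  rw [h α, ← mul_assoc, inv_mul_cancel₀ (mc_ne _), one_mul]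

lemma pderiv_subst (A : Matrix (Fin n) (Fin n) ℂ) (i : Fin n) (p : MvPolynomial (Fin n) ℂ) :
    pderiv i (subst A p) = ∑ j, C (A j i) * subst A (pderiv j p) :=
  Apol.pderiv_ls A i p

lemma jac_subst (A : Matrix (Fin n) (Fin n) ℂ) (f : Fin n → MvPolynomial (Fin n) ℂ) :
    jac (fun i => subst A (f i)) = A.det • subst A (jac f) := by
  have h1 : (Matrix.of fun i j => pderiv j (subst A (f i))) =
      ((Matrix.of fun i j => pderiv j (f i)).map (subst A)) *
        (A.map (MvPolynomial.C (σ := Fin n))) := by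
    ext1 i j
    simp only [Matrix.of_apply, Matrix.mul_apply, Matrix.map_apply]
    rw [pderiv_subst]
    exact Finset.sum_congr rfl fun l _ => mul_comm _ _
  have h2 : ((Matrix.of fun i j => pderiv j (f i)).map (subst A)).det = subst A (jac f) := by
    rw [jac]
    exact ((subst A).toRingHom.map_det _).symm
  rw [jac, h1, Matrix.det_mul, h2, smul_eq_C_mul, mul_comm, RingHom.map_det]; rfl

lemma eval_subst (A : Matrix (Fin n) (Fin n) ℂ) (e : Fin n → ℂ) (F : MvPolynomial (Fin n) ℂ) :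
    eval e (subst A F) = eval (fun i => ∑ j, A i j * e j) F := by
  have h : (eval e).comp (subst A).toRingHom = eval (fun i => ∑ j, A i j * e j) := by
    apply MvPolynomial.ringHom_ext
    · intro r; simp [subst]
    · intro i; simp [subst]
  exact congrArg (fun φ : MvPolynomial (Fin n) ℂ →+* ℂ => φ F) h

/-- the image is stable and the resultant changes by a character -/
lemma U_subst (hn : 1 ≤ n) (hδ : 1 ≤ δ) {F : MvPolynomial (Fin n) ℂ}
    (hF : F.IsHomogeneous (n * (δ - 1)))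
    {f : Fin n → MvPolynomial (Fin n) ℂ} {ω : MvPolynomial (Fin n) ℂ →ₗ[ℂ] ℂ}
    (hs : IsSocle δ f ω)
    (h : ∀ α : Mon n (n * (δ - 1)), coeff α.1 F = mc α.1 * ω (monomial α.1 1))
    (A : Matrix (Fin n) (Fin n) ℂ) (hA : A.det ≠ 0) :
    ∃ f' ω', IsSocle δ f' ω' ∧
      (∀ α : Mon n (n * (δ - 1)), coeff α.1 (subst A F) = mc α.1 * ω' (monomial α.1 1)) ∧
      Res δ f' * A.det ^ (δ ^ (n - 1) * (δ - 1)) = Res δ f ∧ Res δ f ≠ 0 := by
  obtain ⟨hf, h0, h1, h2⟩ := hs
  obtain ⟨m, G⟩ := exists_good hn hδ f hf h0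
  set B : Matrix (Fin n) (Fin n) ℂ := A.transpose⁻¹ with hB
  have hAt : A.transpose.det ≠ 0 := by rw [Matrix.det_transpose]; exact hA
  have hBdet : B.det = A.det⁻¹ := by
    rw [hB, Matrix.det_nonsing_inv, Matrix.det_transpose, Ring.inverse_eq_inv']
  have hB0 : B.det ≠ 0 := by rw [hBdet]; exact inv_ne_zero hA
  have hBA : B * A.transpose = 1 := Matrix.nonsing_inv_mul _ (Ne.isUnit hAt)
  have G1 := good_subst G B hB0
  have G2 := good_lin G1 A hA
  set f' := lin A (fun i => subst B (f i)) with hf'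
  have hsub : ∀ p, subst A.transpose (subst B p) = p := by
    intro p
    rw [← subst_mul, hBA, subst_one]
  refine ⟨f', ω.comp (subst A.transpose).toLinearMap, ⟨G2.fhom, G2.noZero hn hδ, ?_, ?_⟩, ?_, ?_,
    G.res_ne hn hδ⟩
  · intro p hp
    have h3 : p ∈ Ideal.comap (subst A.transpose).toRingHom (Ideal.span (Set.range f)) := by
      have h4 : Ideal.span (Set.range f') ≤
          Ideal.comap (subst A.transpose).toRingHom (Ideal.span (Set.range f)) := by
        rw [Ideal.span_le]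
        rintro _ ⟨i, rfl⟩
        show subst A.transpose (f' i) ∈ Ideal.span (Set.range f)
        rw [hf', lin, map_sum]
        refine Ideal.sum_mem _ fun j _ => ?_
        rw [map_mul, hsub]
        exact Ideal.mul_mem_left _ _ (Ideal.subset_span ⟨j, rfl⟩)
      exact h4 hp
    exact h1 _ h3
  · show ω (subst A.transpose (jac f')) = 1
    rw [hf', jac_lin, jac_subst, map_smul, map_smul, map_smul, map_smul, hsub, h2, hBdet,
      smul_eq_mul, smul_eq_mul, mul_one, mul_inv_cancel₀ hA]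
  · rw [← assoc_iff (subst_homogeneous A hF)]
    intro e
    rw [eval_subst, ((assoc_iff hF ω).2 h)]
    show ω _ = ω (subst A.transpose _)
    congr 1
    rw [map_pow, map_sum]
    congr 1
    simp only [map_mul, subst_X, subst_C, Matrix.transpose_apply, map_sum, Finset.sum_mul,
      Finset.mul_sum]
    rw [Finset.sum_comm]
    refine Finset.sum_congr rfl fun i _ => Finset.sum_congr rfl fun j _ => ?_
    ring
  · rw [hf', res_lin hn hδ G1 A hA, res_subst hn hδ G B hB0, hBdet]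
    have h5 : δ ^ n = δ ^ (n - 1) + δ ^ (n - 1) * (δ - 1) := by
      obtain ⟨m', rfl⟩ : ∃ m', n = m' + 1 := ⟨n - 1, by omega⟩
      obtain ⟨d, rfl⟩ : ∃ d, δ = d + 1 := ⟨δ - 1, by omega⟩
      rw [Nat.add_sub_cancel, Nat.add_sub_cancel, pow_succ]; ring
    rw [h5, inv_pow, pow_add]
    have h6 : A.det ^ (δ ^ (n - 1)) ≠ 0 := pow_ne_zero _ hA
    have h7 : A.det ^ (δ ^ (n - 1) * (δ - 1)) ≠ 0 := pow_ne_zero _ hA
    field_simp

lemma eval_smul_hom {σ : Type*} [Fintype σ] {J : MvPolynomial σ ℂ} {k : ℕ}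
    (hJ : J.IsHomogeneous k) (c : ℂ) (x : σ → ℂ) : eval (c • x) J = c ^ k * eval x J := by
  rw [eval_eq', eval_eq', Finset.mul_sum]
  refine Finset.sum_congr rfl fun d hd => ?_
  have h1 : ∑ i, d i = k := by
    have h2 : Finsupp.weight (fun _ => 1) d = k := hJ (mem_support_iff.1 hd)
    rw [← Finsupp.degree_eq_weight_one, Finsupp.degree_eq_sum] at h2
    exact h2
  simp only [Pi.smul_apply, smul_eq_mul, mul_pow, Finset.prod_mul_distrib]
  rw [Finset.prod_pow_eq_pow_sum, h1]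
  ring

lemma evalForm_C_smul {k : ℕ} {J : MvPolynomial (Mon n s) ℂ} (hJ : J.IsHomogeneous k) (c : ℂ)
    (F : MvPolynomial (Fin n) ℂ) : evalForm J (c • F) = c ^ k * evalForm J F := by
  rw [evalForm, evalForm]
  have h1 : (fun m : Mon n s => coeff m.1 (c • F)) = c • (fun m : Mon n s => coeff m.1 F) := by
    funext m; rw [coeff_smul]; rfl
  rw [h1, eval_smul_hom hJ]

lemma subst_scalar {F : MvPolynomial (Fin n) ℂ} (hF : F.IsHomogeneous s) (c : ℂ) :
    subst (c • (1 : Matrix (Fin n) (Fin n) ℂ)) F = c ^ s • F := by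
  apply MvPolynomial.funext
  intro e
  rw [eval_subst, smul_eval, ← eval_smul_hom hF]
  congr 2
  funext i
  rw [Finset.sum_eq_single i]
  · simp
  · intro j _ hj
    simp [Matrix.one_apply_ne hj.symm]
  · simp

/-- a polynomial identity in one variable -/
lemma comp_of_scaling {k0 N : ℕ} (a : ℕ → ℂ) (A : ℂ) (hk0 : ¬ k0 < N → a k0 = 0)
    (h : ∀ y : ℂ, y ≠ 0 → ∑ k ∈ Finset.range N, y ^ k * a k = y ^ k0 * A) : a k0 = A := by
  set p : Polynomial ℂ := ∑ k ∈ Finset.range N, Polynomial.C (a k) * Polynomial.X ^ k -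
    Polynomial.C A * Polynomial.X ^ k0 with hp
  have hp0 : p * Polynomial.X = 0 := by
    apply Polynomial.funext
    intro y
    by_cases hy : y = 0
    · simp [hy]
    · have h1 := h y hy
      rw [Polynomial.eval_mul, hp, Polynomial.eval_sub, Polynomial.eval_finsetSum]
      simp only [Polynomial.eval_mul, Polynomial.eval_C, Polynomial.eval_pow, Polynomial.eval_X,
        Polynomial.eval_zero]
      have h2 : ∑ k ∈ Finset.range N, a k * y ^ k = y ^ k0 * A := by
        rw [← h1]; exact Finset.sum_congr rfl fun k _ => mul_comm _ _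
      rw [h2]; ring
  have hp1 : p = 0 := by
    rcases mul_eq_zero.1 hp0 with h1 | h1
    · exact h1
    · exact absurd h1 Polynomial.X_ne_zero
  have h3 := congrArg (fun p : Polynomial ℂ => p.coeff k0) hp1
  simp only [hp, Polynomial.coeff_sub, Polynomial.finsetSum_coeff, Polynomial.coeff_C_mul,
    Polynomial.coeff_X_pow, mul_ite, mul_one, mul_zero, Finset.sum_ite_eq, Finset.mem_range,
    if_true, Polynomial.coeff_zero] at h3
  split_ifs at h3 with hlt
  · exact sub_eq_zero.1 h3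
  · rw [hk0 hlt, ← sub_eq_zero]; exact h3

/-- The image `U` of the associated form map is cut out in its closure by one homogeneous
`SL_n`-invariant. -/
theorem main_theorem (n d : ℕ) (hn : 2 ≤ n) (hd : 3 ≤ d) :
    ∃ (k : ℕ) (J : MvPolynomial (Mon n (n * (d - 2))) ℂ), 0 < k ∧ J.IsHomogeneous k ∧
      (∀ A : Matrix (Fin n) (Fin n) ℂ, A.det = 1 → ∀ F : MvPolynomial (Fin n) ℂ,
        F.IsHomogeneous (n * (d - 2)) → evalForm J (subst A F) = evalForm J F) ∧
      ∃ P : Set (MvPolynomial (Mon n (n * (d - 2))) ℂ),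
        ∀ F : MvPolynomial (Fin n) ℂ, F.IsHomogeneous (n * (d - 2)) →
          (F ∈ U n (d - 1) ↔ evalForm J F ≠ 0 ∧ ∀ p ∈ P, evalForm p F = 0) := by
  obtain ⟨δ, rfl⟩ : ∃ δ, d = δ + 1 := ⟨d - 1, by omega⟩
  have hδ : 2 ≤ δ := by omega
  have e1 : δ + 1 - 2 = δ - 1 := by omega
  rw [e1, Nat.add_sub_cancel]
  have hn1 : 1 ≤ n := by omega
  have hδ1 : 1 ≤ δ := by omega
  obtain ⟨m, J0, hm, hJ1, hJ2⟩ := descent hn hδ
  have hs1 : 1 ≤ n * (δ - 1) := by
    have : 1 ≤ δ - 1 := by omega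
    calc 1 = 1 * 1 := rfl
      _ ≤ n * (δ - 1) := Nat.mul_le_mul hn1 this
  set J1 := scal n (n * (δ - 1)) J0 with hJ1def
  have key1 : ∀ F f ω, IsSocle δ f ω →
      (∀ α : Mon n (n * (δ - 1)), coeff α.1 F = mc α.1 * ω (monomial α.1 1)) →
      evalForm J1 F * Res δ f ^ m = 1 := by
    intro F f ω hω hF
    rw [hJ1def, evalForm_scal_socle J0 hF]
    exact hJ1 f ω hω
  set w0 := δ ^ (n - 1) * (δ - 1) * m with hw0
  set k0 := δ ^ (n - 1) * m with hk0
  -- semi-invariance of `J1` on `U`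
  have hsemi1 : ∀ F ∈ U n δ, ∀ A : Matrix (Fin n) (Fin n) ℂ, A.det ≠ 0 →
      subst A F ∈ U n δ ∧ evalForm J1 (subst A F) = A.det ^ w0 * evalForm J1 F := by
    intro F hF A hA
    obtain ⟨hFh, f, ω, hω, hFω⟩ := mem_U.1 hF
    obtain ⟨f', ω', hω', hF', hR, hR0⟩ := U_subst hn1 hδ1 hFh hω hFω A hA
    refine ⟨mem_U.2 ⟨subst_homogeneous A hFh, f', ω', hω', hF'⟩, ?_⟩
    have h1 := key1 F f ω hω hFω
    have h2 := key1 _ f' ω' hω' hF'
    have h3 : Res δ f' ^ m ≠ 0 := right_ne_zero_of_mul_eq_one h2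
    rw [← hR, mul_pow, ← pow_mul] at h1
    apply mul_right_cancel₀ h3
    rw [h2, ← h1]; ring
  set J2 := homogeneousComponent k0 J1 with hJ2def
  have hJ2hom : J2.IsHomogeneous k0 := homogeneousComponent_isHomogeneous _ _
  have key2 : ∀ F ∈ U n δ, evalForm J2 F = evalForm J1 F := by
    intro F hF
    have hFh := (mem_U.1 hF).1
    refine comp_of_scaling (k0 := k0) (N := J1.totalDegree + 1)
      (fun k => evalForm (homogeneousComponent k J1) F) (evalForm J1 F) ?_ ?_
    · intro h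
      have h1 : homogeneousComponent k0 J1 = 0 := homogeneousComponent_eq_zero _ _ (by omega)
      show evalForm (homogeneousComponent k0 J1) F = 0
      rw [h1, evalForm, map_zero]
    · intro y hy
      obtain ⟨c, hc⟩ := IsAlgClosed.exists_pow_nat_eq y (n := n * (δ - 1)) (by omega)
      have hc0 : c ≠ 0 := by
        rintro rfl
        rw [zero_pow (by omega)] at hc
        exact hy hc.symm
      have hdet : (c • (1 : Matrix (Fin n) (Fin n) ℂ)).det = c ^ n := by
        rw [Matrix.det_smul, Matrix.det_one, mul_one, Fintype.card_fin]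
      have h1 := (hsemi1 F hF (c • (1 : Matrix (Fin n) (Fin n) ℂ))
        (by rw [hdet]; exact pow_ne_zero _ hc0)).2
      rw [subst_scalar hFh, hdet] at h1
      have h2 : (c ^ n) ^ w0 = y ^ k0 := by
        rw [← hc, ← pow_mul, ← pow_mul, hw0, hk0]
        congr 1; ring
      rw [hc, h2] at h1
      rw [← h1]
      have h3 : evalForm J1 (y • F) = ∑ k ∈ Finset.range (J1.totalDegree + 1),
          evalForm (homogeneousComponent k J1) (y • F) := by
        conv_lhs => rw [← sum_homogeneousComponent J1]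
        rw [evalForm, map_sum]; rfl
      rw [h3]
      exact Finset.sum_congr rfl fun k _ =>
        (evalForm_C_smul (homogeneousComponent_isHomogeneous k J1) y F).symm
  have hsemi2 : ∀ F ∈ U n δ, ∀ A : Matrix (Fin n) (Fin n) ℂ, A.det ≠ 0 →
      evalForm J2 (subst A F) = A.det ^ w0 * evalForm J2 F := by
    intro F hF A hA
    obtain ⟨h1, h2⟩ := hsemi1 F hF A hA
    rw [key2 _ h1, key2 F hF, h2]
  obtain ⟨J, hJhom, hJinv, hJU⟩ := exists_invariant hn1
    (show k0 * (n * (δ - 1)) = n * w0 by rw [hk0, hw0]; ring) (U n δ)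
    (fun F hF => (mem_U.1 hF).1) J2 hJ2hom hsemi2
  have hJJ1 : ∀ F ∈ U n δ, evalForm J F = evalForm J1 F := fun F hF => by
    rw [hJU F hF, key2 F hF]
  have hk0pos : 0 < k0 := Nat.mul_pos (pow_pos hδ1 _) hm
  refine ⟨k0, J, hk0pos, hJhom, hJinv, {p | ∀ F ∈ U n δ, evalForm p F = 0}, ?_⟩
  intro F hF
  constructor
  · intro hFU
    refine ⟨?_, fun p hp => hp F hFU⟩
    obtain ⟨_, f, ω, hω, hFω⟩ := mem_U.1 hFU
    rw [hJJ1 F hFU]
    exact left_ne_zero_of_mul_eq_one (key1 F f ω hω hFω)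
  · rintro ⟨hne, hP⟩
    have h1 : evalForm (J - J1) F = 0 := by
      apply hP
      intro F' hF'
      have := hJJ1 F' hF'
      rw [evalForm, map_sub]
      exact sub_eq_zero.2 this
    have h2 : evalForm J1 F ≠ 0 := by
      intro h
      apply hne
      rw [evalForm, map_sub] at h1
      have h3 : evalForm J F = evalForm J1 F := sub_eq_zero.1 h1
      rw [h3, h]
    rw [hJ1def, evalForm_scal] at h2
    obtain ⟨f, ω, hω, hφ⟩ := hJ2 _ h2 (by
      intro p hp
      rw [← evalForm_scal]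
      apply hP
      intro F' hF'
      obtain ⟨_, f, ω, hω, hFω⟩ := mem_U.1 hF'
      rw [evalForm_scal_socle p hFω]
      exact hp f ω hω)
    refine mem_U.2 ⟨hF, f, ω, hω, fun α => ?_⟩
    rw [hφ α, ← mul_assoc, mul_inv_cancel₀ (mc_ne _), one_mul]

end AF23
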